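import Pool.Agent.N783.PF.Loc
import Pool.Agent.N874.QM.Stm

/-!
# Project PR (helper68): every 2-Selmer rank occurs for a positive proportion of the elliptic curves
# over every number field. Statements of the parts.

`g = 1` throughout: `f = X ^ 3 + A X + B` over `𝓞 F`, `L = F(θ)`. The definitions are those of project
PF (`N783/PF/Def.lean`, `Lat.lean`, `Loc.lean`), `Ev`, `Sq1`, `U0` are in `N874/PP/Def.lean`, `LocF` is
in `N874/JM/Stm.lean`, `LocIm` in `N783/PQ/Loc.lean`.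
-/

set_option autoImplicit false
set_option linter.all false

open Polynomial IsDedekindDomain Matrix NumberField WithZero
open scoped Classical

namespace Pool.Agent.H68K.PR

open Pool.Agent.N352.PJ (Mt Typ dd)
open Pool.Agent.N874.PP (Ev Sq1 U0)
open Pool.Agent.N783.PQ (LocIm)
open Pool.Agent.N874.JM (LocF)
open Pool.Agent.N874.PM (PLoc)
open Pool.Agent.N783.PF

/-! ### COMB: linear algebra over the field with two elements

`Λ` is a maximal isotropic subgroup of an orthogonal sum of hyperbolic planes, indexed by `ι`, with the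
form `∑ a_q b_q`, without elements of small support. Then some `J` exists for which the intersection with
the product of the lines `b_q = 0` (`q ∈ J`) and `a_q = 0` (`q ∉ J`) has exactly `2 ^ D` elements. -/
def S_COMB : Prop := ∀ D : ℕ, ∃ k₀ : ℕ, ∀ (ι : Type) [Fintype ι] (Λ : AddSubgroup (ι → ZMod 2 × ZMod 2)),
  k₀ ≤ Fintype.card ι → (∀ l ∈ Λ, ∑ q, (l q).1 * (l q).2 = 0) →
  2 ^ Fintype.card ι ≤ Nat.card Λ →
  (∀ l ∈ Λ, l ≠ 0 → Fintype.card ι ≤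
    Nat.log 2 (Fintype.card ι) ^ 2 * (Finset.univ.filter fun q => l q ≠ 0).card) →
  ∃ J : Finset ι, Nat.card {l : ι → ZMod 2 × ZMod 2 // l ∈ Λ ∧ (∀ q ∈ J, (l q).2 = 0) ∧
    ∀ q ∉ J, (l q).1 = 0} = 2 ^ D

/-! ### EXG: many small primes -/

/-- As `S_EXS`, with primes which are small compared with their number. -/
def S_EXG : Prop := ∀ (F : Type) [Field F] [NumberField F] (W : ℕ), ∀ m : ℕ,
  ∃ (S : Finset ℕ) (𝔮 : ℕ → Ideal (𝓞 F)) (h P : ℕ → (𝓞 F)[X]),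
    GoodS 1 W S 𝔮 h P ∧ m ≤ S.card ∧ ∀ q ∈ S, q ≤ S.card ^ 3

/-! ### UNI: square classes of units outside a finite set -/

/-- `L / F` of odd degree, `T` a finite set of primes of `L` whose norms are squares: there are at least
`2 ^ (|T| + r_L - r_F)` classes of square norm with even valuations outside `T`. -/
def S_UNI : Prop := ∀ (F L : Type) [Field F] [NumberField F] [Field L] [NumberField L] [Algebra F L],
  Odd (Module.finrank F L) → ∀ T : Finset (HeightOneSpectrum (𝓞 L)),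
  (∀ 𝔔 ∈ T, ∃ I : Ideal (𝓞 F), Ideal.relNorm (𝓞 F) 𝔔.asIdeal = I ^ 2) →
  ∃ A : Finset L, 2 ^ (T.card + Fintype.card (InfinitePlace L)) ≤
      A.card * 2 ^ Fintype.card (InfinitePlace F) ∧
    (∀ α ∈ A, α ≠ 0 ∧ IsSquare (Algebra.norm F α) ∧ ∀ 𝔓 ∉ T, Ev 𝔓 α) ∧
    ∀ α ∈ A, ∀ β ∈ A, IsSquare (α * β) → α = β

/-- The big prime over `𝔮 q` has square norm. -/
def S_RNQ : Prop := ∀ (W : ℕ) (F L : Type) [Field F] [NumberField F] [Field L] [NumberField L]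
  [Algebra F L] (f : (𝓞 F)[X]) (θ : L) (S : Finset ℕ) (𝔮 : ℕ → Ideal (𝓞 F))
  (r P : ℕ → (𝓞 F)[X]), IsGen 1 f θ → SqF 1 f → GoodS 1 W S 𝔮 r P →
  ∀ q ∈ S, Cg (sp F q) f (P q) → ∀ 𝔔 : HeightOneSpectrum (𝓞 L), Ov (𝔮 q) 𝔔 →
  𝔔.valuation L θ = 1 → ∃ I : Ideal (𝓞 F), Ideal.relNorm (𝓞 F) 𝔔.asIdeal = I ^ 2

/-! ### The index of the local conditions at 2 and at the real places -/

/-- The local index at a prime `w` over 2 (`w ^ e` exactly divides 2). -/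
def S_TWOI : Prop := ∀ (F L : Type) [Field F] [NumberField F] [Field L] [NumberField L]
  [Algebra F L] (f : (𝓞 F)[X]) (θ : L), IsGen 1 f θ → f.coeff 2 = 0 →
  ∀ w : HeightOneSpectrum (𝓞 F), (2 : 𝓞 F) ∈ w.asIdeal → Irreducible (rd w.asIdeal f) →
  ∀ e : ℕ, w.valuation F (2 : F) = WithZero.exp (-(e : ℤ)) →
  ∃ C : Finset L, C.card ≤ Ideal.absNorm w.asIdeal ^ e ∧
    (∀ c ∈ C, c ≠ 0 ∧ IsSquare (Algebra.norm F c)) ∧
    ∀ α : L, α ≠ 0 → IsSquare (Algebra.norm F α) → ∃ c ∈ C, ∀ h : F[X], aeval θ h = α * c →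
      LocF (w.adicCompletion F) (fF f) h

/-- The index at the real places and the number of the infinite places of `L`. -/
def S_REAL : Prop := ∀ (F L : Type) [Field F] [NumberField F] [Field L] [NumberField L]
  [Algebra F L] (f : (𝓞 F)[X]) (θ : L), IsGen 1 f θ → f.coeff 2 = 0 →
  ∃ C : (F →+* ℝ) → Finset L,
    (∏ σ : F →+* ℝ, (C σ).card) * 2 ^ (Module.finrank ℚ F + Fintype.card (InfinitePlace F)) ≤
      2 ^ Fintype.card (InfinitePlace L) ∧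
    ∀ σ : F →+* ℝ, (∀ c ∈ C σ, c ≠ 0 ∧ IsSquare (Algebra.norm F c)) ∧
    ∀ α : L, α ≠ 0 → IsSquare (Algebra.norm F α) → ∃ c ∈ C σ, ∀ h : F[X], aeval θ h = α * c →
      LocIm ℝ ((fF f).map σ) (h.map σ)

/-! ### Local points at the odd primes -/

/-- Over a finite field of odd characteristic: every class of square norm comes from a point. -/
def S_FF : Prop := ∀ (k : Type) [Field k] [Finite k], (2 : k) ≠ 0 → ∀ f h : k[X], f.Monic →
  f.natDegree = 3 → f.coeff 2 = 0 → (¬ ∃ a : k, f = (X - C a) ^ 3) → IsCoprime h f →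
  IsSquare (Algebra.norm k (AdjoinRoot.mk f h)) →
  (∃ s : k[X], f ∣ h - s ^ 2) ∨
  (∃ (x y : k) (s : k[X]), y ≠ 0 ∧ y ^ 2 = f.eval x ∧ f ∣ h * (C x - X) - s ^ 2) ∨
  ∃ (r : k) (u s : k[X]), f = (X - C r) * u ∧ u.eval r ≠ 0 ∧ f ∣ h * (C r - X + u) - s ^ 2

/-- Odd primes which do not divide `D`: classes with even valuations are in the local image for the
twist by `D`. -/
def S_ODD : Prop := ∀ (F L : Type) [Field F] [NumberField F] [Field L] [NumberField L]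
  [Algebra F L] (f : (𝓞 F)[X]) (θ : L), IsGen 1 f θ → SqF 1 f → f.coeff 2 = 0 →
  ∀ w : HeightOneSpectrum (𝓞 F), (2 : 𝓞 F) ∉ w.asIdeal → ∀ (D : ℕ), (D : 𝓞 F) ∉ w.asIdeal →
  ∀ h : F[X], aeval ((D : L) * θ) h ≠ 0 → IsSquare (Algebra.norm F (aeval ((D : L) * θ) h)) →
    (∀ 𝔓 : HeightOneSpectrum (𝓞 L), Ov w.asIdeal 𝔓 → Ev 𝔓 (aeval ((D : L) * θ) h)) →
    PLoc (w.adicCompletion F) ((f.coeff 1 : F) * (D : F) ^ 2) ((f.coeff 0 : F) * (D : F) ^ 3) h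

/-- The primes over `q ∈ J`. -/
def S_SQJ : Prop := ∀ (W : ℕ) (F L : Type) [Field F] [NumberField F] [Field L] [NumberField L]
  [Algebra F L] (f : (𝓞 F)[X]) (θ : L) (S J : Finset ℕ) (𝔮 : ℕ → Ideal (𝓞 F))
  (r P : ℕ → (𝓞 F)[X]), IsGen 1 f θ → SqF 1 f → f.coeff 2 = 0 → GoodS 1 W S 𝔮 r P →
  (∀ q ∈ S, Cg (sp F q) f (P q)) → J ⊆ S → ∀ q ∈ J,
  ∀ h : F[X], aeval ((Dp J : L) * θ) h ≠ 0 → IsSquare (Algebra.norm F (aeval ((Dp J : L) * θ) h)) →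
    (∀ 𝔓 : HeightOneSpectrum (𝓞 L), (q : 𝓞 L) ∈ 𝔓.asIdeal →
      (Ov (𝔮 q) 𝔓 → 𝔓.valuation L θ ≠ 1) → Ev 𝔓 (aeval ((Dp J : L) * θ) h)) →
    (∀ 𝔓 : HeightOneSpectrum (𝓞 L), Ov (𝔮 q) 𝔓 → 𝔓.valuation L θ = 1 →
      U0 𝔓 ((q : L) * θ) (aeval ((Dp J : L) * θ) h)) →
    ∀ w : HeightOneSpectrum (𝓞 F), (q : 𝓞 F) ∈ w.asIdeal →
      PLoc (w.adicCompletion F) ((f.coeff 1 : F) * (Dp J : F) ^ 2)
        ((f.coeff 0 : F) * (Dp J : F) ^ 3) h

/-- Twisting by a square over any field does not change the local image. -/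
def S_TWS : Prop := ∀ (M K : Type) [Field M] [Field K] [CharZero K] [Algebra M K] (A B D : M)
  (h : M[X]), D ≠ 0 → IsSquare (algebraMap M K D) → PLoc K A B (h.comp (C D * X)) →
  PLoc K (A * D ^ 2) (B * D ^ 3) h

/-- One point suffices, if `f` is irreducible or the field is `ℝ`. -/
def S_CNT : Prop := ∀ (M K : Type) [Field M] [Field K] [CharZero K] [Algebra M K] (A B : M)
  (h : M[X]), 4 * A ^ 3 + 27 * B ^ 2 ≠ 0 →
  (Irreducible (X ^ 3 + C (algebraMap M K A) * X + C (algebraMap M K B) : K[X]) ∨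
    Nonempty (K ≃+* ℝ)) →
  LocF K (X ^ 3 + C A * X + C B) h → PLoc K A B h

/-! ### BIG: the relaxed Selmer group is big -/

/-- The relaxed Selmer group. -/
structure InM {F L : Type} [Field F] [NumberField F] [Field L] [NumberField L] [Algebra F L]
    (f : (𝓞 F)[X]) (θ : L) (S : Finset ℕ) (𝔔 : ℕ → HeightOneSpectrum (𝓞 L)) (α : L) : Prop where
  ne : α ≠ 0
  nsq : IsSquare (Algebra.norm F α)
  ev : ∀ 𝔓 : HeightOneSpectrum (𝓞 L), (∀ q ∈ S, 𝔓 ≠ 𝔔 q) → Ev 𝔓 α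
  loc : ∃ h₀ : F[X], aeval θ h₀ = α ∧ (∀ w : HeightOneSpectrum (𝓞 F), (2 : 𝓞 F) ∈ w.asIdeal →
      LocF (w.adicCompletion F) (fF f) h₀) ∧
    ∀ σ : F →+* ℝ, LocIm ℝ ((fF f).map σ) (h₀.map σ)

def S_BIG (F : Type) [Field F] [NumberField F] : Prop := ∀ (W : ℕ) (L : Type) [Field L]
  [NumberField L] [Algebra F L] (f f₁ : (𝓞 F)[X]) (θ : L) (S : Finset ℕ) (𝔮 : ℕ → Ideal (𝓞 F))
  (r P : ℕ → (𝓞 F)[X]), IsGen 1 f θ → SqF 1 f → f.coeff 2 = 0 → GoodF 1 W f₁ →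
  GoodS 1 W S 𝔮 r P → Cg (sp F W) f f₁ → (∀ q ∈ S, Cg (sp F q) f (P q)) →
  ∀ 𝔔 : ℕ → HeightOneSpectrum (𝓞 L), (∀ q ∈ S, Ov (𝔮 q) (𝔔 q) ∧ (𝔔 q).valuation L θ = 1) →
  ∃ A : Finset L, 2 ^ S.card ≤ A.card ∧ (∀ α ∈ A, InM f θ S 𝔔 α) ∧
    ∀ α ∈ A, ∀ β ∈ A, IsSquare (α * β) → α = β

end Pool.Agent.H68K.PR
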