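import Pool.Agent.H68K.PR.Stm

/-!
# Project PR (helper68): counting of pairs of symmetric matrices, with ramified classes
-/

set_option autoImplicit false
set_option linter.all false

open Polynomial IsDedekindDomain Matrix NumberField WithZero
open scoped Classical

namespace Pool.Agent.H68K.PR

open Pool.Agent.N352.PJ (Mt Typ dd)
open Pool.Agent.N783.PQ (chp form Dist Gap Mid Deep eA eB eU uu)
open Pool.Agent.N874.PP (Ev Sq1 U0)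
open Pool.Agent.N783.PF

section fld

variable {F : Type} [Field F] [NumberField F]

/-- As `Xset` of project PF, but the conditions at `q` are imposed only if the determinant of `A` is
prime to `q`. -/
structure XsetQ (g N c : ℕ) (w : Fin (2 * g + 1) → ℤ) (S : Finset ℕ) (𝔮 : ℕ → Ideal (𝓞 F))
    (P : ℕ → (𝓞 F)[X]) (A B : Mt g (𝓞 F)) : Prop where
  box : Box g N c w A B
  con : ∀ q ∈ S, (∀ 𝔭 : Ideal (𝓞 F), 𝔭.IsPrime → (q : 𝓞 F) ∈ 𝔭 → A.det ∉ 𝔭) →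
    ∀ 𝔭 : Ideal (𝓞 F), 𝔭.IsPrime → (q : 𝓞 F) ∈ 𝔭 → chp (rm 𝔭 A) (rm 𝔭 B) = rd 𝔭 (P q)
  dist : ∀ q ∈ S, (∀ 𝔭 : Ideal (𝓞 F), 𝔭.IsPrime → (q : 𝓞 F) ∈ 𝔭 → A.det ∉ 𝔭) →
    Dist (rm (𝔮 q) A) (rm (𝔮 q) B)

/-- The polynomial `f` is irreducible and comes from a pair. -/
def LBadQ (g N c : ℕ) (S : Finset ℕ) (𝔮 : ℕ → Ideal (𝓞 F)) (P : ℕ → (𝓞 F)[X])
    (f : (𝓞 F)[X]) : Prop :=
  Irreducible (fF f) ∧ ∃ w, Typ g w ∧ Gap g N w ∧ Mid g N w ∧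
    ∃ A B : Mt g (𝓞 F), XsetQ g N c w S 𝔮 P A B ∧ chp (mF A) (mF B) = fF f

end fld

/-- BADQ: few bad polynomials; the constant is explicit in `c` and no condition relates `c` and `W`.
(Compare `S_BAD` of project PF, files `N134/PF/Bad.lean`, `N456/PF/Pb.lean`, `N999/PF/Orb.lean`.) -/
def S_BADQ : Prop := ∀ (F : Type) [Field F] [NumberField F] (g : ℕ), 1 ≤ g → ∃ C β K : ℕ,
  ∀ (c W : ℕ) (S : Finset ℕ) (𝔮 : ℕ → Ideal (𝓞 F)) (h P : ℕ → (𝓞 F)[X]), K ≤ W →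
  GoodS g W S 𝔮 h P → ∃ N₀ : ℕ, ∀ N ≥ N₀, {f : (𝓞 F)[X] | LBadQ g N c S 𝔮 P f}.Finite ∧
  2 ^ S.card * (∏ q ∈ S, q ^ (2 * g)) ^ Module.finrank ℚ F *
      {f : (𝓞 F)[X] | LBadQ g N c S 𝔮 P f}.ncard ≤
    2 ^ (C + β * c) * 2 ^ (Module.finrank ℚ F * (2 * N * dd g))

/-- LBQ: from a class ramified at most at the big primes over `Q` and trivial over `S \ Q` to a
bad polynomial. -/
def S_LBQ : Prop := ∀ (g : ℕ) (F : Type) [Field F] [NumberField F], 1 ≤ g → ∃ κ β : ℕ,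
  ∀ (L : Type) [Field L] [NumberField L] [Algebra F L] (f : (𝓞 F)[X]) (θ : L) (B N W l : ℕ)
  (S Q : Finset ℕ) (𝔮 : ℕ → Ideal (𝓞 F)) (h P : ℕ → (𝓞 F)[X]), κ ≤ W → GoodS g W S 𝔮 h P →
  IsGen g f θ → SqF g f → Ht g B f → 2 ^ (κ + β * l) * B ≤ 4 ^ N →
  (∀ q ∈ S, Cg (sp F q) f (P q)) → Q ⊆ S → ∏ q ∈ Q, q ≤ 2 ^ l →
  ∀ α : L, α ≠ 0 → IsSquare (Algebra.norm F α) → ¬ IsSquare α →
  (∀ 𝔓 : HeightOneSpectrum (𝓞 L), (∀ q ∈ Q, Ov (𝔮 q) 𝔓 → 𝔓.valuation L θ ≠ 1) → Ev 𝔓 α) →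
  (∀ q ∈ S \ Q, ∀ 𝔓 : HeightOneSpectrum (𝓞 L), Ov (𝔮 q) 𝔓 → Sq1 𝔓 α) →
  LBadQ g N (κ + β * l) (S \ Q) 𝔮 P f

end Pool.Agent.H68K.PR
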