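import Pool.Agent.H68K.PR.StmH
import Pool.Agent.H68K.PR.StmL

/-!
# Project PR (helper68): statement of the core
-/

set_option autoImplicit false
set_option linter.all false

open Polynomial IsDedekindDomain Matrix NumberField WithZero
open scoped Classical

namespace Pool.Agent.H68K.PR

open Pool.Agent.N874.PP (Ev Sq1 U0)
open Pool.Agent.N783.PF

/-- The core: if no nontrivial class is ramified only at few of the primes in `S` and trivial at the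
others, then a twist has a 2-Selmer group of order `2 ^ D`. -/
def S_CORE2 : Prop := ∀ D : ℕ, ∃ k₀ : ℕ, ∀ (W : ℕ) (F L : Type) [Field F] [NumberField F] [Field L]
  [NumberField L] [Algebra F L] (f f₁ : (𝓞 F)[X]) (θ : L) (S : Finset ℕ) (𝔮 : ℕ → Ideal (𝓞 F))
  (r P : ℕ → (𝓞 F)[X]), IsGen 1 f θ → SqF 1 f → f.coeff 2 = 0 → GoodF 1 W f₁ →
  GoodS 1 W S 𝔮 r P → Cg (sp F W) f f₁ → (∀ q ∈ S, Cg (sp F q) f (P q)) → k₀ ≤ S.card →
  (∀ Q ⊆ S, Nat.log 2 S.card ^ 2 * Q.card < S.card → ∀ α : L, α ≠ 0 →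
    IsSquare (Algebra.norm F α) →
    (∀ 𝔓 : HeightOneSpectrum (𝓞 L), (∀ q ∈ Q, Ov (𝔮 q) 𝔓 → 𝔓.valuation L θ ≠ 1) → Ev 𝔓 α) →
    (∀ q ∈ S \ Q, ∀ 𝔓 : HeightOneSpectrum (𝓞 L), Ov (𝔮 q) 𝔓 → Sq1 𝔓 α) → IsSquare α) →
  ∃ J ⊆ S, Gd (2 ^ D) (f.coeff 1 * (Dp J : 𝓞 F) ^ 2, f.coeff 0 * (Dp J : 𝓞 F) ^ 3)

/-- The count: a positive proportion in balanced boxes. -/
def S_CNTB : Prop := ∀ (F : Type) [Field F] [NumberField F] (d : ℕ), Bal F (2 ^ d)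

end Pool.Agent.H68K.PR
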