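import Pool.Agent.H68K.PR.StmP
import Pool.Agent.H68K.PR.StmK

/-!
# Project PR, phase 2 (helper68): the Poonen-Rains law along random twists. Number theoretic parts.

The genus is one throughout.
-/

set_option autoImplicit false
set_option linter.all false

open Polynomial IsDedekindDomain Matrix NumberField WithZero
open scoped Classical

namespace Pool.Agent.H68K.PR

open Pool.Agent.N352.PJ (Mt Typ dd)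
open Pool.Agent.N783.PQ (chp form Dist Gap Mid Deep eA eB eU uu)
open Pool.Agent.N874.PP (Ev Sq1 U0 sW)
open Pool.Agent.N783.PF

/-! ### Counting of pairs of symmetric matrices -/

/-- CQN: over a finite field, symmetric matrices `B` which are not distinguished with respect to `A`,
with given characteristic polynomial `x h(x)`. (Compare `S_CQA` in `N783/PF/Def.lean`, proved in
`N42/PF/CQ.lean`, `N456/PQ`.) -/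
def S_CQN : Prop := ∀ (κ : Type) [Field κ] [Finite κ], (2 : κ) ≠ 0 →
  ∀ h : κ[X], h.Monic → Irreducible h → h.natDegree = 2 → ∀ A : Mt 1 κ, A.IsSymm →
  (∃ x : κ, x ≠ 0 ∧ A.det = (-1) ^ 1 * x ^ 2) →
  2 * Nat.card {B : Mt 1 κ // B.IsSymm ∧ chp A B = X * h ∧ ¬ Dist A B} ≤ Nat.card κ ^ 3

section fld

variable {F : Type} [Field F] [NumberField F]

/-- As `XsetQ`, but distinguished at `q ∈ Z` and not distinguished at `q ∈ U`. -/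
structure XsetT (N c : ℕ) (w : Fin (2 * 1 + 1) → ℤ) (S Z U : Finset ℕ) (𝔮 : ℕ → Ideal (𝓞 F))
    (P : ℕ → (𝓞 F)[X]) (A B : Mt 1 (𝓞 F)) : Prop where
  box : Box 1 N c w A B
  con : ∀ q ∈ S, (∀ 𝔭 : Ideal (𝓞 F), 𝔭.IsPrime → (q : 𝓞 F) ∈ 𝔭 → A.det ∉ 𝔭) →
    ∀ 𝔭 : Ideal (𝓞 F), 𝔭.IsPrime → (q : 𝓞 F) ∈ 𝔭 → chp (rm 𝔭 A) (rm 𝔭 B) = rd 𝔭 (P q)
  dist : ∀ q ∈ Z, (∀ 𝔭 : Ideal (𝓞 F), 𝔭.IsPrime → (q : 𝓞 F) ∈ 𝔭 → A.det ∉ 𝔭) →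
    Dist (rm (𝔮 q) A) (rm (𝔮 q) B)
  ndist : ∀ q ∈ U, (∀ 𝔭 : Ideal (𝓞 F), 𝔭.IsPrime → (q : 𝓞 F) ∈ 𝔭 → A.det ∉ 𝔭) →
    ¬ Dist (rm (𝔮 q) A) (rm (𝔮 q) B)

/-- The polynomial `f` is irreducible and comes from a pair. -/
def LBadT (N c : ℕ) (S Z U : Finset ℕ) (𝔮 : ℕ → Ideal (𝓞 F)) (P : ℕ → (𝓞 F)[X])
    (f : (𝓞 F)[X]) : Prop :=
  Irreducible (fF f) ∧ ∃ w, Typ 1 w ∧ Gap 1 N w ∧ Mid 1 N w ∧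
    ∃ A B : Mt 1 (𝓞 F), XsetT N c w S Z U 𝔮 P A B ∧ chp (mF A) (mF B) = fF f

end fld

/-- BADT: few bad polynomials. (As `S_BADQ`, files `H93PR/Badq1.lean` to `Badq3.lean`.) -/
def S_BADT : Prop := ∀ (F : Type) [Field F] [NumberField F], ∃ C β K : ℕ,
  ∀ (c W : ℕ) (S Z U : Finset ℕ) (𝔮 : ℕ → Ideal (𝓞 F)) (h P : ℕ → (𝓞 F)[X]), K ≤ W →
  GoodS 1 W S 𝔮 h P → Z ⊆ S → U ⊆ S → Disjoint Z U → ∃ N₀ : ℕ, ∀ N ≥ N₀,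
  {f : (𝓞 F)[X] | LBadT N c S Z U 𝔮 P f}.Finite ∧
  2 ^ (Z.card + U.card) * (∏ q ∈ S, q ^ 2) ^ Module.finrank ℚ F *
      {f : (𝓞 F)[X] | LBadT N c S Z U 𝔮 P f}.ncard ≤
    2 ^ (C + β * c) * 2 ^ (Module.finrank ℚ F * (2 * N * 5))

/-- LBT: from a class ramified at most at the big primes over `Q`, trivial over `Z` and nontrivial
over `U` to a bad polynomial. -/
def S_LBT : Prop := ∀ (F : Type) [Field F] [NumberField F], ∃ κ β : ℕ,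
  ∀ (L : Type) [Field L] [NumberField L] [Algebra F L] (f : (𝓞 F)[X]) (θ : L) (B N W l : ℕ)
  (S Q Z U : Finset ℕ) (𝔮 : ℕ → Ideal (𝓞 F)) (h P : ℕ → (𝓞 F)[X]), κ ≤ W → GoodS 1 W S 𝔮 h P →
  IsGen 1 f θ → SqF 1 f → Ht 1 B f → 2 ^ (κ + β * l) * B ≤ 4 ^ N →
  (∀ q ∈ S, Cg (sp F q) f (P q)) → Q ⊆ S → Z ⊆ S \ Q → U ⊆ S \ Q → ∏ q ∈ Q, q ≤ 2 ^ l →
  ∀ α : L, α ≠ 0 → IsSquare (Algebra.norm F α) → ¬ IsSquare α →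
  (∀ 𝔓 : HeightOneSpectrum (𝓞 L), (∀ q ∈ Q, Ov (𝔮 q) 𝔓 → 𝔓.valuation L θ ≠ 1) → Ev 𝔓 α) →
  (∀ q ∈ Z, ∀ 𝔓 : HeightOneSpectrum (𝓞 L), Ov (𝔮 q) 𝔓 → Sq1 𝔓 α) →
  (∀ q ∈ U, ∃ 𝔓 : HeightOneSpectrum (𝓞 L), Ov (𝔮 q) 𝔓 ∧ ¬ Sq1 𝔓 α) →
  LBadT N (κ + β * l) (S \ Q) Z U 𝔮 P f

/-! ### The core -/

/-- The twist by `Dp J`. -/
noncomputable def twp {F : Type} [Field F] [NumberField F] (J : Finset ℕ) (p : 𝓞 F × 𝓞 F) :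
    𝓞 F × 𝓞 F :=
  (p.1 * (Dp J : 𝓞 F) ^ 2, p.2 * (Dp J : 𝓞 F) ^ 3)

/-- CORE3: the relaxed Selmer group as a maximal isotropic subgroup. -/
def S_CORE3 : Prop := ∀ (W : ℕ) (F L : Type) [Field F] [NumberField F] [Field L]
  [NumberField L] [Algebra F L] (f f₁ : (𝓞 F)[X]) (θ : L) (S : Finset ℕ) (𝔮 : ℕ → Ideal (𝓞 F))
  (r P : ℕ → (𝓞 F)[X]), IsGen 1 f θ → SqF 1 f → f.coeff 2 = 0 → GoodF 1 W f₁ →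
  GoodS 1 W S 𝔮 r P → Cg (sp F W) f f₁ → (∀ q ∈ S, Cg (sp F q) f (P q)) →
  (∀ α : L, α ≠ 0 → IsSquare (Algebra.norm F α) → (∀ 𝔓 : HeightOneSpectrum (𝓞 L), Ev 𝔓 α) →
    (∀ q ∈ S, ∀ 𝔓 : HeightOneSpectrum (𝓞 L), Ov (𝔮 q) 𝔓 → Sq1 𝔓 α) → IsSquare α) →
  ∃ Λ : AddSubgroup (S → ZMod 2 × ZMod 2), (∀ l ∈ Λ, ∑ q, (l q).1 * (l q).2 = 0) ∧
    2 ^ S.card ≤ Nat.card Λ ∧
    (∀ J : Finset S, Gd (Nat.card (LJ Λ J))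
      (twp (J.map (Function.Embedding.subtype _)) (f.coeff 1, f.coeff 0))) ∧
    ∀ (J : Finset S), ∀ l ∈ LJ Λ J, l ≠ 0 → ∃ α : L, α ≠ 0 ∧ IsSquare (Algebra.norm F α) ∧
      ¬ IsSquare α ∧
      (∀ 𝔓 : HeightOneSpectrum (𝓞 L), (∀ q : S, q ∈ J → l q ≠ 0 → Ov (𝔮 q) 𝔓 →
        𝔓.valuation L θ ≠ 1) → Ev 𝔓 α) ∧
      (∀ q : S, l q = 0 → ∀ 𝔓 : HeightOneSpectrum (𝓞 L), Ov (𝔮 q) 𝔓 → Sq1 𝔓 α) ∧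
      ∀ q : S, q ∉ J → l q ≠ 0 → ∃ 𝔓 : HeightOneSpectrum (𝓞 L), Ov (𝔮 q) 𝔓 ∧ ¬ Sq1 𝔓 α

/-! ### The family -/

/-- Multiplication by a unit: `(a, b) ↦ (u ^ 4 a, u ^ 6 b)`. -/
noncomputable def scl {F : Type} [Field F] [NumberField F] (u : (𝓞 F)ˣ) (f : (𝓞 F)[X]) : (𝓞 F)[X] :=
  f.scaleRoots ((u : 𝓞 F) ^ 2)

/-- FAMU: as `S_FAM` (proved in `N951/PF`, `N352/PF/All.lean`), for all unit multiples of `f₁`. -/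
def S_FAMU : Prop := ∀ (F : Type) [Field F] [NumberField F], ∀ K : ℕ, ∃ (W : ℕ) (f₁ : (𝓞 F)[X]),
  K ≤ W ∧ ∃ c : ℝ, 0 < c ∧ ∀ u : (𝓞 F)ˣ, GoodF 1 W (scl u f₁) ∧
    ∀ (S : Finset ℕ) (𝔮 : ℕ → Ideal (𝓞 F)) (h P : ℕ → (𝓞 F)[X]),
    GoodS 1 W S 𝔮 h P → ∃ B₀ : ℕ, ∀ B ≥ B₀,
    c * (B : ℝ) ^ (Module.finrank ℚ F * 5) ≤
      (((∏ q ∈ S, q ^ 2) ^ Module.finrank ℚ F : ℕ) : ℝ) *
      ({f : (𝓞 F)[X] | Fam 1 B W (scl u f₁) S P f}.ncard : ℝ)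

/-- SCLS: unit multiples of the data at `S`. -/
def S_SCLS : Prop := ∀ (F : Type) [Field F] [NumberField F] (W : ℕ) (u : (𝓞 F)ˣ) (S : Finset ℕ)
  (𝔮 : ℕ → Ideal (𝓞 F)) (h P : ℕ → (𝓞 F)[X]), GoodS 1 W S 𝔮 h P →
  GoodS 1 W S 𝔮 (fun q => scl u (h q)) (fun q => scl u (P q))

/-- The family: congruences modulo `N`, and a discriminant which is not divisible by the square of a
prime. -/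
def InFam {F : Type} [Field F] [NumberField F] (N : ℕ) (a b : 𝓞 F) (p : 𝓞 F × 𝓞 F) : Prop :=
  p.1 - a ∈ sp F N ∧ p.2 - b ∈ sp F N ∧
    ∀ 𝔭 : Ideal (𝓞 F), 𝔭.IsPrime → 𝔭 ≠ ⊥ → 4 * p.1 ^ 3 + 27 * p.2 ^ 2 ∉ 𝔭 ^ 2

/-- The law holds up to `ε` for the twists by the products of the primes in subsets of `S`. -/
def LawP {F : Type} [Field F] [NumberField F] (S : Finset ℕ) (m : ℕ) (ε : ℝ) (p : 𝓞 F × 𝓞 F) : Prop :=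
  ∃ e : Finset ℕ → ℕ, (∀ J ⊆ S, Gd (2 ^ e J) (twp J p)) ∧
    ∀ k : ℕ, |(∑ i ∈ Finset.range m, (((S.powersetCard i).filter fun J => e J = k).card : ℝ) /
      (S.card.choose i : ℝ)) / m - pr2 k| ≤ ε

/-- The set `S` consists of odd primes, unramified in `F` and prime to the discriminants of the
members of the family. -/
def OkS {F : Type} [Field F] [NumberField F] (S : Finset ℕ) (N : ℕ) (a b : 𝓞 F) : Prop :=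
  ∀ q ∈ S, q.Prime ∧ q ≠ 2 ∧ q ∣ N ∧ (∀ 𝔭 : Ideal (𝓞 F), 𝔭.IsPrime → (q : 𝓞 F) ∉ 𝔭 ^ 2) ∧
    ∀ 𝔭 : Ideal (𝓞 F), 𝔭.IsPrime → (q : 𝓞 F) ∈ 𝔭 → 4 * a ^ 3 + 27 * b ^ 2 ∉ 𝔭

/-- BAL3: the law in balanced boxes. -/
def S_BAL3 : Prop := ∀ (F : Type) [Field F] [NumberField F] (ε δ : ℝ), 0 < ε → 0 < δ →
  ∃ (S : Finset ℕ) (m N : ℕ) (a b : 𝓞 F), 0 < m ∧ m ≤ S.card ∧ 0 < N ∧ OkS S N a b ∧
    ∃ c : ℝ, 0 < c ∧ ∀ u : (𝓞 F)ˣ, ∃ B₀ : ℕ, ∀ B ≥ B₀,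
    c * (B : ℝ) ^ (5 * Module.finrank ℚ F) ≤
      ({p : 𝓞 F × 𝓞 F | Bd (p.1 : F) ((B : ℝ) ^ 2) ∧ Bd (p.2 : F) ((B : ℝ) ^ 3) ∧
        InFam N ((u : 𝓞 F) ^ 4 * a) ((u : 𝓞 F) ^ 6 * b) p}.ncard : ℝ) ∧
    ({p : 𝓞 F × 𝓞 F | Bd (p.1 : F) ((B : ℝ) ^ 2) ∧ Bd (p.2 : F) ((B : ℝ) ^ 3) ∧
        InFam N ((u : 𝓞 F) ^ 4 * a) ((u : 𝓞 F) ^ 6 * b) p ∧ ¬ LawP S m ε p}.ncard : ℝ) ≤
      δ * (c * (B : ℝ) ^ (5 * Module.finrank ℚ F))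

/-- HH3: the law in terms of the height (explicit Selmer groups). -/
def S_HH3 : Prop := ∀ (F : Type) [Field F] [NumberField F] (ε : ℝ), 0 < ε →
  ∃ (S : Finset ℕ) (m N : ℕ) (a b : 𝓞 F), 0 < m ∧ m ≤ S.card ∧ 0 < N ∧ OkS S N a b ∧
    ∃ c : ℝ, 0 < c ∧ ∃ Y₀ : ℝ, ∀ Y : ℝ, {p : 𝓞 F × 𝓞 F | Hle Y p}.Finite ∧ (Y₀ ≤ Y →
    0 < {p : 𝓞 F × 𝓞 F | Hle Y p ∧ 4 * p.1 ^ 3 + 27 * p.2 ^ 2 ≠ 0}.ncard ∧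
    c * ({p : 𝓞 F × 𝓞 F | Hle Y p ∧ 4 * p.1 ^ 3 + 27 * p.2 ^ 2 ≠ 0}.ncard : ℝ) ≤
      ({p : 𝓞 F × 𝓞 F | Hle Y p ∧ InFam N a b p}.ncard : ℝ) ∧
    ({p : 𝓞 F × 𝓞 F | Hle Y p ∧ InFam N a b p ∧ ¬ LawP S m ε p}.ncard : ℝ) ≤
      ε * ({p : 𝓞 F × 𝓞 F | Hle Y p ∧ InFam N a b p}.ncard : ℝ))

/-- HGT3: from balanced boxes to the height. (Compare `H64/PR/Hgt.lean`.) -/
def S_HGT3 : Prop := S_BAL3 → S_HH3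

/-- The main theorem of phase 2. -/
def S_FIN3 : Prop := ∀ (F : Type) [Field F] [NumberField F] (ε : ℝ), 0 < ε →
  ∃ (S : Finset ℕ) (m N : ℕ) (a b : 𝓞 F), 0 < m ∧ m ≤ S.card ∧ 0 < N ∧ OkS S N a b ∧
    ∃ c : ℝ, 0 < c ∧ ∃ Y₀ : ℝ, ∀ Y : ℝ, {p : 𝓞 F × 𝓞 F | Hle Y p}.Finite ∧ (Y₀ ≤ Y →
    0 < {p : 𝓞 F × 𝓞 F | Hle Y p ∧ 4 * p.1 ^ 3 + 27 * p.2 ^ 2 ≠ 0}.ncard ∧
    c * ({p : 𝓞 F × 𝓞 F | Hle Y p ∧ 4 * p.1 ^ 3 + 27 * p.2 ^ 2 ≠ 0}.ncard : ℝ) ≤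
      ({p : 𝓞 F × 𝓞 F | Hle Y p ∧ InFam N a b p}.ncard : ℝ) ∧
    ({p : 𝓞 F × 𝓞 F | Hle Y p ∧ InFam N a b p ∧
        ¬ ∀ k : ℕ, |(∑ i ∈ Finset.range m, (((S.powersetCard i).filter fun J =>
            Nat.card (Sel2 (sW ((twp J p).1 : F) ((twp J p).2 : F))) = 2 ^ k).card : ℝ) /
            (S.card.choose i : ℝ)) / m - pr2 k| ≤ ε}.ncard : ℝ) ≤
      ε * ({p : 𝓞 F × 𝓞 F | Hle Y p ∧ InFam N a b p}.ncard : ℝ))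

end Pool.Agent.H68K.PR
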