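import Pool.Agent.H68K.PR.CqnA
import Pool.Agent.H68K.PR.StmT

/-!
# Project PR, phase 2 (helper68), part CQN: pairs of symmetric matrices over a finite field which are
# not distinguished, with characteristic polynomial `x h(x)`

`E = κ[x] / (f)`. The form `(v, A p(T) v)` on polynomials `p` is `top (c p)` for some `c = c_v` in `E`.
If the pair is not distinguished, the component of `c` at `x = 0` is not a square, so the classes of
`c` for two such pairs differ by a square and the pairs are conjugate under the orthogonal group of `A`.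
-/

set_option autoImplicit false
set_option linter.all false

open Polynomial Matrix Module
open scoped Classical

namespace Pool.Agent.H68K.PR

open Pool.Agent.N352.PJ (Mt Jm)
open Pool.Agent.N783.PQ (chp form Dist)
open Pool.Agent.N42.PF (Lp Lp_apply sa_pow' sa_poly' Lp_move det_Jm sq_of_norm)
open Pool.Agent.N87.PJ (J_mul_apply)

section top

variable {g : ℕ} {F : Type} [Field F] {f : F[X]}

/-- the last coefficient -/
noncomputable def topf (g : ℕ) (hm : f.Monic) : AdjoinRoot f →ₗ[F] F :=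
  (Polynomial.lcoeff F (2 * g)).comp (AdjoinRoot.modByMonicHom hm)

theorem topf_mk (hm : f.Monic) (p : F[X]) :
    topf g hm (AdjoinRoot.mk f p) = (p %ₘ f).coeff (2 * g) := by
  show (AdjoinRoot.modByMonicHom hm (AdjoinRoot.mk f p)).coeff (2 * g) = _
  rw [AdjoinRoot.modByMonicHom_mk]

theorem topf_pow (hm : f.Monic) (hd : f.natDegree = 2 * g + 1) (m : ℕ) (hm' : m ≤ 2 * g) :
    topf g hm (AdjoinRoot.root f ^ m) = if m = 2 * g then 1 else 0 := by
  have e1 : AdjoinRoot.root f ^ m = AdjoinRoot.mk f (X ^ m) := by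
    rw [map_pow, AdjoinRoot.mk_X]
  rw [e1, topf_mk, (modByMonic_eq_self_iff hm).2, coeff_X_pow]
  · simp only [eq_comm]
  · rw [degree_X_pow, degree_eq_natDegree hm.ne_zero, hd]
    exact_mod_cast (by omega : m < 2 * g + 1)

theorem topf_nd (hm : f.Monic) (hd : f.natDegree = 2 * g + 1) {c : AdjoinRoot f}
    (hc : ∀ e, topf g hm (c * e) = 0) : c = 0 := by
  obtain ⟨p, rfl⟩ := AdjoinRoot.mk_surjective c
  set q := p %ₘ f with hq
  have hpq : AdjoinRoot.mk f p = AdjoinRoot.mk f q := by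
    rw [hq, AdjoinRoot.mk_eq_mk]
    refine ⟨p /ₘ f, ?_⟩
    have := modByMonic_add_div p f
    linear_combination -this
  rw [hpq] at hc ⊢
  by_contra hne
  have hq0 : q ≠ 0 := by
    rintro h
    rw [h, map_zero] at hne
    exact hne rfl
  have hqd : q.natDegree ≤ 2 * g := by
    have h1 : q.degree < f.degree := degree_modByMonic_lt p hm
    have h2 := natDegree_lt_natDegree hq0 h1
    omega
  have h1 := hc (AdjoinRoot.mk f (X ^ (2 * g - q.natDegree)))
  have h3 : (q * X ^ (2 * g - q.natDegree)).natDegree = 2 * g := by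
    rw [natDegree_mul hq0 (pow_ne_zero _ X_ne_zero), natDegree_X_pow]
    omega
  rw [← map_mul, topf_mk, (modByMonic_eq_self_iff hm).2] at h1
  · have h4 : (q * X ^ (2 * g - q.natDegree)).coeff (2 * g) = q.leadingCoeff := by
      rw [coeff_mul_X_pow', if_pos (by omega)]
      congr 1
      omega
    rw [h4] at h1
    exact hq0 (leadingCoeff_eq_zero.1 h1)
  · refine degree_lt_degree ?_
    rw [h3, hd]
    omega

/-- the class of a functional -/
theorem topf_ex (hm : f.Monic) (hd : f.natDegree = 2 * g + 1) (ℓ : AdjoinRoot f →ₗ[F] F) :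
    ∃ c : AdjoinRoot f, ∀ e, topf g hm (c * e) = ℓ e := by
  let pb : PowerBasis F (AdjoinRoot f) := AdjoinRoot.powerBasis' hm
  haveI : FiniteDimensional F (AdjoinRoot f) := pb.finite
  let Φ : AdjoinRoot f →ₗ[F] Module.Dual F (AdjoinRoot f) :=
    (LinearMap.mul F (AdjoinRoot f)).compr₂ (topf g hm)
  have hΦ : ∀ c e, Φ c e = topf g hm (c * e) := fun c e => rfl
  have hinj : Function.Injective Φ := by
    rw [← LinearMap.ker_eq_bot, LinearMap.ker_eq_bot']
    intro c hc0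
    refine topf_nd hm hd fun e => ?_
    rw [← hΦ, hc0, LinearMap.zero_apply]
  have hsurj : Function.Surjective Φ :=
    (LinearMap.injective_iff_surjective_of_finrank_eq_finrank
      (Subspace.dual_finrank_eq).symm).1 hinj
  obtain ⟨c, hcℓ⟩ := hsurj ℓ
  exact ⟨c, fun e => by rw [← hΦ, hcℓ]⟩

variable {A T : Mt g F}

/-- the matrix with columns `T ^ j v` -/
def Mv (T : Mt g F) (v : Fin (2 * g + 1) → F) : Mt g F :=
  Matrix.of fun i j => ((T ^ (j : ℕ)) *ᵥ v) i

/-- the class of a vector -/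
theorem cv_ex (hm : f.Monic) (hd : f.natDegree = 2 * g + 1) (hf : aeval T f = 0)
    (v : Fin (2 * g + 1) → F) :
    ∃ c : AdjoinRoot f, ∀ p : F[X], topf g hm (c * AdjoinRoot.mk f p) = Lp A T v p := by
  let rp : AdjoinRoot f →ₗ[F] F[X] := AdjoinRoot.modByMonicHom hm
  let ℓ : AdjoinRoot f →ₗ[F] F := (Lp A T v).comp rp
  have hℓ : ∀ p : F[X], ℓ (AdjoinRoot.mk f p) = Lp A T v p := by
    intro p
    show Lp A T v (AdjoinRoot.modByMonicHom hm (AdjoinRoot.mk f p)) = _
    rw [AdjoinRoot.modByMonicHom_mk]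
    have h3 := modByMonic_add_div p f
    conv_rhs => rw [← h3]
    rw [map_add]
    have h4 : Lp A T v (f * (p /ₘ f)) = 0 := by
      rw [Lp_apply, map_mul, hf, zero_mul, mul_zero, Matrix.zero_mulVec, dotProduct_zero]
    rw [h4, add_zero]
  obtain ⟨c, hc⟩ := topf_ex hm hd ℓ
  exact ⟨c, fun p => by rw [hc, hℓ]⟩

/-- the norm of the class of a vector -/
theorem cv_norm (hm : f.Monic) (hd : f.natDegree = 2 * g + 1) (hTA : Tᵀ * A = A * T) {x : F}
    (hdet : A.det = (-1) ^ g * x ^ 2) (v : Fin (2 * g + 1) → F) {c : AdjoinRoot f}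
    (hc : ∀ p : F[X], topf g hm (c * AdjoinRoot.mk f p) = Lp A T v p) :
    Algebra.norm F c = (x * (Mv T v).det) ^ 2 := by
  have hone : ((-1 : F) ^ g) * (-1) ^ g = 1 := by rw [← mul_pow]; simp
  let pb : PowerBasis F (AdjoinRoot f) := AdjoinRoot.powerBasis' hm
  haveI : FiniteDimensional F (AdjoinRoot f) := pb.finite
  have hdim : pb.dim = 2 * g + 1 := hd
  let b : Module.Basis (Fin (2 * g + 1)) F (AdjoinRoot f) := pb.basis.reindex (finCongr hdim)
  have hb : ∀ i, b i = AdjoinRoot.root f ^ (i : ℕ) := by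
    intro i
    show (pb.basis.reindex (finCongr hdim)) i = _
    rw [Module.Basis.reindex_apply, pb.basis_eq_pow]
    rfl
  let Gm : AdjoinRoot f → Mt g F := fun c => Matrix.of fun i j => topf g hm (c * (b i * b j))
  have hG : Gm c = Gm 1 * Algebra.leftMulMatrix b c := by
    ext i j
    rw [Matrix.mul_apply]
    simp only [Gm, Matrix.of_apply, Algebra.leftMulMatrix_eq_repr_mul, one_mul]
    have h3 : c * b j = ∑ k, b.repr (c * b j) k • b k := (b.sum_repr _).symm
    have h4 : c * (b i * b j) = b i * (c * b j) := by ring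
    rw [h4]
    conv_lhs => rw [h3]
    rw [Finset.mul_sum, map_sum]
    refine Finset.sum_congr rfl fun k _ => ?_
    rw [mul_smul_comm, map_smul, smul_eq_mul, mul_comm]
  have hdetG : (Gm 1).det = (-1) ^ g := by
    have h3 : (Jm g F * Gm 1).det = 1 := by
      have h4 : ∀ i j, (Jm g F * Gm 1) i j =
          topf g hm (AdjoinRoot.root f ^ (((Fin.rev i : Fin (2 * g + 1)) : ℕ) + (j : ℕ))) := by
        intro i j
        rw [J_mul_apply]
        show topf g hm (1 * (b (Fin.rev i) * b j)) = _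
        rw [hb, hb, one_mul, ← pow_add]
      have h5 : (Jm g F * Gm 1).BlockTriangular id := by
        intro i j hij
        have hij' : j < i := hij
        have h6 : (j : ℕ) < i := hij'
        have h7 := i.2
        rw [h4, topf_pow hm hd _ (by rw [Fin.val_rev]; omega), if_neg (by rw [Fin.val_rev]; omega)]
      rw [Matrix.det_of_upperTriangular h5]
      refine Finset.prod_eq_one fun i _ => ?_
      have h7 := i.2
      rw [h4, topf_pow hm hd _ (by rw [Fin.val_rev]; omega), if_pos (by rw [Fin.val_rev]; omega)]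
    rw [Matrix.det_mul, det_Jm] at h3
    calc (Gm 1).det = ((-1) ^ g * (-1) ^ g) * (Gm 1).det := by rw [hone, one_mul]
      _ = (-1) ^ g * ((-1) ^ g * (Gm 1).det) := by ring
      _ = (-1) ^ g := by rw [h3, mul_one]
  set M : Mt g F := Mv T v with hM
  have hMG : Mᵀ * A * M = Gm c := by
    ext i j
    rw [Matrix.mul_mul_apply]
    have h1 : Mᵀ i = T ^ (i : ℕ) *ᵥ v := rfl
    have h3 : Mᵀ j = T ^ (j : ℕ) *ᵥ v := rfl
    rw [h1, h3, ← Matrix.vecMul_transpose, ← Matrix.dotProduct_mulVec, Matrix.mulVec_mulVec,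
      Matrix.mulVec_mulVec, sa_pow' hTA, Matrix.mul_assoc, ← pow_add]
    show _ = topf g hm (c * (b i * b j))
    have e1 : b i * b j = AdjoinRoot.mk f (X ^ ((i : ℕ) + (j : ℕ))) := by
      rw [hb, hb, ← pow_add, map_pow, AdjoinRoot.mk_X]
    rw [e1, hc, Lp_apply, map_pow, aeval_X]
  have h3 := congrArg Matrix.det hMG
  rw [hG, Matrix.det_mul, Matrix.det_mul, Matrix.det_transpose, Matrix.det_mul, hdetG, hdet,
    ← Algebra.norm_eq_matrix_det b c] at h3
  calc Algebra.norm F c = ((-1) ^ g * (-1) ^ g) * Algebra.norm F c := by rw [hone, one_mul]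
    _ = (-1) ^ g * ((-1) ^ g * Algebra.norm F c) := by ring
    _ = (-1) ^ g * (M.det * ((-1) ^ g * x ^ 2) * M.det) := by rw [h3]
    _ = ((-1) ^ g * (-1) ^ g) * (x * M.det) ^ 2 := by ring
    _ = _ := by rw [hone, one_mul]

/-- the class of `r(T) v` -/
theorem cv_mul (hm : f.Monic) (hTA : Tᵀ * A = A * T)
    (v : Fin (2 * g + 1) → F) {c : AdjoinRoot f}
    (hc : ∀ p : F[X], topf g hm (c * AdjoinRoot.mk f p) = Lp A T v p) (r p : F[X]) :
    topf g hm ((AdjoinRoot.mk f r * AdjoinRoot.mk f r * c) * AdjoinRoot.mk f p) =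
      Lp A T (aeval T r *ᵥ v) p := by
  rw [Lp_apply, Lp_move v hTA, ← hc]
  congr 1
  rw [map_mul, map_mul]
  ring

end top

/-! ### `f = x h(x)` -/

section spl

variable {g : ℕ} {F : Type} [Field F] {h : F[X]}

theorem cop (hg : 1 ≤ g) (hi : Irreducible h) (hd : h.natDegree = 2 * g) :
    IsCoprime (X : F[X]) h := by
  rw [Irreducible.coprime_iff_not_dvd Polynomial.irreducible_X]
  intro hdvd
  obtain ⟨c, hc'⟩ := hdvd
  have hX : (X : F[X]) ≠ 0 := X_ne_zero
  rcases hi.isUnit_or_isUnit hc' with h' | h'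
  · exact Polynomial.not_isUnit_X h'
  · have h3 := natDegree_eq_zero_of_isUnit h'
    have hc0 : c ≠ 0 := by
      rintro rfl
      rw [mul_zero] at hc'
      exact hi.ne_zero hc'
    rw [hc', natDegree_mul hX hc0, natDegree_X, h3] at hd
    omega

/-- the value at zero -/
noncomputable def pr0 (h : F[X]) : AdjoinRoot (X * h) →ₐ[F] F :=
  AdjoinRoot.liftAlgHom (X * h) (Algebra.ofId F F) 0 (by
    rw [eval₂_mul, eval₂_X, zero_mul])

theorem pr0_mk (p : F[X]) : pr0 h (AdjoinRoot.mk (X * h) p) = p.eval 0 := by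
  rw [pr0, AdjoinRoot.liftAlgHom_mk]
  exact eval₂_id

/-- the two components -/
noncomputable def prE (h : F[X]) : AdjoinRoot (X * h) →ₐ[F] F × AdjoinRoot h :=
  (pr0 h).prod (AdjoinRoot.algHomOfDvd F (X * h) h (dvd_mul_left h X))

theorem prE_mk (p : F[X]) : prE h (AdjoinRoot.mk (X * h) p) = (p.eval 0, AdjoinRoot.mk h p) := by
  rw [prE, AlgHom.prod_apply, pr0_mk]
  congr 1
  have h1 : ((AdjoinRoot.algHomOfDvd F (X * h) h (dvd_mul_left h X)).comp
      (AdjoinRoot.mkₐ (X * h))) = AdjoinRoot.mkₐ h := by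
    ext
    simp
  exact congrArg (fun φ : F[X] →ₐ[F] AdjoinRoot h => φ p) h1

theorem prE_bij (hg : 1 ≤ g) (hm : h.Monic) (hi : Irreducible h) (hd : h.natDegree = 2 * g) :
    Function.Bijective (prE h) := by
  have hcop := cop hg hi hd
  constructor
  · rw [injective_iff_map_eq_zero]
    intro c hc
    obtain ⟨p, rfl⟩ := AdjoinRoot.mk_surjective c
    rw [prE_mk, Prod.mk_eq_zero, AdjoinRoot.mk_eq_zero] at hc
    rw [AdjoinRoot.mk_eq_zero]
    exact hcop.mul_dvd (X_dvd_iff.2 (by rw [coeff_zero_eq_eval_zero]; exact hc.1)) hc.2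
  · rintro ⟨a, b⟩
    obtain ⟨q, rfl⟩ := AdjoinRoot.mk_surjective b
    obtain ⟨u, w, huw⟩ := hcop
    refine ⟨AdjoinRoot.mk (X * h) (C a * (w * h) + q * (u * X)), ?_⟩
    rw [prE_mk]
    have e1 := congrArg (eval 0) huw
    rw [eval_add, eval_mul, eval_X, mul_zero, zero_add, eval_one] at e1
    refine Prod.ext ?_ ?_
    · show eval 0 _ = a
      rw [eval_add, eval_mul, eval_C, e1, eval_mul, eval_mul, eval_X]
      ring
    · show AdjoinRoot.mk h _ = AdjoinRoot.mk h q
      rw [AdjoinRoot.mk_eq_mk]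
      refine ⟨C a * w - q * w, ?_⟩
      linear_combination q * huw

theorem norm_prod' {K : Type} [Field K] [Algebra F K] [FiniteDimensional F K] (a : F) (b : K) :
    Algebra.norm F ((a, b) : F × K) = a * Algebra.norm F b := by
  rw [Algebra.norm_apply, Algebra.norm_apply]
  have e1 : (LinearMap.mul F (F × K)) (a, b) =
      LinearMap.prodMap (LinearMap.mul F F a) (LinearMap.mul F K b) := by
    ext <;> simp
  show LinearMap.det ((LinearMap.mul F (F × K)) (a, b)) = _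
  rw [e1, LinearMap.det_prodMap]
  congr 1
  exact LinearMap.det_mulLeft a

theorem norm_prE (hg : 1 ≤ g) (hm : h.Monic) (hi : Irreducible h) (hd : h.natDegree = 2 * g)
    (c : AdjoinRoot (X * h)) :
    Algebra.norm F c = (prE h c).1 * Algebra.norm F (prE h c).2 := by
  haveI : Fact (Irreducible h) := ⟨hi⟩
  haveI : FiniteDimensional F (AdjoinRoot h) := (AdjoinRoot.powerBasis' hm).finite
  let e : AdjoinRoot (X * h) ≃ₐ[F] F × AdjoinRoot h :=
    AlgEquiv.ofBijective (prE h) (prE_bij hg hm hi hd)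
  have h1 : Algebra.norm F (e c) = Algebra.norm F c := Algebra.norm_eq_of_algEquiv e c
  rw [← h1]
  have h3 : e c = ((prE h c).1, (prE h c).2) := rfl
  rw [h3, norm_prod']

/-- a nonzero symmetric matrix has an anisotropic vector -/
theorem aniso' (h2 : (2 : F) ≠ 0) {A : Mt g F} (hA : A.IsSymm) (hd : A ≠ 0) :
    ∃ v : Fin (2 * g + 1) → F, v ⬝ᵥ (A *ᵥ v) ≠ 0 := by
  by_contra hcon
  push Not at hcon
  apply hd
  have h1 : ∀ i, A i i = 0 := by
    intro i
    have := hcon (Pi.single i 1)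
    simpa using this
  ext i j
  have h4 := hcon (Pi.single i 1 + Pi.single j 1)
  rw [Matrix.mulVec_add, add_dotProduct, dotProduct_add, dotProduct_add] at h4
  simp only [Matrix.mulVec_single_one, single_dotProduct, Matrix.col_apply, one_mul] at h4
  rw [h1 i, h1 j, hA.apply i j] at h4
  have h5 : (2 : F) * A i j = 0 := by rw [two_mul]; simpa using h4
  simpa using (mul_eq_zero.1 h5).resolve_left h2

variable {A T : Mt g F}

/-- moving polynomials to the right -/
theorem mv_move (hTA : Tᵀ * A = A * T) (r p : F[X]) (y z : Fin (2 * g + 1) → F) :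
    (aeval T r *ᵥ y) ⬝ᵥ ((A * aeval T p) *ᵥ z) = y ⬝ᵥ ((A * aeval T (r * p)) *ᵥ z) := by
  have h9 : aeval T r *ᵥ y = y ᵥ* (aeval T r)ᵀ := (Matrix.vecMul_transpose _ _).symm
  rw [h9, ← Matrix.dotProduct_mulVec, Matrix.mulVec_mulVec, ← Matrix.mul_assoc, sa_poly' hTA,
    map_mul]
  simp only [Matrix.mul_assoc]

/-- a vector with both components -/
theorem unit_vec (hg : 1 ≤ g) (h2 : (2 : F) ≠ 0) (hm : h.Monic) (hi : Irreducible h)
    (hd : h.natDegree = 2 * g) (hA : A.IsSymm) (hA0 : IsUnit A.det) (hTA : Tᵀ * A = A * T)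
    (hc : T.charpoly = X * h) {u w : F[X]} (huw : u * X + w * h = 1) :
    ∃ v : Fin (2 * g + 1) → F, Lp A T v (w * h) ≠ 0 ∧ Lp A T v (u * X) ≠ 0 := by
  have hcop := cop hg hi hd
  have hf : aeval T (X * h) = 0 := by
    rw [← hc]; exact Matrix.aeval_self_charpoly T
  have n0 : aeval T (w * h) ≠ 0 := by
    intro h0
    have h1 := congrArg (aeval T) huw
    rw [map_add, h0, add_zero, map_one, map_mul, aeval_X] at h1
    have h3 := congrArg Matrix.det h1
    rw [Matrix.det_mul, Matrix.det_one, Matrix.det_eq_sign_charpoly_coeff T, hc, coeff_X_mul_zero,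
      mul_zero, mul_zero] at h3
    exact zero_ne_one h3
  have n1 : aeval T (u * X) ≠ 0 := by
    intro h0
    have h1 := congrArg (aeval T) huw
    rw [map_add, h0, zero_add, map_one] at h1
    have h3 : T = 0 := by
      calc T = T * aeval T (w * h) := by rw [h1, Matrix.mul_one]
        _ = aeval T (X * h) * aeval T w := by
          conv_lhs => rw [show T * aeval T (w * h) = aeval T (X : F[X]) * aeval T (w * h) by rw [aeval_X]]
          rw [← map_mul, ← map_mul]
          congr 1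
          ring
        _ = 0 := by rw [hf, Matrix.zero_mul]
    rw [h3, Matrix.charpoly_zero, Fintype.card_fin, pow_succ'] at hc
    have h4 : X ^ (2 * g) = h := mul_left_cancel₀ X_ne_zero hc
    have h5 : (X : F[X]) ∣ h := by
      rw [← h4]
      exact dvd_pow_self X (by omega)
    exact not_isUnit_X (hcop.isUnit_of_dvd' dvd_rfl h5)
  have hsy : ∀ p : F[X], (A * aeval T p).IsSymm := by
    intro p
    show (A * aeval T p)ᵀ = _
    rw [Matrix.transpose_mul, hA.eq, sa_poly' hTA]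
  have hne : ∀ p : F[X], aeval T p ≠ 0 → A * aeval T p ≠ 0 := by
    intro p hp h0
    apply hp
    rw [← Matrix.one_mul (aeval T p), ← Matrix.nonsing_inv_mul _ hA0, Matrix.mul_assoc, h0,
      Matrix.mul_zero]
  obtain ⟨v₀, hv₀⟩ := aniso' h2 (hsy _) (hne _ n0)
  obtain ⟨v₁, hv₁⟩ := aniso' h2 (hsy _) (hne _ n1)
  have e01 : aeval T ((w * h) * (u * X)) = 0 := by
    have : (w * h) * (u * X) = (u * w) * (X * h) := by ring
    rw [this, map_mul, hf, Matrix.mul_zero]
  have e10 : aeval T ((u * X) * (w * h)) = 0 := by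
    have : (u * X) * (w * h) = (w * h) * (u * X) := by ring
    rw [this]
    exact e01
  have e00 : aeval T ((w * h) * (w * h)) = aeval T (w * h) := by
    have : (w * h) * (w * h) = (w * h) - (w * h) * (u * X) := by
      linear_combination (w * h) * huw
    rw [this, map_sub, e01, sub_zero]
  have e11 : aeval T ((u * X) * (u * X)) = aeval T (u * X) := by
    have : (u * X) * (u * X) = (u * X) - (u * X) * (w * h) := by
      linear_combination (u * X) * huw
    rw [this, map_sub, e10, sub_zero]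
  refine ⟨aeval T (w * h) *ᵥ v₀ + aeval T (u * X) *ᵥ v₁, ?_, ?_⟩
  · have h1 : aeval T (w * h) *ᵥ (aeval T (w * h) *ᵥ v₀ + aeval T (u * X) *ᵥ v₁) =
        aeval T (w * h) *ᵥ v₀ := by
      rw [Matrix.mulVec_add, Matrix.mulVec_mulVec, Matrix.mulVec_mulVec, ← map_mul, ← map_mul,
        e00, e01, Matrix.zero_mulVec, add_zero]
    rw [Lp_apply, ← Matrix.mulVec_mulVec, h1, Matrix.mulVec_mulVec, add_dotProduct,
      mv_move hTA, mv_move hTA, e00, e10, Matrix.mul_zero, Matrix.zero_mulVec, dotProduct_zero,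
      add_zero]
    exact hv₀
  · have h1 : aeval T (u * X) *ᵥ (aeval T (w * h) *ᵥ v₀ + aeval T (u * X) *ᵥ v₁) =
        aeval T (u * X) *ᵥ v₁ := by
      rw [Matrix.mulVec_add, Matrix.mulVec_mulVec, Matrix.mulVec_mulVec, ← map_mul, ← map_mul,
        e10, e11, Matrix.zero_mulVec, zero_add]
    rw [Lp_apply, ← Matrix.mulVec_mulVec, h1, Matrix.mulVec_mulVec, add_dotProduct,
      mv_move hTA, mv_move hTA, e01, e11, Matrix.mul_zero, Matrix.zero_mulVec, dotProduct_zero,
      zero_add]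
    exact hv₁

/-- the components of the class are not zero -/
theorem comp_ne (hg : 1 ≤ g) (hm : h.Monic) (hi : Irreducible h) (hd : h.natDegree = 2 * g)
    {u w : F[X]} {v : Fin (2 * g + 1) → F} {c : AdjoinRoot (X * h)}
    (hc : ∀ p : F[X], topf g (monic_X.mul hm) (c * AdjoinRoot.mk (X * h) p) = Lp A T v p)
    (h0 : Lp A T v (w * h) ≠ 0) (h1 : Lp A T v (u * X) ≠ 0) :
    (prE h c).1 ≠ 0 ∧ (prE h c).2 ≠ 0 := by
  have hinj := (prE_bij hg hm hi hd).1
  constructor
  · intro h3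
    apply h0
    rw [← hc]
    have : c * AdjoinRoot.mk (X * h) (w * h) = 0 := by
      apply hinj
      rw [map_mul, prE_mk, map_zero]
      refine Prod.ext ?_ ?_
      · show (prE h c).1 * _ = 0
        rw [h3, zero_mul]
      · show (prE h c).2 * AdjoinRoot.mk h (w * h) = 0
        rw [map_mul, AdjoinRoot.mk_self, mul_zero, mul_zero]
    rw [this, map_zero]
  · intro h3
    apply h1
    rw [← hc]
    have : c * AdjoinRoot.mk (X * h) (u * X) = 0 := by
      apply hinj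
      rw [map_mul, prE_mk, map_zero]
      refine Prod.ext ?_ ?_
      · show (prE h c).1 * eval 0 (u * X) = 0
        rw [eval_mul, eval_X, mul_zero, mul_zero]
      · show (prE h c).2 * _ = 0
        rw [h3, zero_mul]
    rw [this, map_zero]

/-- quotients of classes which are squares -/
theorem cls_sq [Finite F] (hg : 1 ≤ g) (h2 : (2 : F) ≠ 0) (hm : h.Monic) (hi : Irreducible h)
    (hd : h.natDegree = 2 * g) {c c' : AdjoinRoot (X * h)} (h0 : (prE h c).1 ≠ 0)
    (h1 : (prE h c).2 ≠ 0) (h0' : (prE h c').1 ≠ 0) (h1' : (prE h c').2 ≠ 0) {y y' : F}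
    (hy : Algebra.norm F c = y ^ 2) (hy' : Algebra.norm F c' = y' ^ 2)
    (hs : ∃ s : F, (prE h c').1 = s ^ 2 * (prE h c).1) :
    ∃ r : F[X], AdjoinRoot.mk (X * h) r * AdjoinRoot.mk (X * h) r * c = c' := by
  haveI : Fact (Irreducible h) := ⟨hi⟩
  haveI : FiniteDimensional F (AdjoinRoot h) := (AdjoinRoot.powerBasis' hm).finite
  haveI : Finite (AdjoinRoot h) := Module.finite_of_finite F
  obtain ⟨s, hs⟩ := hs
  have hs0 : s ≠ 0 := by
    rintro rfl
    rw [zero_pow two_ne_zero, zero_mul] at hs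
    exact h0' hs
  rw [norm_prE hg hm hi hd] at hy hy'
  have hn : Algebra.norm F (prE h c).2 ≠ 0 := by
    rw [Ne, Algebra.norm_eq_zero_iff]
    exact h1
  have hy0 : y ≠ 0 := by
    rintro rfl
    rw [zero_pow two_ne_zero] at hy
    exact mul_ne_zero h0 hn hy
  have hρ : (prE h c').2 * ((prE h c).2)⁻¹ ≠ 0 := mul_ne_zero h1' (inv_ne_zero h1)
  obtain ⟨t, ht⟩ := sq_of_norm (K := F) h2 hρ (d := y' / (y * s)) (by
    have e0 : Algebra.norm F ((prE h c).2)⁻¹ = (Algebra.norm F (prE h c).2)⁻¹ := by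
      refine eq_inv_of_mul_eq_one_left ?_
      rw [← map_mul, inv_mul_cancel₀ h1, map_one]
    rw [map_mul, e0]
    rw [hs] at hy'
    have e1 : Algebra.norm F (prE h c').2 = y' ^ 2 / (s ^ 2 * (prE h c).1) := by
      rw [eq_div_iff (mul_ne_zero (pow_ne_zero 2 hs0) h0), ← hy']
      ring
    have e2 : Algebra.norm F (prE h c).2 = y ^ 2 / (prE h c).1 := by
      rw [eq_div_iff h0, ← hy]
      ring
    rw [e1, e2]
    field_simp)
  obtain ⟨ρ, hρ'⟩ := (prE_bij hg hm hi hd).2 (s, t)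
  obtain ⟨r, rfl⟩ := AdjoinRoot.mk_surjective ρ
  refine ⟨r, (prE_bij hg hm hi hd).1 ?_⟩
  rw [map_mul, map_mul, hρ']
  refine Prod.ext ?_ ?_
  · show s * s * (prE h c).1 = (prE h c').1
    rw [hs]
    ring
  · show t * t * (prE h c).2 = (prE h c').2
    rw [ht, mul_assoc, inv_mul_cancel₀ h1, mul_one]

/-- the quotient of two nonsquares -/
theorem nsq_nsq [Finite F] (h2 : (2 : F) ≠ 0) {a b : F} (ha : ¬ IsSquare a)
    (hb : ¬ IsSquare b) : ∃ s : F, b = s ^ 2 * a := by
  haveI := Fintype.ofFinite F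
  have hc : ringChar F ≠ 2 := by
    intro h
    apply h2
    have := ringChar.Nat.cast_ringChar (R := F)
    rw [h] at this
    exact_mod_cast this
  have ha0 : a ≠ 0 := by rintro rfl; exact ha IsSquare.zero
  have hb0 : b ≠ 0 := by rintro rfl; exact hb IsSquare.zero
  have h1 := (FiniteField.pow_dichotomy hc ha0).resolve_left
    (fun h => ha ((FiniteField.isSquare_iff hc ha0).2 h))
  have h3 := (FiniteField.pow_dichotomy hc hb0).resolve_left
    (fun h => hb ((FiniteField.isSquare_iff hc hb0).2 h))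
  have h4 : IsSquare (b * a) := by
    rw [FiniteField.isSquare_iff hc (mul_ne_zero hb0 ha0), mul_pow, h1, h3]
    ring
  obtain ⟨s, hs⟩ := h4
  refine ⟨s / a, ?_⟩
  field_simp
  linear_combination hs

/-- everything about a pair which is not distinguished -/
theorem ndist_cls [Finite F] (hg : 1 ≤ g) (h2 : (2 : F) ≠ 0) (hm : h.Monic) (hi : Irreducible h)
    (hd : h.natDegree = 2 * g) {A B : Mt g F} (hA : A.IsSymm) (hB : B.IsSymm) {x : F}
    (hx : x ≠ 0) (hdet : A.det = (-1) ^ g * x ^ 2) (hcp : chp A B = X * h) (hnd : ¬ Dist A B)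
    {u w : F[X]} (huw : u * X + w * h = 1) :
    ∃ (v : Fin (2 * g + 1) → F) (c : AdjoinRoot (X * h)),
      (∀ p : F[X], topf g (monic_X.mul hm) (c * AdjoinRoot.mk (X * h) p) = Lp A (A⁻¹ * B) v p) ∧
      Lp A (A⁻¹ * B) v (w * h) ≠ 0 ∧ Lp A (A⁻¹ * B) v (u * X) ≠ 0 ∧
      (prE h c).1 ≠ 0 ∧ (prE h c).2 ≠ 0 ∧ ¬ IsSquare (prE h c).1 ∧
      Algebra.norm F c = (x * (Mv (A⁻¹ * B) v).det) ^ 2 := by
  have hone : ((-1 : F) ^ g) * (-1) ^ g = 1 := by rw [← mul_pow]; simp
  have hA0 : A.det ≠ 0 := by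
    rw [hdet]
    refine mul_ne_zero ?_ (pow_ne_zero 2 hx)
    intro h
    rw [h, zero_mul] at hone
    exact zero_ne_one hone
  have hu : IsUnit A.det := isUnit_iff_ne_zero.2 hA0
  set T : Mt g F := A⁻¹ * B with hT
  have hAT : A * T = B := by
    rw [hT, ← Matrix.mul_assoc, Matrix.mul_nonsing_inv _ hu, Matrix.one_mul]
  have hTA : Tᵀ * A = A * T := by
    have h1 := congrArg Matrix.transpose hAT
    rw [Matrix.transpose_mul, hA.eq, hB.eq] at h1
    rw [h1, hAT]
  have hdf : (X * h).natDegree = 2 * g + 1 := by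
    rw [natDegree_mul X_ne_zero hm.ne_zero, natDegree_X, hd]
    omega
  have hf : aeval T (X * h) = 0 := by
    rw [← hcp]
    exact Matrix.aeval_self_charpoly T
  obtain ⟨v, hv0, hv1⟩ := unit_vec hg h2 hm hi hd hA hu hTA hcp huw
  obtain ⟨c, hc⟩ := cv_ex (A := A) (monic_X.mul hm) hdf hf v
  obtain ⟨hc0, hc1⟩ := comp_ne hg hm hi hd hc hv0 hv1
  have hn := cv_norm (monic_X.mul hm) hdf hTA hdet v hc
  refine ⟨v, c, hc, hv0, hv1, hc0, hc1, ?_, hn⟩
  intro hsq
  apply hnd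
  obtain ⟨a, ha⟩ := hsq
  have ha0 : a ≠ 0 := by
    rintro rfl
    rw [mul_zero] at ha
    exact hc0 ha
  obtain ⟨r, hr⟩ := cls_sq hg h2 hm hi hd (c := c) (c' := 1) hc0 hc1
    (by rw [map_one]; exact one_ne_zero)
    (by
      rw [map_one]
      haveI : Fact (Irreducible h) := ⟨hi⟩
      exact one_ne_zero) hn (y' := 1) (by rw [map_one, one_pow])
    ⟨a⁻¹, by
      rw [map_one, ha]
      show (1 : F) = _
      field_simp⟩
  refine ⟨aeval T r *ᵥ v, fun m hm' => ?_⟩
  have h3 := cv_mul (monic_X.mul hm) hTA v hc r (X ^ m)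
  rw [hr, one_mul, map_pow, AdjoinRoot.mk_X, topf_pow _ hdf m hm', Lp_apply, map_pow, aeval_X] at h3
  exact h3.symm

theorem cqn_g [Finite F] (hg : 1 ≤ g) (h2 : (2 : F) ≠ 0) (hm : h.Monic) (hi : Irreducible h)
    (hd : h.natDegree = 2 * g) {A : Mt g F} (hA : A.IsSymm) {x : F}
    (hx : x ≠ 0) (hdet : A.det = (-1) ^ g * x ^ 2) :
    2 * Nat.card {B : Mt g F // B.IsSymm ∧ chp A B = X * h ∧ ¬ Dist A B} ≤
      Nat.card F ^ (g * (2 * g + 1)) := by
  obtain ⟨u, w, huw⟩ := cop hg hi hd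
  let D : Type := {B : Mt g F // B.IsSymm ∧ chp A B = X * h ∧ ¬ Dist A B}
  rcases isEmpty_or_nonempty D with hE | ⟨⟨B₀, hB₀, hcp₀, hnd₀⟩⟩
  · show 2 * Nat.card D ≤ _
    rw [Nat.card_of_isEmpty]
    exact Nat.zero_le _
  have hone : ((-1 : F) ^ g) * (-1) ^ g = 1 := by rw [← mul_pow]; simp
  have hA0 : A.det ≠ 0 := by
    rw [hdet]
    refine mul_ne_zero ?_ (pow_ne_zero 2 hx)
    intro h
    rw [h, zero_mul] at hone
    exact zero_ne_one hone
  have hu : IsUnit A.det := isUnit_iff_ne_zero.2 hA0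
  have hAT : ∀ B : Mt g F, A * (A⁻¹ * B) = B := by
    intro B
    rw [← Matrix.mul_assoc, Matrix.mul_nonsing_inv _ hu, Matrix.one_mul]
  have hTA : ∀ B : Mt g F, B.IsSymm → (A⁻¹ * B)ᵀ * A = A * (A⁻¹ * B) := by
    intro B hB
    have h1 := congrArg Matrix.transpose (hAT B)
    rw [Matrix.transpose_mul, hA.eq, hB.eq] at h1
    rw [h1, hAT]
  have hdf : (X * h).natDegree = 2 * g + 1 := by
    rw [natDegree_mul X_ne_zero hm.ne_zero, natDegree_X, hd]
    omega
  have hmf : (X * h).Monic := monic_X.mul hm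
  have hch0 : ∀ B : Mt g F, chp A B = X * h → aeval (A⁻¹ * B) (X * h) = 0 := by
    intro B hB
    rw [← hB]
    exact Matrix.aeval_self_charpoly _
  obtain ⟨v₀, c₀, hc₀, hw₀, hu₀, h0₀, h1₀, hns₀, hn₀⟩ := ndist_cls hg h2 hm hi hd hA hB₀ hx hdet
    hcp₀ hnd₀ huw
  -- the base matrix is invertible
  have hM₀ : IsUnit (Mv (A⁻¹ * B₀) v₀).det := by
    rw [isUnit_iff_ne_zero]
    intro h00
    rw [h00, mul_zero, zero_pow two_ne_zero, norm_prE hg hm hi hd] at hn₀
    haveI : Fact (Irreducible h) := ⟨hi⟩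
    haveI : FiniteDimensional F (AdjoinRoot h) := (AdjoinRoot.powerBasis' hm).finite
    rcases mul_eq_zero.1 hn₀ with h01 | h01
    · exact h0₀ h01
    · exact h1₀ (Algebra.norm_eq_zero_iff.1 h01)
  set M₀ := Mv (A⁻¹ * B₀) v₀ with hM₀def
  have hgram : ∀ (B : Mt g F) (hB : B.IsSymm) (ξ : Fin (2 * g + 1) → F) (i j : Fin (2 * g + 1)),
      ((Mv (A⁻¹ * B) ξ)ᵀ * A * Mv (A⁻¹ * B) ξ) i j = Lp A (A⁻¹ * B) ξ (X ^ ((i : ℕ) + j)) := by
    intro B hB ξ i j
    rw [Matrix.mul_mul_apply]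
    have h1 : (Mv (A⁻¹ * B) ξ)ᵀ i = (A⁻¹ * B) ^ (i : ℕ) *ᵥ ξ := rfl
    have h3 : (Mv (A⁻¹ * B) ξ)ᵀ j = (A⁻¹ * B) ^ (j : ℕ) *ᵥ ξ := rfl
    rw [h1, h3, ← Matrix.vecMul_transpose, ← Matrix.dotProduct_mulVec, Matrix.mulVec_mulVec,
      Matrix.mulVec_mulVec, sa_pow' (hTA B hB), Matrix.mul_assoc, ← pow_add, Lp_apply, map_pow,
      aeval_X]
  let P : Type := {p : Mt g F × (Fin (2 * g + 1) → F) // p.1.IsSymm ∧ chp A p.1 = X * h ∧
    ∀ q : F[X], Lp A (A⁻¹ * p.1) p.2 q = Lp A (A⁻¹ * B₀) v₀ q}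
  let O : Type := {M : Mt g F // Mᵀ * A * M = A}
  haveI : Finite (Mt g F) := inferInstance
  have hPO : Nat.card P ≤ Nat.card O := by
    have hH : ∀ p : P, (Mv (A⁻¹ * p.1.1) p.1.2)ᵀ * A * Mv (A⁻¹ * p.1.1) p.1.2 =
        M₀ᵀ * A * M₀ := by
      intro p
      ext i j
      rw [hgram _ p.2.1, hM₀def, hgram _ hB₀]
      exact p.2.2.2 _
    let f' : P → O := fun p => ⟨Mv (A⁻¹ * p.1.1) p.1.2 * M₀⁻¹, by
      rw [Matrix.transpose_mul]
      calc (M₀⁻¹)ᵀ * (Mv (A⁻¹ * p.1.1) p.1.2)ᵀ * A * (Mv (A⁻¹ * p.1.1) p.1.2 * M₀⁻¹) =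
          (M₀⁻¹)ᵀ * ((Mv (A⁻¹ * p.1.1) p.1.2)ᵀ * A * Mv (A⁻¹ * p.1.1) p.1.2) * M₀⁻¹ := by
            simp only [Matrix.mul_assoc]
        _ = (M₀⁻¹)ᵀ * (M₀ᵀ * A * M₀) * M₀⁻¹ := by rw [hH p]
        _ = ((M₀⁻¹)ᵀ * M₀ᵀ) * A * (M₀ * M₀⁻¹) := by simp only [Matrix.mul_assoc]
        _ = A := by
            rw [Matrix.mul_nonsing_inv _ hM₀, ← Matrix.transpose_mul,
              Matrix.mul_nonsing_inv _ hM₀, Matrix.transpose_one, Matrix.one_mul,
              Matrix.mul_one]⟩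
    refine Nat.card_le_card_of_injective f' ?_
    intro p p' hpp
    have h3 : Mv (A⁻¹ * p.1.1) p.1.2 * M₀⁻¹ = Mv (A⁻¹ * p'.1.1) p'.1.2 * M₀⁻¹ :=
      congrArg Subtype.val hpp
    have h4 : Mv (A⁻¹ * p.1.1) p.1.2 = Mv (A⁻¹ * p'.1.1) p'.1.2 := by
      have h5 := congrArg (· * M₀) h3
      simp only [Matrix.mul_assoc, Matrix.nonsing_inv_mul _ hM₀, Matrix.mul_one] at h5
      exact h5
    -- the matrix is invertible
    have hMu : IsUnit (Mv (A⁻¹ * p.1.1) p.1.2).det := by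
      have h5 := congrArg Matrix.det (hH p)
      rw [Matrix.det_mul, Matrix.det_mul, Matrix.det_mul, Matrix.det_mul, Matrix.det_transpose,
        Matrix.det_transpose] at h5
      rw [isUnit_iff_ne_zero]
      intro h6
      rw [h6, zero_mul, zero_mul] at h5
      exact mul_ne_zero (mul_ne_zero hM₀.ne_zero hA0) hM₀.ne_zero h5.symm
    have hcol : ∀ j : ℕ, j < 2 * g + 1 →
        ((A⁻¹ * p.1.1) ^ j) *ᵥ p.1.2 = ((A⁻¹ * p'.1.1) ^ j) *ᵥ p'.1.2 := by
      intro j hj
      funext i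
      exact congrFun (congrFun h4 i) ⟨j, hj⟩
    have hξξ : p.1.2 = p'.1.2 := by
      have := hcol 0 (by omega)
      simpa using this
    have htop : ∀ q : P, ((A⁻¹ * q.1.1) ^ (2 * g + 1)) *ᵥ q.1.2 =
        -∑ k ∈ Finset.range (2 * g + 1), (X * h).coeff k • (((A⁻¹ * q.1.1) ^ k) *ᵥ q.1.2) := by
      intro q
      have h1 : aeval (A⁻¹ * q.1.1) (X * h) *ᵥ q.1.2 = 0 := by
        rw [hch0 _ q.2.2.1, Matrix.zero_mulVec]
      rw [aeval_eq_sum_range, hdf, Finset.sum_range_succ] at h1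
      have h2 : (X * h).coeff (2 * g + 1) = 1 := by rw [← hdf]; exact hmf.coeff_natDegree
      rw [h2, one_smul, Matrix.add_mulVec, Matrix.sum_mulVec] at h1
      have h3 : ∑ k ∈ Finset.range (2 * g + 1), ((X * h).coeff k • (A⁻¹ * q.1.1) ^ k) *ᵥ q.1.2 =
          ∑ k ∈ Finset.range (2 * g + 1), (X * h).coeff k • (((A⁻¹ * q.1.1) ^ k) *ᵥ q.1.2) :=
        Finset.sum_congr rfl fun k _ => by rw [Matrix.smul_mulVec]
      rw [h3] at h1
      exact eq_neg_of_add_eq_zero_right h1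
    have hcol' : ∀ j : ℕ, j < 2 * g + 1 →
        ((A⁻¹ * p.1.1) ^ (j + 1)) *ᵥ p.1.2 = ((A⁻¹ * p'.1.1) ^ (j + 1)) *ᵥ p'.1.2 := by
      intro j hj
      by_cases hj' : j + 1 < 2 * g + 1
      · exact hcol _ hj'
      · have : j + 1 = 2 * g + 1 := by omega
        rw [this, htop p, htop p']
        congr 1
        refine Finset.sum_congr rfl fun k hk => ?_
        rw [hcol k (Finset.mem_range.1 hk)]
    have hTM : (A⁻¹ * p.1.1) * Mv (A⁻¹ * p.1.1) p.1.2 =
        (A⁻¹ * p'.1.1) * Mv (A⁻¹ * p.1.1) p.1.2 := by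
      ext i j
      have h1 : ((A⁻¹ * p.1.1) * Mv (A⁻¹ * p.1.1) p.1.2) i j =
          (((A⁻¹ * p.1.1) ^ ((j : ℕ) + 1)) *ᵥ p.1.2) i := by
        rw [pow_succ', ← Matrix.mulVec_mulVec]
        rfl
      have h2 : ((A⁻¹ * p'.1.1) * Mv (A⁻¹ * p.1.1) p.1.2) i j =
          (((A⁻¹ * p'.1.1) ^ ((j : ℕ) + 1)) *ᵥ p'.1.2) i := by
        rw [h4, pow_succ', ← Matrix.mulVec_mulVec]
        rfl
      rw [h1, h2, hcol' j j.2]
    have hT : A⁻¹ * p.1.1 = A⁻¹ * p'.1.1 := by
      have h1 := congrArg (· * (Mv (A⁻¹ * p.1.1) p.1.2)⁻¹) hTM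
      simp only [Matrix.mul_assoc, Matrix.mul_nonsing_inv _ hMu, Matrix.mul_one] at h1
      exact h1
    refine Subtype.ext (Prod.ext ?_ hξξ)
    rw [← hAT p.1.1, hT, hAT]
  have hDP : Nat.card (D × (Bool × Bool)) ≤ Nat.card P := by
    have hch : ∀ B : D, ∃ ξ : Fin (2 * g + 1) → F,
        ∀ q : F[X], Lp A (A⁻¹ * B.1) ξ q = Lp A (A⁻¹ * B₀) v₀ q := by
      rintro ⟨B, hB, hcp, hnd⟩
      obtain ⟨v, c, hc, hw, hu, h0, h1, hns, hn⟩ := ndist_cls hg h2 hm hi hd hA hB hx hdet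
        hcp hnd huw
      obtain ⟨r, hr⟩ := cls_sq hg h2 hm hi hd h0 h1 h0₀ h1₀ hn hn₀ (nsq_nsq h2 hns hns₀)
      refine ⟨aeval (A⁻¹ * B) r *ᵥ v, fun q => ?_⟩
      rw [← cv_mul (monic_X.mul hm) (hTA B hB) v hc r q, hr, hc₀]
    choose ξ hξ using hch
    have hinv : ∀ (B : D) (e : F[X]), aeval (A⁻¹ * B.1) (e * e) = 1 → ∀ (ζ : Fin (2 * g + 1) → F),
        (∀ q : F[X], Lp A (A⁻¹ * B.1) ζ q = Lp A (A⁻¹ * B₀) v₀ q) →
        ∀ q : F[X], Lp A (A⁻¹ * B.1) (aeval (A⁻¹ * B.1) e *ᵥ ζ) q = Lp A (A⁻¹ * B₀) v₀ q := by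
      intro B e he ζ hζ q
      rw [← hζ q, Lp_apply, Lp_move ζ (hTA B.1 B.2.1), Lp_apply, Lp_apply]
      have : e * q * e = q * (e * e) := by ring
      rw [this, map_mul, he, Matrix.mul_one]
    set e : F[X] := w * h - u * X with he
    have hee : ∀ B : D, aeval (A⁻¹ * B.1) (e * e) = 1 := by
      intro B
      have hf : aeval (A⁻¹ * B.1) (X * h) = 0 := hch0 _ B.2.2.1
      have h3 : e * e = 1 - 4 * (u * w) * (X * h) := by
        have : e * e = (u * X + w * h) ^ 2 - 4 * (u * w) * (X * h) := by rw [he]; ring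
        rw [this, huw]; ring
      rw [h3, map_sub, map_mul, hf, mul_zero, sub_zero, map_one]
    have hne : ∀ (B : D) (p : F[X]), Lp A (A⁻¹ * B₀) v₀ p ≠ 0 →
        aeval (A⁻¹ * B.1) p *ᵥ ξ B ≠ 0 := by
      intro B p hp h0
      apply hp
      rw [← hξ B p, Lp_apply, ← Matrix.mulVec_mulVec, h0, Matrix.mulVec_zero, dotProduct_zero]
    have htwo : ∀ (B : D), aeval (A⁻¹ * B.1) (2 : F[X]) = (2 : F) • (1 : Mt g F) := by
      intro B
      rw [← C_ofNat, aeval_C, Algebra.algebraMap_eq_smul_one]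
    have hη1 : ∀ B : D, aeval (A⁻¹ * B.1) e *ᵥ ξ B ≠ ξ B := by
      intro B h3
      have e1 : e = 1 - 2 * (u * X) := by rw [he, ← huw]; ring
      rw [e1, map_sub, map_one, Matrix.sub_mulVec, Matrix.one_mulVec, sub_eq_self, map_mul,
        htwo B, Matrix.smul_mul, Matrix.one_mul, Matrix.smul_mulVec] at h3
      exact hne B _ hu₀ ((smul_eq_zero.1 h3).resolve_left h2)
    have hη2 : ∀ B : D, aeval (A⁻¹ * B.1) e *ᵥ ξ B ≠ -ξ B := by
      intro B h3
      have e1 : e = 2 * (w * h) - 1 := by rw [he, ← huw]; ring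
      rw [e1, map_sub, map_one, Matrix.sub_mulVec, Matrix.one_mulVec, sub_eq_neg_self, map_mul,
        htwo B, Matrix.smul_mul, Matrix.one_mul, Matrix.smul_mulVec] at h3
      exact hne B _ hw₀ ((smul_eq_zero.1 h3).resolve_left h2)
    have hξ0 : ∀ B : D, ξ B ≠ 0 := by
      intro B h3
      exact hne B _ hw₀ (by rw [h3, Matrix.mulVec_zero])
    let v : D → Bool × Bool → (Fin (2 * g + 1) → F) := fun B st =>
      match st with
      | (false, false) => ξ B
      | (false, true) => aeval (A⁻¹ * B.1) e *ᵥ ξ B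
      | (true, false) => -ξ B
      | (true, true) => -(aeval (A⁻¹ * B.1) e *ᵥ ξ B)
    have hneg : ∀ (B : D) (ζ : Fin (2 * g + 1) → F),
        (∀ q : F[X], Lp A (A⁻¹ * B.1) ζ q = Lp A (A⁻¹ * B₀) v₀ q) →
        ∀ q : F[X], Lp A (A⁻¹ * B.1) (-ζ) q = Lp A (A⁻¹ * B₀) v₀ q := by
      intro B ζ hζ q
      rw [← hζ q, Lp_apply, Lp_apply, Matrix.mulVec_neg, neg_dotProduct_neg]
    have hv : ∀ B st, ∀ q : F[X], Lp A (A⁻¹ * B.1) (v B st) q = Lp A (A⁻¹ * B₀) v₀ q := by
      rintro B ⟨_ | _, _ | _⟩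
      · exact hξ B
      · exact hinv B e (hee B) _ (hξ B)
      · exact hneg B _ (hξ B)
      · exact hneg B _ (hinv B e (hee B) _ (hξ B))
    have hvi : ∀ B, Function.Injective (v B) := by
      intro B
      have hee' : aeval (A⁻¹ * B.1) e *ᵥ (aeval (A⁻¹ * B.1) e *ᵥ ξ B) = ξ B := by
        rw [Matrix.mulVec_mulVec, ← map_mul, hee, Matrix.one_mulVec]
      have n1 : ξ B ≠ -ξ B := by
        intro h3
        have h4 : (2 : F) • ξ B = 0 := by
          rw [two_smul]
          nth_rewrite 2 [h3]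
          exact add_neg_cancel _
        exact hξ0 B ((smul_eq_zero.1 h4).resolve_left h2)
      have n2 : aeval (A⁻¹ * B.1) e *ᵥ ξ B ≠ -(aeval (A⁻¹ * B.1) e *ᵥ ξ B) := by
        intro h3
        have h4 : (2 : F) • (aeval (A⁻¹ * B.1) e *ᵥ ξ B) = 0 := by
          rw [two_smul]
          nth_rewrite 2 [h3]
          exact add_neg_cancel _
        have h5 := (smul_eq_zero.1 h4).resolve_left h2
        rw [h5, Matrix.mulVec_zero] at hee'
        exact hξ0 B hee'.symm
      have n3 := hη1 B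
      have n4 := hη2 B
      have n5 : ξ B ≠ -(aeval (A⁻¹ * B.1) e *ᵥ ξ B) := fun h3 => n4 (by
        conv_rhs => rw [h3]
        rw [neg_neg])
      have n6 : -ξ B ≠ -(aeval (A⁻¹ * B.1) e *ᵥ ξ B) := fun h3 => n3 (neg_injective h3).symm
      rintro ⟨_ | _, _ | _⟩ ⟨_ | _, _ | _⟩ hst
      · rfl
      · exact absurd hst.symm n3
      · exact absurd hst n1
      · exact absurd hst n5
      · exact absurd hst n3
      · rfl
      · exact absurd hst n4
      · exact absurd hst n2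
      · exact absurd hst.symm n1
      · exact absurd hst.symm n4
      · rfl
      · exact absurd hst n6
      · exact absurd hst.symm n5
      · exact absurd hst.symm n2
      · exact absurd hst.symm n6
      · rfl
    let f' : D × (Bool × Bool) → P := fun q =>
      ⟨(q.1.1, v q.1 q.2), q.1.2.1, q.1.2.2.1, hv q.1 q.2⟩
    refine Nat.card_le_card_of_injective f' ?_
    rintro ⟨B, st⟩ ⟨B', st'⟩ hq
    have h3 : (B.1, v B st) = (B'.1, v B' st') := congrArg Subtype.val hq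
    have h4 : B = B' := Subtype.ext (congrArg Prod.fst h3)
    subst h4
    have h5 : v B st = v B st' := congrArg Prod.snd h3
    rw [hvi B h5]
  rw [Nat.card_prod, Nat.card_prod] at hDP
  have h3 : Nat.card Bool = 2 := by simp
  rw [h3] at hDP
  have h5 : Nat.card D * (2 * 2) ≤ 2 * Nat.card F ^ (g * (2 * g + 1)) :=
    hDP.trans (hPO.trans (ogA h2 hA hx hdet))
  show 2 * Nat.card D ≤ _
  omega

end spl

/-- **part CQN** -/
theorem cqn : S_CQN := by
  intro κ _ _ h2 h hm hi hd A hA hdet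
  obtain ⟨x, hx, hdet⟩ := hdet
  exact cqn_g (g := 1) le_rfl h2 hm hi (by rw [hd]) hA hx hdet

end Pool.Agent.H68K.PR
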