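import Pool.Agent.H68K.PR.StmC

/-!
# Project PR (helper68): from balanced boxes to the height, and the main theorem

The height of `(a, b)` is `max (|a| ^ 3, |b| ^ 2)` over the infinite places with the normalized absolute
values. Multiplication by units changes the box of the pairs of height at most `X` to a box with the same
bounds (up to constants) at all places.
-/

set_option autoImplicit false
set_option linter.all false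

open Polynomial IsDedekindDomain NumberField
open Pool.Agent.N874.PP (sW)
open Pool.Agent.N783.PF (Bd)
open scoped Classical

namespace Pool.Agent.H68K.PR

/-- Units of given size. -/
def S_UNB : Prop := ∀ (F : Type) [Field F] [NumberField F], ∃ C : ℝ, 1 ≤ C ∧
  ∀ R : InfinitePlace F → ℝ, (∀ v, 0 < R v) → ∀ l : ℝ, 0 < l →
  l ^ Module.finrank ℚ F = ∏ v, R v ^ v.mult →
  ∃ u : (𝓞 F)ˣ, ∀ v : InfinitePlace F,
    l ≤ C * (v ((u : 𝓞 F) : F) * R v) ∧ v ((u : 𝓞 F) : F) * R v ≤ C * l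

/-- The pairs with irreducible polynomial and explicit Selmer group of order `n`. -/
def Gd {F : Type} [Field F] [NumberField F] (n : ℕ) (p : 𝓞 F × 𝓞 F) : Prop :=
  Irreducible (X ^ 3 + C (p.1 : F) * X + C (p.2 : F) : F[X]) ∧ SelN (p.1 : F) (p.2 : F) n

/-- A positive proportion in balanced boxes. -/
def Bal (F : Type) [Field F] [NumberField F] (n : ℕ) : Prop :=
  ∃ c : ℝ, 0 < c ∧ ∃ B₀ : ℕ, ∀ B : ℕ, B₀ ≤ B →
    c * (B : ℝ) ^ (5 * Module.finrank ℚ F) ≤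
      ({p : 𝓞 F × 𝓞 F | Bd (p.1 : F) ((B : ℝ) ^ 2) ∧ Bd (p.2 : F) ((B : ℝ) ^ 3) ∧
        Gd n p}.ncard : ℝ)

/-- The height of the pair is at most `Y`: `|a| ^ 3 ≤ Y` and `|b| ^ 2 ≤ Y` for the normalized absolute
values at all infinite places. -/
def Hle {F : Type} [Field F] [NumberField F] (Y : ℝ) (p : 𝓞 F × 𝓞 F) : Prop :=
  ∀ v : InfinitePlace F, (v (p.1 : F) ^ v.mult) ^ 3 ≤ Y ∧ (v (p.2 : F) ^ v.mult) ^ 2 ≤ Y

/-- A positive proportion with respect to the height: with explicit Selmer groups. -/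
def S_HGT : Prop := ∀ (F : Type) [Field F] [NumberField F] (n : ℕ), Bal F n →
  ∃ c : ℝ, 0 < c ∧ ∃ Y₀ : ℝ, ∀ Y : ℝ, {p : 𝓞 F × 𝓞 F | Hle Y p}.Finite ∧
    (Y₀ ≤ Y → 0 < {p : 𝓞 F × 𝓞 F | Hle Y p ∧ 4 * p.1 ^ 3 + 27 * p.2 ^ 2 ≠ 0}.ncard ∧
      c * ({p : 𝓞 F × 𝓞 F | Hle Y p ∧ 4 * p.1 ^ 3 + 27 * p.2 ^ 2 ≠ 0}.ncard : ℝ) ≤
        ({p : 𝓞 F × 𝓞 F | Hle Y p ∧ 4 * p.1 ^ 3 + 27 * p.2 ^ 2 ≠ 0 ∧ Gd n p}.ncard : ℝ))

/-- The main theorem: a positive proportion of the elliptic curves has a 2-Selmer group of dimension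
`d`. -/
def S_FINR : Prop := ∀ (F : Type) [Field F] [NumberField F] (d : ℕ),
  ∃ c : ℝ, 0 < c ∧ ∃ Y₀ : ℝ, ∀ Y : ℝ, {p : 𝓞 F × 𝓞 F | Hle Y p}.Finite ∧
    (Y₀ ≤ Y → 0 < {p : 𝓞 F × 𝓞 F | Hle Y p ∧ 4 * p.1 ^ 3 + 27 * p.2 ^ 2 ≠ 0}.ncard ∧
      c * ({p : 𝓞 F × 𝓞 F | Hle Y p ∧ 4 * p.1 ^ 3 + 27 * p.2 ^ 2 ≠ 0}.ncard : ℝ) ≤
        ({p : 𝓞 F × 𝓞 F | Hle Y p ∧ 4 * p.1 ^ 3 + 27 * p.2 ^ 2 ≠ 0 ∧
          Nat.card (Sel2 (sW (p.1 : F) (p.2 : F))) = 2 ^ d}.ncard : ℝ))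

theorem finr (hC : S_COC) (hH : S_HGT) (hB : ∀ (F : Type) [Field F] [NumberField F] (d : ℕ),
    Bal F (2 ^ d)) : S_FINR := by
  intro F _ _ d
  obtain ⟨c, hc, Y₀, h⟩ := hH F (2 ^ d) (hB F d)
  refine ⟨c, hc, Y₀, fun Y => ⟨(h Y).1, fun hY => ⟨((h Y).2 hY).1, ((h Y).2 hY).2.trans ?_⟩⟩⟩
  have h1 : {p : 𝓞 F × 𝓞 F | Hle Y p ∧ 4 * p.1 ^ 3 + 27 * p.2 ^ 2 ≠ 0 ∧ Gd (2 ^ d) p} ⊆
      {p : 𝓞 F × 𝓞 F | Hle Y p ∧ 4 * p.1 ^ 3 + 27 * p.2 ^ 2 ≠ 0 ∧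
          Nat.card (Sel2 (sW (p.1 : F) (p.2 : F))) = 2 ^ d} := by
    rintro p ⟨h1, h2, h3, h4⟩
    refine ⟨h1, h2, hC F _ _ ?_ h3 _ h4⟩
    intro h0
    apply h2
    have h5 : (algebraMap (𝓞 F) F) (4 * p.1 ^ 3 + 27 * p.2 ^ 2) = 0 := by
      rw [← h0, map_add, map_mul, map_mul, map_pow, map_pow, map_ofNat, map_ofNat]
    exact (map_eq_zero_iff _ (FaithfulSMul.algebraMap_injective (𝓞 F) F)).1 h5
  exact_mod_cast Set.ncard_le_ncard h1 ((h Y).1.subset fun p hp => hp.1)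

end Pool.Agent.H68K.PR
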