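import Pool.Agent.H68K.PR.Big
import Pool.Agent.H68K.PR.StmH
import Pool.Agent.N507.JM.Loc2
import Pool.Agent.N521.QM.Selc

/-!
# Project PR (helper68): auxiliary results for the core
-/

set_option autoImplicit false
set_option linter.all false

open Polynomial IsDedekindDomain Matrix NumberField WithZero
open scoped Classical

namespace Pool.Agent.H68K.PR

open Pool.Agent.N874.PP (Ev Sq1 U0)
open Pool.Agent.N783.PQ (LocIm)
open Pool.Agent.N874.JM (LocF)
open Pool.Agent.N874.PM (PLoc)
open Pool.Agent.N783.PF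

theorem ploc_congr {M K : Type} [Field M] [Field K] [Algebra M K] {A B : M} {h h' k : M[X]}
    (H : PLoc K A B h) (hk : X ^ 3 + C A * X + C B ∣ h' - h * k ^ 2) : PLoc K A B h' := by
  have h1 : X ^ 3 + C (algebraMap M K A) * X + C (algebraMap M K B) ∣
      h'.map (algebraMap M K) - h.map (algebraMap M K) * (k.map (algebraMap M K)) ^ 2 := by
    have := Polynomial.map_dvd (algebraMap M K) hk
    simpa only [Polynomial.map_add, Polynomial.map_mul, Polynomial.map_pow, Polynomial.map_X,
      Polynomial.map_C, Polynomial.map_sub] using this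
  rcases H with ⟨g, hg⟩ | ⟨x, y, hy, hxy, g, hg⟩
  · left
    refine ⟨g * k.map (algebraMap M K), ?_⟩
    have e : h'.map (algebraMap M K) - (g * k.map (algebraMap M K)) ^ 2 =
        (h'.map (algebraMap M K) - h.map (algebraMap M K) * (k.map (algebraMap M K)) ^ 2) +
        (k.map (algebraMap M K)) ^ 2 * (h.map (algebraMap M K) - g ^ 2) := by ring
    rw [e]
    exact dvd_add h1 (hg.mul_left _)
  · right
    refine ⟨x, y, hy, hxy, g * k.map (algebraMap M K), ?_⟩
    have e : (C x - X) * h'.map (algebraMap M K) - (g * k.map (algebraMap M K)) ^ 2 =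
        (C x - X) * (h'.map (algebraMap M K) -
          h.map (algebraMap M K) * (k.map (algebraMap M K)) ^ 2) +
        (k.map (algebraMap M K)) ^ 2 * ((C x - X) * h.map (algebraMap M K) - g ^ 2) := by ring
    rw [e]
    exact dvd_add (h1.mul_left _) (hg.mul_left _)

section cub

variable {F : Type} [Field F] [NumberField F]

theorem cub_eq {R : Type} [CommRing R] [Nontrivial R] {f : R[X]} (hm : f.Monic)
    (hd : f.natDegree = 3) (h2 : f.coeff 2 = 0) :
    f = X ^ 3 + C (f.coeff 1) * X + C (f.coeff 0) := by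
  ext1 i
  by_cases h0 : i = 0
  · subst h0
    simp [coeff_X_pow]
  by_cases h1 : i = 1
  · subst h1
    simp [coeff_X_pow, coeff_C]
  by_cases h2' : i = 2
  · subst h2'
    simp [coeff_X_pow, coeff_C, coeff_X, h2]
  by_cases h3 : i = 3
  · subst h3
    have : f.coeff 3 = 1 := by
      rw [← hd]
      exact hm
    simp [coeff_X_pow, coeff_C, coeff_X, this]
  · rw [coeff_eq_zero_of_natDegree_lt (by omega)]
    simp [coeff_X_pow, coeff_C, coeff_X, h0, h1, h3]
    omega

theorem fF_cub {f : (𝓞 F)[X]} (hm : f.Monic) (hd : f.natDegree = 3) (h2 : f.coeff 2 = 0) :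
    fF f = X ^ 3 + C (f.coeff 1 : F) * X + C (f.coeff 0 : F) := by
  rw [fF]
  conv_lhs => rw [cub_eq hm hd h2]
  simp only [Polynomial.map_add, Polynomial.map_mul, Polynomial.map_pow, Polynomial.map_X,
    Polynomial.map_C]

theorem scale_cub {f : (𝓞 F)[X]} (hm : f.Monic) (hd : f.natDegree = 3) (h2 : f.coeff 2 = 0)
    (D : ℕ) : fF (f.scaleRoots ((D : ℕ) : 𝓞 F)) =
      X ^ 3 + C ((f.coeff 1 : F) * (D : F) ^ 2) * X + C ((f.coeff 0 : F) * (D : F) ^ 3) := by
  have hmD : (f.scaleRoots (D : 𝓞 F)).Monic := (monic_scaleRoots_iff (D : 𝓞 F)).2 hm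
  rw [fF_cub hmD (by rw [natDegree_scaleRoots, hd]) (by rw [coeff_scaleRoots, h2, zero_mul])]
  rw [coeff_scaleRoots, coeff_scaleRoots, hd]
  have e1 : algebraMap (𝓞 F) F (f.coeff 1 * (D : 𝓞 F) ^ (3 - 1)) =
      (f.coeff 1 : F) * (D : F) ^ 2 := by
    rw [map_mul, map_pow, map_natCast]
  have e0 : algebraMap (𝓞 F) F (f.coeff 0 * (D : 𝓞 F) ^ (3 - 0)) =
      (f.coeff 0 : F) * (D : F) ^ 3 := by
    rw [map_mul, map_pow, map_natCast]
  exact congrArg₂ (fun a b : F => X ^ 3 + C a * X + C b) e1 e0

theorem disc_ne {K : Type} [Field K] [CharZero K] {A B : K}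
    (hirr : Irreducible (X ^ 3 + C A * X + C B : K[X])) : 4 * A ^ 3 + 27 * B ^ 2 ≠ 0 := by
  intro h0
  have hdeg : (X ^ 3 + C A * X + C B : K[X]).natDegree = 3 := by compute_degree!
  have hnr : ∀ x : K, x ^ 3 + A * x + B ≠ 0 := by
    intro x hx
    have hroot : (X ^ 3 + C A * X + C B : K[X]).IsRoot x := by
      simp only [IsRoot, eval_add, eval_mul, eval_pow, eval_X, eval_C]
      exact hx
    have h1 := degree_eq_one_of_irreducible_of_root hirr hroot
    rw [degree_eq_natDegree hirr.ne_zero, hdeg] at h1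
    exact absurd h1 (by norm_num)
  by_cases hA : A = 0
  · subst hA
    have hB : B = 0 := by
      have : (27 : K) * B ^ 2 = 0 := by linear_combination h0
      rcases mul_eq_zero.1 this with h | h
      · exact absurd h (by norm_num)
      · exact pow_eq_zero_iff two_ne_zero |>.1 h
    exact hnr 0 (by rw [hB]; ring)
  · apply hnr (3 * B / A)
    have : (3 * B / A) ^ 3 + A * (3 * B / A) + B = B * (4 * A ^ 3 + 27 * B ^ 2) / A ^ 3 := by
      field_simp
      ring
    rw [this, h0, mul_zero, zero_div]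

/-- A cubic polynomial which is irreducible modulo `w` is irreducible over the completion. -/
theorem irr_loc {f : (𝓞 F)[X]} (hm : f.Monic) (hd : f.natDegree = 3)
    (w : HeightOneSpectrum (𝓞 F)) (hirr : Irreducible (rd w.asIdeal f)) :
    Irreducible ((fF f).map (algebraMap F (w.adicCompletion F))) := by
  haveI hpr := w.isPrime
  haveI : Nontrivial (𝓞 F ⧸ w.asIdeal) := Ideal.Quotient.nontrivial_iff.mpr hpr.ne_top
  haveI : IsDomain (𝓞 F ⧸ w.asIdeal) := Ideal.Quotient.isDomain _
  have hm1 : ((fF f).map (algebraMap F (w.adicCompletion F))).Monic := (hm.map _).map _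
  have hd1 : ((fF f).map (algebraMap F (w.adicCompletion F))).natDegree = 3 := by
    rw [(hm.map _).natDegree_map, hm.natDegree_map, hd]
  rw [hm1.irreducible_iff_roots_eq_zero_of_degree_le_three (by omega) (by omega)]
  rw [Multiset.eq_zero_iff_forall_notMem]
  intro x hx
  rw [mem_roots hm1.ne_zero, IsRoot] at hx
  obtain ⟨v, hv⟩ : ∃ v : Valuation (w.adicCompletion F) (WithZero (Multiplicative ℤ)),
      v = Valued.v := ⟨_, rfl⟩
  have hint : ∀ a : 𝓞 F, v (algebraMap F (w.adicCompletion F) (a : F)) ≤ 1 := by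
    intro a
    rw [hv, Pool.Agent.N704.PP.vx]
    exact w.valuation_le_one a
  have hev : ∀ y : w.adicCompletion F, ((fF f).map (algebraMap F (w.adicCompletion F))).eval y =
      y ^ 3 + algebraMap F (w.adicCompletion F) (f.coeff 2 : F) * y ^ 2 +
      algebraMap F (w.adicCompletion F) (f.coeff 1 : F) * y +
      algebraMap F (w.adicCompletion F) (f.coeff 0 : F) := by
    intro y
    rw [eval_eq_sum_range, hd1]
    simp only [Finset.sum_range_succ, Finset.sum_range_zero, coeff_map]
    have : f.coeff 3 = 1 := by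
      rw [← hd]
      exact hm
    rw [this, map_one, map_one]
    ring
  have hvx : v x ≤ 1 := by
    by_contra hgt
    push Not at hgt
    have hx0 : v x ≠ 0 := by
      intro h0
      rw [h0] at hgt
      exact absurd hgt (not_lt.2 zero_le)
    rw [hev] at hx
    have e1 : x ^ 3 = -(algebraMap F (w.adicCompletion F) (f.coeff 2 : F) * x ^ 2 +
      algebraMap F (w.adicCompletion F) (f.coeff 1 : F) * x +
      algebraMap F (w.adicCompletion F) (f.coeff 0 : F)) := by linear_combination hx
    have h1 : v (x ^ 3) ≤ v x ^ 2 := by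
      rw [e1, Valuation.map_neg]
      refine (Valuation.map_add _ _ _).trans (max_le ((Valuation.map_add _ _ _).trans
        (max_le ?_ ?_)) ?_)
      · rw [map_mul, map_pow]
        exact mul_le_of_le_one_left' (hint _)
      · rw [map_mul, sq]
        exact mul_le_mul' ((hint _).trans hgt.le) le_rfl
      · exact (hint _).trans (one_le_pow₀ hgt.le)
    rw [map_pow] at h1
    have h2 : v x ^ 2 < v x ^ 3 := pow_lt_pow_right₀ hgt (by norm_num)
    exact absurd h1 (not_le.2 h2)
  obtain ⟨a, ha⟩ := Pool.Agent.N507.JM.resC (M := F) w x (by rw [← hv]; exact hvx)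
  rw [← hv] at ha
  obtain ⟨z, hz⟩ : ∃ z, z = algebraMap F (w.adicCompletion F) (a : F) := ⟨_, rfl⟩
  have ha' : v (x - z) < 1 := by
    rw [hz]
    exact ha
  have hvz : v z ≤ 1 := by rw [hz]; exact hint a
  have hfa : v (algebraMap F (w.adicCompletion F) ((f.eval a : 𝓞 F) : F)) < 1 := by
    have e1 : algebraMap F (w.adicCompletion F) ((f.eval a : 𝓞 F) : F) =
        ((fF f).map (algebraMap F (w.adicCompletion F))).eval z := by
      rw [hz, eval_map_algebraMap, aeval_algebraMap_apply, fF, aeval_map_algebraMap]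
      congr 1
      rw [aeval_algebraMap_apply, coe_aeval_eq_eval]
    rw [e1]
    rw [hev] at hx ⊢
    have e2 : z ^ 3 + algebraMap F (w.adicCompletion F) (f.coeff 2 : F) * z ^ 2 +
      algebraMap F (w.adicCompletion F) (f.coeff 1 : F) * z +
      algebraMap F (w.adicCompletion F) (f.coeff 0 : F) =
      -((x - z) * ((x ^ 2 + x * z + z ^ 2) +
        algebraMap F (w.adicCompletion F) (f.coeff 2 : F) * (x + z) +
        algebraMap F (w.adicCompletion F) (f.coeff 1 : F))) := by
      linear_combination hx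
    rw [e2, Valuation.map_neg, map_mul]
    refine lt_of_le_of_lt (mul_le_of_le_one_right' ?_) ha'
    have hxz : v (x + z) ≤ 1 := (Valuation.map_add _ _ _).trans (max_le hvx hvz)
    refine (Valuation.map_add _ _ _).trans (max_le ((Valuation.map_add _ _ _).trans
        (max_le ((Valuation.map_add _ _ _).trans (max_le ((Valuation.map_add _ _ _).trans
        (max_le ?_ ?_)) ?_)) ?_)) ?_)
    · rw [map_pow]
      exact pow_le_one₀ zero_le hvx
    · rw [map_mul]
      exact mul_le_one' hvx hvz
    · rw [map_pow]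
      exact pow_le_one₀ zero_le hvz
    · rw [map_mul]
      exact mul_le_one' (hint _) hxz
    · exact hint _
  rw [hv, Pool.Agent.N704.PP.vx] at hfa
  have hmem : f.eval a ∈ w.asIdeal := (HeightOneSpectrum.valuation_lt_one_iff_mem (K := F) w _).1 hfa
  have hroot : (rd w.asIdeal f).IsRoot (Ideal.Quotient.mk w.asIdeal a) := by
    rw [IsRoot, rd, eval_map, eval₂_at_apply]
    exact Ideal.Quotient.eq_zero_iff_mem.2 hmem
  have hdr : (rd w.asIdeal f).natDegree = 3 := by rw [rd, hm.natDegree_map, hd]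
  haveI hmax : w.asIdeal.IsMaximal := w.isMaximal
  letI : Field (𝓞 F ⧸ w.asIdeal) := Ideal.Quotient.field _
  have h1 := degree_eq_one_of_irreducible_of_root hirr hroot
  rw [degree_eq_natDegree hirr.ne_zero, hdr] at h1
  exact absurd h1 (by norm_num)

end cub

/-- The field `L` as a quotient ring. -/
theorem ex_equiv {F L : Type} [Field F] [Field L] [Algebra F L] [FiniteDimensional F L] {F' : F[X]}
    (hirr : Irreducible F') (hm : F'.Monic) (hd : F'.natDegree = Module.finrank F L) {Θ : L}
    (hroot : aeval Θ F' = 0) : ∃ e : AdjoinRoot F' ≃ₐ[F] L,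
      ∀ p : F[X], e (AdjoinRoot.mk F' p) = aeval Θ p := by
  haveI hfact' : Fact (Irreducible F') := ⟨hirr⟩
  obtain ⟨φ, hφ⟩ : ∃ φ : AdjoinRoot F' →ₐ[F] L, φ = AdjoinRoot.liftAlgHom F' (Algebra.ofId F _) Θ hroot :=
    ⟨_, rfl⟩
  have hφmk : ∀ p : F[X], φ (AdjoinRoot.mk F' p) = aeval Θ p := by
    intro p
    have h1 := AdjoinRoot.liftAlgHom_mk F' (Algebra.ofId F L) Θ hroot p
    rw [Algebra.toRingHom_ofId, ← Polynomial.aeval_def] at h1
    rw [hφ]
    exact h1
  have hφinj : Function.Injective φ := φ.toRingHom.injective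
  haveI : FiniteDimensional F (AdjoinRoot F') := hm.finite_adjoinRoot
  have hrk : Module.finrank F (AdjoinRoot F') = Module.finrank F L := by
    rw [(AdjoinRoot.powerBasis hm.ne_zero).finrank, AdjoinRoot.powerBasis_dim, hd]
  have hφsurj : Function.Surjective φ :=
    (LinearMap.injective_iff_surjective_of_finrank_eq_finrank (f := φ.toLinearMap) hrk).1 hφinj
  exact ⟨AlgEquiv.ofBijective φ ⟨hφinj, hφsurj⟩, fun p => hφmk p⟩

end Pool.Agent.H68K.PR
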