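import Pool.Agent.H68K.PR.Stm
import Pool.Agent.N771.PF.Core
import Pool.Agent.N614.PF.Chi

/-!
# Project PR (helper68), part BIG: the relaxed Selmer group is big
-/

set_option autoImplicit false
set_option linter.all false

open Polynomial IsDedekindDomain Matrix NumberField WithZero
open scoped Classical

namespace Pool.Agent.H68K.PR

open Pool.Agent.N874.PP (Ev Sq1 U0)
open Pool.Agent.N783.PQ (LocIm)
open Pool.Agent.N874.JM (LocF)
open Pool.Agent.N783.PF
open Pool.Agent.N771.PF (locF_one locF_mul rd_eq)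

theorem locIm_congr {E : Type} [Field E] {f h h' k : E[X]} (H : LocIm E f h)
    (hk : f ∣ h' - h * k ^ 2) : LocIm E f h' := by
  obtain ⟨l, s, hl, hs⟩ := H
  refine ⟨l, s * k, hl, ?_⟩
  have e : h' * (l.map fun p => (-1) ^ p.1.natDegree * p.1).prod - (s * k) ^ 2 =
      (h' - h * k ^ 2) * (l.map fun p => (-1) ^ p.1.natDegree * p.1).prod +
      k ^ 2 * (h * (l.map fun p => (-1) ^ p.1.natDegree * p.1).prod - s ^ 2) := by ring
  rw [e]
  exact dvd_add (hk.mul_right _) (hs.mul_left _)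

theorem locF_congr {M E : Type} [Field M] [Field E] [Algebra M E] {f h h' k : M[X]}
    (H : LocF E f h) (hk : f ∣ h' - h * k ^ 2) : LocF E f h' := by
  have h1 : LocIm E (f.map (algebraMap M E)) (h.map (algebraMap M E)) := H
  have h2 : f.map (algebraMap M E) ∣ h'.map (algebraMap M E) -
      h.map (algebraMap M E) * (k.map (algebraMap M E)) ^ 2 := by
    rw [← Polynomial.map_pow, ← Polynomial.map_mul, ← Polynomial.map_sub]
    exact Polynomial.map_dvd _ hk
  exact locIm_congr h1 h2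

section gen

variable {F L : Type} [Field F] [NumberField F] [Field L] [NumberField L] [Algebra F L]
  {g : ℕ} {f : (𝓞 F)[X]} {θ : L}

theorem ex_pol (h : IsGen g f θ) (x : L) : ∃ p : F[X], aeval θ p = x := by
  obtain ⟨c, hc⟩ := h.gen x
  refine ⟨∑ i, C (c i) * X ^ (i : ℕ), ?_⟩
  rw [hc, map_sum]
  refine Finset.sum_congr rfl fun i _ => ?_
  rw [map_mul, map_pow, aeval_X, aeval_C]

theorem dvd_of_aeval (h : IsGen g f θ) {p : F[X]} (hp : aeval θ p = 0) : fF f ∣ p := by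
  rw [← Pool.Agent.N614.PF.minpoly_eq h]
  exact minpoly.dvd F θ hp

end gen

/-- The primes over 2 with exponents. -/
theorem two_fac (F : Type) [Field F] [NumberField F] : ∃ (T : Finset (HeightOneSpectrum (𝓞 F)))
    (e : HeightOneSpectrum (𝓞 F) → ℕ), (∀ w : HeightOneSpectrum (𝓞 F), w ∈ T ↔ (2 : 𝓞 F) ∈ w.asIdeal) ∧
    (∀ w : HeightOneSpectrum (𝓞 F), w.valuation F (2 : F) = WithZero.exp (-(e w : ℤ))) ∧
    ∏ w ∈ T, Ideal.absNorm w.asIdeal ^ e w = 2 ^ Module.finrank ℚ F := by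
  have h20 : (2 : 𝓞 F) ≠ 0 := two_ne_zero
  have hI : Ideal.span {(2 : 𝓞 F)} ≠ ⊥ := by
    rw [Ne, Ideal.span_singleton_eq_bot]
    exact h20
  have hfin := Ideal.finite_factors hI
  refine ⟨hfin.toFinset, fun w => (Associates.mk w.asIdeal).count
    (Associates.mk (Ideal.span {(2 : 𝓞 F)})).factors, fun w => ?_, fun w => ?_, ?_⟩
  · rw [Set.Finite.mem_toFinset, Set.mem_setOf_eq, Ideal.dvd_span_singleton]
  · have h1 : (2 : F) = algebraMap (𝓞 F) F 2 := by rw [map_ofNat]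
    rw [h1, w.valuation_of_algebraMap, w.intValuation_if_neg h20]
  · have h1 := Ideal.finprod_heightOneSpectrum_factorization hI
    have h2 : (∏ᶠ v : HeightOneSpectrum (𝓞 F), v.maxPowDividing (Ideal.span {(2 : 𝓞 F)})) =
        ∏ v ∈ hfin.toFinset, v.maxPowDividing (Ideal.span {(2 : 𝓞 F)}) := by
      refine finprod_eq_prod_of_mulSupport_subset _ fun v hv => ?_
      rw [Function.mem_mulSupport, HeightOneSpectrum.maxPowDividing] at hv
      rw [Set.Finite.coe_toFinset, Set.mem_setOf_eq]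
      by_contra hn
      apply hv
      have : (Associates.mk v.asIdeal).count (Associates.mk (Ideal.span {(2 : 𝓞 F)})).factors = 0 := by
        by_contra h0
        apply hn
        have h3 := (Associates.count_ne_zero_iff_dvd hI v.irreducible).1 h0
        exact h3
      rw [this, pow_zero]
    rw [h2] at h1
    have h3 := congrArg Ideal.absNorm h1
    rw [map_prod] at h3
    have h4 : Ideal.absNorm (Ideal.span {(2 : 𝓞 F)}) = 2 ^ Module.finrank ℚ F := by
      rw [Ideal.absNorm_span_singleton]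
      have : (2 : 𝓞 F) = algebraMap ℤ (𝓞 F) 2 := by simp
      rw [this, Algebra.norm_algebraMap, Int.natAbs_pow, RingOfIntegers.rank]
      rfl
    rw [h4] at h3
    rw [← h3]
    refine Finset.prod_congr rfl fun w _ => ?_
    rw [HeightOneSpectrum.maxPowDividing, map_pow]

theorem big (hUNI : S_UNI) (hRNQ : S_RNQ) (hTWOI : S_TWOI) (hREAL : S_REAL) (F : Type) [Field F]
    [NumberField F] : S_BIG F := by
  intro W L _ _ _ f f₁ θ S 𝔮 r P hc hsq htr hf₁ hS hW hcon 𝔔 h𝔔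
  have hqp : ∀ q ∈ S, q.Prime := fun q hq => (hS q hq).1
  -- the primes are different
  have hinj : Set.InjOn 𝔔 S := by
    intro q hq q' hq' he
    by_contra hne
    have hov : ∀ q ∈ S, (q : 𝓞 L) ∈ (𝔔 q).asIdeal := by
      intro q hq
      have h1 := (h𝔔 q hq).1 _ (hS q hq).2.2.2.2.2.2.1
      rwa [map_natCast] at h1
    have h1 : (q : 𝓞 L) ∈ (𝔔 q).asIdeal := hov q hq
    have h2 : (q' : 𝓞 L) ∈ (𝔔 q).asIdeal := by rw [he]; exact hov q' hq'
    have hco : Nat.Coprime q q' := (Nat.coprime_primes (hqp q hq) (hqp q' hq')).2 hne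
    have h3 : IsCoprime (q : ℤ) (q' : ℤ) := Nat.isCoprime_iff_coprime.2 hco
    obtain ⟨a, b, hab⟩ := h3
    apply (𝔔 q).isPrime.ne_top
    rw [Ideal.eq_top_iff_one]
    have h4 : (1 : 𝓞 L) = (a : 𝓞 L) * (q : 𝓞 L) + (b : 𝓞 L) * (q' : 𝓞 L) := by
      have := congrArg (fun z : ℤ => (z : 𝓞 L)) hab
      push_cast at this
      exact this.symm
    rw [h4]
    exact Ideal.add_mem _ (Ideal.mul_mem_left _ _ h1) (Ideal.mul_mem_left _ _ h2)
  obtain ⟨A, hA1, hA2, hA3⟩ := hUNI F L (by rw [hc.rank]; exact ⟨1, rfl⟩) (S.image 𝔔) (by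
    intro 𝔓 h𝔓
    obtain ⟨q, hq, rfl⟩ := Finset.mem_image.1 h𝔓
    exact hRNQ W F L f θ S 𝔮 r P hc hsq hS q hq (hcon q hq) _ (h𝔔 q hq).1 (h𝔔 q hq).2)
  rw [Finset.card_image_of_injOn hinj] at hA1
  -- the primes over two
  obtain ⟨T, e, hT1, hT2, hT3⟩ := two_fac F
  have hirr : ∀ w : HeightOneSpectrum (𝓞 F), (2 : 𝓞 F) ∈ w.asIdeal →
      Irreducible (rd w.asIdeal f) := by
    intro w hw
    have h1 : Cg w.asIdeal f f₁ := by
      intro j
      have h2 : sp F W ≤ w.asIdeal := by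
        rw [sp, Ideal.span_singleton_le_iff_mem]
        obtain ⟨k, hk⟩ := hf₁.two
        rw [hk, Nat.cast_mul]
        exact w.asIdeal.mul_mem_right _ (by exact_mod_cast hw)
      exact h2 (hW j)
    rw [rd_eq h1]
    exact hf₁.irr _ w.isPrime hw
  have hTW : ∀ w : HeightOneSpectrum (𝓞 F), ∃ C : Finset L, w ∈ T →
      C.card ≤ Ideal.absNorm w.asIdeal ^ e w ∧
      (∀ c ∈ C, c ≠ 0 ∧ IsSquare (Algebra.norm F c)) ∧
      ∀ α : L, α ≠ 0 → IsSquare (Algebra.norm F α) → ∃ c ∈ C, ∀ h : F[X], aeval θ h = α * c →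
        LocF (w.adicCompletion F) (fF f) h := by
    intro w
    by_cases hw : w ∈ T
    · obtain ⟨C, hC⟩ := hTWOI F L f θ hc htr w ((hT1 w).1 hw) (hirr w ((hT1 w).1 hw)) (e w) (hT2 w)
      exact ⟨C, fun _ => hC⟩
    · exact ⟨∅, fun h => absurd h hw⟩
  choose Cw hCw using hTW
  obtain ⟨Cs, hCs1, hCs2⟩ := hREAL F L f θ hc htr
  -- the choices
  have hchw : ∀ (w : HeightOneSpectrum (𝓞 F)) (α : L), ∃ c : L, w ∈ T → α ∈ A → c ∈ Cw w ∧
      ∀ h : F[X], aeval θ h = α * c → LocF (w.adicCompletion F) (fF f) h := by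
    intro w α
    by_cases hw : w ∈ T
    · by_cases hα : α ∈ A
      · obtain ⟨c, hc1, hc2⟩ := (hCw w hw).2.2 α (hA2 α hα).1 (hA2 α hα).2.1
        exact ⟨c, fun _ _ => ⟨hc1, hc2⟩⟩
      · exact ⟨0, fun _ h => absurd h hα⟩
    · exact ⟨0, fun h => absurd h hw⟩
  choose cw hcw using hchw
  have hchs : ∀ (σ : F →+* ℝ) (α : L), ∃ c : L, α ∈ A → c ∈ Cs σ ∧
      ∀ h : F[X], aeval θ h = α * c → LocIm ℝ ((fF f).map σ) (h.map σ) := by
    intro σ α
    by_cases hα : α ∈ A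
    · obtain ⟨c, hc1, hc2⟩ := (hCs2 σ).2 α (hA2 α hα).1 (hA2 α hα).2.1
      exact ⟨c, fun _ => ⟨hc1, hc2⟩⟩
    · exact ⟨0, fun h => absurd h hα⟩
  choose cs hcs using hchs
  -- pigeonhole
  let Φ : L → (T → L) × ((F →+* ℝ) → L) := fun α => (fun w => cw w α, fun σ => cs σ α)
  let t : Finset ((T → L) × ((F →+* ℝ) → L)) :=
    (Fintype.piFinset fun w : T => Cw w) ×ˢ (Fintype.piFinset fun σ => Cs σ)
  have hmaps : ∀ α ∈ A, Φ α ∈ t := by
    intro α hα
    rw [Finset.mem_product]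
    constructor
    · rw [Fintype.mem_piFinset]
      exact fun w => (hcw w α w.2 hα).1
    · rw [Fintype.mem_piFinset]
      exact fun σ => (hcs σ α hα).1
  have hAne : A.Nonempty := by
    rw [← Finset.card_pos]
    by_contra h0
    have : A.card = 0 := by omega
    rw [this, zero_mul] at hA1
    have := Nat.two_pow_pos (S.card + Fintype.card (InfinitePlace L))
    omega
  have htne : t.Nonempty := by
    obtain ⟨α, hα⟩ := hAne
    exact ⟨_, hmaps α hα⟩
  have hcard : t.card * 2 ^ S.card ≤ A.card := by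
    have h1 : t.card = (∏ w : T, (Cw w).card) * ∏ σ, (Cs σ).card := by
      rw [Finset.card_product, Fintype.card_piFinset, Fintype.card_piFinset]
    have h2 : ∏ w : T, (Cw w).card ≤ 2 ^ Module.finrank ℚ F := by
      rw [← hT3, ← Finset.prod_coe_sort T]
      exact Finset.prod_le_prod (fun _ _ => Nat.zero_le _) fun w _ => (hCw w w.2).1
    have h3 : 0 < 2 ^ Fintype.card (InfinitePlace F) := Nat.two_pow_pos _
    refine Nat.le_of_mul_le_mul_right ?_ h3
    calc t.card * 2 ^ S.card * 2 ^ Fintype.card (InfinitePlace F)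
        = (∏ w : T, (Cw w).card) * ((∏ σ, (Cs σ).card) * 2 ^ Fintype.card (InfinitePlace F)) *
          2 ^ S.card := by
          rw [h1]
          ring
      _ ≤ 2 ^ Module.finrank ℚ F * ((∏ σ, (Cs σ).card) * 2 ^ Fintype.card (InfinitePlace F)) *
          2 ^ S.card := Nat.mul_le_mul_right _ (Nat.mul_le_mul_right _ h2)
      _ = ((∏ σ, (Cs σ).card) * 2 ^ (Module.finrank ℚ F + Fintype.card (InfinitePlace F))) *
          2 ^ S.card := by
          rw [pow_add]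
          ring
      _ ≤ 2 ^ Fintype.card (InfinitePlace L) * 2 ^ S.card := Nat.mul_le_mul_right _ hCs1
      _ = 2 ^ (S.card + Fintype.card (InfinitePlace L)) := by
          rw [pow_add, mul_comm]
      _ ≤ _ := hA1
  obtain ⟨y, hy, hyc⟩ := Finset.exists_le_card_fiber_of_mul_le_card_of_maps_to hmaps htne hcard
  obtain ⟨B, hB⟩ : ∃ B : Finset L, B = A.filter fun α => Φ α = y := ⟨_, rfl⟩
  have hyc : 2 ^ S.card ≤ B.card := by
    rw [hB]
    convert hyc
  have hBne : B.Nonempty := by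
    rw [← Finset.card_pos]
    exact lt_of_lt_of_le (Nat.two_pow_pos _) hyc
  obtain ⟨α₀, hα₀⟩ := hBne
  have hBA : ∀ α ∈ B, α ∈ A ∧ Φ α = y := by
    intro α hα
    rw [hB] at hα
    exact Finset.mem_filter.1 hα
  have h00 : α₀ ≠ 0 := (hA2 α₀ (hBA α₀ hα₀).1).1
  refine ⟨B.image fun α => α * α₀, ?_, ?_, ?_⟩
  · rw [Finset.card_image_of_injective _ (mul_left_injective₀ h00)]
    exact hyc
  · intro β hβ
    obtain ⟨α, hα, rfl⟩ := Finset.mem_image.1 hβ
    obtain ⟨hαA, hαy⟩ := hBA α hα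
    obtain ⟨h0A, h0y⟩ := hBA α₀ hα₀
    have hα0 : α ≠ 0 := (hA2 α hαA).1
    have hΦ : Φ α = Φ α₀ := hαy.trans h0y.symm
    refine ⟨mul_ne_zero hα0 h00, ?_, ?_, ?_⟩
    · rw [map_mul]
      exact (hA2 α hαA).2.1.mul (hA2 α₀ h0A).2.1
    · intro 𝔓 h𝔓
      have hn : 𝔓 ∉ S.image 𝔔 := by
        intro h
        obtain ⟨q, hq, he⟩ := Finset.mem_image.1 h
        exact h𝔓 q hq he.symm
      obtain ⟨u, hu⟩ := (hA2 α hαA).2.2 𝔓 hn
      obtain ⟨v, hv⟩ := (hA2 α₀ h0A).2.2 𝔓 hn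
      exact ⟨u * v, by rw [map_mul, map_mul, hu, hv, mul_pow]⟩
    · obtain ⟨h₀, hh₀⟩ := ex_pol hc (α * α₀)
      refine ⟨h₀, hh₀, ?_, ?_⟩
      · intro w hw
        have hwT := (hT1 w).2 hw
        have hce : cw w α = cw w α₀ := congrFun (congrArg Prod.fst hΦ) ⟨w, hwT⟩
        obtain ⟨c1, c2⟩ := hcw w α hwT hαA
        obtain ⟨c3, c4⟩ := hcw w α₀ hwT h0A
        have hc0 : cw w α ≠ 0 := ((hCw w hwT).2.1 _ c1).1
        obtain ⟨p₁, hp₁⟩ := ex_pol hc (α * cw w α)
        obtain ⟨p₂, hp₂⟩ := ex_pol hc (α₀ * cw w α₀)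
        obtain ⟨k, hk⟩ := ex_pol hc (cw w α)⁻¹
        refine locF_congr (k := k) (locF_mul (c2 p₁ hp₁) (c4 p₂ hp₂)) (dvd_of_aeval hc ?_)
        rw [map_sub, map_mul, map_mul, map_pow, hh₀, hp₁, hp₂, hk, ← hce]
        field_simp
        ring
      · intro σ
        have hce : cs σ α = cs σ α₀ := congrFun (congrArg Prod.snd hΦ) σ
        obtain ⟨c1, c2⟩ := hcs σ α hαA
        obtain ⟨c3, c4⟩ := hcs σ α₀ h0A
        have hc0 : cs σ α ≠ 0 := ((hCs2 σ).1 _ c1).1
        obtain ⟨p₁, hp₁⟩ := ex_pol hc (α * cs σ α)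
        obtain ⟨p₂, hp₂⟩ := ex_pol hc (α₀ * cs σ α₀)
        obtain ⟨k, hk⟩ := ex_pol hc (cs σ α)⁻¹
        have h1 : fF f ∣ h₀ - (p₁ * p₂) * k ^ 2 := by
          refine dvd_of_aeval hc ?_
          rw [map_sub, map_mul, map_mul, map_pow, hh₀, hp₁, hp₂, hk, ← hce]
          field_simp
          ring
        have h2 : LocIm ℝ ((fF f).map σ) ((p₁ * p₂).map σ) := by
          rw [Polynomial.map_mul]
          exact Pool.Agent.N891.PQ.LocIm.mul (c2 p₁ hp₁) (c4 p₂ hp₂)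
        refine locIm_congr (k := k.map σ) h2 ?_
        rw [← Polynomial.map_pow, ← Polynomial.map_mul, ← Polynomial.map_sub]
        exact Polynomial.map_dvd _ h1
  · intro β hβ β' hβ' hsqr
    obtain ⟨α, hα, rfl⟩ := Finset.mem_image.1 hβ
    obtain ⟨α', hα', rfl⟩ := Finset.mem_image.1 hβ'
    have h1 : α = α' := by
      refine hA3 α (hBA α hα).1 α' (hBA α' hα').1 ?_
      obtain ⟨s, hs⟩ := hsqr
      refine ⟨s / α₀, ?_⟩
      field_simp
      rw [← sq] at hs
      rw [← hs]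
      ring
    rw [h1]

end Pool.Agent.H68K.PR
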