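import Pool.Agent.H68K.PR.Pre
import Pool.Agent.H68K.PR.StmK
import Pool.Agent.N78.PF.Loc
import Pool.Agent.N170.PF.Tw
import Pool.Agent.N438.PF.LB

/-!
# Project PR (helper68), part CORE2: a twist with a 2-Selmer group of order `2 ^ D`

After `N771/PF/Core.lean` of helper771 and `N170/PF/Tw.lean` of helper170.
-/

set_option autoImplicit false
set_option linter.all false

open Polynomial IsDedekindDomain Matrix NumberField WithZero
open scoped Classical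

namespace Pool.Agent.H68K.PR

open Pool.Agent.N874.PP (Ev Sq1 U0)
open Pool.Agent.N783.PQ (LocIm)
open Pool.Agent.N874.JM (LocF)
open Pool.Agent.N874.PM (PLoc)
open Pool.Agent.N783.PF
open Pool.Agent.N891.PQ (cl cl_add_aux not_ev_exp locIm_one)
open Pool.Agent.N771.PF (locF_one locF_mul rd_eq)

theorem mem_of_ov {F L : Type} [Field F] [NumberField F] [Field L] [NumberField L] [Algebra F L]
    {w : HeightOneSpectrum (𝓞 F)} {𝔓 : HeightOneSpectrum (𝓞 L)} (h : Ov w.asIdeal 𝔓) {a : 𝓞 F}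
    (ha : algebraMap (𝓞 F) (𝓞 L) a ∈ 𝔓.asIdeal) : a ∈ w.asIdeal := by
  have h1 : w.asIdeal ≤ 𝔓.asIdeal.comap (algebraMap (𝓞 F) (𝓞 L)) := fun b hb => h b hb
  have hpr : (𝔓.asIdeal.comap (algebraMap (𝓞 F) (𝓞 L))).IsPrime := Ideal.IsPrime.comap _
  have h2 := w.isMaximal.eq_of_le hpr.ne_top h1
  rw [h2]
  exact ha

theorem core2 (hEXQ : S_EXQ) (hNS : S_NS) (hREC : S_REC) (hLOC : S_LOC) (hODD : S_ODD)
    (hSQJ : S_SQJ) (hTWS : S_TWS) (hCNT : S_CNT)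
    (hBIG : ∀ (F : Type) [Field F] [NumberField F], S_BIG F) (hCOMB : S_COMB) : S_CORE2 := by
  have hCLS := Pool.Agent.N457.PQ.cls
  intro D₀
  obtain ⟨k₀, hk₀⟩ := hCOMB D₀
  refine ⟨max k₀ 1, ?_⟩
  intro W F L _ _ _ _ _ f f₁ θ S 𝔮 r P hc hsq htr hf₁ hS hW hcon hkS hnb
  have hkS0 : k₀ ≤ S.card := (le_max_left _ _).trans hkS
  have hkS1 : 1 ≤ S.card := (le_max_right _ _).trans hkS
  have hqp : ∀ q ∈ S, q.Prime := fun q hq => (hS q hq).1
  have hq2 : ∀ q ∈ S, q ≠ 2 := by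
    intro q hq h
    have := (hS q hq).2.2.2.1
    rw [h] at this
    omega
  have hcg : ∀ q ∈ S, Cg (𝔮 q) f (X * r q) := by
    intro q hq j
    obtain ⟨-, -, -, -, -, -, hmem, -, -, -, -, -, -, hcg1, -⟩ := hS q hq
    have h1 := hcon q hq j
    have h2 : sp F q ≤ 𝔮 q := by
      rw [sp, Ideal.span_singleton_le_iff_mem]
      exact hmem
    have h3 := Ideal.add_mem _ (h2 h1) (hcg1 j)
    have e : f.coeff j - (X * r q).coeff j =
        f.coeff j - (P q).coeff j + ((P q).coeff j - (X * r q).coeff j) := by ring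
    rw [e]
    exact h3
  have hov : ∀ q ∈ S, ∀ 𝔓 : HeightOneSpectrum (𝓞 L), Ov (𝔮 q) 𝔓 → Pool.Agent.N783.PQ.Ov q 𝔓 := by
    intro q hq 𝔓 h
    have h1 := h _ (hS q hq).2.2.2.2.2.2.1
    rw [map_natCast] at h1
    exact h1
  have hone : ∀ q ∈ S, ∀ q' ∈ S, ∀ 𝔓 : HeightOneSpectrum (𝓞 L), (q : 𝓞 L) ∈ 𝔓.asIdeal →
      (q' : 𝓞 L) ∈ 𝔓.asIdeal → q = q' := by
    intro q hq q' hq' 𝔓 h1 h2
    by_contra hne
    have hco : Nat.Coprime q q' := (Nat.coprime_primes (hqp q hq) (hqp q' hq')).2 hne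
    have h3 : IsCoprime (q : ℤ) (q' : ℤ) := Nat.isCoprime_iff_coprime.2 hco
    obtain ⟨a, b, hab⟩ := h3
    apply 𝔓.isPrime.ne_top
    rw [Ideal.eq_top_iff_one]
    have h4 : (1 : 𝓞 L) = (a : 𝓞 L) * (q : 𝓞 L) + (b : 𝓞 L) * (q' : 𝓞 L) := by
      have := congrArg (fun z : ℤ => (z : 𝓞 L)) hab
      push_cast at this
      exact this.symm
    rw [h4]
    exact Ideal.add_mem _ (Ideal.mul_mem_left _ _ h1) (Ideal.mul_mem_left _ _ h2)
  have huniq : ∀ q ∈ S, ∀ q' ∈ S, ∀ 𝔓 : HeightOneSpectrum (𝓞 L), Ov (𝔮 q) 𝔓 → Ov (𝔮 q') 𝔓 →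
      q = q' := fun q hq q' hq' 𝔓 h h' => hone q hq q' hq' 𝔓 (hov q hq 𝔓 h) (hov q' hq' 𝔓 h')
  have hex : ∀ q ∈ S, ∃ 𝔓₁ 𝔔 : HeightOneSpectrum (𝓞 L), Ov (𝔮 q) 𝔓₁ ∧ Ov (𝔮 q) 𝔔 ∧
      𝔓₁.valuation L θ < 1 ∧ 𝔔.valuation L θ = 1 ∧ ¬ Ev 𝔔 ((q : L) * θ) ∧
      ∀ 𝔓 : HeightOneSpectrum (𝓞 L), Ov (𝔮 q) 𝔓 → 𝔓 = 𝔓₁ ∨ 𝔓 = 𝔔 := by
    intro q hq
    obtain ⟨𝔓₁, 𝔔, a1, a2, a3, a4, a5, a6, a7⟩ :=
      hEXQ 1 W F L f θ S 𝔮 r P le_rfl hc hsq hS q hq (hcg q hq)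
    refine ⟨𝔓₁, 𝔔, a1, a2, a3, a4, not_ev_exp ?_, a7⟩
    rw [map_mul, a6, a4, mul_one]
  haveI hne : Nonempty (HeightOneSpectrum (𝓞 L)) := by
    obtain ⟨m, hm⟩ := Ideal.exists_maximal (𝓞 L)
    exact ⟨⟨m, hm.isPrime, Ring.ne_bot_of_isMaximal_of_not_isField hm
      (NumberField.RingOfIntegers.not_isField L)⟩⟩
  obtain ⟨𝔭, h𝔭⟩ : ∃ 𝔭 : ℕ → HeightOneSpectrum (𝓞 L), 𝔭 = fun q =>
    if hq : q ∈ S then (hex q hq).choose else Classical.arbitrary _ := ⟨_, rfl⟩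
  obtain ⟨𝔔, h𝔔⟩ : ∃ 𝔔 : ℕ → HeightOneSpectrum (𝓞 L), 𝔔 = fun q =>
    if hq : q ∈ S then (hex q hq).choose_spec.choose else Classical.arbitrary _ := ⟨_, rfl⟩
  have hpq : ∀ q ∈ S, Ov (𝔮 q) (𝔭 q) ∧ Ov (𝔮 q) (𝔔 q) ∧ (𝔭 q).valuation L θ < 1 ∧
      (𝔔 q).valuation L θ = 1 ∧ ¬ Ev (𝔔 q) ((q : L) * θ) ∧
      ∀ 𝔓 : HeightOneSpectrum (𝓞 L), Ov (𝔮 q) 𝔓 → 𝔓 = 𝔭 q ∨ 𝔓 = 𝔔 q := by
    intro q hq
    have h := (hex q hq).choose_spec.choose_spec
    rw [h𝔭, h𝔔]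
    simp only [dif_pos hq]
    exact h
  -- the group `M`
  obtain ⟨M, hMd⟩ : ∃ M : Set L, M = {α | InM f θ S 𝔔 α} := ⟨_, rfl⟩
  have hMm : ∀ α, α ∈ M ↔ InM f θ S 𝔔 α := by
    intro α
    rw [hMd]
    rfl
  obtain ⟨ψ, hψd⟩ : ∃ ψ : L → (S → ZMod 2 × ZMod 2), ψ = fun (α : L) (q : S) =>
    cl (𝔔 (q : ℕ)) (((q : ℕ) : L) * θ) α := ⟨_, rfl⟩
  have hϖ : ∀ q ∈ S, (q : L) * θ ≠ 0 := by
    intro q hq h0
    exact (hpq q hq).2.2.2.2.1 (by rw [h0]; exact ⟨0, by simp⟩)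
  have hψ : ∀ α β : L, α ≠ 0 → β ≠ 0 → ψ (α * β) = ψ α + ψ β := by
    intro α β hα hβ
    rw [hψd]
    funext q
    have h := hCLS L q (𝔔 q) ((q : L) * θ) (hqp q q.2) (hq2 q q.2)
      (hov q q.2 _ (hpq q q.2).2.1) (hϖ q q.2) (hpq q q.2).2.2.2.2.1 α β hα hβ
    exact Prod.ext (cl_add_aux h.1) (cl_add_aux h.2)
  have hself : ∀ l : S → ZMod 2 × ZMod 2, l + l = 0 := by
    intro l
    funext q
    exact Prod.ext (CharTwo.add_self_eq_zero _) (CharTwo.add_self_eq_zero _)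
  have hψs : ∀ α : L, α ≠ 0 → IsSquare α → ψ α = 0 := by
    rintro α hα ⟨s, rfl⟩
    have hs : s ≠ 0 := fun h => hα (by rw [h, mul_zero])
    rw [hψ s s hs hs]
    exact hself _
  have hfst : ∀ (α : L) (q : S), (ψ α q).1 = 0 ↔ Ev (𝔔 (q : ℕ)) α := by
    intro α q
    rw [hψd]
    show (if Ev (𝔔 (q : ℕ)) α then (0 : ZMod 2) else 1) = 0 ↔ _
    by_cases h : Ev (𝔔 (q : ℕ)) α
    · rw [if_pos h]
      exact ⟨fun _ => h, fun _ => rfl⟩
    · rw [if_neg h]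
      exact ⟨fun h1 => absurd h1 one_ne_zero, fun h1 => absurd h1 h⟩
  have hsnd : ∀ (α : L) (q : S), (ψ α q).2 = 0 ↔ U0 (𝔔 (q : ℕ)) (((q : ℕ) : L) * θ) α := by
    intro α q
    rw [hψd]
    show (if U0 (𝔔 (q : ℕ)) (((q : ℕ) : L) * θ) α then (0 : ZMod 2) else 1) = 0 ↔ _
    by_cases h : U0 (𝔔 (q : ℕ)) (((q : ℕ) : L) * θ) α
    · rw [if_pos h]
      exact ⟨fun _ => h, fun _ => rfl⟩
    · rw [if_neg h]
      exact ⟨fun h1 => absurd h1 one_ne_zero, fun h1 => absurd h1 h⟩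
  have hEvmul : ∀ (𝔓 : HeightOneSpectrum (𝓞 L)) (x y : L), Ev 𝔓 x → Ev 𝔓 y → Ev 𝔓 (x * y) := by
    rintro 𝔓 x y ⟨u, hu⟩ ⟨v, hv⟩
    exact ⟨u * v, by rw [map_mul, map_mul, hu, hv, mul_pow]⟩
  have hMmul : ∀ α β, α ∈ M → β ∈ M → α * β ∈ M := by
    intro α β hα hβ
    rw [hMm] at hα hβ ⊢
    obtain ⟨h1, h2, h3, a, h4, h5, h6⟩ := hα
    obtain ⟨h1', h2', h3', b, h4', h5', h6'⟩ := hβ
    refine ⟨mul_ne_zero h1 h1', ?_, fun 𝔓 h𝔓 => hEvmul 𝔓 _ _ (h3 𝔓 h𝔓) (h3' 𝔓 h𝔓), a * b, ?_, ?_, ?_⟩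
    · rw [map_mul]
      exact h2.mul h2'
    · rw [map_mul, h4, h4']
    · intro w hw
      exact locF_mul (h5 w hw) (h5' w hw)
    · intro σ
      rw [Polynomial.map_mul]
      exact Pool.Agent.N891.PQ.LocIm.mul (h6 σ) (h6' σ)
  have hM1 : (1 : L) ∈ M := by
    rw [hMm]
    refine ⟨one_ne_zero, by rw [map_one]; exact IsSquare.one, fun 𝔓 _ => ⟨1, by rw [map_one, one_pow]⟩,
      1, by rw [map_one], ?_, ?_⟩
    · intro w _
      exact locF_one _ _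
    · intro σ
      rw [Polynomial.map_one]
      exact locIm_one _ _
  let Λ : AddSubgroup (S → ZMod 2 × ZMod 2) :=
    { carrier := {l | ∃ α ∈ M, ψ α = l}
      add_mem' := by
        rintro _ _ ⟨α, hα, rfl⟩ ⟨β, hβ, rfl⟩
        exact ⟨α * β, hMmul α β hα hβ, hψ α β ((hMm α).1 hα).1 ((hMm β).1 hβ).1⟩
      zero_mem' := by
        refine ⟨1, hM1, ?_⟩
        have h := hψ 1 1 one_ne_zero one_ne_zero
        rw [mul_one] at h
        exact left_eq_add.1 h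
      neg_mem' := by
        rintro _ ⟨α, hα, rfl⟩
        refine ⟨α, hα, ?_⟩
        rw [eq_neg_iff_add_eq_zero]
        exact hself _ }
  have hiso : ∀ l ∈ Λ, ∑ q : S, (l q).1 * (l q).2 = 0 := by
    rintro _ ⟨α, hα, rfl⟩
    obtain ⟨b1, b2, b3, h₀, b4, b5, b6⟩ := (hMm α).1 hα
    have h := hREC 1 W F L f θ S 𝔮 r P le_rfl hc hsq hS hcon 𝔔
      (fun q hq => ⟨(hpq q hq).2.1, (hpq q hq).2.2.2.1⟩) h₀ (by rw [b4]; exact b1)
      (by rw [b4]; exact b2) (by rw [b4]; exact b3) b5 b6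
    rw [b4] at h
    have e1 : ∑ q : S, (ψ α q).1 * (ψ α q).2 = ∑ q ∈ S,
        (if ¬ Ev (𝔔 q) α ∧ ¬ Sq1 (𝔔 q) (α * ((q : L) * θ)) then (1 : ZMod 2) else 0) := by
      rw [← Finset.sum_coe_sort S]
      refine Finset.sum_congr rfl fun q _ => ?_
      simp only [hψd, cl]
      by_cases he : Ev (𝔔 q) α
      · rw [if_pos he, zero_mul, if_neg (fun h => h.1 he)]
      · by_cases hs : Sq1 (𝔔 q) (α * (((q : ℕ) : L) * θ))
        · have hu : U0 (𝔔 q) (((q : ℕ) : L) * θ) α := ⟨fun h => absurd h he, fun _ => hs⟩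
          rw [if_neg he, if_pos hu, mul_zero, if_neg (fun h => h.2 hs)]
        · have hu : ¬ U0 (𝔔 q) (((q : ℕ) : L) * θ) α := fun h => hs (h.2 he)
          rw [if_neg he, if_neg hu, mul_one, if_pos ⟨he, hs⟩]
    rw [e1, Finset.sum_ite, Finset.sum_const_zero, add_zero, Finset.sum_const, nsmul_eq_mul,
      mul_one]
    exact (ZMod.natCast_eq_zero_iff_even).2 h
  -- classes with small support
  have hsmall : ∀ α ∈ M, ∀ Q ⊆ S, Nat.log 2 S.card ^ 2 * Q.card < S.card →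
      (∀ q (hq : q ∈ S), q ∉ Q → ψ α ⟨q, hq⟩ = 0) → IsSquare α := by
    intro α hα Q hQS hQc hz
    obtain ⟨b1, b2, b3, -⟩ := (hMm α).1 hα
    have hz1 : ∀ q (hq : q ∈ S), q ∉ Q → Ev (𝔔 q) α ∧ U0 (𝔔 q) ((q : L) * θ) α := by
      intro q hq hqQ
      have h1 := hz q hq hqQ
      exact ⟨(hfst α ⟨q, hq⟩).1 (by rw [h1]; rfl), (hsnd α ⟨q, hq⟩).1 (by rw [h1]; rfl)⟩
    refine hnb Q hQS hQc α b1 b2 ?_ ?_
    · intro 𝔓 h𝔓
      by_cases h : ∀ q ∈ S, 𝔓 ≠ 𝔔 q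
      · exact b3 𝔓 h
      · push Not at h
        obtain ⟨q, hq, rfl⟩ := h
        by_cases hqQ : q ∈ Q
        · exact absurd (hpq q hq).2.2.2.1 (h𝔓 q hqQ (hpq q hq).2.1)
        · exact (hz1 q hq hqQ).1
    · intro q hq
      obtain ⟨hqS, hqQ⟩ := Finset.mem_sdiff.1 hq
      refine hNS 1 W F L f θ S 𝔮 r P le_rfl hc hsq hS q hqS (hcg q hqS) α b1 b2
        (fun 𝔓 _ hv => ?_) (fun 𝔓 h𝔓 hv => ?_)
      · refine b3 𝔓 fun q' hq' he => ?_
        rw [he, (hpq q' hq').2.2.2.1] at hv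
        exact lt_irrefl _ hv
      · rcases (hpq q hqS).2.2.2.2.2 𝔓 h𝔓 with rfl | rfl
        · exact absurd hv (hpq q hqS).2.2.1.ne
        · exact (hz1 q hqS hqQ).2.1 (hz1 q hqS hqQ).1
  have hinj : ∀ α ∈ M, ψ α = 0 → IsSquare α := by
    intro α hα h0
    refine hsmall α hα ∅ (Finset.empty_subset _) ?_ fun q hq _ => by rw [h0]; rfl
    rw [Finset.card_empty, mul_zero]
    omega
  have hinj2 : ∀ α ∈ M, ∀ β ∈ M, ψ α = ψ β → IsSquare (α * β) := by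
    intro α hα β hβ he
    refine hinj _ (hMmul α β hα hβ) ?_
    rw [hψ α β ((hMm α).1 hα).1 ((hMm β).1 hβ).1, he]
    exact hself _
  -- the order of `Λ`
  have hΛcard : 2 ^ Fintype.card S ≤ Nat.card Λ := by
    obtain ⟨A, hA1, hA2, hA3⟩ := hBIG F W L f f₁ θ S 𝔮 r P hc hsq htr hf₁ hS hW hcon 𝔔
      (fun q hq => ⟨(hpq q hq).2.1, (hpq q hq).2.2.2.1⟩)
    rw [Fintype.card_coe]
    refine hA1.trans ?_
    have h1 : A.card = Nat.card A := by
      rw [Nat.card_eq_fintype_card, Fintype.card_coe]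
    rw [h1]
    refine Nat.card_le_card_of_injective
      (fun α : A => (⟨ψ α, α, (hMm _).2 (hA2 α α.2), rfl⟩ : Λ)) ?_
    intro α β he
    have h2 : ψ α = ψ β := congrArg (fun x : Λ => (x : S → ZMod 2 × ZMod 2)) he
    exact Subtype.ext (hA3 α α.2 β β.2 (hinj2 α ((hMm _).2 (hA2 α α.2)) β
      ((hMm _).2 (hA2 β β.2)) h2))
  have hweight : ∀ l ∈ Λ, l ≠ 0 → Fintype.card S ≤
      Nat.log 2 (Fintype.card S) ^ 2 * (Finset.univ.filter fun q => l q ≠ 0).card := by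
    rintro _ ⟨α, hα, rfl⟩ hl0
    by_contra hlt
    push Not at hlt
    rw [Fintype.card_coe] at hlt
    apply hl0
    obtain ⟨Q, hQd⟩ : ∃ Q : Finset ℕ, Q = (Finset.univ.filter fun q : S => ψ α q ≠ 0).map
      (Function.Embedding.subtype _) := ⟨_, rfl⟩
    have hQm : ∀ q (hq : q ∈ S), q ∉ Q → ψ α ⟨q, hq⟩ = 0 := by
      intro q hq hqQ
      by_contra hne
      apply hqQ
      rw [hQd, Finset.mem_map]
      exact ⟨⟨q, hq⟩, Finset.mem_filter.2 ⟨Finset.mem_univ _, hne⟩, rfl⟩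
    have hQS : Q ⊆ S := by
      intro q hq
      rw [hQd, Finset.mem_map] at hq
      obtain ⟨q', -, rfl⟩ := hq
      exact q'.2
    refine hψs α ((hMm α).1 hα).1 (hsmall α hα Q hQS ?_ hQm)
    rw [hQd, Finset.card_map]
    exact hlt
  obtain ⟨J, hJ⟩ := hk₀ S Λ (by rw [Fintype.card_coe]; exact hkS0) hiso hΛcard hweight
  obtain ⟨J', hJ'd⟩ : ∃ J' : Finset ℕ, J' = J.map (Function.Embedding.subtype _) := ⟨_, rfl⟩
  have hJ'S : J' ⊆ S := by
    intro q hq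
    rw [hJ'd, Finset.mem_map] at hq
    obtain ⟨q', -, rfl⟩ := hq
    exact q'.2
  have hJJ : ∀ q : S, (q : ℕ) ∈ J' ↔ q ∈ J := by
    intro q
    rw [hJ'd, Finset.mem_map]
    constructor
    · rintro ⟨q', hq', he⟩
      have : q' = q := Subtype.ext he
      rwa [this] at hq'
    · intro hq
      exact ⟨q, hq, rfl⟩
  refine ⟨J', hJ'S, ?_⟩
  -- the twist
  have hD0 : Dp J' ≠ 0 := by
    rw [Dp, Finset.prod_ne_zero_iff]
    exact fun q hq => (hqp q (hJ'S hq)).ne_zero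
  have hD8 : Dp J' % 8 = 1 := by
    have : ∀ T : Finset ℕ, T ⊆ S → (∏ q ∈ T, q) % 8 = 1 := by
      intro T
      induction T using Finset.induction_on with
      | empty => intro _; rfl
      | insert a T ha ih =>
        intro hT
        rw [Finset.prod_insert ha, Nat.mul_mod, ih fun x hx => hT (Finset.mem_insert_of_mem hx),
          (hS a (hT (Finset.mem_insert_self _ _))).2.2.2.1]
    exact this J' hJ'S
  have hDm : ∀ w : HeightOneSpectrum (𝓞 F), ((Dp J' : ℕ) : 𝓞 F) ∈ w.asIdeal →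
      ∃ q ∈ J', (q : 𝓞 F) ∈ w.asIdeal := by
    intro w hw
    rw [Dp, Nat.cast_prod] at hw
    haveI := w.isPrime
    exact (Ideal.IsPrime.prod_mem_iff).1 hw
  have hDm' : ∀ w : HeightOneSpectrum (𝓞 F), ∀ q ∈ J', (q : 𝓞 F) ∈ w.asIdeal →
      ((Dp J' : ℕ) : 𝓞 F) ∈ w.asIdeal := by
    intro w q hq hw
    rw [Dp, ← Finset.mul_prod_erase J' (fun q => q) hq, Nat.cast_mul]
    exact w.asIdeal.mul_mem_right _ hw
  have hLOC' := hLOC 1 W F L f f₁ θ S J' 𝔮 r P le_rfl hc hsq hf₁ hS hW hcon hJ'S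
  have hSQJ' := hSQJ W F L f θ S J' 𝔮 r P hc hsq htr hS hcon hJ'S
  have hODD' := fun w h2 => hODD F L f θ hc hsq htr w h2 (Dp J')
  obtain ⟨D, hDD⟩ : ∃ D : ℕ, D = Dp J' := ⟨_, rfl⟩
  rw [← hDD] at hD0 hD8 hDm hDm' hLOC' hSQJ' hODD' ⊢
  have hD0F : (D : F) ≠ 0 := Nat.cast_ne_zero.2 hD0
  have hm : f.Monic := hc.mon
  have hd : f.natDegree = 3 := hc.deg
  have hirr : Irreducible (fF f) := Pool.Agent.N438.PF.irrF hc
  obtain ⟨A, hA⟩ : ∃ A : F, A = (f.coeff 1 : F) := ⟨_, rfl⟩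
  obtain ⟨B, hB⟩ : ∃ B : F, B = (f.coeff 0 : F) := ⟨_, rfl⟩
  have hfF : fF f = X ^ 3 + C A * X + C B := by
    rw [hA, hB]
    exact fF_cub hm hd htr
  have hfD : fF (f.scaleRoots ((D : ℕ) : 𝓞 F)) =
      X ^ 3 + C (A * (D : F) ^ 2) * X + C (B * (D : F) ^ 3) := by
    rw [hA, hB]
    exact scale_cub hm hd htr D
  have hdisc : 4 * A ^ 3 + 27 * B ^ 2 ≠ 0 := by
    rw [hfF] at hirr
    exact disc_ne hirr
  have hmD : (f.scaleRoots (D : 𝓞 F)).Monic := (monic_scaleRoots_iff (D : 𝓞 F)).2 hm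
  have hirrD : Irreducible (fF (f.scaleRoots (D : 𝓞 F))) := by
    rw [Pool.Agent.N170.PF.fF_scale hm]
    exact Pool.Agent.N170.PF.irr_scale hD0F hirr
  have hirrD' := hirrD
  rw [hfD] at hirrD'
  obtain ⟨Θ, hΘ⟩ : ∃ Θ : L, Θ = (D : L) * θ := ⟨_, rfl⟩
  have hcomp : ∀ h : F[X], aeval θ (h.comp (C (D : F) * X)) = aeval Θ h := by
    intro h
    rw [aeval_comp, map_mul, aeval_C, aeval_X, hΘ, map_natCast]
  have hroot : aeval Θ (fF (f.scaleRoots (D : 𝓞 F))) = 0 := by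
    have e1 := scaleRoots_eval₂_mul (p := fF f) (algebraMap F L) θ (D : F)
    have e2 : eval₂ (algebraMap F L) θ (fF f) = 0 := by
      rw [← aeval_def]
      exact hc.root
    rw [e2, mul_zero, map_natCast] at e1
    rw [Pool.Agent.N170.PF.fF_scale hm, aeval_def, hΘ]
    exact e1
  have hroot' := hroot
  rw [hfD] at hroot'
  haveI : FiniteDimensional F L := Module.finite_of_finrank_pos (by rw [hc.rank]; omega)
  have hmF' : (X ^ 3 + C (A * (D : F) ^ 2) * X + C (B * (D : F) ^ 3) : F[X]).Monic := by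
    rw [← hfD]
    exact hmD.map _
  have hdF' : (X ^ 3 + C (A * (D : F) ^ 2) * X + C (B * (D : F) ^ 3) : F[X]).natDegree =
      Module.finrank F L := by
    rw [← hfD, fF, hmD.natDegree_map, natDegree_scaleRoots, hd, hc.rank]
  obtain ⟨e, he⟩ := ex_equiv hirrD' hmF' hdF' hroot'
  have hdvd : ∀ p : F[X], X ^ 3 + C (A * (D : F) ^ 2) * X + C (B * (D : F) ^ 3) ∣ p ↔
      aeval Θ p = 0 := by
    intro p
    rw [← AdjoinRoot.mk_eq_zero, ← he, map_eq_zero_iff _ e.injective]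
  rw [← hΘ] at hLOC' hSQJ' hODD'
  have hsqf : ∀ p : F[X], (∃ s : F[X], X ^ 3 + C (A * (D : F) ^ 2) * X + C (B * (D : F) ^ 3) ∣
      p - s ^ 2) ↔ IsSquare (aeval Θ p) := by
    intro p
    constructor
    · rintro ⟨s, hs⟩
      rw [hdvd, map_sub, map_pow, sub_eq_zero] at hs
      exact ⟨aeval Θ s, by rw [hs, sq]⟩
    · rintro ⟨y, hy⟩
      obtain ⟨z, hz⟩ := e.surjective y
      obtain ⟨s, rfl⟩ := AdjoinRoot.mk_surjective z
      rw [he] at hz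
      refine ⟨s, ?_⟩
      rw [hdvd, map_sub, map_pow, sub_eq_zero, hz, hy, sq]
  have hnormeq : ∀ p : F[X], Algebra.norm F
      (AdjoinRoot.mk (X ^ 3 + C (A * (D : F) ^ 2) * X + C (B * (D : F) ^ 3)) p) =
      Algebra.norm F (aeval Θ p) := by
    intro p
    rw [← he, Algebra.norm_eq_of_algEquiv]
  -- from `M` to the Selmer group
  have hSel : ∀ α ∈ M, (∀ q ∈ J, (ψ α q).2 = 0) → (∀ q ∉ J, (ψ α q).1 = 0) →
      ∀ p : F[X], aeval Θ p = α → SelH (A * (D : F) ^ 2) (B * (D : F) ^ 3) p := by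
    intro α hα hu0 hev0 p hp
    obtain ⟨b1, b2, b3, h₀, b4, b5, b6⟩ := (hMm α).1 hα
    have hcg1 : X ^ 3 + C A * X + C B ∣ p.comp (C (D : F) * X) - h₀ * 1 ^ 2 := by
      rw [← hfF]
      refine dvd_of_aeval hc ?_
      rw [map_sub, hcomp, hp, one_pow, mul_one, b4, sub_self]
    refine ⟨?_, ?_, ?_, ?_⟩
    · rw [isCoprime_comm, hirrD'.coprime_iff_not_dvd, hdvd, hp]
      exact b1
    · rw [hnormeq, hp]
      exact b2
    · intro w
      haveI : CharZero (w.adicCompletion F) :=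
        charZero_of_injective_algebraMap (algebraMap F (w.adicCompletion F)).injective
      by_cases h2 : (2 : 𝓞 F) ∈ w.asIdeal
      · -- over two
        have h3 := b5 w h2
        rw [hfF] at h3
        have hW' : (W : 𝓞 F) ∈ w.asIdeal := by
          obtain ⟨k, hk⟩ := hf₁.two
          rw [hk]
          push_cast
          exact Ideal.mul_mem_right _ _ h2
        have h4 : Irreducible (rd w.asIdeal f) := by
          have h5 : Cg w.asIdeal f f₁ := by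
            intro j
            have h6 : sp F W ≤ w.asIdeal := by
              rw [sp, Ideal.span_singleton_le_iff_mem]
              exact hW'
            exact h6 (hW j)
          rw [rd_eq h5]
          exact hf₁.irr _ w.isPrime h2
        have h5 := irr_loc hm hd w h4
        rw [hfF] at h5
        simp only [Polynomial.map_add, Polynomial.map_mul, Polynomial.map_pow, Polynomial.map_X,
          Polynomial.map_C] at h5
        have h6 := hCNT F (w.adicCompletion F) A B h₀ hdisc (Or.inl h5) h3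
        have h7 := ploc_congr h6 hcg1
        refine hTWS F (w.adicCompletion F) A B (D : F) p hD0F ?_ h7
        haveI : Fact (Nat.Prime 2) := ⟨Nat.prime_two⟩
        obtain ⟨δ, hδ⟩ := Pool.Agent.N891.PQ.sq_two D hD8
        obtain ⟨ι, hι, -, -⟩ := Pool.Agent.N498.PQ.cpl F 2 w (by
          change ((2 : ℕ) : 𝓞 F) ∈ w.asIdeal
          exact_mod_cast h2)
        refine ⟨ι δ, ?_⟩
        rw [← map_mul, ← sq, hδ, map_natCast, map_natCast]
      · by_cases hDw : ((D : ℕ) : 𝓞 F) ∈ w.asIdeal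
        · obtain ⟨q, hq, hqw⟩ := hDm w hDw
          have h3 := hSQJ' q hq p (by rw [hp]; exact b1) (by rw [hp]; exact b2) ?_ ?_ w hqw
          · rw [hA, hB]
            exact h3
          · intro 𝔓 hq𝔓 h𝔓
            rw [hp]
            refine b3 𝔓 fun q' hq' he' => ?_
            have h4 : q = q' := by
              refine hone q (hJ'S hq) q' hq' 𝔓 hq𝔓 ?_
              rw [he']
              exact hov q' hq' _ (hpq q' hq').2.1
            rw [he', h4] at h𝔓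
            exact h𝔓 (hpq q' hq').2.1 (hpq q' hq').2.2.2.1
          · intro 𝔓 ho hv
            rw [hp]
            rcases (hpq q (hJ'S hq)).2.2.2.2.2 𝔓 ho with rfl | rfl
            · exact absurd hv (hpq q (hJ'S hq)).2.2.1.ne
            · exact (hsnd α ⟨q, hJ'S hq⟩).1 (hu0 _ ((hJJ ⟨q, hJ'S hq⟩).1 hq))
        · have h3 := hODD' w h2 hDw p (by rw [hp]; exact b1) (by rw [hp]; exact b2) ?_
          · rw [hA, hB]
            exact h3
          · intro 𝔓 ho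
            rw [hp]
            by_cases h : ∀ q ∈ S, 𝔓 ≠ 𝔔 q
            · exact b3 𝔓 h
            · push Not at h
              obtain ⟨q, hq, rfl⟩ := h
              have hqJ : q ∉ J' := by
                intro hqJ
                apply hDw
                refine hDm' w q hqJ (mem_of_ov ho ?_)
                rw [map_natCast]
                exact hov q hq _ (hpq q hq).2.1
              exact (hfst α ⟨q, hq⟩).1 (hev0 _ fun h => hqJ ((hJJ ⟨q, hq⟩).2 h))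
    · intro ρ
      letI := ρ.toAlgebra
      have h3 : LocF ℝ (fF f) h₀ := b6 ρ
      rw [hfF] at h3
      have h6 := hCNT F ℝ A B h₀ hdisc (Or.inr ⟨RingEquiv.refl ℝ⟩) h3
      have h7 := ploc_congr h6 hcg1
      refine hTWS F ℝ A B (D : F) p hD0F ?_ h7
      refine ⟨Real.sqrt D, ?_⟩
      rw [map_natCast, Real.mul_self_sqrt (Nat.cast_nonneg D)]
  -- from the Selmer group to `M`
  have hconv : ∀ h : F[X], SelH (A * (D : F) ^ 2) (B * (D : F) ^ 3) h → aeval Θ h ∈ M ∧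
      (∀ q ∈ J, (ψ (aeval Θ h) q).2 = 0) ∧ ∀ q ∉ J, (ψ (aeval Θ h) q).1 = 0 := by
    rintro h ⟨hcop, hnorm, hfin, hreal⟩
    have hne : aeval Θ h ≠ 0 := by
      intro h0
      obtain ⟨u, v, huv⟩ := hcop
      have := congrArg (aeval Θ) huv
      rw [map_add, map_mul, map_mul, hroot', h0, mul_zero, mul_zero, add_zero, map_one] at this
      exact zero_ne_one this
    rw [hnormeq] at hnorm
    obtain ⟨k1, k2, k3, k4⟩ := hLOC' h hne hnorm (fun w => by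
      rw [hfD]
      exact Pool.Agent.N521.QM.ploc_locF (hfin w)) (fun σ => by
      letI := σ.toAlgebra
      have h1 : LocF ℝ (X ^ 3 + C (A * (D : F) ^ 2) * X + C (B * (D : F) ^ 3) : F[X]) h :=
        Pool.Agent.N521.QM.ploc_locF (hreal σ)
      rw [← hfD] at h1
      exact h1)
    refine ⟨?_, ?_, ?_⟩
    · rw [hMm]
      refine ⟨hne, hnorm, fun 𝔓 h𝔓 => ?_, h.comp (C (D : F) * X), hcomp h, k3, k4⟩
      refine k1 𝔓 fun q hq hO => ?_
      rcases (hpq q (hJ'S hq)).2.2.2.2.2 𝔓 hO with rfl | rfl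
      · exact (hpq q (hJ'S hq)).2.2.1.ne
      · exact absurd rfl (h𝔓 q (hJ'S hq))
    · intro q hq
      rw [hsnd]
      exact k2 q ((hJJ q).2 hq) _ (hpq q q.2).2.1 (hpq q q.2).2.2.2.1
    · intro q hq
      rw [hfst]
      refine k1 (𝔔 q) fun q' hq' hO => ?_
      have : q' = (q : ℕ) := huniq q' (hJ'S hq') q q.2 _ hO (hpq q q.2).2.1
      rw [this] at hq'
      exact absurd ((hJJ q).1 hq') hq
  -- the conclusion
  refine ⟨?_, ?_⟩
  · have e1 : ((f.coeff 1 * (D : 𝓞 F) ^ 2 : 𝓞 F) : F) = A * (D : F) ^ 2 := by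
      rw [hA]
      exact (map_mul (algebraMap (𝓞 F) F) _ _).trans (by rw [map_pow, map_natCast])
    have e0 : ((f.coeff 0 * (D : 𝓞 F) ^ 3 : 𝓞 F) : F) = B * (D : F) ^ 3 := by
      rw [hB]
      exact (map_mul (algebraMap (𝓞 F) F) _ _).trans (by rw [map_pow, map_natCast])
    show Irreducible (X ^ 3 + C ((f.coeff 1 * (D : 𝓞 F) ^ 2 : 𝓞 F) : F) * X +
      C ((f.coeff 0 * (D : 𝓞 F) ^ 3 : 𝓞 F) : F) : F[X])
    rw [e1, e0]
    exact hirrD'
  · have e1 : ((f.coeff 1 * (D : 𝓞 F) ^ 2 : 𝓞 F) : F) = A * (D : F) ^ 2 := by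
      rw [hA]
      exact (map_mul (algebraMap (𝓞 F) F) _ _).trans (by rw [map_pow, map_natCast])
    have e0 : ((f.coeff 0 * (D : 𝓞 F) ^ 3 : 𝓞 F) : F) = B * (D : F) ^ 3 := by
      rw [hB]
      exact (map_mul (algebraMap (𝓞 F) F) _ _).trans (by rw [map_pow, map_natCast])
    show SelN ((f.coeff 1 * (D : 𝓞 F) ^ 2 : 𝓞 F) : F) ((f.coeff 0 * (D : 𝓞 F) ^ 3 : 𝓞 F) : F)
      (2 ^ D₀)
    rw [e1, e0]
    let N := {l : S → ZMod 2 × ZMod 2 // l ∈ Λ ∧ (∀ q ∈ J, (l q).2 = 0) ∧ ∀ q ∉ J, (l q).1 = 0}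
    haveI : Finite N := Subtype.finite
    let ε : N ≃ Fin (2 ^ D₀) := Finite.equivFinOfCardEq hJ
    have hch : ∀ l : N, ∃ p : F[X], aeval Θ p ∈ M ∧ ψ (aeval Θ p) = l.1 := by
      intro l
      obtain ⟨α, hα, hl⟩ := l.2.1
      obtain ⟨z, hz⟩ := e.surjective α
      obtain ⟨p, rfl⟩ := AdjoinRoot.mk_surjective z
      rw [he] at hz
      exact ⟨p, by rw [hz]; exact hα, by rw [hz]; exact hl⟩
    choose pl hpl1 hpl2 using hch
    refine ⟨fun i => pl (ε.symm i), ?_, ?_, ?_⟩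
    · intro i
      refine hSel _ (hpl1 (ε.symm i)) ?_ ?_ _ rfl
      · rw [hpl2]
        exact (ε.symm i).2.2.1
      · rw [hpl2]
        exact (ε.symm i).2.2.2
    · intro i j hij
      rw [hsqf, map_mul] at hij
      have h1 := hpl1 (ε.symm i)
      have h2 := hpl1 (ε.symm j)
      have h3 := hψs _ (mul_ne_zero ((hMm _).1 h1).1 ((hMm _).1 h2).1) hij
      rw [hψ _ _ ((hMm _).1 h1).1 ((hMm _).1 h2).1, hpl2, hpl2] at h3
      have h4 : (ε.symm i).1 = (ε.symm j).1 := by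
        have h5 := congrArg (fun x => x + (ε.symm j).1) h3
        simp only [zero_add] at h5
        rw [add_assoc, hself, add_zero] at h5
        exact h5
      exact ε.symm.injective (Subtype.ext h4)
    · intro h hh
      obtain ⟨m1, m2, m3⟩ := hconv h hh
      obtain ⟨l₀, hl₀⟩ : ∃ l₀ : N, l₀.1 = ψ (aeval Θ h) := ⟨⟨ψ (aeval Θ h), ⟨_, m1, rfl⟩, m2, m3⟩, rfl⟩
      refine ⟨ε l₀, ?_⟩
      rw [hsqf, map_mul]
      show IsSquare (aeval Θ h * aeval Θ (pl (ε.symm (ε l₀))))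
      rw [Equiv.symm_apply_apply]
      exact hinj2 _ m1 _ (hpl1 _) (by rw [hpl2, hl₀])

end Pool.Agent.H68K.PR
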