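import Pool.Agent.H68K.PR.StmU

/-!
# Project PR, phase 4 (helper68): large families of minimal equations in which the law holds up to `ε`

As phase 3 (`StmU.lean`), but with squarefree twists only, so that all the equations in the family are
minimal. Idea: `S` consists of primes of size `Q` and `R` of primes of size `Q ^ 2` (up to the factor
`1 + η`). The products of `i + 2` elements of `S`, and the products of `i` elements of `S` and one element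
of `R`, have nearly the same size `Q ^ (i + 2)` and the numbers `i + 2` and `i + 1` of the factors have
different parity. If `S.card.choose (i + 2) = R.card * S.card.choose i`, there are equally many of both
types.
-/

set_option autoImplicit false
set_option linter.all false

open Polynomial IsDedekindDomain Matrix NumberField WithZero
open scoped Classical

namespace Pool.Agent.H68K.PR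

open Pool.Agent.N874.PP (sW)
open Pool.Agent.N783.PF

/-- The law for the twists by the products of `i` primes in `S`, and for the twists by such products
times one element of `R`. -/
def Law2 {F : Type} [Field F] [NumberField F] (S R : Finset ℕ) (m₀ m : ℕ) (ε : ℝ)
    (p : 𝓞 F × 𝓞 F) : Prop :=
  ∃ e : Finset ℕ → ℕ, (∀ J ⊆ S ∪ R, Gd (2 ^ e J) (twp J p)) ∧
    ∀ i, m₀ ≤ i → i ≤ m → ∀ k : ℕ,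
      |(((S.powersetCard i).filter fun J => e J = k).card : ℝ) / (S.card.choose i : ℝ) -
        pr2par (e ∅ + i) k| ≤ ε ∧
      ∀ r ∈ R, |(((S.powersetCard i).filter fun J => e (insert r J) = k).card : ℝ) /
        (S.card.choose i : ℝ) - pr2par (e ∅ + 1 + i) k| ≤ ε

/-- BAL6: as `S_BAL5` (proof: `H93PR/Count5.lean`), for `Law2`. For `Law2` at `r` apply `S_LAW4` to the
projection to `S` of the elements `l` of `Λ` with `l` in `LJ Λ {r}` at all the elements of `R` (the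
projection is injective, because there is no nonzero class which is trivial at all elements of `S`). The
patterns `(Q, U)` are now: `Q ⊆ S ∪ R` with at most `m` elements (`Q` the support in `J`), `U ⊆ S \ Q`
whose number of elements is not close to `S.card / 2`. -/
def S_BAL6 : Prop := ∀ (F : Type) [Field F] [NumberField F], ∃ (W : ℕ) (c : ℝ), 0 < W ∧ 0 < c ∧
  ∀ (ε δ : ℝ), 0 < ε → 0 < δ → ∃ m₀ : ℕ, ∀ m ≥ m₀, ∃ n₀ : ℕ,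
  ∀ (S R : Finset ℕ) (𝔮 : ℕ → Ideal (𝓞 F)) (h P : ℕ → (𝓞 F)[X]), Disjoint S R →
    GoodS 1 W (S ∪ R) 𝔮 h P → n₀ ≤ S.card → (∀ q ∈ S ∪ R, q ≤ S.card ^ 8) →
    ∃ a b : 𝓞 F, OkN (W * ∏ q ∈ S ∪ R, q) a b ∧ ∀ u : (𝓞 F)ˣ, ∃ B₀ : ℕ, ∀ B ≥ B₀,
    c * (B : ℝ) ^ (5 * Module.finrank ℚ F) ≤
      (((∏ q ∈ S ∪ R, q ^ 2) ^ Module.finrank ℚ F : ℕ) : ℝ) *
      ({p : 𝓞 F × 𝓞 F | Bd (p.1 : F) ((B : ℝ) ^ 2) ∧ Bd (p.2 : F) ((B : ℝ) ^ 3) ∧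
        InFam (W * ∏ q ∈ S ∪ R, q) ((u : 𝓞 F) ^ 4 * a) ((u : 𝓞 F) ^ 6 * b) p}.ncard : ℝ) ∧
    (((∏ q ∈ S ∪ R, q ^ 2) ^ Module.finrank ℚ F : ℕ) : ℝ) *
      ({p : 𝓞 F × 𝓞 F | Bd (p.1 : F) ((B : ℝ) ^ 2) ∧ Bd (p.2 : F) ((B : ℝ) ^ 3) ∧
        InFam (W * ∏ q ∈ S ∪ R, q) ((u : 𝓞 F) ^ 4 * a) ((u : 𝓞 F) ^ 6 * b) p ∧
        ¬ Law2 S R m₀ m ε p}.ncard : ℝ) ≤
      δ * (c * (B : ℝ) ^ (5 * Module.finrank ℚ F))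

/-- EXV: many primes of size `Q` and of size `Q ^ 2`. By the prime number theorem in arithmetic
progressions (`Pool.Agent.Cov.PNT.pnt_residueClass`) there are at least `x ^ (1 / 2)` primes `1` modulo
`8` between `x` and `(1 + η) x`, if `x` is large. Take `S.card = i + (i + 1) * (i + 2) * s` and
`R.card = s * (S.card - i - 1)`. -/
def S_EXV : Prop := ∀ (F : Type) [Field F] [NumberField F] (W i m : ℕ) (η : ℝ), 0 < η →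
  ∃ (S R : Finset ℕ) (𝔮 : ℕ → Ideal (𝓞 F)) (h P : ℕ → (𝓞 F)[X]) (Q : ℕ), Disjoint S R ∧
    GoodS 1 W (S ∪ R) 𝔮 h P ∧ m ≤ S.card ∧ (∀ q ∈ S ∪ R, q ≤ S.card ^ 8) ∧ 0 < Q ∧
    (∀ q ∈ S, Q ≤ q ∧ (q : ℝ) ≤ (1 + η) * Q) ∧
    (∀ q ∈ R, Q ^ 2 ≤ q ∧ (q : ℝ) ≤ (1 + η) * Q ^ 2) ∧
    S.card.choose (i + 2) = R.card * S.card.choose i

/-- REGV: the regions of bounded height, for any property `Pr` which is invariant under units. This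
implies `S_REGA`. -/
def S_REGV : Prop := S_SHL → ∀ (F : Type) [Field F] [NumberField F] (W : ℕ) (c : ℝ), 0 < W → 0 < c →
  ∀ ε : ℝ, 0 < ε → ∃ δ : ℝ, 0 < δ ∧ ∀ m : ℕ, ∃ η : ℝ, 0 < η ∧
  ∀ (Pn : ℕ) (a b : 𝓞 F) (Pr : 𝓞 F × 𝓞 F → Prop), 0 < Pn → OkN (W * Pn) a b →
    (∀ (u : (𝓞 F)ˣ) (p : 𝓞 F × 𝓞 F), Pr p → Pr ((u : 𝓞 F) ^ 4 * p.1, (u : 𝓞 F) ^ 6 * p.2)) →
    (∀ u : (𝓞 F)ˣ, ∃ B₀ : ℕ, ∀ B ≥ B₀,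
      c * (B : ℝ) ^ (5 * Module.finrank ℚ F) ≤ (Pn : ℝ) ^ (2 * Module.finrank ℚ F) *
        ({p : 𝓞 F × 𝓞 F | Bd (p.1 : F) ((B : ℝ) ^ 2) ∧ Bd (p.2 : F) ((B : ℝ) ^ 3) ∧
          InFam (W * Pn) ((u : 𝓞 F) ^ 4 * a) ((u : 𝓞 F) ^ 6 * b) p}.ncard : ℝ) ∧
      (Pn : ℝ) ^ (2 * Module.finrank ℚ F) *
        ({p : 𝓞 F × 𝓞 F | Bd (p.1 : F) ((B : ℝ) ^ 2) ∧ Bd (p.2 : F) ((B : ℝ) ^ 3) ∧
          InFam (W * Pn) ((u : 𝓞 F) ^ 4 * a) ((u : 𝓞 F) ^ 6 * b) p ∧ ¬ Pr p}.ncard : ℝ) ≤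
        δ * (c * (B : ℝ) ^ (5 * Module.finrank ℚ F))) →
    ∀ Q : ℝ, 0 < Q → ∃ (c' Y₀ : ℝ), 0 < c' ∧ ∀ Y : ℝ,
    {p : 𝓞 F × 𝓞 F | Hle Y p}.Finite ∧ {p : 𝓞 F × 𝓞 F | HR Y Q p}.Finite ∧ (Y₀ ≤ Y →
    0 < {p : 𝓞 F × 𝓞 F | Hle Y p ∧ 4 * p.1 ^ 3 + 27 * p.2 ^ 2 ≠ 0}.ncard ∧
    c' * ({p : 𝓞 F × 𝓞 F | Hle Y p ∧ 4 * p.1 ^ 3 + 27 * p.2 ^ 2 ≠ 0}.ncard : ℝ) ≤
      ({p : 𝓞 F × 𝓞 F | HR Y Q p ∧ InFam (W * Pn) a b p}.ncard : ℝ) ∧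
    ({p : 𝓞 F × 𝓞 F | HR Y Q p ∧ InFam (W * Pn) a b p ∧ ¬ HR Y ((1 + η) ^ m * Q) p}.ncard : ℝ) ≤
      ε * ({p : 𝓞 F × 𝓞 F | HR Y Q p ∧ InFam (W * Pn) a b p}.ncard : ℝ) ∧
    ({p : 𝓞 F × 𝓞 F | HR Y Q p ∧ InFam (W * Pn) a b p ∧ ¬ Pr p}.ncard : ℝ) ≤
      ε * ({p : 𝓞 F × 𝓞 F | HR Y Q p ∧ InFam (W * Pn) a b p}.ncard : ℝ))

/-- The law of Poonen and Rains up to `ε` in the family, for every set of dimensions. The elements of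
`D` are products of different primes which are unramified in `F`. -/
def S_FAM6 : Prop := ∀ (F : Type) [Field F] [NumberField F] (ε : ℝ), 0 < ε →
  ∃ (N : ℕ) (a b : 𝓞 F) (D : Finset ℕ), OkN N a b ∧ (∀ d ∈ D, 0 < d ∧
      ∀ 𝔭 : Ideal (𝓞 F), 𝔭.IsPrime → 𝔭 ≠ ⊥ → (d : 𝓞 F) ∉ 𝔭 ^ 2) ∧
    ∃ (c Y₀ : ℝ), 0 < c ∧ ∀ Y : ℝ, {p : 𝓞 F × 𝓞 F | Hle Y p}.Finite ∧ (Y₀ ≤ Y →
    0 < {p : 𝓞 F × 𝓞 F | Hle Y p ∧ 4 * p.1 ^ 3 + 27 * p.2 ^ 2 ≠ 0}.ncard ∧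
    c * ({p : 𝓞 F × 𝓞 F | Hle Y p ∧ 4 * p.1 ^ 3 + 27 * p.2 ^ 2 ≠ 0}.ncard : ℝ) ≤
      ({p : 𝓞 F × 𝓞 F | Hle Y p ∧ p ∈ Fml N a b D}.ncard : ℝ) ∧
    ∀ k : ℕ, |({p : 𝓞 F × 𝓞 F | Hle Y p ∧ p ∈ Fml N a b D ∧ selP p = 2 ^ k}.ncard : ℝ) -
        pr2 k * ({p : 𝓞 F × 𝓞 F | Hle Y p ∧ p ∈ Fml N a b D}.ncard : ℝ)| ≤
      ε * ({p : 𝓞 F × 𝓞 F | Hle Y p ∧ p ∈ Fml N a b D}.ncard : ℝ))

/-- The main theorem of phase 4: all the members are minimal. -/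
def S_FIN6 : Prop := ∀ (F : Type) [Field F] [NumberField F] (ε : ℝ), 0 < ε →
  ∃ (M : ℕ) (R : Set (𝓞 F × 𝓞 F)), 0 < M ∧
    (∀ p p' : 𝓞 F × 𝓞 F, p ∈ R → p'.1 - p.1 ∈ sp F M → p'.2 - p.2 ∈ sp F M → p' ∈ R) ∧
    ∀ G : Set (𝓞 F × 𝓞 F), G = {p | p ∈ R ∧ ∀ 𝔭 : Ideal (𝓞 F), 𝔭.IsPrime → (M : 𝓞 F) ∉ 𝔭 →
      4 * p.1 ^ 3 + 27 * p.2 ^ 2 ∉ 𝔭 ^ 2} →
    (∀ p ∈ G, ∀ 𝔭 : Ideal (𝓞 F), 𝔭.IsPrime → 𝔭 ≠ ⊥ → ¬ (p.1 ∈ 𝔭 ^ 4 ∧ p.2 ∈ 𝔭 ^ 6)) ∧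
    ∃ (c Y₀ : ℝ), 0 < c ∧ ∀ Y : ℝ, {p : 𝓞 F × 𝓞 F | Hle Y p}.Finite ∧ (Y₀ ≤ Y →
    0 < {p : 𝓞 F × 𝓞 F | Hle Y p ∧ 4 * p.1 ^ 3 + 27 * p.2 ^ 2 ≠ 0}.ncard ∧
    c * ({p : 𝓞 F × 𝓞 F | Hle Y p ∧ 4 * p.1 ^ 3 + 27 * p.2 ^ 2 ≠ 0}.ncard : ℝ) ≤
      ({p : 𝓞 F × 𝓞 F | Hle Y p ∧ p ∈ G}.ncard : ℝ) ∧
    ∀ K : Set ℕ, |({p : 𝓞 F × 𝓞 F | Hle Y p ∧ p ∈ G ∧ ∃ k ∈ K, selP p = 2 ^ k}.ncard : ℝ) -
        (∑' k : K, pr2 k) * ({p : 𝓞 F × 𝓞 F | Hle Y p ∧ p ∈ G}.ncard : ℝ)| ≤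
      ε * ({p : 𝓞 F × 𝓞 F | Hle Y p ∧ p ∈ G}.ncard : ℝ))

end Pool.Agent.H68K.PR
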