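import Pool.Agent.H68K.PR.StmU
import Pool.Agent.H64.PR.Tr

/-!
# Project PR, phase 3 (helper68): the law in the family, from `S_REG`, `S_EXW`, `S_DSJ`
-/

set_option autoImplicit false
set_option linter.all false

open Polynomial IsDedekindDomain Matrix NumberField WithZero
open scoped Classical

namespace Pool.Agent.H68K.PR

open Pool.Agent.N874.PP (sW)
open Pool.Agent.N783.PF

section fld

variable {F : Type} [Field F] [NumberField F]

theorem v_nat (v : InfinitePlace F) (n : ℕ) : v (n : F) = n := by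
  rw [← InfinitePlace.norm_embedding_eq, map_natCast, Complex.norm_natCast]

theorem hle_tw (Y : ℝ) (d : ℕ) (p : 𝓞 F × 𝓞 F) : Hle Y (tw d p) ↔ HR Y d p := by
  unfold Hle HR
  refine forall_congr' fun v => ?_
  have e1 : v (((tw d p).1 : 𝓞 F) : F) = (d : ℝ) ^ 2 * v (p.1 : F) := by
    simp only [tw, map_mul, map_pow, map_natCast, v_nat]
    ring
  have e2 : v (((tw d p).2 : 𝓞 F) : F) = (d : ℝ) ^ 3 * v (p.2 : F) := by
    simp only [tw, map_mul, map_pow, map_natCast, v_nat]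
    ring
  rw [e1, e2]

theorem HR_mono {Y d d' : ℝ} (h0 : 0 ≤ d') (h : d' ≤ d) {p : 𝓞 F × 𝓞 F} (hp : HR Y d p) :
    HR Y d' p := by
  intro v
  obtain ⟨h1, h2⟩ := hp v
  have n1 : 0 ≤ v (p.1 : F) := apply_nonneg v _
  have n2 : 0 ≤ v (p.2 : F) := apply_nonneg v _
  constructor
  · refine le_trans ?_ h1
    gcongr
  · refine le_trans ?_ h2
    gcongr

/-- Multiplication by fourth and sixth powers. -/
theorem gd_tw {n d s : ℕ} (hs : 0 < s) {p : 𝓞 F × 𝓞 F} (h : Gd n (tw d p)) :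
    Gd n (tw (d * s ^ 2) p) := by
  have hs0 : (s : F) ≠ 0 := Nat.cast_ne_zero.2 hs.ne'
  have e1 : (((tw (d * s ^ 2) p).1 : 𝓞 F) : F) = ((s : F) ^ 2) ^ 2 * ((tw d p).1 : F) := by
    simp only [tw, map_mul, map_pow, map_natCast]
    push_cast
    ring
  have e2 : (((tw (d * s ^ 2) p).2 : 𝓞 F) : F) = ((s : F) ^ 2) ^ 3 * ((tw d p).2 : F) := by
    simp only [tw, map_mul, map_pow, map_natCast]
    push_cast
    ring
  constructor
  · rw [e1, e2]
    exact Pool.Agent.H64.PR.irr_tr (pow_ne_zero 2 hs0) h.1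
  · rw [e1, e2]
    exact Pool.Agent.H64.PR.selN_tr hs0 h.2

theorem selP_of (hC : S_COC) {e : ℕ} {P : 𝓞 F × 𝓞 F} (h : Gd (2 ^ e) P) : selP P = 2 ^ e := by
  obtain ⟨hi, hs⟩ := h
  refine hC F _ _ ?_ hi _ hs
  intro h0
  exact disc_ne hi h0

end fld

theorem pr2par_add (s k : ℕ) : pr2par (s + 1) k + pr2par s k = 2 * pr2 k := by
  unfold pr2par
  by_cases h : Even (s + k)
  · rw [if_pos h, if_neg, zero_add]
    rw [show s + 1 + k = s + k + 1 by ring, Nat.even_add_one]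
    exact fun h' => h' h
  · rw [if_neg h, if_pos, add_zero]
    rw [show s + 1 + k = s + k + 1 by ring, Nat.even_add_one]
    exact h

theorem fact_Dp {S J : Finset ℕ} (hS : ∀ q ∈ S, q.Prime) (hJ : J ⊆ S) (q : ℕ) :
    (Dp J).factorization q = if q ∈ J then 1 else 0 := by
  rw [Dp, Nat.factorization_prod fun p hp => (hS p (hJ hp)).ne_zero, Finset.sum_apply']
  have h1 : ∀ p ∈ J, p.factorization q = if p = q then 1 else 0 := by
    intro p hp
    rw [(hS p (hJ hp)).factorization, Finsupp.single_apply]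
  rw [Finset.sum_congr rfl h1, Finset.sum_ite_eq']

/-- The numbers `Dp J * s ^ 2` are different. -/
theorem dp_inj {S J J' : Finset ℕ} (hS : ∀ q ∈ S, q.Prime) (hJ : J ⊆ S) (hJ' : J' ⊆ S) {s s' : ℕ}
    (hs : 0 < s) (hs' : 0 < s') (h : Dp J * s ^ 2 = Dp J' * s' ^ 2) : J = J' ∧ s = s' := by
  have hne : ∀ K ⊆ S, Dp K ≠ 0 := by
    intro K hK
    rw [Dp, Finset.prod_ne_zero_iff]
    exact fun q hq => (hS q (hK hq)).ne_zero
  have hf : ∀ K ⊆ S, ∀ t : ℕ, 0 < t → ∀ q, (Dp K * t ^ 2).factorization q =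
      (if q ∈ K then 1 else 0) + 2 * t.factorization q := by
    intro K hK t ht q
    rw [Nat.factorization_mul (hne K hK) (pow_ne_zero 2 ht.ne'), Finsupp.add_apply,
      fact_Dp hS hK, Nat.factorization_pow, Finsupp.smul_apply, smul_eq_mul]
  have hJJ : J = J' := by
    ext q
    have h1 := hf J hJ s hs q
    rw [h, hf J' hJ' s' hs' q] at h1
    by_cases a : q ∈ J
    · by_cases b : q ∈ J'
      · exact ⟨fun _ => b, fun _ => a⟩
      · rw [if_pos a, if_neg b] at h1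
        omega
    · by_cases b : q ∈ J'
      · rw [if_neg a, if_pos b] at h1
        omega
      · exact ⟨fun h => absurd h a, fun h => absurd h b⟩
  refine ⟨hJJ, ?_⟩
  rw [hJJ] at h
  have h3 := Nat.eq_of_mul_eq_mul_left (Nat.pos_of_ne_zero (hne J' hJ')) h
  exact Nat.pow_left_injective (by norm_num) h3

/-- the count -/
theorem cnt {α β : Type} (T Tg : Finset α) (Cc : Finset β) (r κ : β → α → Prop) (π ε : ℝ)
    (hT : Tg ⊆ T) (hr : ∀ p ∈ Tg, ∀ c ∈ Cc, r c p)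
    (hκ : ∀ p ∈ Tg, |((Cc.filter fun c => κ c p).card : ℝ) - π * Cc.card| ≤ ε * Cc.card)
    (hπ0 : 0 ≤ π) (hπ1 : π ≤ 1) (hε0 : 0 < ε) (hε1 : ε ≤ 1 / 4)
    (hb : ((T.card : ℝ) - Tg.card) ≤ 2 * ε * T.card) :
    (Cc.card : ℝ) * T.card ≤ 2 * ((Cc ×ˢ T).filter fun x => r x.1 x.2).card ∧
    |(((Cc ×ˢ T).filter fun x => r x.1 x.2 ∧ κ x.1 x.2).card : ℝ) -
      π * ((Cc ×ˢ T).filter fun x => r x.1 x.2).card| ≤
      6 * ε * ((Cc ×ˢ T).filter fun x => r x.1 x.2).card := by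
  have hA : ((Cc ×ˢ T).filter fun x => r x.1 x.2).card =
      ∑ p ∈ T, (Cc.filter fun c => r c p).card := by
    rw [Finset.card_filter, Finset.sum_product_right]
    simp only [Finset.card_filter]
  have hAk : ((Cc ×ˢ T).filter fun x => r x.1 x.2 ∧ κ x.1 x.2).card =
      ∑ p ∈ T, (Cc.filter fun c => r c p ∧ κ c p).card := by
    rw [Finset.card_filter, Finset.sum_product_right]
    simp only [Finset.card_filter]
  obtain ⟨A, hAd⟩ : ∃ A : ℕ, A = ((Cc ×ˢ T).filter fun x => r x.1 x.2).card := ⟨_, rfl⟩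
  obtain ⟨Ak, hAkd⟩ : ∃ Ak : ℕ, Ak = ((Cc ×ˢ T).filter fun x => r x.1 x.2 ∧ κ x.1 x.2).card :=
    ⟨_, rfl⟩
  rw [← hAd, ← hAkd]
  rw [← hAd] at hA
  rw [← hAkd] at hAk
  -- upper and lower bounds for `A`
  have a1 : (Cc.card : ℝ) * Tg.card ≤ A := by
    have h1 : Tg.card * Cc.card ≤ A := by
      rw [hA]
      calc Tg.card * Cc.card = ∑ p ∈ Tg, Cc.card := by rw [Finset.sum_const, smul_eq_mul]
        _ = ∑ p ∈ Tg, (Cc.filter fun c => r c p).card := by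
            refine Finset.sum_congr rfl fun p hp => ?_
            rw [Finset.filter_true_of_mem (hr p hp)]
        _ ≤ ∑ p ∈ T, (Cc.filter fun c => r c p).card :=
            Finset.sum_le_sum_of_subset_of_nonneg hT fun _ _ _ => Nat.zero_le _
    rw [mul_comm]
    exact_mod_cast h1
  have a2 : (A : ℝ) ≤ Cc.card * T.card := by
    have h1 : A ≤ T.card * Cc.card := by
      rw [hA]
      calc ∑ p ∈ T, (Cc.filter fun c => r c p).card ≤ ∑ p ∈ T, Cc.card :=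
            Finset.sum_le_sum fun p _ => Finset.card_filter_le _ _
        _ = T.card * Cc.card := by rw [Finset.sum_const, smul_eq_mul]
    rw [mul_comm]
    exact_mod_cast h1
  have k0 : ∀ p ∈ Tg, (Cc.filter fun c => r c p ∧ κ c p) = Cc.filter fun c => κ c p := by
    intro p hp
    refine Finset.filter_congr fun c hc => ?_
    exact ⟨fun h => h.2, fun h => ⟨hr p hp c hc, h⟩⟩
  have k1 : (Tg.card : ℝ) * ((π - ε) * Cc.card) ≤ Ak := by
    have h1 : (∑ p ∈ Tg, ((Cc.filter fun c => r c p ∧ κ c p).card : ℝ)) ≤ Ak := by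
      have h2 : (∑ p ∈ Tg, (Cc.filter fun c => r c p ∧ κ c p).card) ≤ Ak := by
        rw [hAk]
        exact Finset.sum_le_sum_of_subset_of_nonneg hT fun _ _ _ => Nat.zero_le _
      exact_mod_cast h2
    refine le_trans ?_ h1
    rw [← nsmul_eq_mul, ← Finset.sum_const]
    refine Finset.sum_le_sum fun p hp => ?_
    rw [k0 p hp]
    have h3 := (abs_le.1 (hκ p hp)).1
    linarith
  have k2 : (Ak : ℝ) ≤ (Tg.card : ℝ) * ((π + ε) * Cc.card) +
      ((T.card : ℝ) - Tg.card) * Cc.card := by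
    have h1 : (Ak : ℝ) = (∑ p ∈ Tg, ((Cc.filter fun c => r c p ∧ κ c p).card : ℝ)) +
        ∑ p ∈ T \ Tg, ((Cc.filter fun c => r c p ∧ κ c p).card : ℝ) := by
      rw [add_comm, Finset.sum_sdiff hT, hAk]
      push_cast
      rfl
    rw [h1]
    refine add_le_add ?_ ?_
    · rw [← nsmul_eq_mul, ← Finset.sum_const]
      refine Finset.sum_le_sum fun p hp => ?_
      rw [k0 p hp]
      have h3 := (abs_le.1 (hκ p hp)).2
      linarith
    · have h4 : ((T.card : ℝ) - Tg.card) = ((T \ Tg).card : ℝ) := by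
        rw [Finset.card_sdiff_of_subset hT, Nat.cast_sub (Finset.card_le_card hT)]
      rw [h4, ← nsmul_eq_mul, ← Finset.sum_const]
      refine Finset.sum_le_sum fun p hp => ?_
      exact_mod_cast Finset.card_filter_le _ _
  have g0 : (0 : ℝ) ≤ Tg.card := Nat.cast_nonneg _
  have c0 : (0 : ℝ) ≤ Cc.card := Nat.cast_nonneg _
  have t0 : (0 : ℝ) ≤ T.card := Nat.cast_nonneg _
  have g1 : (Tg.card : ℝ) ≤ T.card := by exact_mod_cast Finset.card_le_card hT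
  generalize (Tg.card : ℝ) = g at *
  generalize (Cc.card : ℝ) = c at *
  generalize (T.card : ℝ) = t at *
  generalize (A : ℝ) = A' at *
  generalize (Ak : ℝ) = Ak' at *
  have b1 : c * (t - g) ≤ c * (2 * ε * t) := mul_le_mul_of_nonneg_left hb c0
  have b2 : 0 ≤ c * t := mul_nonneg c0 t0
  have b3 : 0 ≤ c * g := mul_nonneg c0 g0
  have b4 : c * g ≤ c * t := mul_le_mul_of_nonneg_left g1 c0
  have b5 : ε * (c * t) ≤ 1 / 4 * (c * t) := mul_le_mul_of_nonneg_right hε1 b2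
  have b6 : c * t ≤ 2 * A' := by nlinarith
  refine ⟨b6, ?_⟩
  have b7 : ε * (c * t) ≤ ε * (2 * A') := mul_le_mul_of_nonneg_left b6 hε0.le
  have b8 : ε * (c * g) ≤ ε * (c * t) := mul_le_mul_of_nonneg_left b4 hε0.le
  have b9 : π * (c * g) ≤ π * A' := mul_le_mul_of_nonneg_left a1 hπ0
  have b10 : π * A' ≤ π * (c * t) := mul_le_mul_of_nonneg_left a2 hπ0
  have b11 : π * (c * (t - g)) ≤ 1 * (c * (t - g)) :=
    mul_le_mul_of_nonneg_right hπ1 (mul_nonneg c0 (sub_nonneg.2 g1))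
  rw [abs_le]
  constructor <;> nlinarith

/-- sizes -/
theorem dp_size {S J : Finset ℕ} {Q : ℕ} {η : ℝ} (hη : 0 < η) (hJ : J ⊆ S)
    (h : ∀ q ∈ S, Q ≤ q ∧ (q : ℝ) ≤ (1 + η) * Q) :
    (Q : ℝ) ^ J.card ≤ Dp J ∧ (Dp J : ℝ) ≤ ((1 + η) * Q) ^ J.card := by
  constructor
  · rw [Dp, Nat.cast_prod, ← Finset.prod_const]
    exact Finset.prod_le_prod (fun _ _ => Nat.cast_nonneg _) fun q hq => by
      exact_mod_cast (h q (hJ hq)).1
  · rw [Dp, Nat.cast_prod, ← Finset.prod_const]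
    exact Finset.prod_le_prod (fun _ _ => Nat.cast_nonneg _) fun q hq => (h q (hJ hq)).2

theorem fam5 (hC : S_COC) (hE : S_EUL) (hR : S_REG) (hX : S_EXW) (hD : S_DSJ) : S_FAM5 := by
  intro F _ _ ε hε
  obtain ⟨W, hW⟩ := hR F
  obtain ⟨ε', hε'⟩ : ∃ ε' : ℝ, ε' = min (ε / 6) (1 / 4) := ⟨_, rfl⟩
  have hε0 : 0 < ε' := by rw [hε']; positivity
  have hε1 : ε' ≤ 1 / 4 := by rw [hε']; exact min_le_right _ _
  have hε2 : 6 * ε' ≤ ε := by
    have : ε' ≤ ε / 6 := by rw [hε']; exact min_le_left _ _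
    linarith
  obtain ⟨m₀, hm₀⟩ := hW ε' hε0
  obtain ⟨η, n₀, hη, hS⟩ := hm₀ (m₀ + 1) (Nat.le_succ _)
  obtain ⟨S, 𝔮, h, P, R, Q, hGS, hcard, hcube, hQ, hqS, hsR, hcS⟩ :=
    hX F W m₀ (max n₀ (m₀ + 1)) η hη
  obtain ⟨N, a, b, hok, hreg⟩ := hS S 𝔮 h P hGS ((le_max_left _ _).trans hcard) hcube
  have hQr : (0 : ℝ) < Q := by exact_mod_cast hQ
  have hη1 : (0 : ℝ) < 1 + η := by linarith
  obtain ⟨c, Y₀, hc, hY⟩ := hreg ((Q : ℝ) ^ (m₀ + 1)) (by positivity)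
  have hprime : ∀ q ∈ S, q.Prime := fun q hq => (hGS q hq).1
  have hcn : m₀ + 1 ≤ S.card := (le_max_right _ _).trans hcard
  have hRpos : ∀ s ∈ R, 0 < s := by
    intro s hs
    have := (hsR s hs).1
    rcases Nat.eq_zero_or_pos s with h0 | h0
    · rw [h0] at this
      omega
    · exact h0
  -- the combinations
  obtain ⟨Cc, hCc⟩ : ∃ Cc : Finset (Finset ℕ × ℕ), Cc =
    (S.powersetCard (m₀ + 1)) ×ˢ {1} ∪ (S.powersetCard m₀) ×ˢ R := ⟨_, rfl⟩
  obtain ⟨M₁, hM₁⟩ : ∃ M₁ : ℕ, M₁ = S.card.choose (m₀ + 1) := ⟨_, rfl⟩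
  have hM₁' : S.card.choose m₀ * R.card = M₁ := by
    have h1 := Nat.choose_succ_right_eq S.card m₀
    have h2 : S.card - m₀ = (m₀ + 1) * R.card := by omega
    rw [h2, ← hM₁] at h1
    have h3 : M₁ * (m₀ + 1) = (S.card.choose m₀ * R.card) * (m₀ + 1) := by
      rw [h1]
      ring
    exact (Nat.eq_of_mul_eq_mul_right (Nat.succ_pos _) h3).symm
  have hM₁0 : 0 < M₁ := by
    rw [hM₁]
    exact Nat.choose_pos hcn
  have hCmem : ∀ x ∈ Cc, x.1 ⊆ S ∧ 0 < x.2 ∧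
      ((x.1.card = m₀ + 1 ∧ x.2 = 1) ∨ (x.1.card = m₀ ∧ x.2 ∈ R)) := by
    intro x hx
    rw [hCc, Finset.mem_union, Finset.mem_product, Finset.mem_product, Finset.mem_powersetCard,
      Finset.mem_powersetCard, Finset.mem_singleton] at hx
    rcases hx with ⟨⟨h1, h2⟩, h3⟩ | ⟨⟨h1, h2⟩, h3⟩
    · exact ⟨h1, by omega, Or.inl ⟨h2, h3⟩⟩
    · exact ⟨h1, hRpos _ h3, Or.inr ⟨h2, h3⟩⟩
  have hdisj : Disjoint ((S.powersetCard (m₀ + 1)) ×ˢ ({1} : Finset ℕ))
      ((S.powersetCard m₀) ×ˢ R) := by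
    rw [Finset.disjoint_left]
    intro x hx hx'
    rw [Finset.mem_product, Finset.mem_powersetCard] at hx hx'
    have := hx.1.2
    have := hx'.1.2
    omega
  have hCcard : (Cc.card : ℝ) = 2 * M₁ := by
    have : Cc.card = 2 * M₁ := by
      rw [hCc, Finset.card_union_of_disjoint hdisj, Finset.card_product, Finset.card_product,
        Finset.card_powersetCard, Finset.card_powersetCard, Finset.card_singleton, ← hM₁, hM₁']
      ring
    exact_mod_cast this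
  obtain ⟨δ, hδ⟩ : ∃ δ : Finset ℕ × ℕ → ℕ, δ = fun x => Dp x.1 * x.2 ^ 2 := ⟨_, rfl⟩
  have hDp0 : ∀ J ⊆ S, 0 < Dp J := by
    intro J hJ
    exact Finset.prod_pos fun q hq => (hprime q (hJ hq)).pos
  have hδ0 : ∀ x ∈ Cc, 0 < δ x := by
    intro x hx
    obtain ⟨h1, h2, -⟩ := hCmem x hx
    rw [hδ]
    exact Nat.mul_pos (hDp0 _ h1) (pow_pos h2 2)
  have hδinj : ∀ x ∈ Cc, ∀ y ∈ Cc, δ x = δ y → x = y := by
    intro x hx y hy hxy
    obtain ⟨h1, h2, -⟩ := hCmem x hx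
    obtain ⟨h1', h2', -⟩ := hCmem y hy
    rw [hδ] at hxy
    obtain ⟨e1, e2⟩ := dp_inj hprime h1 h1' h2 h2' hxy
    exact Prod.ext e1 e2
  have hδsize : ∀ x ∈ Cc, (Q : ℝ) ^ (m₀ + 1) ≤ δ x ∧
      (δ x : ℝ) ≤ (1 + η) ^ (m₀ + 1) * (Q : ℝ) ^ (m₀ + 1) := by
    intro x hx
    obtain ⟨h1, h2, h3⟩ := hCmem x hx
    obtain ⟨s1, s2⟩ := dp_size hη h1 hqS
    rw [hδ]
    simp only [Nat.cast_mul, Nat.cast_pow]
    rcases h3 with ⟨h3, h4⟩ | ⟨h3, h4⟩
    · rw [h3] at s1 s2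
      rw [h4]
      rw [mul_pow] at s2
      rw [Nat.cast_one, one_pow, mul_one]
      exact ⟨s1, s2⟩
    · rw [h3] at s1 s2
      obtain ⟨r1, r2⟩ := hsR _ h4
      have r1' : (Q : ℝ) ≤ (x.2 : ℝ) ^ 2 := by exact_mod_cast r1
      constructor
      · rw [pow_succ]
        exact mul_le_mul s1 r1' hQr.le (Nat.cast_nonneg _)
      · rw [← mul_pow, pow_succ ((1 + η) * (Q : ℝ))]
        exact mul_le_mul s2 r2 (by positivity) (by positivity)
  obtain ⟨D, hDd⟩ : ∃ D : Finset ℕ, D = Cc.image δ := ⟨_, rfl⟩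
  have hE1 : ∀ k, pr2 k ≤ 1 := by
    intro k
    obtain ⟨h1, h2, -⟩ := hE
    have h3 := le_hasSum h2 k (fun j _ => (h1 j).le)
    exact h3
  refine ⟨N, a, b, D, hok, ?_, c, Y₀, hc, fun Y => ⟨(hY Y).1, fun hYY => ?_⟩⟩
  · intro d hd
    rw [hDd, Finset.mem_image] at hd
    obtain ⟨x, hx, rfl⟩ := hd
    exact hδ0 x hx
  obtain ⟨y1, y2, y3, y4⟩ := (hY Y).2.2 hYY
  have hTf : {p : 𝓞 F × 𝓞 F | HR Y ((Q : ℝ) ^ (m₀ + 1)) p ∧ InFam N a b p}.Finite :=
    (hY Y).2.1.subset fun p hp => hp.1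
  obtain ⟨T, hT⟩ : ∃ T : Finset (𝓞 F × 𝓞 F), T = hTf.toFinset := ⟨_, rfl⟩
  have hTm : ∀ p, p ∈ T ↔ HR Y ((Q : ℝ) ^ (m₀ + 1)) p ∧ InFam N a b p := by
    intro p
    rw [hT, Set.Finite.mem_toFinset]
    rfl
  have hTc : {p : 𝓞 F × 𝓞 F | HR Y ((Q : ℝ) ^ (m₀ + 1)) p ∧ InFam N a b p}.ncard = T.card := by
    rw [hT, Set.ncard_eq_toFinset_card _ hTf]
  obtain ⟨Tg, hTg⟩ : ∃ Tg : Finset (𝓞 F × 𝓞 F), Tg = T.filter fun p =>
    HR Y ((1 + η) ^ (m₀ + 1) * (Q : ℝ) ^ (m₀ + 1)) p ∧ LawQ S m₀ (m₀ + 1) ε' p := ⟨_, rfl⟩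
  have hTgT : Tg ⊆ T := by rw [hTg]; exact Finset.filter_subset _ _
  rw [hTc] at y2 y3 y4
  have hbad : ((T.card : ℝ) - Tg.card) ≤ 2 * ε' * T.card := by
    have h1 : (T \ Tg).card ≤
        {p : 𝓞 F × 𝓞 F | HR Y ((Q : ℝ) ^ (m₀ + 1)) p ∧ InFam N a b p ∧
          ¬ HR Y ((1 + η) ^ (m₀ + 1) * (Q : ℝ) ^ (m₀ + 1)) p}.ncard +
        {p : 𝓞 F × 𝓞 F | HR Y ((Q : ℝ) ^ (m₀ + 1)) p ∧ InFam N a b p ∧
          ¬ LawQ S m₀ (m₀ + 1) ε' p}.ncard := by
      rw [← Set.ncard_coe_finset]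
      refine (Set.ncard_le_ncard ?_ ?_).trans (Set.ncard_union_le _ _)
      · intro p hp
        rw [Finset.mem_coe, Finset.mem_sdiff, hTg, Finset.mem_filter, hTm] at hp
        obtain ⟨⟨h1, h2⟩, h3⟩ := hp
        by_cases h4 : HR Y ((1 + η) ^ (m₀ + 1) * (Q : ℝ) ^ (m₀ + 1)) p
        · right
          exact ⟨h1, h2, fun h5 => h3 ⟨⟨h1, h2⟩, h4, h5⟩⟩
        · left
          exact ⟨h1, h2, h4⟩
      · refine Set.Finite.union ?_ ?_
        · exact hTf.subset fun p hp => ⟨hp.1, hp.2.1⟩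
        · exact hTf.subset fun p hp => ⟨hp.1, hp.2.1⟩
    have h2 : ((T \ Tg).card : ℝ) = (T.card : ℝ) - Tg.card := by
      rw [Finset.card_sdiff_of_subset hTgT, Nat.cast_sub (Finset.card_le_card hTgT)]
    rw [← h2]
    have h3 : ((T \ Tg).card : ℝ) ≤
        ({p : 𝓞 F × 𝓞 F | HR Y ((Q : ℝ) ^ (m₀ + 1)) p ∧ InFam N a b p ∧
          ¬ HR Y ((1 + η) ^ (m₀ + 1) * (Q : ℝ) ^ (m₀ + 1)) p}.ncard : ℝ) +
        ({p : 𝓞 F × 𝓞 F | HR Y ((Q : ℝ) ^ (m₀ + 1)) p ∧ InFam N a b p ∧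
          ¬ LawQ S m₀ (m₀ + 1) ε' p}.ncard : ℝ) := by exact_mod_cast h1
    linarith
  obtain ⟨φ, hφ⟩ : ∃ φ : (Finset ℕ × ℕ) × (𝓞 F × 𝓞 F) → 𝓞 F × 𝓞 F, φ = fun x => tw (δ x.1) x.2 :=
    ⟨_, rfl⟩
  obtain ⟨r, hr⟩ : ∃ r : Finset ℕ × ℕ → 𝓞 F × 𝓞 F → Prop, r = fun x p => HR Y (δ x) p := ⟨_, rfl⟩
  have hφinj : Set.InjOn φ (Cc ×ˢ T : Finset _) := by
    rintro ⟨x, p⟩ hx ⟨y, p'⟩ hy hxy
    rw [Finset.mem_coe, Finset.mem_product] at hx hy
    rw [hφ] at hxy
    obtain ⟨e1, e2⟩ := hD F N a b (δ x) (δ y) p p' (hδ0 x hx.1) (hδ0 y hy.1)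
      ((hTm p).1 hx.2).2 ((hTm p').1 hy.2).2 hxy
    exact Prod.ext (hδinj x hx.1 y hy.1 e1) e2
  -- the families as images
  have hG : ∀ κ : 𝓞 F × 𝓞 F → Prop, {P : 𝓞 F × 𝓞 F | Hle Y P ∧ P ∈ Fml N a b D ∧ κ P}.ncard =
      ((Cc ×ˢ T).filter fun x => r x.1 x.2 ∧ κ (tw (δ x.1) x.2)).card := by
    intro κ
    rw [← Finset.card_image_of_injOn (f := φ) (hφinj.mono (by
      intro x hx
      exact Finset.filter_subset _ _ hx)), ← Set.ncard_coe_finset]
    congr 1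
    ext P
    rw [Finset.coe_image, Set.mem_image]
    constructor
    · rintro ⟨h1, ⟨d, hd, p, hp, rfl⟩, h2⟩
      rw [hDd, Finset.mem_image] at hd
      obtain ⟨x, hx, rfl⟩ := hd
      rw [hle_tw] at h1
      refine ⟨(x, p), ?_, by rw [hφ]⟩
      rw [Finset.mem_coe, Finset.mem_filter, Finset.mem_product, hTm, hr]
      exact ⟨⟨hx, HR_mono (by positivity) (hδsize x hx).1 h1, hp⟩, h1, h2⟩
    · rintro ⟨⟨x, p⟩, hx, rfl⟩
      rw [Finset.mem_coe, Finset.mem_filter, Finset.mem_product, hTm, hr] at hx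
      obtain ⟨⟨hx1, hx2, hx3⟩, hx4, hx5⟩ := hx
      rw [hφ]
      refine ⟨(hle_tw _ _ _).2 hx4, ⟨δ x, ?_, p, hx3, rfl⟩, hx5⟩
      rw [hDd]
      exact Finset.mem_image_of_mem _ hx1
  have hG0 : {P : 𝓞 F × 𝓞 F | Hle Y P ∧ P ∈ Fml N a b D}.ncard =
      ((Cc ×ˢ T).filter fun x => r x.1 x.2).card := by
    have := hG fun _ => True
    simpa only [and_true] using this
  obtain ⟨κ, hκ⟩ : ∃ κ : ℕ → 𝓞 F × 𝓞 F → Prop, κ = fun k P => selP P = 2 ^ k := ⟨_, rfl⟩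
  have hcnt := fun k => cnt T Tg Cc r (fun x p => κ k (tw (δ x) p)) (pr2 k) ε' hTgT
    (by
      intro p hp x hx
      rw [hTg, Finset.mem_filter] at hp
      rw [hr]
      exact HR_mono (Nat.cast_nonneg _) (hδsize x hx).2 hp.2.1) (by
      intro p hp
      rw [hTg, Finset.mem_filter] at hp
      obtain ⟨-, -, e, he, hlaw⟩ := hp
      have hsel : ∀ x ∈ Cc, selP (tw (δ x) p) = 2 ^ e x.1 := by
        intro x hx
        obtain ⟨h1, h2, -⟩ := hCmem x hx
        rw [hδ]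
        exact selP_of hC (gd_tw h2 (he x.1 h1))
      have e1 : (Cc.filter fun x => κ k (tw (δ x) p)) = Cc.filter fun x => e x.1 = k := by
        refine Finset.filter_congr fun x hx => ?_
        rw [hκ]
        show selP (tw (δ x) p) = 2 ^ k ↔ _
        rw [hsel x hx]
        exact ⟨fun h => Nat.pow_right_injective le_rfl h, fun h => by rw [h]⟩
      have e2 : ((Cc.filter fun x => e x.1 = k).card : ℝ) =
          (((S.powersetCard (m₀ + 1)).filter fun J => e J = k).card : ℝ) +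
          (((S.powersetCard m₀).filter fun J => e J = k).card : ℝ) * R.card := by
        have h1 : (Cc.filter fun x => e x.1 = k) =
            (((S.powersetCard (m₀ + 1)).filter fun J => e J = k) ×ˢ {1}) ∪
            (((S.powersetCard m₀).filter fun J => e J = k) ×ˢ R) := by
          rw [hCc, Finset.filter_union]
          congr 1
          · ext x
            simp only [Finset.mem_filter, Finset.mem_product]
            tauto
          · ext x
            simp only [Finset.mem_filter, Finset.mem_product]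
            tauto
        rw [h1, Finset.card_union_of_disjoint, Finset.card_product, Finset.card_product,
          Finset.card_singleton]
        · push_cast
          ring
        · refine hdisj.mono ?_ ?_
          · exact Finset.product_subset_product_left (Finset.filter_subset _ _)
          · exact Finset.product_subset_product_left (Finset.filter_subset _ _)
      have hc1 : (0 : ℝ) < S.card.choose (m₀ + 1) := by
        rw [← hM₁]
        exact_mod_cast hM₁0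
      have hc0 : (0 : ℝ) < S.card.choose m₀ := by
        exact_mod_cast Nat.choose_pos (by omega)
      have l1 := hlaw (m₀ + 1) (Nat.le_succ _) le_rfl k
      have l0 := hlaw m₀ le_rfl (Nat.le_succ _) k
      have hM1r : (M₁ : ℝ) = S.card.choose (m₀ + 1) := by rw [hM₁]
      have hM0r : (S.card.choose m₀ : ℝ) * R.card = M₁ := by exact_mod_cast hM₁'
      have l1' : |(((S.powersetCard (m₀ + 1)).filter fun J => e J = k).card : ℝ) -
          pr2par (e ∅ + (m₀ + 1)) k * M₁| ≤ ε' * M₁ := by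
        rw [hM1r]
        have h1 := mul_le_mul_of_nonneg_right l1 hc1.le
        rw [← abs_of_pos hc1, ← abs_mul, abs_of_pos hc1, sub_mul, div_mul_cancel₀ _ hc1.ne'] at h1
        exact h1
      have l0' : |(((S.powersetCard m₀).filter fun J => e J = k).card : ℝ) * R.card -
          pr2par (e ∅ + m₀) k * M₁| ≤ ε' * M₁ := by
        rw [← hM0r]
        have h1 := mul_le_mul_of_nonneg_right l0
          (by positivity : (0 : ℝ) ≤ S.card.choose m₀ * R.card)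
        rw [← abs_of_nonneg (by positivity : (0 : ℝ) ≤ S.card.choose m₀ * R.card), ← abs_mul,
          abs_of_nonneg (by positivity : (0 : ℝ) ≤ S.card.choose m₀ * R.card), sub_mul,
          ← mul_assoc, div_mul_cancel₀ _ hc0.ne'] at h1
        exact h1
      rw [e1, e2, hCcard]
      have h3 := pr2par_add (e ∅ + m₀) k
      rw [add_assoc] at h3
      rw [abs_le] at l1' l0' ⊢
      obtain ⟨u1, u2⟩ := l1'
      obtain ⟨w1, w2⟩ := l0'
      have h4 : pr2 k * (2 * (M₁ : ℝ)) = pr2par (e ∅ + (m₀ + 1)) k * M₁ +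
          pr2par (e ∅ + m₀) k * M₁ := by
        rw [← add_mul, h3]
        ring
      rw [h4]
      constructor <;> linarith) (hE.1 k).le (hE1 k) hε0 hε1 hbad
  refine ⟨y1, ?_, fun k => ?_⟩
  · refine y2.trans ?_
    rw [hG0]
    have h1 := (hcnt 0).1
    rw [hCcard] at h1
    have h2 : (1 : ℝ) ≤ M₁ := by exact_mod_cast hM₁0
    have h3 : (0 : ℝ) ≤ T.card := Nat.cast_nonneg _
    nlinarith
  · have h1 := (hcnt k).2
    have h2 : {P : 𝓞 F × 𝓞 F | Hle Y P ∧ P ∈ Fml N a b D ∧ selP P = 2 ^ k}.ncard =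
      ((Cc ×ˢ T).filter fun x => r x.1 x.2 ∧ κ k (tw (δ x.1) x.2)).card := by
      rw [← hG (κ k), hκ]
    rw [h2, hG0]
    refine h1.trans ?_
    exact mul_le_mul_of_nonneg_right hε2 (Nat.cast_nonneg _)

end Pool.Agent.H68K.PR
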