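import Pool.Agent.H68K.PR.ChiD

/-!
# Project PR (helper68): distinguished vectors and squares, the converse

If the reductions of the Gram matrices are distinguished, then there is a distinguished vector in the
lattice, and then `α` is a local square at the primes over `𝔮`.
-/

set_option autoImplicit false
set_option linter.all false

open Polynomial IsDedekindDomain Matrix NumberField WithZero
open scoped Classical

namespace Pool.Agent.H68K.PR

open Pool.Agent.N352.PJ (Mt Typ Jm)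
open Pool.Agent.N783.PQ (chp form Dist)
open Pool.Agent.N783.PF
open Pool.Agent.N874.PP (Ev Sq1 U0)
open Pool.Agent.N614.PF (charpoly_smul findim minpoly_deg minpoly_eq charpoly_mulMatrix det mF_apply
  mF_mul mF_det mF_adj mF_pow gram_mul gram_pow gram_op det_eq form_eq)
open Pool.Agent.N862.PF (int_iff theta_int theta_ex sum_eq top_int int_of_top top_pow dvd_of_sqf ev ev_L
  ev_f ev_X ev_C small_zero deg_f ev_ker ex_poly ev_surj ex_psi ex_prime key prod_int mul_mem_lat stepA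
  stepB fin_ov)

/-- From the matrices to the lattice. -/
theorem distD (g : ℕ) (F L : Type) [Field F] [NumberField F] [Field L] [NumberField L]
  [Algebra F L] (f : (𝓞 F)[X]) (θ : L) (hG : IsGen g f θ) (D₁ : ℕ) (α : L) (Λ : Submodule (𝓞 F) L)
  (e : Fin (2 * g + 1) → L) (hα : α ≠ 0) (hΛ : LatD hG D₁ α Λ)
  (heΛ : ∀ i, e i ∈ Λ) (he : LinearIndependent F e) (A B : Mt g (𝓞 F)) (hl : Gr hG α e A B)
  (𝔮 : Ideal (𝓞 F)) (h𝔮 : 𝔮.IsPrime) (h𝔮0 : 𝔮 ≠ ⊥) (hδ : A.det ∉ 𝔮)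
  (hD : Dist (rm 𝔮 A) (rm 𝔮 B)) : DVec hG α Λ 𝔮 := by
  have hfd := findim hG
  obtain ⟨b, hb⟩ : ∃ b : Module.Basis (Fin (2 * g + 1)) F L, ∀ i, b i = e i := by
    refine ⟨basisOfLinearIndependentOfCardEqFinrank he (by rw [hG.rank, Fintype.card_fin]),
      fun i => ?_⟩
    rw [coe_basisOfLinearIndependentOfCardEqFinrank]
  have hinj : Function.Injective (algebraMap (𝓞 F) F) := RingOfIntegers.coe_injective
  have hop := gram_op hl b hb
  have hC : mF (A.adjugate * B) = ((A.det : 𝓞 F) : F) • Algebra.leftMulMatrix b θ := by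
    rw [mF_mul, mF_adj, ← hop, ← Matrix.mul_assoc, Matrix.adjugate_mul, mF_det,
      Matrix.smul_mul, Matrix.one_mul]
  have hmax : 𝔮.IsMaximal := h𝔮.isMaximal h𝔮0
  have hdom : IsDomain (𝓞 F ⧸ 𝔮) := Ideal.Quotient.isDomain 𝔮
  have hex : ∀ a : 𝓞 F, a ∉ 𝔮 → ∃ t : 𝓞 F, Ideal.Quotient.mk 𝔮 a * Ideal.Quotient.mk 𝔮 t = 1 := by
    intro a ha
    have h1 : Ideal.Quotient.mk 𝔮 a ≠ 0 := fun h => ha (Ideal.Quotient.eq_zero_iff_mem.1 h)
    obtain ⟨c, hc⟩ := Ideal.Quotient.exists_inv h1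
    obtain ⟨t, rfl⟩ := Ideal.Quotient.mk_surjective c
    exact ⟨t, hc⟩
  obtain ⟨t, ht⟩ := hex _ hδ
  have hrd : (rm 𝔮 A).det = Ideal.Quotient.mk 𝔮 A.det := ((Ideal.Quotient.mk 𝔮).map_det A).symm
  have hra : (rm 𝔮 A).adjugate = rm 𝔮 A.adjugate := ((Ideal.Quotient.mk 𝔮).map_adjugate A).symm
  have hri : (rm 𝔮 A)⁻¹ = Ideal.Quotient.mk 𝔮 t • rm 𝔮 A.adjugate := by
    apply Matrix.inv_eq_left_inv
    have ht' : Ideal.Quotient.mk 𝔮 t * Ideal.Quotient.mk 𝔮 A.det = 1 := by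
      rw [mul_comm]; exact ht
    rw [Matrix.smul_mul, ← hra, Matrix.adjugate_mul, hrd, smul_smul, ht', one_smul]
  have hro : (rm 𝔮 A)⁻¹ * rm 𝔮 B = Ideal.Quotient.mk 𝔮 t • rm 𝔮 (A.adjugate * B) := by
    rw [hri, Matrix.smul_mul]
    congr 1
    exact (Matrix.map_mul).symm
  obtain ⟨ξ, hξ⟩ := hD
  choose c hc using fun i => Ideal.Quotient.mk_surjective (ξ i)
  obtain ⟨x, hx⟩ : ∃ x : L, x = ∑ i, (c i : F) • e i := ⟨_, rfl⟩
  have hxΛ : x ∈ Λ := by
    rw [hx]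
    exact Submodule.sum_mem _ fun i _ => Submodule.smul_mem _ (c i) (heΛ i)
  have hrep : (fun i => b.repr x i) = fun i => ((c i : 𝓞 F) : F) := by
    funext i
    rw [hx]
    simp only [← hb]
    rw [Module.Basis.repr_sum_self]
  have hmv : ∀ (M : Mt g (𝓞 F)) (v : Fin (2 * g + 1) → 𝓞 F),
      (fun i => (((M *ᵥ v) i : 𝓞 F) : F)) = mF M *ᵥ fun i => ((v i : 𝓞 F) : F) := by
    intro M v
    funext i
    change algebraMap (𝓞 F) F (∑ j, M i j * v j) =
      ∑ j, algebraMap (𝓞 F) F (M i j) * algebraMap (𝓞 F) F (v j)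
    rw [map_sum]
    simp only [map_mul]
  have key : ∀ m, ((c ⬝ᵥ ((A * (A.adjugate * B) ^ m) *ᵥ c) : 𝓞 F) : F) =
      ((A.det : 𝓞 F) : F) ^ m * hG.top (θ ^ m * x ^ 2 / α) := by
    intro m
    have h1 : ((c ⬝ᵥ ((A * (A.adjugate * B) ^ m) *ᵥ c) : 𝓞 F) : F) =
        (fun i => ((c i : 𝓞 F) : F)) ⬝ᵥ
          (mF (A * (A.adjugate * B) ^ m) *ᵥ fun i => ((c i : 𝓞 F) : F)) := by
      rw [← hmv]
      change algebraMap (𝓞 F) F (∑ i, c i * ((A * (A.adjugate * B) ^ m) *ᵥ c) i) =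
        ∑ i, algebraMap (𝓞 F) F (c i) *
          algebraMap (𝓞 F) F (((A * (A.adjugate * B) ^ m) *ᵥ c) i)
      rw [map_sum]
      simp only [map_mul]
    rw [h1, ← hrep, mF_mul, mF_pow, hC, _root_.smul_pow, ← map_pow (Algebra.leftMulMatrix b) θ m,
      Matrix.mul_smul, Matrix.smul_mulVec, dotProduct_smul, form_eq hl b hb, smul_eq_mul]
  have hmk : ∀ (M : Mt g (𝓞 F)) (v : Fin (2 * g + 1) → 𝓞 F),
      (fun i => Ideal.Quotient.mk 𝔮 (v i)) ⬝ᵥ (rm 𝔮 M *ᵥ fun i => Ideal.Quotient.mk 𝔮 (v i)) =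
        Ideal.Quotient.mk 𝔮 (v ⬝ᵥ (M *ᵥ v)) := by
    intro M v
    rw [dotProduct, dotProduct, map_sum]
    refine Finset.sum_congr rfl fun i _ => ?_
    rw [map_mul, Matrix.mulVec, Matrix.mulVec, dotProduct, dotProduct, map_sum]
    simp only [map_mul, Matrix.map_apply, rm]
  have hpow : ∀ m, rm 𝔮 A * ((rm 𝔮 A)⁻¹ * rm 𝔮 B) ^ m =
      Ideal.Quotient.mk 𝔮 t ^ m • rm 𝔮 (A * (A.adjugate * B) ^ m) := by
    intro m
    rw [hro, _root_.smul_pow, Matrix.mul_smul]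
    congr 1
    have h1 : rm 𝔮 (A * (A.adjugate * B) ^ m) = rm 𝔮 A * rm 𝔮 ((A.adjugate * B) ^ m) :=
      Matrix.map_mul
    have h2 : rm 𝔮 ((A.adjugate * B) ^ m) = rm 𝔮 (A.adjugate * B) ^ m :=
      ((Ideal.Quotient.mk 𝔮).mapMatrix).map_pow (A.adjugate * B) m
    rw [h1, h2]
  refine ⟨x, hxΛ, 1, fun h1 => h𝔮.ne_top ((Ideal.eq_top_iff_one _).2 h1), fun m hm => ?_⟩
  obtain ⟨v, hv⟩ : ∃ v : 𝓞 F, (v : F) = hG.top (θ ^ m * x ^ 2 / α) := by
    have h1 : ∀ n : ℕ, θ ^ n * x ∈ Λ := by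
      intro n
      induction n with
      | zero => rw [pow_zero, one_mul]; exact hxΛ
      | succ n ih =>
        rw [pow_succ', mul_assoc]
        exact hΛ.stab _ ih
    have h2 := hΛ.int _ (h1 m) _ hxΛ
    refine ⟨⟨_, h2⟩, ?_⟩
    change hG.top (θ ^ m * x * x / α) = _
    rw [mul_assoc, ← sq]
  have hform := hξ m hm
  have hξ' : ξ = fun i => Ideal.Quotient.mk 𝔮 (c i) := funext fun i => (hc i).symm
  rw [form, hpow, hξ', Matrix.smul_mulVec, dotProduct_smul, hmk, smul_eq_mul] at hform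
  have hk : c ⬝ᵥ ((A * (A.adjugate * B) ^ m) *ᵥ c) = A.det ^ m * v := by
    apply hinj
    refine (key m).trans ?_
    rw [← hv, map_mul, map_pow]
  rw [hk, map_mul, map_pow, ← mul_assoc, ← mul_pow, mul_comm (Ideal.Quotient.mk 𝔮 t), ht, one_pow,
    one_mul] at hform
  refine ⟨v - if m = 2 * g then 1 else 0, ?_, ?_⟩
  · rw [← Ideal.Quotient.eq_zero_iff_mem, map_sub, hform]
    split_ifs <;> simp
  · rw [← hv]
    change algebraMap (𝓞 F) F (v - if m = 2 * g then 1 else 0) = _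
    rw [map_sub]
    split_ifs <;> simp

/-- A distinguished vector gives local squares. -/
theorem sq1D (hI : S_INT) (g : ℕ) (F L : Type) [Field F] [NumberField F] [Field L] [NumberField L]
  [Algebra F L] (f : (𝓞 F)[X]) (θ : L) (hG : IsGen g f θ) (hsq : SqF g f) (α : L)
  (Λ : Submodule (𝓞 F) L) (hα : α ≠ 0) (hSD : SDn α Λ)
  (𝔮 : Ideal (𝓞 F)) (hprime : 𝔮.IsPrime) (hq0 : 𝔮 ≠ ⊥) (hDV : DVec hG α Λ 𝔮)
  (𝔓 : HeightOneSpectrum (𝓞 L)) (hov : Ov 𝔮 𝔓) : Sq1 𝔓 α := by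
  have hint := hI g F L f θ hG hsq
  obtain ⟨t, ht⟩ := theta_ex hG
  obtain ⟨x, hx, s, hs, hm⟩ := hDV
  obtain ⟨u, hu⟩ := (int_iff _).1 ((hSD x).1 hx)
  obtain ⟨p, hp1, hp2⟩ := ex_poly hI hG hsq ht (u - algebraMap (𝓞 F) (𝓞 L) (s ^ 2))
  -- the values of the functional
  have htop : ∀ m ≤ 2 * g, ∃ a ∈ 𝔮, (a : F) = hG.top (θ ^ m * algebraMap (𝓞 L) L (ev F t p)) := by
    intro m hm2
    obtain ⟨a, ha, hae⟩ := hm m hm2
    refine ⟨a, ha, ?_⟩
    have e1 : θ ^ m * algebraMap (𝓞 L) L (ev F t p) =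
        θ ^ m * x ^ 2 / α - (s : F) ^ 2 • θ ^ m := by
      rw [hp2, map_sub, hu, ← IsScalarTower.algebraMap_apply (𝓞 F) (𝓞 L) L,
        IsScalarTower.algebraMap_apply (𝓞 F) F L, Algebra.smul_def, map_pow]
      ring
    rw [e1, map_sub, map_smul, top_pow hG m hm2, hae]
    split_ifs <;> simp
  have hV : ∀ i : ℕ, ∃ b : 𝓞 F, (b : F) = hG.top (θ ^ i) := by
    intro i
    have h1 := top_int hG hint ((theta_int hG).pow i)
    exact ⟨⟨_, h1⟩, rfl⟩
  choose b hb using hV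
  have hb0 : ∀ i < 2 * g, b i = 0 := by
    intro i hi
    apply RingOfIntegers.coe_injective
    change ((b i : 𝓞 F) : F) = algebraMap (𝓞 F) F 0
    rw [hb, top_pow hG i hi.le, if_neg hi.ne, map_zero]
  have hb1 : b (2 * g) = 1 := by
    apply RingOfIntegers.coe_injective
    change ((b (2 * g) : 𝓞 F) : F) = algebraMap (𝓞 F) F 1
    rw [hb, top_pow hG _ le_rfl, if_pos rfl, map_one]
  have hsum : ∀ m, hG.top (θ ^ m * algebraMap (𝓞 L) L (ev F t p)) =
      ((∑ i ∈ Finset.range (2 * g + 1), p.coeff i * b (i + m) : 𝓞 F) : F) := by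
    intro m
    have h3 : θ ^ m * algebraMap (𝓞 L) L (ev F t p) = ∑ i ∈ Finset.range (2 * g + 1),
        ((p.coeff i : 𝓞 F) : F) • θ ^ (i + m) := by
      rw [ev_L ht, aeval_def, eval₂_eq_sum_range' (algebraMap (𝓞 F) L) (n := 2 * g + 1),
        Finset.mul_sum]
      · refine Finset.sum_congr rfl fun i _ => ?_
        rw [Algebra.smul_def, IsScalarTower.algebraMap_apply (𝓞 F) F L, pow_add]
        ring
      · by_cases hr0 : p = 0
        · rw [hr0]; simp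
        · exact (natDegree_lt_iff_degree_lt hr0).2 hp1
    have h7 : ((∑ i ∈ Finset.range (2 * g + 1), p.coeff i * b (i + m) : 𝓞 F) : F) =
        algebraMap (𝓞 F) F (∑ i ∈ Finset.range (2 * g + 1), p.coeff i * b (i + m)) := rfl
    rw [h3, h7, map_sum, map_sum]
    refine Finset.sum_congr rfl fun i _ => ?_
    rw [map_smul, smul_eq_mul, ← hb (i + m), map_mul]
  have hcoef : ∀ n, ∀ j ≤ 2 * g, 2 * g < n + j + 1 → p.coeff j ∈ 𝔮 := by
    intro n
    induction n with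
    | zero =>
      intro j hj hnj
      have hj' : j = 2 * g := by omega
      obtain ⟨a, ha, hae⟩ := htop 0 (Nat.zero_le _)
      rw [hsum] at hae
      have h1 : a = ∑ i ∈ Finset.range (2 * g + 1), p.coeff i * b (i + 0) :=
        RingOfIntegers.coe_injective hae
      rw [Finset.sum_eq_single (2 * g) (fun i hi hne => by
        rw [add_zero, hb0 i (by rw [Finset.mem_range] at hi; omega), mul_zero]) (fun h => by
        exact absurd (Finset.mem_range.2 (by omega)) h), add_zero, hb1, mul_one] at h1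
      rw [hj', ← h1]
      exact ha
    | succ n ih =>
      intro j hj hnj
      rcases Nat.lt_or_ge (2 * g) (n + j + 1) with h0 | h0
      · exact ih j hj h0
      · have hjn : j + n + 1 = 2 * g := by omega
        obtain ⟨a, ha, hae⟩ := htop (n + 1) (by omega)
        rw [hsum] at hae
        have h1 : a = ∑ i ∈ Finset.range (2 * g + 1), p.coeff i * b (i + (n + 1)) :=
          RingOfIntegers.coe_injective hae
        rw [← Finset.add_sum_erase _ _ (Finset.mem_range.2 (by omega : j < 2 * g + 1)),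
          show j + (n + 1) = 2 * g by omega, hb1, mul_one] at h1
        have h2 : ∑ i ∈ (Finset.range (2 * g + 1)).erase j, p.coeff i * b (i + (n + 1)) ∈ 𝔮 := by
          refine Ideal.sum_mem _ fun i hi => ?_
          rw [Finset.mem_erase, Finset.mem_range] at hi
          rcases Nat.lt_or_ge i j with h3 | h3
          · rw [hb0 _ (by omega), mul_zero]
            exact 𝔮.zero_mem
          · exact 𝔮.mul_mem_right _ (ih i (by omega) (by omega))
        have h3 : p.coeff j = a - ∑ i ∈ (Finset.range (2 * g + 1)).erase j,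
            p.coeff i * b (i + (n + 1)) := by rw [h1]; ring
        rw [h3]
        exact 𝔮.sub_mem ha h2
  have hmem : u - algebraMap (𝓞 F) (𝓞 L) (s ^ 2) ∈ 𝔓.asIdeal := by
    rw [← hp2, ev, coe_eval₂RingHom, eval₂_eq_sum_range' (algebraMap (𝓞 F) (𝓞 L)) (n := 2 * g + 1)]
    · refine Ideal.sum_mem _ fun i hi => ?_
      rw [Finset.mem_range] at hi
      exact 𝔓.asIdeal.mul_mem_right _ (hov _ (hcoef (2 * g) i (by omega) (by omega)))
    · by_cases hr0 : p = 0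
      · rw [hr0]; simp
      · exact (natDegree_lt_iff_degree_lt hr0).2 hp1
  have hsP : algebraMap (𝓞 F) (𝓞 L) s ∉ 𝔓.asIdeal := by
    intro hsm
    have hmax : 𝔮.IsMaximal := hprime.isMaximal hq0
    obtain ⟨y, z, hz, hyz⟩ := hmax.exists_inv hs
    have h1 := 𝔓.asIdeal.add_mem (𝔓.asIdeal.mul_mem_left (algebraMap (𝓞 F) (𝓞 L) y) hsm) (hov z hz)
    rw [← map_mul, ← map_add, hyz, map_one] at h1
    exact 𝔓.isPrime.ne_top ((Ideal.eq_top_iff_one _).2 h1)
  have hs1 : 𝔓.valuation L (algebraMap (𝓞 L) L (algebraMap (𝓞 F) (𝓞 L) s)) = 1 := by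
    rw [HeightOneSpectrum.valuation_of_algebraMap]
    exact HeightOneSpectrum.intValuation_eq_one_iff.2 hsP
  obtain ⟨σ, hσ⟩ : ∃ σ : L, σ = algebraMap (𝓞 L) L (algebraMap (𝓞 F) (𝓞 L) s) := ⟨_, rfl⟩
  rw [← hσ] at hs1
  have hσ0 : σ ≠ 0 := by
    rintro rfl
    rw [map_zero] at hs1
    exact zero_ne_one hs1
  have hv : 𝔓.valuation L (x ^ 2 / α - σ ^ 2) < 1 := by
    have e1 : x ^ 2 / α - σ ^ 2 =
        algebraMap (𝓞 L) L (u - algebraMap (𝓞 F) (𝓞 L) (s ^ 2)) := by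
      rw [map_sub, hu, map_pow, map_pow, hσ]
    rw [e1]
    exact (𝔓.valuation_lt_one_iff_mem _).2 hmem
  refine ⟨x / σ, ?_⟩
  have e2 : α - (x / σ) ^ 2 = -(α / σ ^ 2 * (x ^ 2 / α - σ ^ 2)) := by
    field_simp
    ring
  rw [e2, Valuation.map_neg, map_mul, map_div₀, map_pow, hs1, one_pow, div_one]
  have h0 : 𝔓.valuation L α ≠ 0 := (Valuation.ne_zero_iff _).2 hα
  calc 𝔓.valuation L α * 𝔓.valuation L (x ^ 2 / α - σ ^ 2) < 𝔓.valuation L α * 1 := by
        exact mul_lt_mul_of_pos_left hv (zero_lt_iff.2 h0)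
    _ = 𝔓.valuation L α := mul_one _

end Pool.Agent.H68K.PR
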