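import Mathlib

/-!
# Project PR, phase 2 (helper68): the Poonen-Rains law along random twists. Combinatorial parts.
-/

set_option autoImplicit false
set_option linter.all false

open scoped Classical

namespace Pool.Agent.H68K.PR

/-- The constants of Poonen and Rains for `p = 2`:
`∏_{j ≥ 0} (1 + 2 ^ (- j)) ^ (-1) * ∏_{1 ≤ i ≤ k} 2 / (2 ^ i - 1)`. -/
noncomputable def pr2 (k : ℕ) : ℝ :=
  (∏' j : ℕ, (1 + (2 : ℝ)⁻¹ ^ j)⁻¹) * ∏ i ∈ Finset.range k, (2 / ((2 : ℝ) ^ (i + 1) - 1))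

/-- EUL: the constants are positive and sum up to one. -/
def S_EUL : Prop := (∀ k, 0 < pr2 k) ∧ HasSum pr2 1 ∧
  Filter.Tendsto (fun n : ℕ => ∏ j ∈ Finset.range n, (1 + (2 : ℝ)⁻¹ ^ j)⁻¹) Filter.atTop
    (nhds (∏' j : ℕ, (1 + (2 : ℝ)⁻¹ ^ j)⁻¹))

/-- AVG: a function `d` on finite sets, which changes by one if an element is added and decreases with
a proportion close to `1 - 2 ^ (- d)`. Its values are distributed as the constants of Poonen and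
Rains, on average over the sets with `i < m` elements. -/
def S_AVG : Prop := ∀ ε : ℝ, 0 < ε → ∀ D₁ : ℕ, ∃ (m : ℕ) (η : ℝ) (n₀ : ℕ), 0 < m ∧ 0 < η ∧ m ≤ n₀ ∧
  ∀ (ι : Type) [Fintype ι] (d : Finset ι → ℕ), n₀ ≤ Fintype.card ι → d ∅ ≤ D₁ →
  (∀ J : Finset ι, J.card < m → ∀ q ∉ J, d (insert q J) = d J + 1 ∨ d (insert q J) + 1 = d J) →
  (∀ J : Finset ι, J.card < m →
    |((Finset.univ.filter fun q => q ∉ J ∧ d (insert q J) + 1 = d J).card : ℝ) -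
      (1 - (2 : ℝ)⁻¹ ^ d J) * Fintype.card ι| ≤ η * Fintype.card ι) →
  ∀ k : ℕ, |(∑ i ∈ Finset.range m,
    ((Finset.univ.filter fun J : Finset ι => J.card = i ∧ d J = k).card : ℝ) /
      ((Fintype.card ι).choose i : ℝ)) / m - pr2 k| ≤ ε

/-- The elements of `Λ` in the product of the lines `b_q = 0` (`q ∈ J`), `a_q = 0` (`q ∉ J`). -/
def LJ {ι : Type} (Λ : AddSubgroup (ι → ZMod 2 × ZMod 2)) (J : Finset ι) :
    Set (ι → ZMod 2 × ZMod 2) :=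
  {l | l ∈ Λ ∧ (∀ q ∈ J, (l q).2 = 0) ∧ ∀ q ∉ J, (l q).1 = 0}

/-- LIN2: the intersections of a maximal isotropic subgroup. -/
def S_LIN2 : Prop := ∀ (ι : Type) [Fintype ι] (Λ : AddSubgroup (ι → ZMod 2 × ZMod 2)),
  (∀ l ∈ Λ, ∑ q, (l q).1 * (l q).2 = 0) → 2 ^ Fintype.card ι ≤ Nat.card Λ →
  ∃ d : Finset ι → ℕ, (∀ J, Nat.card (LJ Λ J) = 2 ^ d J) ∧
    (∀ J, ∀ q ∉ J, d (insert q J) = d J + 1 ∨ d (insert q J) + 1 = d J) ∧
    (∀ J, ∀ q ∉ J, d (insert q J) + 1 = d J ↔ ∃ l ∈ LJ Λ J, l q ≠ 0) ∧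
    ∀ (J : Finset ι) (η : ℝ), 0 ≤ η →
    (∀ l ∈ LJ Λ J, l ≠ 0 → |((Finset.univ.filter fun q => l q ≠ 0).card : ℝ) -
      (Fintype.card ι : ℝ) / 2| ≤ η * Fintype.card ι) →
    |((Finset.univ.filter fun q => q ∉ J ∧ d (insert q J) + 1 = d J).card : ℝ) -
      (1 - (2 : ℝ)⁻¹ ^ d J) * Fintype.card ι| ≤ 2 * η * Fintype.card ι + J.card

/-- LAW: both together. -/
def S_LAW : Prop := ∀ ε : ℝ, 0 < ε → ∀ D₁ : ℕ, ∃ (m : ℕ) (η : ℝ) (n₀ : ℕ), 0 < m ∧ 0 < η ∧ m ≤ n₀ ∧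
  ∀ (ι : Type) [Fintype ι] (Λ : AddSubgroup (ι → ZMod 2 × ZMod 2)), n₀ ≤ Fintype.card ι →
  (∀ l ∈ Λ, ∑ q, (l q).1 * (l q).2 = 0) → 2 ^ Fintype.card ι ≤ Nat.card Λ →
  Nat.card (LJ Λ ∅) ≤ 2 ^ D₁ →
  (∀ J : Finset ι, J.card < m → ∀ l ∈ LJ Λ J, l ≠ 0 →
    |((Finset.univ.filter fun q => l q ≠ 0).card : ℝ) - (Fintype.card ι : ℝ) / 2| ≤
      η * Fintype.card ι) →
  ∀ k : ℕ, |(∑ i ∈ Finset.range m,
    ((Finset.univ.filter fun J : Finset ι => J.card = i ∧ Nat.card (LJ Λ J) = 2 ^ k).card : ℝ) /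
      ((Fintype.card ι).choose i : ℝ)) / m - pr2 k| ≤ ε

/-- BIN: few subsets have a number of elements far from the mean. -/
def S_BIN : Prop := ∀ (T : Finset ℕ) (η : ℝ), 0 ≤ η →
  (((T.powerset.filter fun U => η * T.card ≤ |(U.card : ℝ) - (T.card : ℝ) / 2|).card : ℕ) : ℝ) ≤
    2 * 2 ^ T.card * Real.exp (- 2 * η ^ 2 * T.card)

/-- `S_LAW` from `S_AVG` and `S_LIN2`. -/
theorem law (hA : S_AVG) (hL : S_LIN2) : S_LAW := by
  intro ε hε D₁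
  obtain ⟨m, η, n₀, hm, hη, hmn, h⟩ := hA ε hε D₁
  obtain ⟨n₁, hn₁⟩ := exists_nat_ge (2 * m / η)
  refine ⟨m, η / 4, max n₀ n₁, hm, by positivity, hmn.trans (le_max_left _ _), ?_⟩
  intro ι _ Λ hn hiso hbig h0 hwt k
  obtain ⟨d, hd, hs, -, hc⟩ := hL ι Λ hiso hbig
  have hn0 : n₀ ≤ Fintype.card ι := (le_max_left _ _).trans hn
  have hn1 : (2 * m / η : ℝ) ≤ Fintype.card ι := hn₁.trans (by exact_mod_cast (le_max_right _ _).trans hn)
  have h1 := h ι d hn0 (by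
      rw [hd] at h0
      exact (Nat.pow_le_pow_iff_right (by norm_num)).1 h0) (fun J _ => hs J) (fun J hJ => by
      refine (hc J (η / 4) (by positivity) (hwt J hJ)).trans ?_
      have h2 : (J.card : ℝ) ≤ m := by exact_mod_cast hJ.le
      have h3 : 2 * (m : ℝ) ≤ η * Fintype.card ι := by
        rw [div_le_iff₀ hη] at hn1
        linarith
      nlinarith) k
  have h2 : ∀ i, (Finset.univ.filter fun J : Finset ι => J.card = i ∧ Nat.card (LJ Λ J) = 2 ^ k) =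
      (Finset.univ.filter fun J : Finset ι => J.card = i ∧ d J = k) := by
    intro i
    ext J
    rw [Finset.mem_filter, Finset.mem_filter, hd]
    simp only [Finset.mem_univ, true_and]
    constructor
    · rintro ⟨a, b⟩
      exact ⟨a, Nat.pow_right_injective le_rfl b⟩
    · rintro ⟨a, b⟩
      exact ⟨a, by rw [b]⟩
  simp only [h2]
  exact h1

end Pool.Agent.H68K.PR
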