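import Pool.Agent.H68K.PR.StmT
import Pool.Agent.H68K.PR.Pre

/-!
# Project PR, phase 2 (helper68): the stronger form of the law, for every number of primes

`S_MIX`, `S_LAW4`, `LawQ`, `S_BAL4`, `S_HH4`, `S_HGT4`, `S_FIN4` replace `S_AVG`, `S_LAW`, `LawP`,
`S_BAL3`, `S_HH3`, `S_HGT3`, `S_FIN3`.
-/

set_option autoImplicit false
set_option linter.all false

open Polynomial IsDedekindDomain Matrix NumberField WithZero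
open scoped Classical

namespace Pool.Agent.H68K.PR

open Pool.Agent.N874.PP (sW)
open Pool.Agent.N783.PF

/-- The law of Poonen and Rains, conditioned on the parity of the dimension. -/
noncomputable def pr2par (t k : ℕ) : ℝ := if Even (t + k) then 2 * pr2 k else 0

/-- The exact chain: the distribution after `i` steps from the state `a`, where one goes from `k` to
`k + 1` with probability `2 ^ (-k)` and to `k - 1` with probability `1 - 2 ^ (-k)`. -/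
noncomputable def chain (a : ℕ) : ℕ → ℕ → ℝ
  | 0, k => if k = a then 1 else 0
  | i + 1, k => (1 - (2 : ℝ)⁻¹ ^ (k + 1)) * chain a i (k + 1) +
      if k = 0 then 0 else (2 : ℝ)⁻¹ ^ (k - 1) * chain a i (k - 1)

/-- CHN: convergence of the exact chain. -/
def S_CHN : Prop := ∀ (a : ℕ) (ε : ℝ), 0 < ε → ∃ i₀ : ℕ, ∀ i ≥ i₀, ∀ k : ℕ,
  |chain a i k - pr2par (a + i) k| ≤ ε

/-- MIX: as `S_AVG`, for the sets with exactly `i` elements, `m₀ ≤ i ≤ m`. -/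
def S_MIX : Prop := ∀ ε : ℝ, 0 < ε → ∀ D₁ : ℕ, ∃ m₀ : ℕ, ∀ m ≥ m₀, ∃ (η : ℝ) (n₀ : ℕ), 0 < η ∧ m ≤ n₀ ∧
  ∀ (ι : Type) [Fintype ι] (d : Finset ι → ℕ), n₀ ≤ Fintype.card ι → d ∅ ≤ D₁ →
  (∀ J : Finset ι, J.card < m → ∀ q ∉ J, d (insert q J) = d J + 1 ∨ d (insert q J) + 1 = d J) →
  (∀ J : Finset ι, J.card < m →
    |((Finset.univ.filter fun q => q ∉ J ∧ d (insert q J) + 1 = d J).card : ℝ) -
      (1 - (2 : ℝ)⁻¹ ^ d J) * Fintype.card ι| ≤ η * Fintype.card ι) →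
  ∀ i, m₀ ≤ i → i ≤ m → ∀ k : ℕ,
    |((Finset.univ.filter fun J : Finset ι => J.card = i ∧ d J = k).card : ℝ) /
      ((Fintype.card ι).choose i : ℝ) - pr2par (d ∅ + i) k| ≤ ε

/-- LAW4: MIX and LIN2 together. -/
def S_LAW4 : Prop := ∀ ε : ℝ, 0 < ε → ∀ D₁ : ℕ, ∃ m₀ : ℕ, ∀ m ≥ m₀, ∃ (η : ℝ) (n₀ : ℕ), 0 < η ∧ m ≤ n₀ ∧
  ∀ (ι : Type) [Fintype ι] (Λ : AddSubgroup (ι → ZMod 2 × ZMod 2)), n₀ ≤ Fintype.card ι →
  (∀ l ∈ Λ, ∑ q, (l q).1 * (l q).2 = 0) → 2 ^ Fintype.card ι ≤ Nat.card Λ →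
  Nat.card (LJ Λ ∅) ≤ 2 ^ D₁ →
  (∀ J : Finset ι, J.card < m → ∀ l ∈ LJ Λ J, l ≠ 0 →
    |((Finset.univ.filter fun q => l q ≠ 0).card : ℝ) - (Fintype.card ι : ℝ) / 2| ≤
      η * Fintype.card ι) →
  ∃ t : ℕ, Nat.card (LJ Λ ∅) = 2 ^ t ∧ ∀ i, m₀ ≤ i → i ≤ m → ∀ k : ℕ,
    |((Finset.univ.filter fun J : Finset ι => J.card = i ∧ Nat.card (LJ Λ J) = 2 ^ k).card : ℝ) /
      ((Fintype.card ι).choose i : ℝ) - pr2par (t + i) k| ≤ ε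

/-- `S_LAW4` from `S_MIX` and `S_LIN2`. -/
theorem law4 (hA : S_MIX) (hL : S_LIN2) : S_LAW4 := by
  intro ε hε D₁
  obtain ⟨m₀, h⟩ := hA ε hε D₁
  refine ⟨m₀, fun m hm => ?_⟩
  obtain ⟨η, n₀, hη, hmn, h⟩ := h m hm
  obtain ⟨n₁, hn₁⟩ := exists_nat_ge (2 * m / η)
  refine ⟨η / 4, max n₀ n₁, by positivity, hmn.trans (le_max_left _ _), ?_⟩
  intro ι _ Λ hn hiso hbig h0 hwt
  obtain ⟨d, hd, hs, -, hc⟩ := hL ι Λ hiso hbig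
  have hn0 : n₀ ≤ Fintype.card ι := (le_max_left _ _).trans hn
  have hn1 : (2 * m / η : ℝ) ≤ Fintype.card ι := hn₁.trans (by exact_mod_cast (le_max_right _ _).trans hn)
  refine ⟨d ∅, hd ∅, fun i hi1 hi2 k => ?_⟩
  have h1 := h ι d hn0 (by
      rw [hd] at h0
      exact (Nat.pow_le_pow_iff_right (by norm_num)).1 h0) (fun J _ => hs J) (fun J hJ => by
      refine (hc J (η / 4) (by positivity) (hwt J hJ)).trans ?_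
      have h2 : (J.card : ℝ) ≤ m := by exact_mod_cast hJ.le
      have h3 : 2 * (m : ℝ) ≤ η * Fintype.card ι := by
        rw [div_le_iff₀ hη] at hn1
        linarith
      nlinarith) i hi1 hi2 k
  have h2 : (Finset.univ.filter fun J : Finset ι => J.card = i ∧ Nat.card (LJ Λ J) = 2 ^ k) =
      (Finset.univ.filter fun J : Finset ι => J.card = i ∧ d J = k) := by
    ext J
    rw [Finset.mem_filter, Finset.mem_filter, hd]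
    simp only [Finset.mem_univ, true_and]
    constructor
    · rintro ⟨a, b⟩
      exact ⟨a, Nat.pow_right_injective le_rfl b⟩
    · rintro ⟨a, b⟩
      exact ⟨a, by rw [b]⟩
  rw [h2]
  exact h1

/-- The law holds up to `ε` for the twists by the products of `i` primes in `S`, `m₀ ≤ i ≤ m`. -/
def LawQ {F : Type} [Field F] [NumberField F] (S : Finset ℕ) (m₀ m : ℕ) (ε : ℝ) (p : 𝓞 F × 𝓞 F) :
    Prop :=
  ∃ e : Finset ℕ → ℕ, (∀ J ⊆ S, Gd (2 ^ e J) (twp J p)) ∧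
    ∀ i, m₀ ≤ i → i ≤ m → ∀ k : ℕ,
      |(((S.powersetCard i).filter fun J => e J = k).card : ℝ) / (S.card.choose i : ℝ) -
        pr2par (e ∅ + i) k| ≤ ε

/-- BAL4: the law in balanced boxes. -/
def S_BAL4 : Prop := ∀ (F : Type) [Field F] [NumberField F] (ε δ : ℝ), 0 < ε → 0 < δ →
  ∃ m₀ : ℕ, ∀ m ≥ m₀, ∃ (S : Finset ℕ) (N : ℕ) (a b : 𝓞 F), m ≤ S.card ∧ 0 < N ∧ OkS S N a b ∧
    ∃ c : ℝ, 0 < c ∧ ∀ u : (𝓞 F)ˣ, ∃ B₀ : ℕ, ∀ B ≥ B₀,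
    c * (B : ℝ) ^ (5 * Module.finrank ℚ F) ≤
      ({p : 𝓞 F × 𝓞 F | Bd (p.1 : F) ((B : ℝ) ^ 2) ∧ Bd (p.2 : F) ((B : ℝ) ^ 3) ∧
        InFam N ((u : 𝓞 F) ^ 4 * a) ((u : 𝓞 F) ^ 6 * b) p}.ncard : ℝ) ∧
    ({p : 𝓞 F × 𝓞 F | Bd (p.1 : F) ((B : ℝ) ^ 2) ∧ Bd (p.2 : F) ((B : ℝ) ^ 3) ∧
        InFam N ((u : 𝓞 F) ^ 4 * a) ((u : 𝓞 F) ^ 6 * b) p ∧ ¬ LawQ S m₀ m ε p}.ncard : ℝ) ≤
      δ * (c * (B : ℝ) ^ (5 * Module.finrank ℚ F))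

/-- HH4: the law in terms of the height (explicit Selmer groups). -/
def S_HH4 : Prop := ∀ (F : Type) [Field F] [NumberField F] (ε : ℝ), 0 < ε →
  ∃ m₀ : ℕ, ∀ m ≥ m₀, ∃ (S : Finset ℕ) (N : ℕ) (a b : 𝓞 F), m ≤ S.card ∧ 0 < N ∧ OkS S N a b ∧
    ∃ c : ℝ, 0 < c ∧ ∃ Y₀ : ℝ, ∀ Y : ℝ, {p : 𝓞 F × 𝓞 F | Hle Y p}.Finite ∧ (Y₀ ≤ Y →
    0 < {p : 𝓞 F × 𝓞 F | Hle Y p ∧ 4 * p.1 ^ 3 + 27 * p.2 ^ 2 ≠ 0}.ncard ∧
    c * ({p : 𝓞 F × 𝓞 F | Hle Y p ∧ 4 * p.1 ^ 3 + 27 * p.2 ^ 2 ≠ 0}.ncard : ℝ) ≤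
      ({p : 𝓞 F × 𝓞 F | Hle Y p ∧ InFam N a b p}.ncard : ℝ) ∧
    ({p : 𝓞 F × 𝓞 F | Hle Y p ∧ InFam N a b p ∧ ¬ LawQ S m₀ m ε p}.ncard : ℝ) ≤
      ε * ({p : 𝓞 F × 𝓞 F | Hle Y p ∧ InFam N a b p}.ncard : ℝ))

/-- HGT4: from balanced boxes to the height. -/
def S_HGT4 : Prop := S_BAL4 → S_HH4

/-- The order of the 2-Selmer group of the twist by `Dp J`. -/
noncomputable def sel {F : Type} [Field F] [NumberField F] (J : Finset ℕ) (p : 𝓞 F × 𝓞 F) : ℕ :=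
  Nat.card (Sel2 (sW ((twp J p).1 : F) ((twp J p).2 : F)))

/-- The main theorem of phase 2. -/
def S_FIN4 : Prop := ∀ (F : Type) [Field F] [NumberField F] (ε : ℝ), 0 < ε →
  ∃ m₀ : ℕ, ∀ m ≥ m₀, ∃ (S : Finset ℕ) (N : ℕ) (a b : 𝓞 F), m ≤ S.card ∧ 0 < N ∧ OkS S N a b ∧
    ∃ c : ℝ, 0 < c ∧ ∃ Y₀ : ℝ, ∀ Y : ℝ, {p : 𝓞 F × 𝓞 F | Hle Y p}.Finite ∧ (Y₀ ≤ Y →
    0 < {p : 𝓞 F × 𝓞 F | Hle Y p ∧ 4 * p.1 ^ 3 + 27 * p.2 ^ 2 ≠ 0}.ncard ∧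
    c * ({p : 𝓞 F × 𝓞 F | Hle Y p ∧ 4 * p.1 ^ 3 + 27 * p.2 ^ 2 ≠ 0}.ncard : ℝ) ≤
      ({p : 𝓞 F × 𝓞 F | Hle Y p ∧ InFam N a b p}.ncard : ℝ) ∧
    ({p : 𝓞 F × 𝓞 F | Hle Y p ∧ InFam N a b p ∧
        ¬ ∃ t : ℕ, sel ∅ p = 2 ^ t ∧ ∀ i, m₀ ≤ i → i ≤ m → ∀ k : ℕ,
          |(((S.powersetCard i).filter fun J => sel J p = 2 ^ k).card : ℝ) /
            (S.card.choose i : ℝ) - pr2par (t + i) k| ≤ ε}.ncard : ℝ) ≤
      ε * ({p : 𝓞 F × 𝓞 F | Hle Y p ∧ InFam N a b p}.ncard : ℝ))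

/-- The main theorem from its parts. -/
theorem fin4 (hC : S_COC) (hB : S_BAL4) (hH : S_HGT4) : S_FIN4 := by
  intro F _ _ ε hε
  obtain ⟨m₀, h⟩ := hH hB F ε hε
  refine ⟨m₀, fun m hm => ?_⟩
  obtain ⟨S, N, a, b, hmS, hN, hok, c, hc, Y₀, h⟩ := h m hm
  refine ⟨S, N, a, b, hmS, hN, hok, c, hc, Y₀, fun Y => ⟨(h Y).1, fun hY => ?_⟩⟩
  obtain ⟨h1, h2, h3⟩ := (h Y).2 hY
  refine ⟨h1, h2, le_trans ?_ h3⟩
  have hsub : {p : 𝓞 F × 𝓞 F | Hle Y p ∧ InFam N a b p ∧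
        ¬ ∃ t : ℕ, sel ∅ p = 2 ^ t ∧ ∀ i, m₀ ≤ i → i ≤ m → ∀ k : ℕ,
          |(((S.powersetCard i).filter fun J => sel J p = 2 ^ k).card : ℝ) /
            (S.card.choose i : ℝ) - pr2par (t + i) k| ≤ ε} ⊆
      {p : 𝓞 F × 𝓞 F | Hle Y p ∧ InFam N a b p ∧ ¬ LawQ S m₀ m ε p} := by
    rintro p ⟨hp1, hp2, hp3⟩
    refine ⟨hp1, hp2, fun hl => hp3 ?_⟩
    obtain ⟨e, he, hlaw⟩ := hl
    have hsel : ∀ J ⊆ S, sel J p = 2 ^ e J := by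
      intro J hJ
      obtain ⟨hi, hs⟩ := he J hJ
      refine hC F _ _ ?_ hi _ hs
      intro h0
      exact disc_ne hi h0
    refine ⟨e ∅, hsel ∅ (Finset.empty_subset _), fun i hi1 hi2 k => ?_⟩
    have e1 : ((S.powersetCard i).filter fun J => sel J p = 2 ^ k) =
        (S.powersetCard i).filter fun J => e J = k := by
      refine Finset.filter_congr fun J hJ => ?_
      rw [hsel J (Finset.mem_powersetCard.1 hJ).1]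
      exact ⟨fun h => Nat.pow_right_injective le_rfl h, fun h => by rw [h]⟩
    rw [e1]
    exact hlaw i hi1 hi2 k
  exact_mod_cast Set.ncard_le_ncard hsub ((h Y).1.subset fun p hp => hp.1)

end Pool.Agent.H68K.PR
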