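import Pool.Agent.H68K.PR.Final
import Pool.Agent.H68K.PR.Cqn
import Pool.Agent.H68K.PR.Hgt
import Pool.Agent.H68K.PR.LBT
import Pool.Agent.H42PR.Core3
import Pool.Agent.H42PR.Lin2
import Pool.Agent.H42PR.Bin
import Pool.Agent.H33PR.Badt3
import Pool.Agent.H72P.PR.Famu
import Pool.Agent.H64.PR.Mix
import Pool.Agent.H93PR.Chn
import Pool.Agent.H93PR.Count4

/-!
# Project PR (helper68): assembly of phase 2
-/

set_option autoImplicit false

namespace Pool.Agent.H68K.PR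

open Pool.Agent.N783.PF (bad sqf int)

theorem core3T : S_CORE3 :=
  Pool.Agent.H42PR.core3 Pool.Agent.N783.PF.exq
    (Pool.Agent.N426.PF.ns Pool.Agent.N783.PF.int Pool.Agent.N783.PF.exq)
    Pool.Agent.N783.PF.rec Pool.Agent.N783.PF.loc Pool.Agent.H72P.PR.odd Pool.Agent.H72P.PR.sqj
    Pool.Agent.H18PR.tws Pool.Agent.H18PR.cnt (fun F => bigT F)

theorem lbtT : S_LBT := lbt Pool.Agent.N707.PF.MAJ.maj Pool.Agent.N482.PF.sq int

theorem badtT : S_BADT := Pool.Agent.H33PR.badt cqn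

theorem mixT : S_MIX := Pool.Agent.H64.PR.mix Pool.Agent.H93PR.chn

theorem bal4T : S_BAL4 :=
  Pool.Agent.H93PR.bal4 (law4 mixT Pool.Agent.H42PR.Lin2.lin2) Pool.Agent.H42PR.Bin.bin core3T lbtT
    badtT Pool.Agent.H72P.PR.famu Pool.Agent.H72P.PR.scls Pool.Agent.H93PR.exg bad sqf
    Pool.Agent.N667.PF.irr Pool.Agent.N667.PF.gen Pool.Agent.N490.PF.pts Pool.Agent.N352.PF.dscT

theorem fin4T : S_FIN4 := fin4 Pool.Agent.H42PR.coc bal4T hgt4

end Pool.Agent.H68K.PR
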