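import Pool.Agent.N301.JM.TOW

/-!
# Descent along Galois 2-extensions with a bounded number of classes (helper68)

After `N301/JM/QS.lean` and `N301/JM/TOW.lean` of helper301, helper692 and helper803.
-/

set_option autoImplicit false
set_option linter.all false

open Module Polynomial
open scoped Classical IntermediateField

namespace Pool.Agent.H68K.PR

open Pool.Agent.N803.PM (two_span exists_sqrt exists_conj norm_bc)
open Pool.Agent.N301.JM (not_mem_odd sup_top)
open Pool.Agent.N692.PMTOW (im mem_im_iff mem_im finrank_im adj_top normal_of_top)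

/-- At most `N` classes modulo squares of nonzero elements with the property `P`. -/
def AtM {Ω : Type} [Field Ω] (P : Ω → Prop) (N : ℕ) : Prop :=
  ∀ T : Finset Ω, (∀ x ∈ T, x ≠ 0 ∧ P x) → (∀ x ∈ T, ∀ y ∈ T, IsSquare (x * y) → x = y) →
    T.card ≤ N

theorem atm_map {Ω L : Type} [Field Ω] [Field L] {P : L → Prop} {N : ℕ} (h : AtM P N)
    (T : Finset Ω) (g : Ω → L) (h1 : ∀ x ∈ T, g x ≠ 0 ∧ P (g x))
    (h2 : ∀ x ∈ T, ∀ y ∈ T, IsSquare (g x * g y) → x = y) : T.card ≤ N := by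
  have h3 : Set.InjOn g T := by
    intro x hx y hy hxy
    refine h2 x hx y hy ?_
    rw [hxy]
    exact ⟨g y, rfl⟩
  rw [← Finset.card_image_of_injOn h3]
  refine h _ ?_ ?_
  · intro z hz
    obtain ⟨x, hx, rfl⟩ := Finset.mem_image.1 hz
    exact h1 x hx
  · intro z hz w hw hs
    obtain ⟨x, hx, rfl⟩ := Finset.mem_image.1 hz
    obtain ⟨y, hy, rfl⟩ := Finset.mem_image.1 hw
    rw [h2 x hx y hy hs]

/-- The quadratic step: `S_QS` without the hypothesis on `L`. -/
theorem desc (K L M Ω : Type) [Field K] [Field L] [Field M] [Field Ω] [Algebra K L]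
    [Algebra K M] [Algebra L Ω] [Algebra M Ω] [Algebra K Ω] [IsScalarTower K L Ω]
    [IsScalarTower K M Ω] (h2 : (2 : K) ≠ 0) (hM : finrank K M = 2) (hL : Odd (finrank K L))
    (hΩ : finrank M Ω = finrank K L) (C : Ω → Prop) (hC2 : ∀ x : Ω, x ≠ 0 → C (x ^ 2))
    (hCm : ∀ x y : Ω, x ≠ 0 → y ≠ 0 → C x → C y → C (x * y))
    (hCσ : ∀ (σ : Ω ≃ₐ[L] Ω) (x : Ω), C x → C (σ x)) (x : Ω) (hx : x ≠ 0) (hCx : C x)
    (hNx : IsSquare (Algebra.norm M x)) :
    Algebra.norm L x ≠ 0 ∧ C (algebraMap L Ω (Algebra.norm L x)) ∧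
      IsSquare (Algebra.norm K (Algebra.norm L x)) ∧
      (IsSquare (Algebra.norm L x) → ∃ l : L, l ≠ 0 ∧ C (algebraMap L Ω l) ∧
        IsSquare (Algebra.norm K l) ∧ IsSquare (x * algebraMap L Ω l)) := by
  obtain ⟨m, β, hβ, hβn⟩ := exists_sqrt K M h2 hM
  have hβ0 : β ≠ 0 := by
    rintro rfl
    exact hβn 0 (map_zero _)
  have hm0 : m ≠ 0 := by
    rintro rfl
    rw [map_zero] at hβ
    exact hβ0 (pow_eq_zero_iff two_ne_zero |>.1 hβ)
  have hpos : 0 < finrank K L := hL.pos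
  haveI : FiniteDimensional K L := FiniteDimensional.of_finrank_pos hpos
  haveI : FiniteDimensional K M := FiniteDimensional.of_finrank_pos (by omega)
  haveI : FiniteDimensional M Ω := FiniteDimensional.of_finrank_pos (by omega)
  haveI : FiniteDimensional K Ω := FiniteDimensional.trans K M Ω
  haveI : FiniteDimensional L Ω := FiniteDimensional.right K L Ω
  have hLΩ : finrank L Ω = 2 := by
    have h1 := finrank_mul_finrank K M Ω
    have h3 := finrank_mul_finrank K L Ω
    rw [hM, hΩ, mul_comm] at h1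
    exact Nat.eq_of_mul_eq_mul_left hpos (h3.trans h1.symm)
  have hωn := not_mem_odd K L M Ω hL m β hβ hβn
  have hω2 : (algebraMap M Ω β) ^ 2 = algebraMap L Ω (algebraMap K L m) := by
    rw [← map_pow, hβ, ← IsScalarTower.algebraMap_apply K M Ω,
      ← IsScalarTower.algebraMap_apply K L Ω]
  have h2L : (2 : L) ≠ 0 := by
    intro h
    apply h2
    apply (algebraMap K L).injective
    rw [map_ofNat, h, map_zero]
  have h2M : (2 : M) ≠ 0 := by
    intro h
    apply h2
    apply (algebraMap K M).injective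
    rw [map_ofNat, h, map_zero]
  obtain ⟨σ, hσω, hσN, hσfix⟩ := exists_conj L Ω h2L hLΩ (algebraMap K L m) (algebraMap M Ω β)
    hω2 hωn
  have hσx : σ x ≠ 0 := by simpa using hx
  have hω0 : algebraMap M Ω β ≠ 0 := by simpa using hβ0
  obtain ⟨c, hc⟩ := hNx
  have hx' : algebraMap L Ω (Algebra.norm L x) = x * σ x := hσN x
  have hy0 : Algebra.norm L x ≠ 0 := by
    intro h0
    rw [h0, map_zero] at hx'
    exact mul_ne_zero hx hσx hx'.symm
  refine ⟨hy0, ?_, ?_, ?_⟩
  · rw [hx']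
    exact hCm _ _ hx hσx hCx (hCσ σ x hCx)
  · rw [Algebra.norm_norm (R := K) (S := L) (a := x), ← Algebra.norm_norm (R := K) (S := M) (a := x),
      hc, map_mul]
    exact ⟨_, rfl⟩
  rintro ⟨z, hz⟩
  have hz2 : x * σ x = (algebraMap L Ω z) ^ 2 := by
    rw [← hx', hz, map_mul, sq]
  have hz0 : algebraMap L Ω z ≠ 0 := by
    intro h0
    rw [h0] at hz2
    exact mul_ne_zero hx hσx (by simpa using hz2)
  -- Hilbert 90
  obtain ⟨d, hd0, hdσ⟩ : ∃ d : Ω, d ≠ 0 ∧ d * x = algebraMap L Ω z * σ d := by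
    by_cases hg : x + algebraMap L Ω z = 0
    · refine ⟨algebraMap M Ω β, hω0, ?_⟩
      rw [hσω]
      linear_combination (algebraMap M Ω β) * hg
    · refine ⟨(x + algebraMap L Ω z) * σ x, mul_ne_zero hg hσx, ?_⟩
      have hσ2 : σ (σ x) = x := by
        have h1 := congrArg σ hz2
        rw [map_mul, map_pow, AlgEquiv.commutes, ← hz2, mul_comm] at h1
        exact mul_right_cancel₀ hσx h1
      rw [map_mul, map_add, AlgEquiv.commutes, hσ2]
      linear_combination x * hz2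
  have hwσ : σ (x * d ^ 2) = x * d ^ 2 := by
    rw [map_mul, map_pow]
    have h4 : (algebraMap L Ω z) ^ 2 ≠ 0 := pow_ne_zero 2 hz0
    apply mul_left_cancel₀ h4
    linear_combination (-(σ x) * (d * x + algebraMap L Ω z * σ d)) * hdσ + d ^ 2 * x * hz2
  obtain ⟨w, hw⟩ := hσfix _ hwσ
  have hw0 : w ≠ 0 := by
    rintro rfl
    rw [map_zero] at hw
    exact mul_ne_zero hx (pow_ne_zero 2 hd0) hw.symm
  have hCw : C (algebraMap L Ω w) := by
    rw [hw]
    exact hCm _ _ hx (pow_ne_zero 2 hd0) hCx (hC2 d hd0)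
  -- the image of `w` is equivalent to `x`
  have hfin : IsSquare (x * algebraMap L Ω w) := by
    refine ⟨x * d, ?_⟩
    rw [hw]
    ring
  have hspan : ∀ t : Ω, ∃ u v : L, t = algebraMap L Ω u + algebraMap L Ω v * algebraMap M Ω β :=
    two_span L Ω hLΩ _ hωn
  have hN : (c * Algebra.norm M d) ^ 2 = algebraMap K M (Algebra.norm K w) := by
    rw [← norm_bc K L M Ω hΩ.symm hpos β hspan w, hw, map_mul, map_pow, hc]
    ring
  obtain ⟨p, q, hpq⟩ := two_span K M hM β hβn (c * Algebra.norm M d)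
  rw [hpq] at hN
  have hcases : p = 0 ∨ q = 0 := by
    by_contra hcon
    push Not at hcon
    obtain ⟨hp, hq⟩ := hcon
    apply hβn ((Algebra.norm K w - p ^ 2 - q ^ 2 * m) / (2 * p * q))
    have hp' : algebraMap K M p ≠ 0 := by simpa using hp
    have hq' : algebraMap K M q ≠ 0 := by simpa using hq
    rw [map_div₀, map_sub, map_sub, map_mul, map_mul, map_mul, map_pow, map_pow, map_ofNat, ← hN,
      ← hβ]
    field_simp
    ring
  rcases hcases with rfl | rfl
  · -- the norm is `m q ^ 2`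
    have hn : Algebra.norm K w = q ^ 2 * m := by
      apply (algebraMap K M).injective
      rw [← hN, map_mul, map_pow, ← hβ]
      simp
      ring
    have hmL : algebraMap K L m ≠ 0 := by simpa using hm0
    refine ⟨algebraMap K L m * w, mul_ne_zero hmL hw0, ?_, ?_, ?_⟩
    · rw [map_mul, ← hω2]
      exact hCm _ _ (pow_ne_zero 2 hω0) (by simpa using hw0) (hC2 _ hω0) hCw
    · obtain ⟨e, he⟩ := hL
      rw [map_mul, Algebra.norm_algebraMap, he, hn]
      exact ⟨m ^ (e + 1) * q, by ring⟩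
    · obtain ⟨r, hr⟩ := hfin
      refine ⟨r * algebraMap M Ω β, ?_⟩
      rw [map_mul, ← hω2]
      linear_combination (algebraMap M Ω β) ^ 2 * hr
  · have hn : Algebra.norm K w = p * p := by
      apply (algebraMap K M).injective
      rw [← hN, map_mul]
      simp
      ring
    exact ⟨w, hw0, hCw, ⟨p, hn⟩, hfin⟩

/-- The quadratic step with `N` classes. -/
theorem qsc (K L M Ω : Type) [Field K] [Field L] [Field M] [Field Ω] [Algebra K L]
    [Algebra K M] [Algebra L Ω] [Algebra M Ω] [Algebra K Ω] [IsScalarTower K L Ω]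
    [IsScalarTower K M Ω] (h2 : (2 : K) ≠ 0) (hM : finrank K M = 2) (hL : Odd (finrank K L))
    (hΩ : finrank M Ω = finrank K L) (C : Ω → Prop) (hC2 : ∀ x : Ω, x ≠ 0 → C (x ^ 2))
    (hCm : ∀ x y : Ω, x ≠ 0 → y ≠ 0 → C x → C y → C (x * y))
    (hCσ : ∀ (σ : Ω ≃ₐ[L] Ω) (x : Ω), C x → C (σ x)) (N : ℕ)
    (hN : AtM (fun x : L => C (algebraMap L Ω x) ∧ IsSquare (Algebra.norm K x)) N) :
    AtM (fun x : Ω => C x ∧ IsSquare (Algebra.norm M x)) (N * N) := by
  intro T hT hT2
  have hd := fun x (hx : x ∈ T) => desc K L M Ω h2 hM hL hΩ C hC2 hCm hCσ x (hT x hx).1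
    (hT x hx).2.1 (hT x hx).2.2
  -- the classes in `L`
  let R : Setoid L :=
    { r := fun a b => ∃ s : L, s ≠ 0 ∧ a = b * s ^ 2
      iseqv := by
        refine ⟨fun a => ⟨1, one_ne_zero, by simp⟩, ?_, ?_⟩
        · rintro a b ⟨s, hs, rfl⟩
          exact ⟨s⁻¹, inv_ne_zero hs, by field_simp⟩
        · rintro a b c ⟨s, hs, rfl⟩ ⟨t, ht, rfl⟩
          exact ⟨t * s, mul_ne_zero ht hs, by ring⟩ }
  let κ : Ω → Quotient R := fun x => Quotient.mk R (Algebra.norm L x)
  have hκ : ∀ x ∈ T, ∀ y ∈ T, κ x = κ y → IsSquare (Algebra.norm L (x * y)) := by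
    intro x hx y hy h
    obtain ⟨s, hs, h3⟩ := Quotient.exact h
    rw [map_mul, h3]
    exact ⟨Algebra.norm L y * s, by ring⟩
  have hκ' : ∀ x ∈ T, ∀ y ∈ T, IsSquare (Algebra.norm L x * Algebra.norm L y) → κ x = κ y := by
    rintro x hx y hy ⟨s, hs⟩
    apply Quotient.sound
    have hy0 := (hd y hy).1
    have hx0 := (hd x hx).1
    have hs0 : s ≠ 0 := by
      rintro rfl
      rw [mul_zero] at hs
      exact mul_ne_zero hx0 hy0 hs
    refine ⟨s / Algebra.norm L y, div_ne_zero hs0 hy0, ?_⟩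
    field_simp
    rw [hs, sq]
  have h3 := Finset.card_le_mul_card_image (f := κ) T N ?_
  · refine h3.trans (Nat.mul_le_mul_left _ ?_)
    -- the number of the classes
    have hch : ∀ c : Quotient R, ∃ x : Ω, c ∈ T.image κ → x ∈ T ∧ κ x = c := by
      intro c
      by_cases hc : c ∈ T.image κ
      · obtain ⟨x, hx, rfl⟩ := Finset.mem_image.1 hc
        exact ⟨x, fun _ => ⟨hx, rfl⟩⟩
      · exact ⟨0, fun h => absurd h hc⟩
    choose ρ hρ using hch
    have hinj : Set.InjOn (fun c => Algebra.norm L (ρ c)) (T.image κ : Finset (Quotient R)) := by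
      intro c hc c' hc' h
      rw [← (hρ c hc).2, ← (hρ c' hc').2]
      exact congrArg (Quotient.mk R) h
    rw [← Finset.card_image_of_injOn hinj]
    refine hN _ ?_ ?_
    · intro z hz
      obtain ⟨c, hc, rfl⟩ := Finset.mem_image.1 hz
      obtain ⟨h4, h5, h6, -⟩ := hd _ (hρ c hc).1
      exact ⟨h4, h5, h6⟩
    · intro z hz w hw hs
      obtain ⟨c, hc, rfl⟩ := Finset.mem_image.1 hz
      obtain ⟨c', hc', rfl⟩ := Finset.mem_image.1 hw
      have h4 := hκ' _ (hρ c hc).1 _ (hρ c' hc').1 hs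
      rw [(hρ c hc).2, (hρ c' hc').2] at h4
      rw [h4]
  · -- the fibres
    intro c hc
    obtain ⟨x₀, hx₀, rfl⟩ := Finset.mem_image.1 hc
    have h4 : ∀ x ∈ T.filter fun x => κ x = κ x₀, ∃ l : L, l ≠ 0 ∧ C (algebraMap L Ω l) ∧
        IsSquare (Algebra.norm K l) ∧ IsSquare (x * x₀ * algebraMap L Ω l) := by
      intro x hx
      rw [Finset.mem_filter] at hx
      have h5 := hT x hx.1
      have h6 := hT x₀ hx₀
      refine (desc K L M Ω h2 hM hL hΩ C hC2 hCm hCσ (x * x₀) (mul_ne_zero h5.1 h6.1)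
        (hCm _ _ h5.1 h6.1 h5.2.1 h6.2.1) ?_).2.2.2 (hκ x hx.1 x₀ hx₀ hx.2)
      rw [map_mul]
      exact h5.2.2.mul h6.2.2
    have h5 : ∀ x : Ω, ∃ l : L, x ∈ (T.filter fun x => κ x = κ x₀) → l ≠ 0 ∧
        C (algebraMap L Ω l) ∧ IsSquare (Algebra.norm K l) ∧
        IsSquare (x * x₀ * algebraMap L Ω l) := by
      intro x
      by_cases hx : x ∈ T.filter fun x => κ x = κ x₀
      · obtain ⟨l, hl⟩ := h4 x hx
        exact ⟨l, fun _ => hl⟩
      · exact ⟨0, fun h => absurd h hx⟩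
    choose g hg using h5
    refine atm_map hN _ g (fun x hx => ⟨(hg x hx).1, (hg x hx).2.1, (hg x hx).2.2.1⟩) ?_
    intro x hx y hy hs
    obtain ⟨a1, -, -, ⟨a, a2⟩⟩ := hg x hx
    obtain ⟨b1, -, -, ⟨b, b2⟩⟩ := hg y hy
    obtain ⟨s, hs⟩ := hs
    have hx0 := (hT x₀ hx₀).1
    have a3 : algebraMap L Ω (g x) ≠ 0 := by simpa using a1
    have b3 : algebraMap L Ω (g y) ≠ 0 := by simpa using b1
    refine hT2 x (Finset.mem_filter.1 hx).1 y (Finset.mem_filter.1 hy).1 ?_
    have e := congrArg (algebraMap L Ω) hs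
    rw [map_mul, map_mul] at e
    have s3 : algebraMap L Ω s ≠ 0 := by
      intro h0
      rw [h0, mul_zero] at e
      exact mul_ne_zero a3 b3 e
    refine ⟨a * b / (x₀ * algebraMap L Ω s), ?_⟩
    field_simp
    have h6 : (x * x₀ * algebraMap L Ω (g x)) * (y * x₀ * algebraMap L Ω (g y)) =
        (a * a) * (b * b) := by rw [a2, b2]
    have h7 : x * y * (x₀ * (algebraMap L Ω s)) ^ 2 = (a * b) ^ 2 := by
      have h8 : (algebraMap L Ω s) ^ 2 = algebraMap L Ω (g x) * algebraMap L Ω (g y) := by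
        rw [e, sq]
      linear_combination h6 + x * y * x₀ ^ 2 * h8
    linear_combination h7

/-- the quadratic step in the tower -/
theorem stepc {K L M Ω : Type} [Field K] [Field L] [Field M] [Field Ω] [Algebra K L] [Algebra K M]
    [Algebra L Ω] [Algebra M Ω] [Algebra K Ω] [IsScalarTower K L Ω] [IsScalarTower K M Ω]
    {K₁ : Type} [Field K₁] [Algebra K K₁] [Algebra K₁ M] [Algebra K₁ Ω]
    [IsScalarTower K K₁ M] [IsScalarTower K₁ M Ω] [IsScalarTower K K₁ Ω] [Normal L Ω]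
    [FiniteDimensional K Ω] (h2 : (2 : K) ≠ 0) (hK : finrank K K₁ = 2) (hL : Odd (finrank K L))
    (C : Ω → Prop) (hC1 : ∀ x : Ω, x ≠ 0 → C (x ^ 2))
    (hC2 : ∀ x y : Ω, x ≠ 0 → y ≠ 0 → C x → C y → C (x * y))
    (hC3 : ∀ (σ : Ω ≃ₐ[L] Ω) (x : Ω), C x → C (σ x)) (N : ℕ)
    (hC4 : AtM (fun x : L => C (algebraMap L Ω x) ∧ IsSquare (Algebra.norm K x)) N) :
    ∃ (L₁ : IntermediateField K Ω) (i : Algebra K₁ L₁) (_ : IsScalarTower K₁ L₁ Ω),
      finrank K₁ L₁ = finrank K L ∧ (∀ l : L, algebraMap L Ω l ∈ L₁) ∧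
      AtM (fun x : L₁ => C (algebraMap L₁ Ω x) ∧ IsSquare (Algebra.norm K₁ x)) (N * N) := by
  have f1 : FiniteDimensional K K₁ := .of_finrank_pos (by rw [hK]; norm_num)
  set L₁ : IntermediateField K Ω := im K L Ω ⊔ im K K₁ Ω with hL₁
  have m1 : ∀ l : L, algebraMap L Ω l ∈ L₁ := fun l =>
    (le_sup_left : im K L Ω ≤ L₁) (mem_im l)
  have m2 : ∀ l : K₁, algebraMap K₁ Ω l ∈ L₁ := fun l =>
    (le_sup_right : im K K₁ Ω ≤ L₁) (mem_im l)
  have hpos : 0 < finrank K L := hL.pos
  have f0 : FiniteDimensional K L := .of_finrank_pos hpos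
  have d1 : finrank K L ∣ finrank K L₁ := by
    rw [← finrank_im (K := K) (L := L) (Ω := Ω)]
    exact IntermediateField.finrank_dvd_of_le_right le_sup_left
  have d2 : 2 ∣ finrank K L₁ := by
    rw [← hK, ← finrank_im (K := K) (L := K₁) (Ω := Ω)]
    exact IntermediateField.finrank_dvd_of_le_right le_sup_right
  have d3 : finrank K L₁ ≤ finrank K L * 2 := by
    have h3 := IntermediateField.finrank_sup_le (im K L Ω) (im K K₁ Ω)
    rw [finrank_im, finrank_im, hK] at h3
    exact h3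
  have d4 : 0 < finrank K L₁ := finrank_pos
  have d5 : finrank K L₁ = 2 * finrank K L := by
    have h5 : 2 * finrank K L ∣ finrank K L₁ :=
      Nat.Coprime.mul_dvd_of_dvd_of_dvd ((Nat.coprime_two_left).2 hL) d2 d1
    have h6 := Nat.le_of_dvd d4 h5
    omega
  clear_value L₁
  letI i1 : Algebra L L₁ := ((algebraMap L Ω).codRestrict L₁ m1).toAlgebra
  letI i2 : Algebra K₁ L₁ := ((algebraMap K₁ Ω).codRestrict L₁ m2).toAlgebra
  haveI t1 : IsScalarTower L L₁ Ω := IsScalarTower.of_algebraMap_eq fun _ => rfl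
  haveI t2 : IsScalarTower K₁ L₁ Ω := IsScalarTower.of_algebraMap_eq fun _ => rfl
  haveI t3 : IsScalarTower K L L₁ := IsScalarTower.of_algebraMap_eq fun x =>
    Subtype.ext (IsScalarTower.algebraMap_apply K L Ω x)
  haveI t4 : IsScalarTower K K₁ L₁ := IsScalarTower.of_algebraMap_eq fun x =>
    Subtype.ext (IsScalarTower.algebraMap_apply K K₁ Ω x)
  have d6 : finrank K₁ L₁ = finrank K L := by
    have h3 := finrank_mul_finrank K K₁ L₁
    rw [hK, d5] at h3
    omega
  refine ⟨L₁, i2, t2, d6, m1, ?_⟩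
  refine qsc K L K₁ L₁ h2 hK hL d6 (fun x => C (algebraMap L₁ Ω x)) ?_ ?_ ?_ N ?_
  · intro x hx
    have := hC1 (algebraMap L₁ Ω x) (by simpa using hx)
    rw [← map_pow] at this
    exact this
  · intro x y hx hy h3 h4
    have := hC2 (algebraMap L₁ Ω x) (algebraMap L₁ Ω y) (by simpa using hx) (by simpa using hy)
      h3 h4
    rw [← map_mul] at this
    exact this
  · intro σ x h3
    have h4 := hC3 (σ.liftNormal Ω) _ h3
    rw [AlgEquiv.liftNormal_commutes] at h4
    exact h4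
  · intro T hT hT2
    refine hC4 T (fun x hx => ?_) hT2
    obtain ⟨h3, h4, h5⟩ := hT x hx
    rw [← IsScalarTower.algebraMap_apply L L₁ Ω] at h4
    exact ⟨h3, h4, h5⟩

/-- Descent along a Galois 2-extension, with `N` classes. -/
theorem towc (n : ℕ) : ∀ (K L M Ω : Type) [Field K] [Field L] [Field M] [Field Ω]
    [Algebra K L] [Algebra K M] [Algebra L Ω] [Algebra M Ω] [Algebra K Ω] [IsScalarTower K L Ω]
    [IsScalarTower K M Ω] [IsGalois K M], (2 : K) ≠ 0 → Module.finrank K M = 2 ^ n →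
    Odd (Module.finrank K L) → Module.finrank M Ω = Module.finrank K L →
    ∀ C : Ω → Prop, (∀ x : Ω, x ≠ 0 → C (x ^ 2)) →
    (∀ x y : Ω, x ≠ 0 → y ≠ 0 → C x → C y → C (x * y)) →
    (∀ (σ : Ω ≃ₐ[L] Ω) (x : Ω), C x → C (σ x)) → ∀ N : ℕ,
    AtM (fun x : L => C (algebraMap L Ω x) ∧ IsSquare (Algebra.norm K x)) N →
    AtM (fun x : Ω => C x ∧ IsSquare (Algebra.norm M x)) (N ^ 2 ^ n) := by
  induction n with
  | zero =>
    intro K L M Ω _ _ _ _ _ _ _ _ _ _ _ _ h2 hM hL hΩ C hC1 hC2 hC3 N hC4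
    have f1 : FiniteDimensional K M := .of_finrank_pos (by rw [hM]; positivity)
    have hpos : 0 < finrank K L := hL.pos
    have f2 : FiniteDimensional M Ω := .of_finrank_pos (by rw [hΩ]; exact hpos)
    have f3 : FiniteDimensional K Ω := FiniteDimensional.trans K M Ω
    have f4 : FiniteDimensional K L := .of_finrank_pos hpos
    have f5 : FiniteDimensional L Ω := FiniteDimensional.right K L Ω
    have h1 : finrank K Ω = finrank K L := by
      rw [← finrank_mul_finrank K M Ω, hM, hΩ]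
      norm_num
    have h3 : finrank L Ω = 1 := by
      have h4 := finrank_mul_finrank K L Ω
      rw [h1] at h4
      exact Nat.eq_of_mul_eq_mul_left hpos (h4.trans (mul_one _).symm)
    have h5 : Function.Surjective (algebraMap L Ω) := by
      intro z
      have h6 : z ∈ (⊥ : Subalgebra L Ω) := by
        rw [Subalgebra.bot_eq_top_of_finrank_eq_one h3]
        exact Algebra.mem_top
      exact Algebra.mem_bot.1 h6
    rw [pow_zero, pow_one]
    intro T hT hT2
    choose g hg using h5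
    refine atm_map hC4 T g (fun x hx => ?_) (fun x hx y hy hs => ?_)
    · obtain ⟨h6, h7, h8⟩ := hT x hx
      refine ⟨fun h0 => h6 (by rw [← hg x, h0, map_zero]), by rw [hg]; exact h7, ?_⟩
      have h9 : Algebra.norm K (algebraMap L Ω (g x)) = Algebra.norm K (g x) := by
        rw [← Algebra.norm_norm (S := L), Algebra.norm_algebraMap, h3, pow_one]
      have h10 : Algebra.norm K (Algebra.norm M (algebraMap L Ω (g x)))
          = Algebra.norm K (algebraMap L Ω (g x)) := Algebra.norm_norm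
      rw [← h9, ← h10, hg]
      exact h8.map _
    · refine hT2 x hx y hy ?_
      rw [← hg x, ← hg y, ← map_mul]
      exact hs.map _
  | succ n ih =>
    intro K L M Ω _ _ _ _ _ _ _ _ _ _ _ _ h2 hM hL hΩ C hC1 hC2 hC3 N hC4
    have f1 : FiniteDimensional K M := .of_finrank_pos (by rw [hM]; positivity)
    have hpos : 0 < finrank K L := hL.pos
    have f2 : FiniteDimensional M Ω := .of_finrank_pos (by rw [hΩ]; exact hpos)
    have f3 : FiniteDimensional K Ω := FiniteDimensional.trans K M Ω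
    have f4 : FiniteDimensional K L := .of_finrank_pos hpos
    have f5 : FiniteDimensional L Ω := FiniteDimensional.right K L Ω
    have hcard : Nat.card (M ≃ₐ[K] M) = 2 ^ (n + 1) := by
      rw [IsGalois.card_aut_eq_finrank, hM]
    obtain ⟨H, hH⟩ := Sylow.exists_subgroup_card_pow_prime (G := M ≃ₐ[K] M) 2 (n := n)
      (by rw [hcard]; exact pow_dvd_pow 2 (Nat.le_succ n))
    set K₁ := IntermediateField.fixedField H with hK₁
    have d1 : finrank K₁ M = 2 ^ n := by
      rw [IntermediateField.finrank_fixedField_eq_card, hH]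
    clear_value K₁
    have d2 : finrank K K₁ = 2 := by
      have h4 := finrank_mul_finrank K K₁ M
      rw [hM, d1, pow_succ, mul_comm] at h4
      exact Nat.eq_of_mul_eq_mul_left (by positivity) h4
    have hN : Normal L Ω := normal_of_top (sup_top hM hL hΩ)
    obtain ⟨L₁, i1, t1, d3, m1, hs⟩ := stepc (K₁ := K₁) (M := M) h2 d2 hL C hC1 hC2 hC3 N hC4
    have h2' : (2 : K₁) ≠ 0 := by
      have := (map_ne_zero (algebraMap K K₁)).2 h2
      rwa [map_ofNat] at this
    have e : N ^ 2 ^ (n + 1) = (N * N) ^ 2 ^ n := by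
      rw [← sq, ← pow_mul, ← pow_succ']
    rw [e]
    refine ih K₁ L₁ M Ω h2' d1 (d3 ▸ hL) (hΩ.trans d3.symm) C hC1 hC2 ?_ (N * N) hs
    intro σ x hx
    let τ : Ω ≃ₐ[L] Ω := AlgEquiv.ofRingEquiv (f := σ.toRingEquiv)
      (fun l => σ.commutes ⟨algebraMap L Ω l, m1 l⟩)
    exact hC3 τ x hx

end Pool.Agent.H68K.PR
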