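import Pool.Agent.H68K.PR.StmC
import Pool.Agent.N713.QM.GFC
import Pool.Agent.Q286.EQ.MW

/-!
# Project PR (helper68): the rank is at most the dimension of the 2-Selmer group, and the 2-power Selmer
group
-/

set_option autoImplicit false
set_option linter.all false

open Polynomial IsDedekindDomain NumberField WeierstrassCurve WeierstrassCurve.Affine
open Pool.Agent.TH115.GD Pool.Agent.N874.PP
open Pool.Agent.N721.PP Pool.Agent.N713.QM
open Pool.Agent.N874.QM (IsLoc SelC ShaC)
open scoped Classical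

namespace Pool.Agent.H68K.PR

/-- The rank of a finitely generated abelian group. -/
theorem rank_le_of {A X : Type} [AddCommGroup A] [AddGroup.FG A] (κ : A → X) (k : ℕ) (s : Set X)
    (hs : s.ncard = 2 ^ k) (hm : ∀ a, κ a ∈ s) (h : ∀ a b, κ a = κ b → ∃ c : A, a - b = 2 • c) :
    Module.finrank ℤ A ≤ k := by
  obtain ⟨n, ι, _, p, hp, e, ⟨φ⟩⟩ := AddCommGroup.equiv_free_prod_directSum_zmod A
  have hfs : s.Finite := Set.finite_of_ncard_ne_zero (by rw [hs]; exact pow_ne_zero _ two_ne_zero)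
  -- the rank is at most `n`
  have h1 : Module.finrank ℤ A ≤ n := by
    refine Module.finrank_le_of_rank_le ?_
    let π : A →ₗ[ℤ] (Fin n →₀ ℤ) := ((AddMonoidHom.fst _ _).comp φ.toAddMonoidHom).toIntLinearMap
    have hk : Module.rank ℤ (LinearMap.ker π) = 0 := by
      rw [rank_eq_zero_iff]
      rintro ⟨x, hx⟩
      have hx0 : (φ x).1 = 0 := hx
      refine ⟨((∏ i, p i ^ e i : ℕ) : ℤ), ?_, ?_⟩
      · have : (∏ i, p i ^ e i : ℕ) ≠ 0 :=
          Finset.prod_ne_zero_iff.2 fun i _ => pow_ne_zero _ (hp i).ne_zero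
        exact_mod_cast this
      · refine Subtype.ext (φ.injective ?_)
        rw [Submodule.coe_smul, Submodule.coe_zero, map_zero, map_zsmul]
        refine Prod.ext ?_ ?_
        · rw [Prod.smul_fst, hx0, smul_zero]
          rfl
        · rw [Prod.smul_snd]
          refine DFinsupp.ext fun i => ?_
          show ((∏ i, p i ^ e i : ℕ) : ℤ) • ((φ x).2 i) = 0
          rw [natCast_zsmul, nsmul_eq_mul]
          have h2 : (((∏ i, p i ^ e i : ℕ) : ℕ) : ZMod (p i ^ e i)) = 0 := by
            rw [ZMod.natCast_eq_zero_iff]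
            exact Finset.dvd_prod_of_mem _ (Finset.mem_univ i)
          rw [h2, zero_mul]
    have h2 := LinearMap.rank_range_add_rank_ker π
    rw [hk, add_zero] at h2
    rw [← h2]
    refine (Submodule.rank_le _).trans ?_
    rw [rank_finsupp_self']
    simp
  -- the injection
  have h2 : 2 ^ n ≤ 2 ^ k := by
    have hsurj : ∀ y : Fin n → ZMod 2, ∃ a : A, ∀ i, (((φ a).1 i : ℤ) : ZMod 2) = y i := by
      intro y
      refine ⟨φ.symm (Finsupp.equivFunOnFinite.symm fun i => ((y i).val : ℤ), 0), fun i => ?_⟩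
      rw [AddEquiv.apply_symm_apply]
      show ((((y i).val : ℕ) : ℤ) : ZMod 2) = y i
      rw [Int.cast_natCast, ZMod.natCast_zmod_val]
    choose a ha using hsurj
    have hinj : Function.Injective fun y => κ (a y) := by
      intro y y' hyy
      obtain ⟨c, hc⟩ := h _ _ hyy
      funext i
      rw [← ha y i, ← ha y' i, ← sub_eq_zero, ← Int.cast_sub]
      have h3 : (φ (a y)).1 i - (φ (a y')).1 i = 2 * (φ c).1 i := by
        have h4 : φ (a y) - φ (a y') = 2 • φ c := by rw [← map_sub, hc, map_nsmul]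
        have h5 := congrArg (fun z => z.1 i) h4
        simp only [Prod.fst_sub, Finsupp.sub_apply, two_nsmul, Prod.fst_add, Finsupp.add_apply] at h5
        rw [h5]
        ring
      rw [h3, Int.cast_mul]
      have : ((2 : ℤ) : ZMod 2) = 0 := by decide
      rw [this, zero_mul]
    have h3 : (Set.range fun y => κ (a y)).ncard = 2 ^ n := by
      rw [← Set.image_univ, Set.ncard_image_of_injective _ hinj, Set.ncard_univ, Nat.card_fun,
        Nat.card_zmod, Nat.card_fin]
    rw [← h3, ← hs]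
    refine Set.ncard_le_ncard ?_ hfs
    rintro _ ⟨y, rfl⟩
    exact hm _
  exact h1.trans ((Nat.pow_le_pow_iff_right (by norm_num)).1 h2)

section kum

variable {M : Type} [Field M] [NumberField M]

/-- The rank is at most the dimension of the 2-Selmer group. -/
theorem rank_le_sel {A B : M} (hd : 4 * A ^ 3 + 27 * B ^ 2 ≠ 0) {k : ℕ}
    (hS : Nat.card (Sel2 (sW A B)) = 2 ^ k) : Module.finrank ℤ (Pt (sW A B) M) ≤ k := by
  haveI : Algebra.IsSeparable M (Sep M) := IsSepClosure.separable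
  haveI : IsGalois M (Sep M) := inferInstance
  have h6 : (6 : M) ≠ 0 := by norm_num
  have hΔ : ((sW A B).baseChange M).Δ ≠ 0 := by
    have h1 : ((sW A B).baseChange M).Δ = -16 * (4 * A ^ 3 + 27 * B ^ 2) := by
      simp only [WeierstrassCurve.Δ, WeierstrassCurve.b₂, WeierstrassCurve.b₄, WeierstrassCurve.b₆,
        WeierstrassCurve.b₈, WeierstrassCurve.baseChange, WeierstrassCurve.map, sW]
      simp
      ring
    rw [h1]
    exact mul_ne_zero (by norm_num) hd
  haveI hfg : AddGroup.FG (Pt (sW A B) M) :=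
    Pool.Agent.Q286.EQ.mordell_weil M ((sW A B).baseChange M) hΔ
  have hhalf : ∀ P : Pt (sW A B) M, ∃ Q : Pt (sW A B) (Sep M),
      Q + Q = act (sW A B) (incl M M (Sep M)) P := fun P => half h6 hd _
  choose Q hQ using hhalf
  refine rank_le_of (X := _ ⧸ Cob (sW A B)) (fun P => QuotientAddGroup.mk fun σ =>
    act (sW A B) (rs M σ) (Q P) - Q P) k (Sel2 (sW A B)) (by
      rw [← Nat.card_coe_set_eq]
      exact hS) ?_ ?_
  · intro P
    have hfix : ∀ σ : Sep M ≃ₐ[M] Sep M, act (sW A B) (rs M σ) (Q P + Q P) = Q P + Q P := fun σ => by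
      rw [hQ]; exact rs_act_incl _ σ P
    refine ⟨fun σ => act (sW A B) (rs M σ) (Q P) - Q P, cob_isCoc _ _, fun σ => ?_,
      isLoc_cob _ _, rfl⟩
    rw [two_nsmul, sub_add_sub_comm, ← map_add, hfix, sub_self]
  · intro P P' h
    rw [QuotientAddGroup.eq] at h
    obtain ⟨T, hT2, hT⟩ := h
    obtain ⟨R, hR⟩ := fixed_point (K := M) (F := M) (sW A B) (Q P' - Q P - T) (fun σ => by
      have h1 := hT σ
      rw [Pi.add_apply, Pi.neg_apply] at h1
      rw [map_sub, map_sub]
      have h2 : act (sW A B) (rs M σ) (Q P') = Q P' + (act (sW A B) (rs M σ) (Q P) - Q P) +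
          (act (sW A B) (rs M σ) T - T) := by
        rw [← h1]; abel
      rw [h2]; abel)
    refine ⟨-R, act_inj (sW A B) (incl M M (Sep M)) ?_⟩
    rw [map_nsmul, map_neg, hR, map_sub, ← hQ, ← hQ, smul_neg, smul_sub, hT2, sub_zero, smul_sub]
    simp only [two_nsmul]
    abel

end kum

section inf

variable {M : Type} [Field M] [NumberField M]

/-- The 2-power Selmer group is zero: every continuous cocycle with values in the points of 2-power order
which is trivial at all places is a coboundary of a point of 2-power order. -/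
def SelInf (W : WeierstrassCurve M) : Prop :=
  ∀ f : (Sep M ≃ₐ[M] Sep M) → Pt W (Sep M), IsCoc W f → (∃ n : ℕ, ∀ σ, (2 ^ n : ℕ) • f σ = 0) →
    IsLoc W f → ∃ T : Pt W (Sep M), (∃ n : ℕ, (2 ^ n : ℕ) • T = 0) ∧
      ∀ σ, f σ = act W (rs M σ) T - T

/-- The order of the 2-Selmer group is one iff there are only coboundaries. -/
theorem selc_iff (W : WeierstrassCurve M) : Nat.card (Sel2 W) = 1 ↔ SelC W := by
  have e0 : (fun σ : Sep M ≃ₐ[M] Sep M => act W (rs M σ) (0 : Pt W (Sep M)) - 0) = 0 := by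
    funext σ
    simp
  have h0 : (QuotientAddGroup.mk 0 : _ ⧸ Cob W) ∈ Sel2 W := by
    refine ⟨0, ?_, fun σ => by simp, ?_, rfl⟩
    · have := cob_isCoc (F := M) (Ω := Sep M) W (0 : Pt W (Sep M))
      rwa [e0] at this
    · have := isLoc_cob W (0 : Pt W (Sep M))
      rwa [e0] at this
  constructor
  · intro h f hf h2 hl
    obtain ⟨x, hx⟩ := Nat.card_eq_one_iff_exists.1 h
    have e1 := hx ⟨QuotientAddGroup.mk f, f, hf, h2, hl, rfl⟩
    have e2 := hx ⟨QuotientAddGroup.mk 0, h0⟩
    have e3 : (QuotientAddGroup.mk 0 : _ ⧸ Cob W) = QuotientAddGroup.mk f :=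
      (congrArg Subtype.val e2).trans (congrArg Subtype.val e1).symm
    rw [QuotientAddGroup.eq] at e3
    obtain ⟨T, hT, h⟩ := e3
    refine ⟨T, hT, fun σ => ?_⟩
    have := h σ
    simpa using this
  · intro h
    rw [Nat.card_eq_one_iff_exists]
    refine ⟨⟨QuotientAddGroup.mk 0, h0⟩, ?_⟩
    rintro ⟨x, f, hf, h2, hl, rfl⟩
    refine Subtype.ext ?_
    show (QuotientAddGroup.mk f : _ ⧸ Cob W) = QuotientAddGroup.mk 0
    symm
    rw [QuotientAddGroup.eq]
    obtain ⟨T, hT, h'⟩ := h f hf h2 hl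
    exact ⟨T, hT, fun σ => by simpa using h' σ⟩

/-- Trivial 2-Selmer group implies trivial 2-power Selmer group. -/
theorem inf_of_sel {A B : M} (hd : 4 * A ^ 3 + 27 * B ^ 2 ≠ 0) (hS : SelC (sW A B)) :
    SelInf (sW A B) := by
  haveI : Algebra.IsSeparable M (Sep M) := IsSepClosure.separable
  haveI : IsGalois M (Sep M) := inferInstance
  obtain ⟨hdiv, hsha⟩ := gfc M A B hd hS
  intro f hf hn hl
  obtain ⟨n, hn⟩ := hn
  obtain ⟨Q, hQ⟩ := hsha f hf hl ⟨n, 0, fun σ => by rw [hn σ]; simp⟩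
  obtain ⟨R, hR⟩ := fixed_point (K := M) (F := M) (sW A B) ((2 ^ n : ℕ) • Q) (fun σ => by
    have h1 := hn σ
    rw [hQ, smul_sub, sub_eq_zero] at h1
    rw [map_nsmul, h1])
  have hdivn : ∀ (m : ℕ) (P : Pt (sW A B) M), ∃ P' : Pt (sW A B) M, P = (2 ^ m : ℕ) • P' := by
    intro m
    induction m with
    | zero => exact fun P => ⟨P, by simp⟩
    | succ m ih =>
      intro P
      obtain ⟨P₁, h1⟩ := ih P
      obtain ⟨P₂, h2⟩ := hdiv P₁
      exact ⟨P₂, by rw [h1, h2, ← mul_smul, pow_succ]⟩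
  obtain ⟨P, hP⟩ := hdivn n R
  have hfix := fun σ : Sep M ≃ₐ[M] Sep M => rs_act_incl (K := M) (sW A B) σ P
  refine ⟨Q - act (sW A B) (incl M M (Sep M)) P, ⟨n, ?_⟩, fun σ => ?_⟩
  · rw [smul_sub, ← hR, hP, map_nsmul, sub_self]
  · rw [map_sub, hfix, hQ]
    abel

/-- The converse if there is no rational point of order two. -/
theorem sel_of_inf {A B : M} (h2 : ∀ P : Pt (sW A B) M, (2 : ℕ) • P = 0 → P = 0)
    (hS : SelInf (sW A B)) : SelC (sW A B) := by
  haveI : Algebra.IsSeparable M (Sep M) := IsSepClosure.separable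
  haveI : IsGalois M (Sep M) := inferInstance
  intro f hf hf2 hl
  obtain ⟨T, ⟨n, hn⟩, hT⟩ := hS f hf ⟨1, fun σ => by rw [pow_one]; exact hf2 σ⟩ hl
  refine ⟨T, ?_, hT⟩
  obtain ⟨R, hR⟩ := fixed_point (K := M) (F := M) (sW A B) ((2 : ℕ) • T) (fun σ => by
    have h1 := hf2 σ
    rw [hT, smul_sub, sub_eq_zero] at h1
    rw [map_nsmul, h1])
  have hRn : (2 ^ n : ℕ) • R = 0 := by
    refine act_inj (sW A B) (incl M M (Sep M)) ?_
    rw [map_nsmul, hR, map_zero, ← mul_smul, mul_comm, mul_smul, hn, smul_zero]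
  have key : ∀ (m : ℕ) (R : Pt (sW A B) M), (2 ^ m : ℕ) • R = 0 → R = 0 := by
    intro m
    induction m with
    | zero => exact fun R h => by simpa using h
    | succ m ih =>
      intro R h
      refine ih R (h2 _ ?_)
      rw [← mul_smul, ← pow_succ', h]
  have hR0 : R = 0 := key n R hRn
  rw [← hR, hR0, map_zero]

end inf

end Pool.Agent.H68K.PR
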