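import Pool.Agent.H68K.PR.StmAK
import Pool.Agent.H68K.PR.TowC
import Pool.Agent.H14X.Admk

/-!
# The order of the 2-Selmer group over admissible extensions (helper68)

After `H14F/Sel.lean`, `H14F/Adm.lean` and `H14X/Admx.lean` of helper14.
-/

set_option autoImplicit false
set_option linter.all false

open Polynomial IsDedekindDomain NumberField
open scoped Classical Pointwise

namespace Pool.Agent.H68K.PR

open Pool.Agent.N783.PF
open Pool.Agent.N783.PQ (LocIm)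
open Pool.Agent.N874.JM (LocF)
open Pool.Agent.N874.PP (Ev Sq1 U0)
open Pool.Agent.N874.PM (PLoc)
open Pool.Agent.N692.PMTOW (im sup_top normal_of_top)
open Pool.Agent.H14F

/-! ### The dictionary -/

section dic

variable {F L : Type} [Field F] [NumberField F] [Field L] [Algebra F L]

/-- the dictionary between polynomials and elements of the field -/
structure Dic (A B : F) (Θ : L) : Prop where
  surj : ∀ x : L, ∃ p : F[X], aeval Θ p = x
  sq : ∀ p : F[X], (∃ s : F[X], X ^ 3 + C A * X + C B ∣ p - s ^ 2) ↔ IsSquare (aeval Θ p)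
  norm : ∀ p : F[X], Algebra.norm F (AdjoinRoot.mk (X ^ 3 + C A * X + C B) p) =
    Algebra.norm F (aeval Θ p)
  ne : ∀ h : F[X], SelH A B h → aeval Θ h ≠ 0

theorem dic {A B : F} {Θ : L} (hirr : Irreducible (X ^ 3 + C A * X + C B : F[X]))
    (hL : Module.finrank F L = 3) (hroot : aeval Θ (X ^ 3 + C A * X + C B : F[X]) = 0) :
    Dic A B Θ := by
  haveI : FiniteDimensional F L := Module.finite_of_finrank_pos (by rw [hL]; omega)
  have hm : (X ^ 3 + C A * X + C B : F[X]).Monic := by monicity!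
  have hd : (X ^ 3 + C A * X + C B : F[X]).natDegree = Module.finrank F L := by
    rw [hL]
    compute_degree!
  obtain ⟨e, he⟩ := ex_equiv hirr hm hd hroot
  have hdvd : ∀ p : F[X], X ^ 3 + C A * X + C B ∣ p ↔ aeval Θ p = 0 := by
    intro p
    rw [← AdjoinRoot.mk_eq_zero, ← he, map_eq_zero_iff _ e.injective]
  refine ⟨?_, ?_, ?_, ?_⟩
  · intro x
    obtain ⟨z, hz⟩ := e.surjective x
    obtain ⟨s, rfl⟩ := AdjoinRoot.mk_surjective z
    rw [he] at hz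
    exact ⟨s, hz⟩
  · intro p
    constructor
    · rintro ⟨s, hs⟩
      rw [hdvd, map_sub, map_pow, sub_eq_zero] at hs
      exact ⟨aeval Θ s, by rw [hs, pow_two]⟩
    · rintro ⟨y, hy⟩
      obtain ⟨z, hz⟩ := e.surjective y
      obtain ⟨s, rfl⟩ := AdjoinRoot.mk_surjective z
      rw [he] at hz
      refine ⟨s, ?_⟩
      rw [hdvd, map_sub, map_pow, sub_eq_zero, hz, hy, pow_two]
  · intro p
    rw [← he, Algebra.norm_eq_of_algEquiv]
  · intro h hh h0
    obtain ⟨u, v, huv⟩ := hh.cop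
    have := congrArg (aeval Θ) huv
    rw [map_add, map_mul, map_mul, hroot, h0, mul_zero, mul_zero, add_zero, map_one] at this
    exact zero_ne_one this

theorem atm_of_seln {A B : F} {Θ : L} (d : Dic A B Θ) {n : ℕ} (h : SelN A B n) :
    AtM (fun x : L => ∃ p : F[X], aeval Θ p = x ∧ SelH A B p) n := by
  obtain ⟨r, hr1, hr2, hr3⟩ := h
  intro T hT hT2
  have h1 : ∀ x : L, ∃ i : Fin n, x ∈ T → IsSquare (x * aeval Θ (r i)) := by
    intro x
    by_cases hx : x ∈ T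
    · obtain ⟨-, p, hp, hs⟩ := hT x hx
      obtain ⟨i, hi⟩ := hr3 p hs
      refine ⟨i, fun _ => ?_⟩
      rw [d.sq, map_mul, hp] at hi
      exact hi
    · rcases T.eq_empty_or_nonempty with h0 | ⟨y, hy⟩
      · subst h0
        rcases n.eq_zero_or_pos with hn | hn
        · exfalso
          have hone : SelH A B (1 : F[X]) := by
            refine ⟨isCoprime_one_left, ?_, ?_, ?_⟩
            · rw [map_one, map_one]
              exact IsSquare.one
            · intro w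
              exact Or.inl ⟨1, by rw [Polynomial.map_one, one_pow, sub_self]; exact dvd_zero _⟩
            · intro ρ
              letI := ρ.toAlgebra
              exact Or.inl ⟨1, by rw [Polynomial.map_one, one_pow, sub_self]; exact dvd_zero _⟩
          obtain ⟨i, -⟩ := hr3 1 hone
          subst hn
          exact i.elim0
        · exact ⟨⟨0, hn⟩, fun h => absurd h hx⟩
      · obtain ⟨-, p, -, hs⟩ := hT y hy
        obtain ⟨i, -⟩ := hr3 p hs
        exact ⟨i, fun h => absurd h hx⟩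
  choose ι hι using h1
  have h2 : T.card ≤ (Finset.univ : Finset (Fin n)).card := by
    refine Finset.card_le_card_of_injOn ι (fun _ _ => Finset.mem_univ _) ?_
    intro x hx y hy hxy
    refine hT2 x hx y hy ?_
    obtain ⟨s, hs⟩ := hι x hx
    obtain ⟨t, ht⟩ := hι y hy
    rw [hxy] at hs
    have h3 : aeval Θ (r (ι y)) ≠ 0 := d.ne _ (hr1 _)
    refine ⟨s * t / aeval Θ (r (ι y)), ?_⟩
    field_simp
    have h4 : (x * aeval Θ (r (ι y))) * (y * aeval Θ (r (ι y))) = (s * s) * (t * t) := by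
      rw [hs, ht]
    linear_combination h4
  rw [Finset.card_univ, Fintype.card_fin] at h2
  exact h2

theorem seln_of_atm {A B : F} {Θ : L} (d : Dic A B Θ) {N : ℕ}
    (h : AtM (fun x : L => ∃ p : F[X], aeval Θ p = x ∧ SelH A B p) N) :
    ∃ n ≤ N, SelN A B n := by
  let Q : ℕ → Prop := fun n => ∃ T : Finset L, T.card = n ∧
    (∀ x ∈ T, ∃ p : F[X], aeval Θ p = x ∧ SelH A B p) ∧
    ∀ x ∈ T, ∀ y ∈ T, IsSquare (x * y) → x = y
  have hQ0 : Q 0 := ⟨∅, rfl, by simp, by simp⟩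
  have hQN : ∀ n, Q n → n ≤ N := by
    rintro n ⟨T, rfl, h1, h2⟩
    refine h T (fun x hx => ⟨?_, h1 x hx⟩) h2
    obtain ⟨p, rfl, hp⟩ := h1 x hx
    exact d.ne p hp
  obtain ⟨n, hn⟩ : ∃ n, n = Nat.findGreatest Q N := ⟨_, rfl⟩
  have hQn : Q n := by
    rw [hn]
    exact Nat.findGreatest_spec (Nat.zero_le N) hQ0
  have hmax : ∀ m, n < m → ¬ Q m := by
    intro m hm hQ
    exact Nat.findGreatest_is_greatest (hn ▸ hm) (hQN m hQ) hQ
  refine ⟨n, hQN n hQn, ?_⟩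
  obtain ⟨T, hT, h1, h2⟩ := hQn
  let ε : T ≃ Fin n := T.equivFinOfCardEq hT
  have h3 : ∀ x : T, ∃ p : F[X], aeval Θ p = x.1 ∧ SelH A B p := fun x => h1 x.1 x.2
  choose r hr1 hr2 using h3
  refine ⟨fun i => r (ε.symm i), fun i => hr2 _, ?_, ?_⟩
  · intro i j hij
    rw [d.sq, map_mul, hr1, hr1] at hij
    exact ε.symm.injective (Subtype.ext (h2 _ (ε.symm i).2 _ (ε.symm j).2 hij))
  · intro p hp
    by_contra hcon
    push Not at hcon
    have h4 : ∀ y ∈ T, ¬ IsSquare (aeval Θ p * y) := by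
      intro y hy hs
      have h5 : IsSquare (aeval Θ (p * r (ε.symm (ε ⟨y, hy⟩)))) := by
        rw [map_mul, hr1, Equiv.symm_apply_apply]
        exact hs
      obtain ⟨s, hs⟩ := (d.sq _).2 h5
      exact hcon (ε ⟨y, hy⟩) s hs
    have h5 : aeval Θ p ∉ T := fun hx => h4 _ hx ⟨_, rfl⟩
    refine hmax (n + 1) (Nat.lt_succ_self n) ⟨insert (aeval Θ p) T, ?_, ?_, ?_⟩
    · rw [Finset.card_insert_of_notMem h5, hT]
    · intro x hx
      rcases Finset.mem_insert.1 hx with rfl | hx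
      · exact ⟨p, rfl, hp⟩
      · exact h1 x hx
    · intro x hx y hy hs
      rcases Finset.mem_insert.1 hx with rfl | hx
      · rcases Finset.mem_insert.1 hy with rfl | hy
        · rfl
        · exact absurd hs (h4 y hy)
      · rcases Finset.mem_insert.1 hy with rfl | hy
        · rw [mul_comm] at hs
          exact absurd hs (h4 x hx)
        · exact h2 x hx y hy hs

end dic

theorem atm_mono {Ω : Type} [Field Ω] {P Q : Ω → Prop} {N : ℕ} (h : AtM P N)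
    (hPQ : ∀ x, x ≠ 0 → Q x → P x) : AtM Q N :=
  fun T hT hT2 => h T (fun x hx => ⟨(hT x hx).1, hPQ x (hT x hx).1 (hT x hx).2⟩) hT2

/-! ### The Selmer group over the extension -/

theorem selMk {F L : Type} [Field F] [NumberField F] [Field L] [NumberField L] [Algebra F L]
    {W : ℕ} {f f₁ : (𝓞 F)[X]} {θ : L} {S J : Finset ℕ} {𝔮 : ℕ → Ideal (𝓞 F)}
    {r P : ℕ → (𝓞 F)[X]} (D : Dat 1 W f f₁ θ S J 𝔮 r P) (htr : f.coeff 2 = 0) {N : ℕ}
    (hsurj : ∀ x : L, ∃ p : F[X], aeval (((Dp J : ℕ) : L) * θ) p = x)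
    (hN : AtM (fun x : L => ∃ p : F[X], aeval (((Dp J : ℕ) : L) * θ) p = x ∧
      SelH ((f.coeff 1 : F) * (Dp J : F) ^ 2) ((f.coeff 0 : F) * (Dp J : F) ^ 3) p) N)
    (M : Type) [Field M] [NumberField M] [Algebra F M] [IsGalois F M] {n : ℕ}
    (hM : Module.finrank F M = 2 ^ n)
    (h2 : ∀ w : HeightOneSpectrum (𝓞 M), (2 : 𝓞 M) ∈ w.asIdeal → Tot F w)
    (hr : ∀ σ : F →+* ℝ, ∃ ρ : M →+* ℝ, ρ.comp (algebraMap F M) = σ)
    (hq : ∀ q ∈ J, ∀ w : HeightOneSpectrum (𝓞 M), Ov (𝔮 q) w → Tot F w)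
    (hram : ∀ w : HeightOneSpectrum (𝓞 M), ¬ Unr F w →
      Irreducible (rd (w.under (𝓞 F)).asIdeal f)) :
    Irreducible (X ^ 3 + C (((up M f).coeff 1 : M) * (Dp J : M) ^ 2) * X +
      C (((up M f).coeff 0 : M) * (Dp J : M) ^ 3) : M[X]) ∧
    ∃ m ≤ N ^ 2 ^ n, SelN (((up M f).coeff 1 : M) * (Dp J : M) ^ 2)
      (((up M f).coeff 0 : M) * (Dp J : M) ^ 3) m := by
  have two_under : ∀ w : HeightOneSpectrum (𝓞 M), (2 : 𝓞 M) ∈ w.asIdeal →
      (2 : 𝓞 F) ∈ (w.under (𝓞 F)).asIdeal := by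
    intro w hw
    have e2 := nat_mem_under (L := F) w 2
    rw [Nat.cast_ofNat, Nat.cast_ofNat] at e2
    rw [e2]
    exact hw
  have hm := D.gen.mon
  -- irreducibility
  have hirrF : Irreducible (fF f) :=
    Pool.Agent.N667.PF.irr F 1 W f₁ f D.gf D.one hm D.gen.deg
  have hirrM : Irreducible (fF (up M f)) := by
    obtain ⟨w, hw⟩ := exists_two M
    refine irr_of_mod (up_monic hm) (w := w) ?_
    refine irr_mod (tot_res (h2 w hw)) ?_
    have hw' := two_under w hw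
    have hW : (W : 𝓞 F) ∈ (w.under (𝓞 F)).asIdeal := by
      obtain ⟨k, hk⟩ := D.gf.two
      rw [hk]
      push_cast
      exact Ideal.mul_mem_right _ _ hw'
    have e1 := Pool.Agent.N78.PF.rd_eq (Pool.Agent.N78.PF.sp_le hW) D.one
    have e2 := D.gf.irr _ (w.under (𝓞 F)).isPrime hw'
    rw [← e1] at e2
    exact e2
  obtain ⟨Ω, _, _, _, t, hG⟩ := Pool.Agent.N667.PF.gen M 1 (up M f) (up_monic hm)
    (by rw [up_deg hm, D.gen.deg]) hirrM
  letI : Algebra F Ω := ((algebraMap M Ω).comp (algebraMap F M)).toAlgebra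
  haveI : IsScalarTower F M Ω := IsScalarTower.of_algebraMap_eq fun x => rfl
  have ht : aeval t (fF f) = 0 := by
    have h3 := hG.root
    rw [fF_up, aeval_map_algebraMap] at h3
    exact h3
  obtain ⟨φ, hφ⟩ := exists_hom D.gen hirrF ht
  letI : Algebra L Ω := φ.toRingHom.toAlgebra
  haveI : IsScalarTower F L Ω := IsScalarTower.of_algebraMap_eq fun x => (φ.commutes x).symm
  have hφ' : algebraMap L Ω θ = t := hφ
  rw [← hφ'] at hG
  have hodd : Odd (Module.finrank F L) := by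
    rw [D.gen.rank]
    exact ⟨1, rfl⟩
  have hrk : Module.finrank M Ω = Module.finrank F L := by
    rw [D.gen.rank, hG.rank]
  have htop : im F M Ω ⊔ im F L Ω = ⊤ := Pool.Agent.N301.JM.sup_top hM hodd hrk
  haveI : Normal L Ω := normal_of_top (K := F) (L := L) (M := M) (Ω := Ω) htop
  -- generation
  have hgenΩ : ∀ x : Ω, ∃ h : M[X], aeval (algebraMap L Ω θ) h = x := by
    intro x
    obtain ⟨c, rfl⟩ := hG.gen x
    refine ⟨∑ i, C (c i) * X ^ (i : ℕ), ?_⟩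
    rw [map_sum]
    refine Finset.sum_congr rfl fun i _ => ?_
    rw [map_mul, map_pow, aeval_C, aeval_X]
  have hgenL : ∀ x : L, ∃ h : F[X], aeval θ h = x := by
    intro x
    obtain ⟨c, rfl⟩ := D.gen.gen x
    refine ⟨∑ i, C (c i) * X ^ (i : ℕ), ?_⟩
    rw [map_sum]
    refine Finset.sum_congr rfl fun i _ => ?_
    rw [map_mul, map_pow, aeval_C, aeval_X]
  have hqθ : ∀ q ∈ J, ∀ 𝔓 : HeightOneSpectrum (𝓞 Ω), Ov (𝔮 q) 𝔓 →
      𝔓.valuation Ω (algebraMap L Ω θ) = 1 → ¬ Ev 𝔓 ((q : Ω) * algebraMap L Ω θ) := by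
    intro q hqJ 𝔓 o1 v1
    have hqS := D.sub hqJ
    obtain ⟨o2, o3⟩ := ov_under (L := L) (M := M) o1
    have htot' := tot_comp htop (hq q hqJ _ o2)
    haveI : IsGalois L Ω := {}
    have hval := unr_val htot'.unr
    obtain ⟨𝔓₁, 𝔓₂, e1, e2, e3, e4, e5, e6, e7⟩ :=
      Pool.Agent.H14F.exq 1 W F L f θ S 𝔮 r P D.hg D.gen D.sqf D.gs q hqS (D.cq q hqS)
    have vq : 𝔓.valuation Ω (q : Ω) = WithZero.exp (-1 : ℤ) := by
      rw [← map_natCast (algebraMap L Ω) q, hval]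
      rcases e7 (𝔓.under (𝓞 L)) o3 with h | h
      · rw [h]; exact e5
      · rw [h]; exact e6
    rintro ⟨z, hz⟩
    rw [map_mul, v1, mul_one, vq] at hz
    have hz0 : 𝔓.valuation Ω z ≠ 0 := by
      intro h0
      rw [h0] at hz
      simp at hz
    have h3 := congrArg WithZero.log hz
    rw [WithZero.log_exp, WithZero.log_pow] at h3
    simp only [nsmul_eq_mul, Nat.cast_ofNat] at h3
    omega
  have hs : ∀ v : HeightOneSpectrum (𝓞 F), (2 : 𝓞 F) ∈ v.asIdeal →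
      ∃ w : HeightOneSpectrum (𝓞 M), (2 : 𝓞 M) ∈ w.asIdeal ∧
      (∀ x : F, w.valuation M (algebraMap F M x) = v.valuation F x) ∧
      ∀ s : M, s ≠ 0 → ∃ s₀ : F, w.valuation M (s - algebraMap F M s₀) < w.valuation M s := by
    intro v hv
    obtain ⟨w, rfl⟩ := exists_above (Ω := M) v
    have hw : (2 : 𝓞 M) ∈ w.asIdeal := by
      have e2 := nat_mem_under (L := F) w 2
      rw [Nat.cast_ofNat, Nat.cast_ofNat] at e2
      rw [← e2]
      exact hv
    exact ⟨w, hw, unr_val (h2 w hw).unr, tot_dens (h2 w hw)⟩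
  -- the polynomial of the twist over the extension
  have hmU := up_monic (M := M) hm
  have hdU : (up M f).natDegree = 3 := by rw [up_deg hm, D.gen.deg]
  have htU : (up M f).coeff 2 = 0 := by rw [up, coeff_map, htr, map_zero]
  have hfD : fF ((up M f).scaleRoots ((Dp J : ℕ) : 𝓞 M)) =
      X ^ 3 + C (((up M f).coeff 1 : M) * (Dp J : M) ^ 2) * X +
        C (((up M f).coeff 0 : M) * (Dp J : M) ^ 3) := scale_cub hmU hdU htU (Dp J)
  have hD0M : ((Dp J : ℕ) : M) ≠ 0 := Nat.cast_ne_zero.2 D.dp_ne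
  have hirrD : Irreducible (fF ((up M f).scaleRoots ((Dp J : ℕ) : 𝓞 M))) := by
    rw [Pool.Agent.N170.PF.fF_scale hmU]
    exact Pool.Agent.N170.PF.irr_scale hD0M hirrM
  have hroot : aeval (((Dp J : ℕ) : Ω) * algebraMap L Ω θ)
      (fF ((up M f).scaleRoots ((Dp J : ℕ) : 𝓞 M))) = 0 := by
    have e1 := scaleRoots_eval₂_mul (p := fF (up M f)) (algebraMap M Ω) (algebraMap L Ω θ)
      ((Dp J : ℕ) : M)
    have e2 : eval₂ (algebraMap M Ω) (algebraMap L Ω θ) (fF (up M f)) = 0 := by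
      rw [← aeval_def]
      exact hG.root
    rw [e2, mul_zero, map_natCast] at e1
    rw [Pool.Agent.N170.PF.fF_scale hmU, aeval_def]
    exact e1
  refine ⟨by rw [← hfD]; exact hirrD, ?_⟩
  have hdic : Dic (((up M f).coeff 1 : M) * (Dp J : M) ^ 2)
      (((up M f).coeff 0 : M) * (Dp J : M) ^ 3) (((Dp J : ℕ) : Ω) * algebraMap L Ω θ) := by
    refine dic (by rw [← hfD]; exact hirrD) hG.rank (by rw [← hfD]; exact hroot)
  refine seln_of_atm hdic ?_
  -- the descent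
  have hkey := towc n F L M Ω two_ne_zero hM hodd hrk
    (fun x => Cnd J 𝔮 (algebraMap L Ω θ) (algebraMap L Ω (aeval θ (derivative (fF f)))) x ∧
      C2 (fF (up M f)) (algebraMap L Ω θ) x) ?_ ?_ ?_ N ?_
  · refine atm_mono hkey ?_
    rintro x hx ⟨h, rfl, hh⟩
    have hloc : ∀ w : HeightOneSpectrum (𝓞 M),
        LocF (w.adicCompletion M) (fF ((up M f).scaleRoots ((Dp J : ℕ) : 𝓞 M))) h := by
      intro w
      rw [hfD]
      exact Pool.Agent.N521.QM.ploc_locF (hh.fin w)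
    have hreal : ∀ σ : M →+* ℝ,
        LocIm ℝ ((fF ((up M f).scaleRoots ((Dp J : ℕ) : 𝓞 M))).map σ) (h.map σ) := by
      intro σ
      letI := σ.toAlgebra
      have h1 : LocF ℝ (X ^ 3 + C (((up M f).coeff 1 : M) * (Dp J : M) ^ 2) * X +
          C (((up M f).coeff 0 : M) * (Dp J : M) ^ 3) : M[X]) h :=
        Pool.Agent.N521.QM.ploc_locF (hh.real σ)
      rw [← hfD] at h1
      exact h1
    refine ⟨⟨top_cnd D htop hq hG hx hloc, top_c2 D hG hloc hreal⟩, ?_⟩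
    have h1 := hh.nrm
    rw [hdic.norm] at h1
    exact h1
  · intro x hx
    exact ⟨cnd_sq hx, c2_sq hgenΩ x⟩
  · intro x y hx hy h3 h4
    refine ⟨cnd_mul ?_ hqθ hx hy h3.1 h4.1, c2_mul h3.2 h4.2⟩
    intro q hqJ
    obtain ⟨a1, a2, a3, a4, a5, a6, a7, -⟩ := D.gs q (D.sub hqJ)
    exact ⟨a1, by omega, a7⟩
  · intro σ x h3
    refine ⟨cnd_sig rfl rfl σ h3.1, ?_⟩
    have h4 := h3.2
    rw [fF_up] at h4 ⊢
    exact c2_sig σ h4
  · refine atm_mono hN ?_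
    rintro x hx ⟨h3, hNm⟩
    obtain ⟨h₁, rfl⟩ := hgenL x
    have h4 := h3.2
    rw [fF_up] at h4
    obtain ⟨b1, b2⟩ := base D htop hq hram hx hNm h3.1
    obtain ⟨b3, b4⟩ := c2_base (by rw [← fF_up]; exact hirrM) (by rw [← fF_up]; exact hG.root)
      hs hr h4
    obtain ⟨p, hp⟩ := hsurj (aeval θ h₁)
    exact ⟨p, hp, Pool.Agent.H14X.selH_ofT D htr h₁ hx hNm b1 b2 b3 b4 p hp⟩

/-- ADMK: see `S_ADMK`. -/
theorem admkT : S_ADMK := by
  intro F _ _ p k hst hG M _ _ _ hadm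
  obtain ⟨W, f, f₁, S, J, 𝔮, h, P, hm, hd, htr, hirr, hsq, hf₁, hS, hW, hcon, hJ, rfl⟩ := hst
  obtain ⟨L, _, _, _, θ, hgen⟩ := Pool.Agent.N667.PF.gen F 1 f hm hd hirr
  have D : Dat 1 W f f₁ θ S J 𝔮 h P :=
    ⟨le_rfl, hgen, hsq, hf₁, hS, hW, hcon, hJ⟩
  have ecf : Pool.Agent.H14F.cf (f.scaleRoots ((Dp J : ℕ) : 𝓞 F)) =
      twp J (f.coeff 1, f.coeff 0) := by
    rw [Pool.Agent.H14F.cf_scale hd]
    simp [twp, tw, Dp, mul_comm]
  rw [← ecf] at hG hadm ⊢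
  have hcf := cf_scale hd ((Dp J : ℕ) : 𝓞 F)
  haveI := hadm.galois
  obtain ⟨n, hn⟩ := hadm.deg
  -- admissibility
  have hq : ∀ q ∈ J, ∀ w : HeightOneSpectrum (𝓞 M), Ov (𝔮 q) w → Tot F w := by
    intro q hq w hw
    obtain ⟨a1, a2, a3, a4, a5, a6, a7, -⟩ := D.gs q (D.sub hq)
    have h5 : ((Dp J : ℕ) : 𝓞 F) ∈ (w.under (𝓞 F)).asIdeal := by
      rw [Dp, Nat.cast_prod]
      exact Ideal.mem_of_dvd _ (Finset.dvd_prod_of_mem (fun q : ℕ => (q : 𝓞 F)) hq) (hw _ a7)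
    refine hadm.bad w ?_ ?_
    · rw [hcf]
      exact Ideal.mul_mem_left _ _ (Ideal.pow_mem_pow h5 2)
    · rw [hcf]
      exact Ideal.mul_mem_left _ _ (Ideal.pow_mem_pow h5 3)
  have hram : ∀ w : HeightOneSpectrum (𝓞 M), ¬ Unr F w →
      Irreducible (rd (w.under (𝓞 F)).asIdeal f) := by
    intro w hw
    have h5 := hadm.ram w hw
    rw [hcf] at h5
    apply irr_of_noroot hm hd htr
    intro z hz
    apply h5 (((Dp J : ℕ) : 𝓞 F) * z)
    have e : (((Dp J : ℕ) : 𝓞 F) * z) ^ 3 + (f.coeff 1 * ((Dp J : ℕ) : 𝓞 F) ^ 2) *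
        (((Dp J : ℕ) : 𝓞 F) * z) + f.coeff 0 * ((Dp J : ℕ) : 𝓞 F) ^ 3 =
        ((Dp J : ℕ) : 𝓞 F) ^ 3 * (z ^ 3 + f.coeff 1 * z + f.coeff 0) := by ring
    show (((Dp J : ℕ) : 𝓞 F) * z) ^ 3 + (f.coeff 1 * ((Dp J : ℕ) : 𝓞 F) ^ 2) *
        (((Dp J : ℕ) : 𝓞 F) * z) + f.coeff 0 * ((Dp J : ℕ) : 𝓞 F) ^ 3 ∈ _
    rw [e]
    exact Ideal.mul_mem_left _ _ hz
  -- over `F`
  rw [hcf] at hG
  obtain ⟨hGi, hGs⟩ := hG
  have e1 : ((f.coeff 1 * ((Dp J : ℕ) : 𝓞 F) ^ 2 : 𝓞 F) : F) =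
      (f.coeff 1 : F) * (Dp J : F) ^ 2 :=
    (map_mul (algebraMap (𝓞 F) F) _ _).trans (by rw [map_pow, map_natCast])
  have e0 : ((f.coeff 0 * ((Dp J : ℕ) : 𝓞 F) ^ 3 : 𝓞 F) : F) =
      (f.coeff 0 : F) * (Dp J : F) ^ 3 :=
    (map_mul (algebraMap (𝓞 F) F) _ _).trans (by rw [map_pow, map_natCast])
  have hGi' : Irreducible (X ^ 3 + C ((f.coeff 1 : F) * (Dp J : F) ^ 2) * X +
      C ((f.coeff 0 : F) * (Dp J : F) ^ 3) : F[X]) := by
    rw [← e1, ← e0]
    exact hGi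
  have hGs' : SelN ((f.coeff 1 : F) * (Dp J : F) ^ 2) ((f.coeff 0 : F) * (Dp J : F) ^ 3)
      (2 ^ k) := by
    rw [← e1, ← e0]
    exact hGs
  have hfD : fF (f.scaleRoots ((Dp J : ℕ) : 𝓞 F)) =
      X ^ 3 + C ((f.coeff 1 : F) * (Dp J : F) ^ 2) * X + C ((f.coeff 0 : F) * (Dp J : F) ^ 3) :=
    scale_cub hm hd htr (Dp J)
  have hroot : aeval (((Dp J : ℕ) : L) * θ) (fF (f.scaleRoots ((Dp J : ℕ) : 𝓞 F))) = 0 := by
    have e1 := scaleRoots_eval₂_mul (p := fF f) (algebraMap F L) θ ((Dp J : ℕ) : F)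
    have e2 : eval₂ (algebraMap F L) θ (fF f) = 0 := by
      rw [← aeval_def]
      exact hgen.root
    rw [e2, mul_zero, map_natCast] at e1
    rw [Pool.Agent.N170.PF.fF_scale hm, aeval_def]
    exact e1
  have hdic : Dic ((f.coeff 1 : F) * (Dp J : F) ^ 2) ((f.coeff 0 : F) * (Dp J : F) ^ 3)
      (((Dp J : ℕ) : L) * θ) := dic hGi' hgen.rank (by rw [← hfD]; exact hroot)
  obtain ⟨h6, m, h7, h8⟩ := selMk D htr hdic.surj (atm_of_seln hdic hGs') M hn hadm.two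
    hadm.real hq hram
  refine ⟨m, ?_, ?_⟩
  · rw [hn, mul_comm k, pow_mul', ]
    exact h7
  · have u1 : ((algebraMap (𝓞 F) (𝓞 M) (f.coeff 1 * ((Dp J : ℕ) : 𝓞 F) ^ 2) : 𝓞 M) : M) =
        ((up M f).coeff 1 : M) * (Dp J : M) ^ 2 := by
      rw [map_mul, map_pow, map_natCast, up, coeff_map]
      exact (map_mul (algebraMap (𝓞 M) M) _ _).trans (by rw [map_pow, map_natCast])
    have u0 : ((algebraMap (𝓞 F) (𝓞 M) (f.coeff 0 * ((Dp J : ℕ) : 𝓞 F) ^ 3) : 𝓞 M) : M) =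
        ((up M f).coeff 0 : M) * (Dp J : M) ^ 3 := by
      rw [map_mul, map_pow, map_natCast, up, coeff_map]
      exact (map_mul (algebraMap (𝓞 M) M) _ _).trans (by rw [map_pow, map_natCast])
    rw [hcf]
    refine ⟨?_, ?_⟩
    · show Irreducible (X ^ 3 +
        C ((algebraMap (𝓞 F) (𝓞 M) (f.coeff 1 * ((Dp J : ℕ) : 𝓞 F) ^ 2) : 𝓞 M) : M) * X +
        C ((algebraMap (𝓞 F) (𝓞 M) (f.coeff 0 * ((Dp J : ℕ) : 𝓞 F) ^ 3) : 𝓞 M) : M) : M[X])
      rw [u1, u0]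
      exact h6
    · show SelN ((algebraMap (𝓞 F) (𝓞 M) (f.coeff 1 * ((Dp J : ℕ) : 𝓞 F) ^ 2) : 𝓞 M) : M)
        ((algebraMap (𝓞 F) (𝓞 M) (f.coeff 0 * ((Dp J : ℕ) : 𝓞 F) ^ 3) : 𝓞 M) : M) m
      rw [u1, u0]
      exact h8

end Pool.Agent.H68K.PR
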