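import Pool.Agent.H68K.PR.FinalV
import Pool.Agent.H64.PR.Hgt

/-!
# Project PR (helper68): the law for properties of the members, and the height of the problem
-/

set_option autoImplicit false
set_option linter.all false

open Polynomial IsDedekindDomain Matrix NumberField WithZero
open scoped Classical

namespace Pool.Agent.H68K.PR

open Pool.Agent.N783.PF

/-- From the law for the explicit groups to the law for a property. -/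
theorem sandwich {α : Type} (G : Set α) (hG : G.Finite) (P : ℕ → α → Prop) (ε : ℝ)
    (h : ∀ K : Set ℕ, |({x | x ∈ G ∧ ∃ k ∈ K, P k x}.ncard : ℝ) -
      (∑' k : K, pr2 k) * (G.ncard : ℝ)| ≤ ε * (G.ncard : ℝ)) (K : Set ℕ) (A : Set α)
    (h1 : ∀ x ∈ G, (∃ k ∈ K, P k x) → x ∈ A) (h2 : ∀ x ∈ G, (∃ k ∈ Kᶜ, P k x) → x ∉ A) :
    |({x | x ∈ G ∧ x ∈ A}.ncard : ℝ) - (∑' k : K, pr2 k) * (G.ncard : ℝ)| ≤
      ε * (G.ncard : ℝ) := by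
  obtain ⟨hpos, hsum, -⟩ := Pool.Agent.H10PR.eul
  have e1 : (∑' k : K, pr2 k) + (∑' k : (Kᶜ : Set ℕ), pr2 k) = 1 := by
    rw [← hsum.tsum_eq]
    exact Summable.tsum_add_tsum_compl (f := pr2) (s := K) (hsum.summable.subtype K)
      (hsum.summable.subtype Kᶜ)
  have a1 := (abs_le.1 (h K)).1
  have a2 := (abs_le.1 (h Kᶜ)).1
  have b1 : ({x | x ∈ G ∧ ∃ k ∈ K, P k x}.ncard : ℝ) ≤ ({x | x ∈ G ∧ x ∈ A}.ncard : ℝ) := by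
    have := Set.ncard_le_ncard (s := {x | x ∈ G ∧ ∃ k ∈ K, P k x}) (t := {x | x ∈ G ∧ x ∈ A})
      (fun x hx => ⟨hx.1, h1 x hx.1 hx.2⟩) (hG.subset fun x hx => hx.1)
    exact_mod_cast this
  have b2 : ({x | x ∈ G ∧ ∃ k ∈ Kᶜ, P k x}.ncard : ℝ) + ({x | x ∈ G ∧ x ∈ A}.ncard : ℝ) ≤
      (G.ncard : ℝ) := by
    have hd : Disjoint {x | x ∈ G ∧ ∃ k ∈ Kᶜ, P k x} {x | x ∈ G ∧ x ∈ A} := by
      rw [Set.disjoint_left]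
      rintro x ⟨hx, hx1⟩ ⟨-, hx2⟩
      exact h2 x hx hx1 hx2
    have e2 := Set.ncard_union_eq hd (hG.subset fun x hx => hx.1) (hG.subset fun x hx => hx.1)
    have e3 := Set.ncard_le_ncard (s := {x | x ∈ G ∧ ∃ k ∈ Kᶜ, P k x} ∪ {x | x ∈ G ∧ x ∈ A})
      (t := G) (by
        rintro x (hx | hx)
        · exact hx.1
        · exact hx.1) hG
    rw [e2] at e3
    exact_mod_cast e3
  have e3 : (∑' k : (Kᶜ : Set ℕ), pr2 k) = 1 - ∑' k : K, pr2 k := by linarith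
  rw [e3] at a2
  rw [abs_le]
  constructor <;> linarith

section hgt

variable {F : Type} [Field F] [NumberField F]

/-- The radii for the height of the problem. -/
theorem hw_hle {Y : ℝ} (hY : 0 < Y) (p : 𝓞 F × 𝓞 F) :
    HW (fun _ => 1) (fun _ => 1) (Pool.Agent.H64.PR.Rv Y) 1 p ↔ Hle Y p := by
  rw [Pool.Agent.H64.PR.hle_iff hY]
  unfold HW
  simp only [one_pow, one_mul]

theorem prod_Rv {Y : ℝ} (hY : 0 < Y) :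
    ∏ v : InfinitePlace F, Pool.Agent.H64.PR.Rv Y v ^ v.mult =
      Y ^ ((Fintype.card (InfinitePlace F) : ℝ) / 12) := by
  rw [Finset.prod_congr rfl fun v _ => Pool.Agent.H64.PR.Rv_pow_mult hY v, Finset.prod_const,
    Finset.card_univ, ← Real.rpow_natCast, ← Real.rpow_mul hY.le]
  congr 1
  ring

end hgt

/-- The main theorem for the height `max_v max (|a|_v ^ 3, |b|_v ^ 2)`. -/
theorem fin8T (F : Type) [Field F] [NumberField F] (ε : ℝ) (hε : 0 < ε) :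
  ∃ (M : ℕ) (R : Set (𝓞 F × 𝓞 F)), 0 < M ∧
    (∀ p p' : 𝓞 F × 𝓞 F, p ∈ R → p'.1 - p.1 ∈ sp F M → p'.2 - p.2 ∈ sp F M → p' ∈ R) ∧
    ∀ G : Set (𝓞 F × 𝓞 F), G = {p | p ∈ R ∧ ∀ 𝔭 : Ideal (𝓞 F), 𝔭.IsPrime → (M : 𝓞 F) ∉ 𝔭 →
      4 * p.1 ^ 3 + 27 * p.2 ^ 2 ∉ 𝔭 ^ 2} →
    (∀ p ∈ G, ∀ 𝔭 : Ideal (𝓞 F), 𝔭.IsPrime → 𝔭 ≠ ⊥ → ¬ (p.1 ∈ 𝔭 ^ 4 ∧ p.2 ∈ 𝔭 ^ 6)) ∧
    ∃ (c Y₀ : ℝ), 0 < c ∧ ∀ Y : ℝ, {p : 𝓞 F × 𝓞 F | Hle Y p}.Finite ∧ (Y₀ ≤ Y →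
    0 < {p : 𝓞 F × 𝓞 F | Hle Y p ∧ 4 * p.1 ^ 3 + 27 * p.2 ^ 2 ≠ 0}.ncard ∧
    c * ({p : 𝓞 F × 𝓞 F | Hle Y p ∧ 4 * p.1 ^ 3 + 27 * p.2 ^ 2 ≠ 0}.ncard : ℝ) ≤
      ({p : 𝓞 F × 𝓞 F | Hle Y p ∧ p ∈ G}.ncard : ℝ) ∧
    ∀ K : Set ℕ, |({p : 𝓞 F × 𝓞 F | Hle Y p ∧ p ∈ G ∧ ∃ k ∈ K, Gd (2 ^ k) p}.ncard : ℝ) -
        (∑' k : K, pr2 k) * ({p : 𝓞 F × 𝓞 F | Hle Y p ∧ p ∈ G}.ncard : ℝ)| ≤
      ε * ({p : 𝓞 F × 𝓞 F | Hle Y p ∧ p ∈ G}.ncard : ℝ)) := by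
  obtain ⟨M, R, hM, hR, h⟩ := fin7T F (fun _ => 1) (fun _ => 1)
    (fun _ => ⟨one_pos, one_pos⟩) ε hε
  refine ⟨M, R, hM, hR, fun G hG => ?_⟩
  obtain ⟨h1, c, L₀, hc, h2⟩ := h G hG
  have hn : 0 < Fintype.card (InfinitePlace F) := Fintype.card_pos
  have he : (0 : ℝ) < (Fintype.card (InfinitePlace F) : ℝ) / 12 := by positivity
  obtain ⟨Y₁, hY₁⟩ := Filter.eventually_atTop.1
    ((tendsto_rpow_atTop he).eventually_ge_atTop L₀)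
  refine ⟨h1, c, max 1 Y₁, hc, fun Y => ⟨Pool.Agent.H64.PR.hle_fin Y, fun hY => ?_⟩⟩
  have hY1 : 1 ≤ Y := (le_max_left _ _).trans hY
  have hY0 : 0 < Y := zero_lt_one.trans_le hY1
  obtain ⟨-, h3⟩ := h2 (Pool.Agent.H64.PR.Rv Y) (Pool.Agent.H64.PR.Rv_pos hY0)
  have h4 := h3 (by
    rw [prod_Rv hY0]
    exact hY₁ Y ((le_max_right _ _).trans hY))
  simp only [hw_hle hY0] at h4
  exact h4

end Pool.Agent.H68K.PR
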