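import Pool.Agent.H68K.PR.StmU

/-!
# Project PR, phase 3 (helper68): `S_CGR` and `S_DSJ`
-/

set_option autoImplicit false
set_option linter.all false

open Polynomial IsDedekindDomain Matrix NumberField WithZero
open scoped Classical

namespace Pool.Agent.H68K.PR

open Pool.Agent.N874.PP (sW)
open Pool.Agent.N783.PF

section CGR

variable {F : Type} [Field F] [NumberField F]

theorem cg_tw_disc (d : ℕ) (p : 𝓞 F × 𝓞 F) :
    4 * (tw d p).1 ^ 3 + 27 * (tw d p).2 ^ 2 = (d : 𝓞 F) ^ 6 * (4 * p.1 ^ 3 + 27 * p.2 ^ 2) := by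
  simp only [tw]
  ring

theorem cg_pow_mem {𝔭 : Ideal (𝓞 F)} (hp : 𝔭.IsPrime) {a b : 𝓞 F} (ha : a ∉ 𝔭)
    (h : a * b ∈ 𝔭 ^ 2) : b ∈ 𝔭 ^ 2 := by
  haveI := hp
  rcases Ideal.IsPrime.mul_mem_pow 𝔭 h with h | h
  · exact absurd h ha
  · exact h

/-- There is a prime ideal which contains the prime `l`. -/
theorem cg_prime (l : ℕ) (hl : l.Prime) : ∃ 𝔭 : Ideal (𝓞 F), 𝔭.IsPrime ∧ 𝔭 ≠ ⊥ ∧ (l : 𝓞 F) ∈ 𝔭 := by
  have h1 : Ideal.span {(l : 𝓞 F)} ≠ ⊤ := by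
    intro h
    rw [Ideal.span_singleton_eq_top] at h
    have h2 := h.map (Algebra.norm ℤ)
    have h3 : Algebra.norm ℤ (l : 𝓞 F) = (l : ℤ) ^ Module.finrank ℤ (𝓞 F) := by
      have := Algebra.norm_algebraMap_of_basis (RingOfIntegers.basis F) (l : ℤ)
      rw [Module.finrank_eq_card_basis (RingOfIntegers.basis F), ← this]
      simp
    rw [h3] at h2
    have h4 : Module.finrank ℤ (𝓞 F) ≠ 0 := by
      rw [RingOfIntegers.rank]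
      exact Module.finrank_pos.ne'
    have h5 : IsUnit (l : ℤ) := (isUnit_pow_iff h4).1 h2
    have h6 := Int.isUnit_iff.1 h5
    have := hl.one_lt
    omega
  obtain ⟨𝔭, h𝔭, hle⟩ := Ideal.exists_le_maximal _ h1
  refine ⟨𝔭, h𝔭.isPrime, ?_, hle (Ideal.mem_span_singleton_self _)⟩
  rintro rfl
  have := hle (Ideal.mem_span_singleton_self _)
  rw [Ideal.mem_bot] at this
  exact hl.ne_zero (by exact_mod_cast this)

theorem cg_disc_ne {N : ℕ} {a b : 𝓞 F} {p : 𝓞 F × 𝓞 F} (h : InFam N a b p) :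
    4 * p.1 ^ 3 + 27 * p.2 ^ 2 ≠ 0 := by
  intro h0
  obtain ⟨𝔭, h1, h2, -⟩ := cg_prime (F := F) 2 Nat.prime_two
  exact h.2.2 𝔭 h1 h2 (by rw [h0]; exact zero_mem _)

/-- One half of `S_DSJ`. -/
theorem dsj_le {N : ℕ} {a b : 𝓞 F} {d d' : ℕ} {p p' : 𝓞 F × 𝓞 F} (hd : 0 < d) (hd' : 0 < d')
    (hp' : InFam N a b p') (h : tw d p = tw d' p') (l : ℕ) (hl : l.Prime) :
    d.factorization l ≤ d'.factorization l := by
  by_contra hlt
  push Not at hlt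
  obtain ⟨𝔭, h1, h2, h3⟩ := cg_prime (F := F) l hl
  refine hp'.2.2 𝔭 h1 h2 ?_
  set j := d'.factorization l with hj
  set i := d.factorization l with hi
  have e1 : d' = l ^ j * (d' / l ^ j) := (Nat.ordProj_mul_ordCompl_eq_self d' l).symm
  have e2 : l ^ (j + 1) ∣ d := (Nat.pow_dvd_pow l hlt).trans (Nat.ordProj_dvd d l)
  obtain ⟨x, hx⟩ := e2
  set y := d' / l ^ j with hy
  have hcop : Nat.Coprime l y := Nat.coprime_ordCompl hl hd'.ne'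
  have hyp : (y : 𝓞 F) ∉ 𝔭 := by
    intro hy'
    have h4 : IsCoprime (l : ℤ) (y : ℤ) := Nat.isCoprime_iff_coprime.2 hcop
    obtain ⟨s, t, hst⟩ := h4
    have h5 : (s : 𝓞 F) * l + t * y = 1 := by exact_mod_cast congrArg (Int.cast : ℤ → 𝓞 F) hst
    refine h1.ne_top ((Ideal.eq_top_iff_one _).2 ?_)
    rw [← h5]
    exact add_mem (Ideal.mul_mem_left _ _ h3) (Ideal.mul_mem_left _ _ hy')
  have hdisc : (d : 𝓞 F) ^ 6 * (4 * p.1 ^ 3 + 27 * p.2 ^ 2) =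
      (d' : 𝓞 F) ^ 6 * (4 * p'.1 ^ 3 + 27 * p'.2 ^ 2) := by
    rw [← cg_tw_disc, ← cg_tw_disc, h]
  have hl0 : (l : 𝓞 F) ≠ 0 := by exact_mod_cast hl.ne_zero
  have e3 : (y : 𝓞 F) ^ 6 * (4 * p'.1 ^ 3 + 27 * p'.2 ^ 2) =
      (l : 𝓞 F) ^ 6 * ((x : 𝓞 F) ^ 6 * (4 * p.1 ^ 3 + 27 * p.2 ^ 2)) := by
    refine mul_left_cancel₀ (pow_ne_zero (j * 6) hl0) ?_
    have c1 : (d : 𝓞 F) = (l : 𝓞 F) ^ (j + 1) * x := by rw [hx]; push_cast; ring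
    have c2 : (d' : 𝓞 F) = (l : 𝓞 F) ^ j * y := by
      conv_lhs => rw [e1]
      push_cast
      ring
    rw [c1, c2] at hdisc
    linear_combination (exp := 1) -hdisc
  refine cg_pow_mem h1 (a := (y : 𝓞 F) ^ 6) (fun h => hyp (h1.mem_of_pow_mem _ h)) ?_
  rw [e3]
  refine Ideal.mul_mem_right _ _ ?_
  exact Ideal.pow_le_pow_right (by norm_num : 2 ≤ 6) (Ideal.pow_mem_pow h3 6)

end CGR

/-- DSJ. -/
theorem dsj : S_DSJ := by
  intro F _ _ N a b d d' p p' hd hd' hp hp' h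
  have h1 : d = d' := by
    refine Nat.eq_of_factorization_eq hd.ne' hd'.ne' fun l => ?_
    by_cases hl : l.Prime
    · exact le_antisymm (dsj_le hd hd' hp' h l hl) (dsj_le hd' hd hp h.symm l hl)
    · rw [Nat.factorization_eq_zero_of_not_prime _ hl, Nat.factorization_eq_zero_of_not_prime _ hl]
  subst h1
  refine ⟨rfl, ?_⟩
  have hd0 : (d : 𝓞 F) ≠ 0 := by exact_mod_cast hd.ne'
  simp only [tw, Prod.mk.injEq] at h
  exact Prod.ext (mul_right_cancel₀ (pow_ne_zero 2 hd0) h.1)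
    (mul_right_cancel₀ (pow_ne_zero 3 hd0) h.2)

/-- CGR. -/
theorem cgr : S_CGR := by
  intro F _ _ N a b D hok hD
  set P : ℕ := ∏ d ∈ D, d with hP
  have hP0 : 0 < P := Finset.prod_pos hD
  have hN := hok.1
  set M : ℕ := (N * P) ^ 5 with hM
  have hM0 : 0 < M := by positivity
  refine ⟨M, {q | ∃ d ∈ D, ∃ p : 𝓞 F × 𝓞 F, p.1 - a ∈ sp F N ∧ p.2 - b ∈ sp F N ∧
    (∀ 𝔭 : Ideal (𝓞 F), 𝔭.IsPrime → (M : 𝓞 F) ∈ 𝔭 → 4 * p.1 ^ 3 + 27 * p.2 ^ 2 ∉ 𝔭 ^ 2) ∧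
    q = tw d p}, hM0, ?_, ?_⟩
  · rintro q q' ⟨d, hd, p, h1, h2, h3, rfl⟩ hq1 hq2
    obtain ⟨x, hx⟩ := Ideal.mem_span_singleton'.1 hq1
    obtain ⟨y, hy⟩ := Ideal.mem_span_singleton'.1 hq2
    obtain ⟨e, he⟩ : d ∣ P := Finset.dvd_prod_of_mem _ hd
    have hMd : (M : 𝓞 F) = (d : 𝓞 F) ^ 3 * ((e : 𝓞 F) ^ 3 * P ^ 2 * N ^ 5) := by
      rw [hM]
      push_cast
      have : (P : 𝓞 F) = d * e := by rw [he]; push_cast; ring
      rw [this]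
      ring
    set K : 𝓞 F := (e : 𝓞 F) ^ 3 * P ^ 2 * N ^ 5 with hK
    refine ⟨d, hd, (p.1 + x * (d * K), p.2 + y * K), ?_, ?_, ?_, ?_⟩
    · have : p.1 + x * (d * K) - a = (p.1 - a) + x * (d * K) := by ring
      simp only [this]
      refine add_mem h1 (Ideal.mem_span_singleton'.2 ⟨x * (d * ((e : 𝓞 F) ^ 3 * P ^ 2 * N ^ 4)), ?_⟩)
      rw [hK]
      ring
    · have : p.2 + y * K - b = (p.2 - b) + y * K := by ring
      simp only [this]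
      refine add_mem h2 (Ideal.mem_span_singleton'.2 ⟨y * ((e : 𝓞 F) ^ 3 * P ^ 2 * N ^ 4), ?_⟩)
      rw [hK]
      ring
    · intro 𝔭 h𝔭 hM𝔭 hmem
      refine h3 𝔭 h𝔭 hM𝔭 ?_
      have hK𝔭 : K ∈ 𝔭 ^ 2 := by
        have h4 : ((N * P : ℕ) : 𝓞 F) ∈ 𝔭 := by
          rw [hM] at hM𝔭
          push_cast at hM𝔭 ⊢
          exact h𝔭.mem_of_pow_mem _ hM𝔭
        have h5 := Ideal.pow_mem_pow h4 2
        have h6 : K = ((e : 𝓞 F) ^ 3 * N ^ 3) * ((N * P : ℕ) : 𝓞 F) ^ 2 := by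
          rw [hK]
          push_cast
          ring
        rw [h6]
        exact Ideal.mul_mem_left _ _ h5
      have h7 : 4 * p.1 ^ 3 + 27 * p.2 ^ 2 =
          (4 * (p.1 + x * (d * K)) ^ 3 + 27 * (p.2 + y * K) ^ 2) -
          (4 * (3 * p.1 ^ 2 * (x * d) + 3 * p.1 * (x * d) ^ 2 * K + (x * d) ^ 3 * K ^ 2) +
            27 * (2 * p.2 * y + y ^ 2 * K)) * K := by
        ring
      rw [h7]
      exact sub_mem hmem (Ideal.mul_mem_left _ _ hK𝔭)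
    · refine Prod.ext ?_ ?_
      · simp only [tw] at hx ⊢
        have : q'.1 = p.1 * (d : 𝓞 F) ^ 2 + x * M := by rw [hx]; ring
        rw [this, hMd]
        ring
      · simp only [tw] at hy ⊢
        have : q'.2 = p.2 * (d : 𝓞 F) ^ 3 + y * M := by rw [hy]; ring
        rw [this, hMd]
        ring
  · have hdM : ∀ d ∈ D, ∀ 𝔭 : Ideal (𝓞 F), (M : 𝓞 F) ∉ 𝔭 → (d : 𝓞 F) ∉ 𝔭 := by
      intro d hd 𝔭 hM𝔭 hd𝔭
      obtain ⟨e, he⟩ : d ∣ P := Finset.dvd_prod_of_mem _ hd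
      apply hM𝔭
      have : (M : 𝓞 F) = ((N : 𝓞 F) ^ 5 * e ^ 5 * d ^ 4) * d := by
        rw [hM, he]
        push_cast
        ring
      rw [this]
      exact Ideal.mul_mem_left _ _ hd𝔭
    ext q
    constructor
    · rintro ⟨d, hd, p, hp, rfl⟩
      refine ⟨⟨d, hd, p, hp.1, hp.2.1, fun 𝔭 h𝔭 hM𝔭 => hp.2.2 𝔭 h𝔭 ?_, rfl⟩, fun 𝔭 h𝔭 hM𝔭 hmem => ?_⟩
      · rintro rfl
        rw [Ideal.mem_bot] at hM𝔭
        exact hM0.ne' (by exact_mod_cast hM𝔭)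
      · rw [cg_tw_disc] at hmem
        have h1 := cg_pow_mem h𝔭 (fun h => hdM d hd 𝔭 hM𝔭 (h𝔭.mem_of_pow_mem _ h)) hmem
        by_cases hb : 𝔭 = ⊥
        · subst hb
          have h2 := Ideal.pow_le_self (two_ne_zero) h1
          rw [Ideal.mem_bot] at h2
          exact cg_disc_ne hp h2
        · exact hp.2.2 𝔭 h𝔭 hb h1
    · rintro ⟨⟨d, hd, p, h1, h2, h3, rfl⟩, h4⟩
      refine ⟨d, hd, p, ⟨h1, h2, fun 𝔭 h𝔭 hb hmem => ?_⟩, rfl⟩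
      by_cases hM𝔭 : (M : 𝓞 F) ∈ 𝔭
      · exact h3 𝔭 h𝔭 hM𝔭 hmem
      · refine h4 𝔭 h𝔭 hM𝔭 ?_
        rw [cg_tw_disc]
        exact Ideal.mul_mem_left _ _ hmem

end Pool.Agent.H68K.PR
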