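import Pool.Agent.H68K.PR.LatD
import Pool.Agent.N614.PF.Chi
import Pool.Agent.N862.PF.TV

/-!
# Project PR (helper68): nearly unimodular lattices: Gram matrices, distinguished vectors, existence

After the files `N614/PF/Chi.lean` (helper614), `N862/PF/SD.lean`, `N862/PF/TV.lean` (helper862) of
project PF.
-/

set_option autoImplicit false
set_option linter.all false

open Polynomial IsDedekindDomain Matrix NumberField WithZero
open scoped Classical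

namespace Pool.Agent.H68K.PR

open Pool.Agent.N352.PJ (Mt Typ Jm)
open Pool.Agent.N783.PQ (chp form Dist)
open Pool.Agent.N783.PF
open Pool.Agent.N874.PP (Ev Sq1 U0)
open Pool.Agent.N614.PF (charpoly_smul findim minpoly_deg minpoly_eq charpoly_mulMatrix det mF_apply
  mF_mul mF_det mF_adj mF_pow gram_mul gram_pow gram_op det_eq form_eq)
open Pool.Agent.N862.PF (int_iff theta_int theta_ex sum_eq top_int int_of_top top_pow dvd_of_sqf ev ev_L
  ev_f ev_X ev_C small_zero deg_f ev_ker ex_poly ev_surj ex_psi ex_prime key prod_int mul_mem_lat stepA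
  stepB fin_ov)

/-- **Formal properties of the Gram matrices.** -/
theorem chiD (g : ℕ) (F L : Type) [Field F] [NumberField F] [Field L] [NumberField L]
  [Algebra F L] (f : (𝓞 F)[X]) (θ : L) (hG : IsGen g f θ) (D₁ : ℕ) (α : L) (Λ : Submodule (𝓞 F) L)
  (e : Fin (2 * g + 1) → L) (htr : f.coeff (2 * g) = 0) (hα : α ≠ 0) (hΛ : LatD hG D₁ α Λ)
  (heΛ : ∀ i, e i ∈ Λ)
  (he : LinearIndependent F e) : ∃ A B : Mt g (𝓞 F), Gr hG α e A B ∧ A.IsSymm ∧ B.IsSymm ∧ A.det ≠ 0 ∧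
    chp (mF A) (mF B) = fF f ∧ (A.adjugate * B).trace = 0 ∧
    (IsSquare (Algebra.norm F α) → ∃ x : 𝓞 F, x ≠ 0 ∧ A.det = (-1) ^ g * x ^ 2) ∧
    ∀ 𝔮 : Ideal (𝓞 F), 𝔮.IsPrime → 𝔮 ≠ ⊥ → A.det ∉ 𝔮 → chp (rm 𝔮 A) (rm 𝔮 B) = rd 𝔮 f ∧
      (DVec hG α Λ 𝔮 → Dist (rm 𝔮 A) (rm 𝔮 B)) := by
  have hfd := findim hG
  have hA : ∀ i j, ∃ a : 𝓞 F, (a : F) = hG.top (e i * e j / α) := fun i j =>
    ⟨⟨_, hΛ.int _ (heΛ i) _ (heΛ j)⟩, rfl⟩
  have hB : ∀ i j, ∃ a : 𝓞 F, (a : F) = hG.top (θ * (e i * e j) / α) := fun i j => by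
    refine ⟨⟨_, hΛ.int _ (hΛ.stab _ (heΛ i)) _ (heΛ j)⟩, ?_⟩
    change hG.top (θ * e i * e j / α) = _
    rw [mul_assoc]
  choose A₀ hA₀ using hA
  choose B₀ hB₀ using hB
  let A : Mt g (𝓞 F) := Matrix.of A₀
  let B : Mt g (𝓞 F) := Matrix.of B₀
  have hl : Gr hG α e A B := ⟨hA₀, hB₀⟩
  obtain ⟨b, hb⟩ : ∃ b : Module.Basis (Fin (2 * g + 1)) F L, ∀ i, b i = e i := by
    refine ⟨basisOfLinearIndependentOfCardEqFinrank he (by rw [hG.rank, Fintype.card_fin]),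
      fun i => ?_⟩
    rw [coe_basisOfLinearIndependentOfCardEqFinrank]
  obtain ⟨d, hd0, hd⟩ := det_eq hl hα b hb
  have hinj : Function.Injective (algebraMap (𝓞 F) F) := RingOfIntegers.coe_injective
  have hN0 : Algebra.norm F α ≠ 0 := fun h0 => hα (Algebra.norm_eq_zero_iff.1 h0)
  have hAF : ((A.det : 𝓞 F) : F) ≠ 0 := by
    rw [hd]
    exact mul_ne_zero (mul_ne_zero (pow_ne_zero _ hd0) (pow_ne_zero _ (by norm_num)))
      (inv_ne_zero hN0)
  have hA0 : A.det ≠ 0 := by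
    intro h0
    rw [h0] at hAF
    exact hAF (map_zero _)
  have hdF : IsUnit (mF A).det := by
    rw [mF_det]
    exact hAF.isUnit
  have hop := gram_op hl b hb
  have hinv : (mF A)⁻¹ * mF B = Algebra.leftMulMatrix b θ := by
    rw [← hop, ← Matrix.mul_assoc, Matrix.nonsing_inv_mul _ hdF, Matrix.one_mul]
  have hC : mF (A.adjugate * B) = ((A.det : 𝓞 F) : F) • Algebra.leftMulMatrix b θ := by
    rw [mF_mul, mF_adj, ← hop, ← Matrix.mul_assoc, Matrix.adjugate_mul, mF_det,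
      Matrix.smul_mul, Matrix.one_mul]
  have hcp : (A.adjugate * B).charpoly = f.scaleRoots A.det := by
    apply Polynomial.map_injective (algebraMap (𝓞 F) F) hinj
    rw [← Matrix.charpoly_map, Polynomial.map_scaleRoots]
    · change (mF (A.adjugate * B)).charpoly = _
      rw [hC, charpoly_smul _ hAF, charpoly_mulMatrix hG]
    · rw [hG.mon.leadingCoeff, map_one]
      exact one_ne_zero
  refine ⟨A, B, hl, ?_, ?_, hA0, ?_, ?_, ?_, ?_⟩
  · ext i j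
    have h1 : ((A j i : 𝓞 F) : F) = ((A i j : 𝓞 F) : F) := by rw [hl.gA, hl.gA, mul_comm (e j)]
    exact congrArg _ (hinj h1)
  · ext i j
    have h1 : ((B j i : 𝓞 F) : F) = ((B i j : 𝓞 F) : F) := by rw [hl.gB, hl.gB, mul_comm (e j)]
    exact congrArg _ (hinj h1)
  · rw [chp, hinv, charpoly_mulMatrix hG]
  · apply hinj
    have h1 : algebraMap (𝓞 F) F (A.adjugate * B).trace = (mF (A.adjugate * B)).trace := by
      rw [Matrix.trace, Matrix.trace, map_sum]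
      rfl
    rw [h1, hC, Matrix.trace_smul, Matrix.trace_eq_neg_charpoly_coeff, charpoly_mulMatrix hG,
      Fintype.card_fin, Nat.add_sub_cancel, coeff_map, htr, map_zero, neg_zero, smul_zero]
  · rintro ⟨s, hs⟩
    have hs0 : s ≠ 0 := by
      rintro rfl
      rw [mul_zero] at hs
      exact hN0 hs
    have h4 : ((-1 : F)) ^ g * (-1) ^ g = 1 := by
      rw [← mul_pow, neg_one_mul, neg_neg, one_pow]
    have h3 : (d / s) ^ 2 = (((-1) ^ g * A.det : 𝓞 F) : F) := by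
      have : (((-1) ^ g * A.det : 𝓞 F) : F) = (-1) ^ g * ((A.det : 𝓞 F) : F) := by
        push_cast
        ring
      rw [this, hd, hs]
      calc (d / s) ^ 2 = (d / s) ^ 2 * 1 := by rw [mul_one]
        _ = (d / s) ^ 2 * ((-1 : F) ^ g * (-1) ^ g) := by rw [h4]
        _ = _ := by
          rw [div_pow, sq s, div_eq_mul_inv]
          ring
    have h5 : IsIntegral ℤ (d / s) := by
      have h6 : IsIntegral ℤ ((d / s) ^ 2) := by
        rw [h3]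
        exact RingOfIntegers.isIntegral_coe _
      exact h6.of_pow (by norm_num)
    obtain ⟨r, hr⟩ : ∃ r : 𝓞 F, algebraMap (𝓞 F) F r = d / s := ⟨⟨_, h5⟩, rfl⟩
    refine ⟨r, ?_, ?_⟩
    · rintro rfl
      rw [map_zero] at hr
      exact (div_ne_zero hd0 hs0) hr.symm
    · apply hinj
      have h7 : algebraMap (𝓞 F) F ((-1) ^ g * r ^ 2) = (-1) ^ g * (d / s) ^ 2 := by
        rw [map_mul, map_pow, map_pow, map_neg, map_one, hr]
      rw [h7, h3]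
      have h8 : (((-1) ^ g * A.det : 𝓞 F) : F) = (-1) ^ g * ((A.det : 𝓞 F) : F) := by
        push_cast
        ring
      rw [h8, ← mul_assoc, h4, one_mul]
  · intro 𝔮 h𝔮 h𝔮0 hδ
    have hmax : 𝔮.IsMaximal := h𝔮.isMaximal h𝔮0
    have hdom : IsDomain (𝓞 F ⧸ 𝔮) := Ideal.Quotient.isDomain 𝔮
    have hex : ∀ a : 𝓞 F, a ∉ 𝔮 → ∃ t : 𝓞 F, Ideal.Quotient.mk 𝔮 a * Ideal.Quotient.mk 𝔮 t = 1 := by
      intro a ha
      have h1 : Ideal.Quotient.mk 𝔮 a ≠ 0 := fun h => ha (Ideal.Quotient.eq_zero_iff_mem.1 h)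
      obtain ⟨c, hc⟩ := Ideal.Quotient.exists_inv h1
      obtain ⟨t, rfl⟩ := Ideal.Quotient.mk_surjective c
      exact ⟨t, hc⟩
    obtain ⟨t, ht⟩ := hex _ hδ
    have ht0 : Ideal.Quotient.mk 𝔮 t ≠ 0 := right_ne_zero_of_mul_eq_one ht
    have hrd : (rm 𝔮 A).det = Ideal.Quotient.mk 𝔮 A.det := ((Ideal.Quotient.mk 𝔮).map_det A).symm
    have hra : (rm 𝔮 A).adjugate = rm 𝔮 A.adjugate := ((Ideal.Quotient.mk 𝔮).map_adjugate A).symm
    have hri : (rm 𝔮 A)⁻¹ = Ideal.Quotient.mk 𝔮 t • rm 𝔮 A.adjugate := by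
      apply Matrix.inv_eq_left_inv
      have ht' : Ideal.Quotient.mk 𝔮 t * Ideal.Quotient.mk 𝔮 A.det = 1 := by
        rw [mul_comm]; exact ht
      rw [Matrix.smul_mul, ← hra, Matrix.adjugate_mul, hrd, smul_smul, ht', one_smul]
    have hro : (rm 𝔮 A)⁻¹ * rm 𝔮 B = Ideal.Quotient.mk 𝔮 t • rm 𝔮 (A.adjugate * B) := by
      rw [hri, Matrix.smul_mul]
      congr 1
      exact (Matrix.map_mul).symm
    refine ⟨?_, ?_⟩
    · rw [chp, hro, charpoly_smul _ ht0]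
      have h1 : (rm 𝔮 (A.adjugate * B)).charpoly = (rd 𝔮 f).scaleRoots (Ideal.Quotient.mk 𝔮 A.det) := by
        rw [rm, Matrix.charpoly_map, hcp, Polynomial.map_scaleRoots]
        rw [hG.mon.leadingCoeff, map_one]
        exact one_ne_zero
      rw [h1, ← scaleRoots_mul, ht, scaleRoots_one]
    · rintro ⟨x, hx, s, hs, hm⟩
      obtain ⟨s', hs'⟩ := hex s hs
      have hy : ∀ j, ∃ a : 𝓞 F, (a : F) = hG.top (e j * x / α) := fun j =>
        ⟨⟨_, hΛ.int _ (heΛ j) _ hx⟩, rfl⟩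
      choose y hy using hy
      let c : Fin (2 * g + 1) → 𝓞 F := A.adjugate *ᵥ y
      have hmv : ∀ (M : Mt g (𝓞 F)) (v : Fin (2 * g + 1) → 𝓞 F),
          (fun i => (((M *ᵥ v) i : 𝓞 F) : F)) = mF M *ᵥ fun i => ((v i : 𝓞 F) : F) := by
        intro M v
        funext i
        change algebraMap (𝓞 F) F (∑ j, M i j * v j) =
          ∑ j, algebraMap (𝓞 F) F (M i j) * algebraMap (𝓞 F) F (v j)
        rw [map_sum]
        simp only [map_mul]
      have hyF : (fun i => ((y i : 𝓞 F) : F)) = mF A *ᵥ fun i => b.repr x i := by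
        funext i
        rw [hy, gram_mul hl b hb, Matrix.mulVec, dotProduct]
      have hcF : (fun i => ((c i : 𝓞 F) : F)) = ((A.det : 𝓞 F) : F) • fun i => b.repr x i := by
        rw [hmv, hyF, Matrix.mulVec_mulVec, mF_adj, Matrix.adjugate_mul, mF_det,
          Matrix.smul_mulVec, Matrix.one_mulVec]
      have key : ∀ m, ((c ⬝ᵥ ((A * (A.adjugate * B) ^ m) *ᵥ c) : 𝓞 F) : F) =
          ((A.det : 𝓞 F) : F) ^ (m + 2) * hG.top (θ ^ m * x ^ 2 / α) := by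
        intro m
        have h1 : ((c ⬝ᵥ ((A * (A.adjugate * B) ^ m) *ᵥ c) : 𝓞 F) : F) =
            (fun i => ((c i : 𝓞 F) : F)) ⬝ᵥ
              (mF (A * (A.adjugate * B) ^ m) *ᵥ fun i => ((c i : 𝓞 F) : F)) := by
          rw [← hmv]
          change algebraMap (𝓞 F) F (∑ i, c i * ((A * (A.adjugate * B) ^ m) *ᵥ c) i) =
            ∑ i, algebraMap (𝓞 F) F (c i) *
              algebraMap (𝓞 F) F (((A * (A.adjugate * B) ^ m) *ᵥ c) i)
          rw [map_sum]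
          simp only [map_mul]
        rw [h1, hcF, mF_mul, mF_pow, hC, _root_.smul_pow, ← map_pow (Algebra.leftMulMatrix b) θ m, Matrix.mul_smul,
          Matrix.mulVec_smul, Matrix.smul_mulVec, smul_dotProduct, dotProduct_smul,
          dotProduct_smul, form_eq hl b hb]
        simp only [smul_eq_mul]
        ring
      refine ⟨fun i => Ideal.Quotient.mk 𝔮 (t * s' * c i), fun m hm2 => ?_⟩
      obtain ⟨a, ha, hae⟩ := hm m hm2
      have hk : c ⬝ᵥ ((A * (A.adjugate * B) ^ m) *ᵥ c) =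
          A.det ^ (m + 2) * (a + if m = 2 * g then s ^ 2 else 0) := by
        apply hinj
        refine (key m).trans ?_
        have h2 : hG.top (θ ^ m * x ^ 2 / α) =
            ((a + (if m = 2 * g then s ^ 2 else 0) : 𝓞 F) : F) := by
          have h3 : hG.top (θ ^ m * x ^ 2 / α) = (a : F) + if m = 2 * g then (s : F) ^ 2 else 0 := by
            rw [hae]; ring
          rw [h3]
          change _ = algebraMap (𝓞 F) F (a + if m = 2 * g then s ^ 2 else 0)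
          rw [map_add]
          split_ifs <;> simp
        rw [h2, map_mul, map_pow]
      have hmk : ∀ (M : Mt g (𝓞 F)) (v : Fin (2 * g + 1) → 𝓞 F),
          (fun i => Ideal.Quotient.mk 𝔮 (v i)) ⬝ᵥ (rm 𝔮 M *ᵥ fun i => Ideal.Quotient.mk 𝔮 (v i)) =
            Ideal.Quotient.mk 𝔮 (v ⬝ᵥ (M *ᵥ v)) := by
        intro M v
        rw [dotProduct, dotProduct, map_sum]
        refine Finset.sum_congr rfl fun i _ => ?_
        rw [map_mul, Matrix.mulVec, Matrix.mulVec, dotProduct, dotProduct, map_sum]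
        simp only [map_mul, Matrix.map_apply, rm]
      have hpow : rm 𝔮 A * ((rm 𝔮 A)⁻¹ * rm 𝔮 B) ^ m =
          Ideal.Quotient.mk 𝔮 t ^ m • rm 𝔮 (A * (A.adjugate * B) ^ m) := by
        rw [hro, _root_.smul_pow, Matrix.mul_smul]
        congr 1
        have h1 : rm 𝔮 (A * (A.adjugate * B) ^ m) = rm 𝔮 A * rm 𝔮 ((A.adjugate * B) ^ m) :=
          Matrix.map_mul
        have h2 : rm 𝔮 ((A.adjugate * B) ^ m) = rm 𝔮 (A.adjugate * B) ^ m :=
          ((Ideal.Quotient.mk 𝔮).mapMatrix).map_pow (A.adjugate * B) m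
        rw [h1, h2]
      have hξ : (fun i => Ideal.Quotient.mk 𝔮 (t * s' * c i)) =
          Ideal.Quotient.mk 𝔮 (t * s') • fun i => Ideal.Quotient.mk 𝔮 (c i) := by
        funext i
        rw [Pi.smul_apply, smul_eq_mul, map_mul]
      have h0 : Ideal.Quotient.mk 𝔮 a = 0 := Ideal.Quotient.eq_zero_iff_mem.2 ha
      rw [form, hpow, hξ, Matrix.mulVec_smul, Matrix.smul_mulVec, smul_dotProduct,
        dotProduct_smul, dotProduct_smul, hmk, hk]
      simp only [smul_eq_mul, map_mul, map_pow, map_add, h0, zero_add]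
      split_ifs with h
      · rw [map_pow]
        calc _ = (Ideal.Quotient.mk 𝔮 A.det * Ideal.Quotient.mk 𝔮 t) ^ (m + 2) *
              (Ideal.Quotient.mk 𝔮 s * Ideal.Quotient.mk 𝔮 s') ^ 2 := by ring
          _ = 1 := by rw [ht, hs', one_pow, one_pow, one_mul]
      · rw [map_zero]
        ring

/-- **TV.** -/
theorem tvD (hI : S_INT) (g : ℕ) (F L : Type) [Field F] [NumberField F] [Field L] [NumberField L]
  [Algebra F L] (f : (𝓞 F)[X]) (θ : L) (hG : IsGen g f θ) (hsq : SqF g f) (α : L)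
  (Λ : Submodule (𝓞 F) L) (hα : α ≠ 0) (hSD : SDn α Λ)
  (𝔮 : Ideal (𝓞 F)) (hprime : 𝔮.IsPrime) (hq0 : 𝔮 ≠ ⊥) (hsep : (rd 𝔮 f).Separable)
  (hSq : ∀ 𝔓 : HeightOneSpectrum (𝓞 L), Ov 𝔮 𝔓 → Sq1 𝔓 α) : DVec hG α Λ 𝔮 := by
  have hint := hI g F L f θ hG hsq
  obtain ⟨t, ht⟩ := theta_ex hG
  have hfin := fin_ov (L := L) hq0
  set T : Finset (HeightOneSpectrum (𝓞 L)) := hfin.toFinset with hT
  have hTm : ∀ 𝔓 : HeightOneSpectrum (𝓞 L), 𝔓 ∈ T ↔ Ov 𝔮 𝔓 := fun 𝔓 => by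
    rw [hT, Set.Finite.mem_toFinset]; rfl
  have hB : ∀ 𝔓 : HeightOneSpectrum (𝓞 L), ∃ (x : L) (u : 𝓞 L), 𝔓 ∈ T → (x ∈ Λ ∧
      algebraMap (𝓞 L) L u = x * x / α ∧
      u - 1 ∈ 𝔓.asIdeal ∧ ∀ 𝔓' ∈ T, 𝔓' ≠ 𝔓 → u ∈ 𝔓'.asIdeal) := by
    intro 𝔓
    by_cases h : 𝔓 ∈ T
    · obtain ⟨x, u, h1⟩ := stepB hα hSD (hSq 𝔓 ((hTm _).1 h)) T
      exact ⟨x, u, fun _ => h1⟩
    · exact ⟨0, 0, fun h' => absurd h' h⟩
  choose x u hxu using hB
  obtain ⟨y, hydef⟩ : ∃ y : L, y = ∑ 𝔓 ∈ T, x 𝔓 := ⟨_, rfl⟩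
  have hyΛ : y ∈ Λ := by
    rw [hydef]
    exact Submodule.sum_mem _ fun 𝔓 h => (hxu 𝔓 h).1
  -- the products
  have hW : ∀ 𝔓 𝔓' : HeightOneSpectrum (𝓞 L), ∃ w : 𝓞 L, 𝔓 ∈ T → 𝔓' ∈ T →
      algebraMap (𝓞 L) L w = x 𝔓 * x 𝔓' / α := by
    intro 𝔓 𝔓'
    by_cases h : 𝔓 ∈ T
    · by_cases h' : 𝔓' ∈ T
      · obtain ⟨w, hw⟩ := (int_iff _).1 (prod_int hSD (hxu 𝔓 h).1 (hxu 𝔓' h').1)
        exact ⟨w, fun _ _ => hw⟩
      · exact ⟨0, fun _ h2 => absurd h2 h'⟩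
    · exact ⟨0, fun h1 => absurd h1 h⟩
  choose w hw using hW
  have hinj : Function.Injective (algebraMap (𝓞 L) L) := IsFractionRing.injective (𝓞 L) L
  have hwsq : ∀ 𝔓 ∈ T, ∀ 𝔓' ∈ T, w 𝔓 𝔓' ^ 2 = u 𝔓 * u 𝔓' := by
    intro 𝔓 h 𝔓' h'
    apply hinj
    rw [map_pow, map_mul, hw 𝔓 𝔓' h h', (hxu 𝔓 h).2.1, (hxu 𝔓' h').2.1]
    ring
  have hwd : ∀ 𝔓 ∈ T, w 𝔓 𝔓 = u 𝔓 := by
    intro 𝔓 h
    apply hinj
    rw [hw 𝔓 𝔓 h h, (hxu 𝔓 h).2.1]
  obtain ⟨z, hz⟩ : ∃ z : 𝓞 L, z = ∑ 𝔓 ∈ T, ∑ 𝔓' ∈ T, w 𝔓 𝔓' := ⟨_, rfl⟩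
  have hzL : algebraMap (𝓞 L) L z = y ^ 2 / α := by
    rw [hz, map_sum, hydef, sq, Finset.sum_mul, Finset.sum_div]
    refine Finset.sum_congr rfl fun 𝔓 h => ?_
    rw [map_sum, Finset.mul_sum, Finset.sum_div]
    exact Finset.sum_congr rfl fun 𝔓' h' => hw 𝔓 𝔓' h h'
  have hmemw : ∀ 𝔓₀ ∈ T, ∀ 𝔓 ∈ T, ∀ 𝔓' ∈ T, (𝔓 ≠ 𝔓₀ ∨ 𝔓' ≠ 𝔓₀) → w 𝔓 𝔓' ∈ 𝔓₀.asIdeal := by
    intro 𝔓₀ h0 𝔓 h 𝔓' h' hor
    apply 𝔓₀.isPrime.mem_of_pow_mem 2
    rw [hwsq 𝔓 h 𝔓' h']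
    rcases hor with h1 | h1
    · exact 𝔓₀.asIdeal.mul_mem_right _ ((hxu 𝔓 h).2.2.2 𝔓₀ h0 h1.symm)
    · exact 𝔓₀.asIdeal.mul_mem_left _ ((hxu 𝔓' h').2.2.2 𝔓₀ h0 h1.symm)
  have hz1 : ∀ 𝔓 : HeightOneSpectrum (𝓞 L), Ov 𝔮 𝔓 → z - 1 ∈ 𝔓.asIdeal := by
    intro 𝔓₀ hov
    have h0 : 𝔓₀ ∈ T := (hTm _).2 hov
    have e1 : z - 1 = (u 𝔓₀ - 1) + (∑ 𝔓' ∈ T.erase 𝔓₀, w 𝔓₀ 𝔓' +
        ∑ 𝔓 ∈ T.erase 𝔓₀, ∑ 𝔓' ∈ T, w 𝔓 𝔓') := by
      rw [hz, ← Finset.add_sum_erase _ _ h0, ← Finset.add_sum_erase _ (fun 𝔓' => w 𝔓₀ 𝔓') h0,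
        hwd 𝔓₀ h0]
      ring
    rw [e1]
    refine 𝔓₀.asIdeal.add_mem (hxu 𝔓₀ h0).2.2.1 (𝔓₀.asIdeal.add_mem ?_ ?_)
    · refine Ideal.sum_mem _ fun 𝔓' h' => ?_
      exact hmemw 𝔓₀ h0 𝔓₀ h0 𝔓' (Finset.mem_of_mem_erase h') (Or.inr (Finset.ne_of_mem_erase h'))
    · refine Ideal.sum_mem _ fun 𝔓 h => ?_
      refine Ideal.sum_mem _ fun 𝔓' h' => ?_
      exact hmemw 𝔓₀ h0 𝔓 (Finset.mem_of_mem_erase h) 𝔓' h' (Or.inl (Finset.ne_of_mem_erase h))
  obtain ⟨p, hp1, hp2⟩ := ex_poly hI hG hsq ht (z - 1)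
  haveI : 𝔮.IsPrime := hprime
  haveI hmax : 𝔮.IsMaximal := hprime.isMaximal hq0
  letI : Field (𝓞 F ⧸ 𝔮) := Ideal.Quotient.field 𝔮
  have hzero : p.map (Ideal.Quotient.mk 𝔮) = 0 := by
    refine key hI hG hsq ht hq0 (Ideal.Quotient.mk 𝔮)
      (fun a ha => Ideal.Quotient.eq_zero_iff_mem.2 ha) hsep p hp1 fun 𝔓 hov => ?_
    rw [hp2]
    exact hz1 𝔓 hov
  have hcoef : ∀ i, p.coeff i ∈ 𝔮 := by
    intro i
    have h1 := congrArg (fun r => coeff r i) hzero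
    simp only [coeff_map, coeff_zero] at h1
    exact Ideal.Quotient.eq_zero_iff_mem.1 h1
  refine ⟨y, hyΛ, 1, fun h1 => hprime.ne_top ((Ideal.eq_top_iff_one _).2 h1), fun m hm => ?_⟩
  -- the coefficients
  have hV : ∀ i : ℕ, ∃ b : 𝓞 F, (b : F) = hG.top (θ ^ (i + m)) := by
    intro i
    have h1 := top_int hG hint ((theta_int hG).pow (i + m))
    exact ⟨⟨_, h1⟩, rfl⟩
  choose b hb using hV
  refine ⟨∑ i ∈ Finset.range (2 * g + 1), p.coeff i * b i,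
    Ideal.sum_mem _ fun i _ => 𝔮.mul_mem_right _ (hcoef i), ?_⟩
  have h3 : θ ^ m * y ^ 2 / α = θ ^ m + ∑ i ∈ Finset.range (2 * g + 1),
      ((p.coeff i : 𝓞 F) : F) • θ ^ (i + m) := by
    have h4 : θ ^ m * y ^ 2 / α = θ ^ m * algebraMap (𝓞 L) L z := by
      rw [hzL]; ring
    have h5 : z = 1 + ev F t p := by rw [hp2]; ring
    rw [h4, h5, map_add, map_one, mul_add, mul_one, ev_L ht]
    congr 1
    rw [aeval_def, eval₂_eq_sum_range' (algebraMap (𝓞 F) L) (n := 2 * g + 1), Finset.mul_sum]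
    · refine Finset.sum_congr rfl fun i _ => ?_
      rw [Algebra.smul_def, IsScalarTower.algebraMap_apply (𝓞 F) F L, pow_add]
      ring
    · by_cases hr0 : p = 0
      · rw [hr0]; simp
      · exact (natDegree_lt_iff_degree_lt hr0).2 hp1
  rw [h3, map_add, map_sum, top_pow hG m hm]
  have h6 : ((∑ i ∈ Finset.range (2 * g + 1), p.coeff i * b i : 𝓞 F) : F) =
      ∑ i ∈ Finset.range (2 * g + 1), hG.top (((p.coeff i : 𝓞 F) : F) • θ ^ (i + m)) := by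
    have h7 : ((∑ i ∈ Finset.range (2 * g + 1), p.coeff i * b i : 𝓞 F) : F) =
        algebraMap (𝓞 F) F (∑ i ∈ Finset.range (2 * g + 1), p.coeff i * b i) := rfl
    rw [h7, map_sum]
    refine Finset.sum_congr rfl fun i _ => ?_
    rw [map_mul, map_smul, smul_eq_mul, ← hb i]
  rw [h6]
  split_ifs <;> simp

theorem ex_x0 {L : Type} [Field L] [NumberField L] (𝔓 : HeightOneSpectrum (𝓞 L)) {α : L}
    (hα : α ≠ 0) : ∃ x : L, x ≠ 0 ∧ 𝔓.valuation L (x ^ 2) ≤ 𝔓.valuation L α ∧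
      𝔓.valuation L α * WithZero.exp (-1 : ℤ) ≤ 𝔓.valuation L (x ^ 2) ∧
      (Ev 𝔓 α → 𝔓.valuation L (x ^ 2) = 𝔓.valuation L α) := by
  have hvα : 𝔓.valuation L α ≠ 0 := (Valuation.ne_zero_iff _).2 hα
  by_cases he : Ev 𝔓 α
  · obtain ⟨y, hy⟩ := he
    have h1 : 𝔓.valuation L (y ^ 2) = 𝔓.valuation L α := by rw [map_pow, hy]
    refine ⟨y, ?_, h1.le, ?_, fun _ => h1⟩
    · rintro rfl
      rw [map_zero, zero_pow two_ne_zero] at hy
      exact hvα hy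
    · rw [h1]
      refine mul_le_of_le_one_right' ?_
      rw [← WithZero.exp_zero, WithZero.exp_le_exp]
      norm_num
  · obtain ⟨ϖ, hϖ⟩ := 𝔓.valuation_exists_uniformizer L
    obtain ⟨k, hk⟩ : ∃ k : ℤ, 𝔓.valuation L α = WithZero.exp k := ⟨_, (WithZero.exp_log hvα).symm⟩
    have hϖ0 : ϖ ≠ 0 := by
      rintro rfl
      rw [map_zero] at hϖ
      exact WithZero.exp_ne_zero hϖ.symm
    have hv : ∀ j : ℤ, 𝔓.valuation L (ϖ ^ (-j)) = WithZero.exp j := by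
      intro j
      rw [map_zpow₀, hϖ, ← WithZero.exp_zsmul]
      congr 1
      simp
    rcases Int.even_or_odd k with ⟨j, hj⟩ | ⟨j, hj⟩
    · exfalso
      apply he
      refine ⟨ϖ ^ (-j), ?_⟩
      rw [hv, hk, hj, sq, ← WithZero.exp_add]
    · have h2 : 𝔓.valuation L ((ϖ ^ (-j)) ^ 2) = WithZero.exp (2 * j) := by
        rw [map_pow, hv, sq, ← WithZero.exp_add, two_mul]
      refine ⟨ϖ ^ (-j), zpow_ne_zero _ hϖ0, ?_, ?_, fun h => absurd h he⟩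
      · rw [h2, hk, WithZero.exp_le_exp]
        omega
      · rw [h2, hk, ← WithZero.exp_add, WithZero.exp_le_exp]
        omega

/-- The lattice of the `x` with `x ^ 2 / α` integral. -/
theorem sdD (hI : S_INT) (g : ℕ) (F L : Type) [Field F] [NumberField F] [Field L] [NumberField L]
    [Algebra F L] (f : (𝓞 F)[X]) (θ : L) (hc : IsGen g f θ) (hs : SqF g f) (α : L) (hα : α ≠ 0)
    (D₁ : ℕ) (hev : ∀ 𝔓 : HeightOneSpectrum (𝓞 L), Ev 𝔓 α ∨ (D₁ : 𝓞 L) ∈ 𝔓.asIdeal) :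
    ∃ Λ : Submodule (𝓞 F) L, SDn α Λ ∧ LatD hc D₁ α Λ := by
  have hint := hI g F L f θ hc hs
  obtain ⟨t, ht⟩ := theta_ex hc
  -- products
  have hprod : ∀ x : L, IsIntegral ℤ (x ^ 2 / α) → ∀ y : L, IsIntegral ℤ (y ^ 2 / α) →
      IsIntegral ℤ (x * y / α) := by
    intro x hx y hy
    have h1 : IsIntegral ℤ ((x * y / α) ^ 2) := by
      have h2 : (x * y / α) ^ 2 = (x ^ 2 / α) * (y ^ 2 / α) := by ring
      rw [h2]
      exact hx.mul hy
    exact IsIntegral.of_pow two_pos h1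
  have hsmul : ∀ (c : 𝓞 L) (x : L), IsIntegral ℤ (x ^ 2 / α) →
      IsIntegral ℤ ((algebraMap (𝓞 L) L c * x) ^ 2 / α) := by
    intro c x hx
    have h2 : (algebraMap (𝓞 L) L c * x) ^ 2 / α = (algebraMap (𝓞 L) L (c ^ 2)) * (x ^ 2 / α) := by
      rw [map_pow]
      ring
    rw [h2]
    exact ((int_iff _).2 ⟨_, rfl⟩).mul hx
  let Λ : Submodule (𝓞 F) L :=
    { carrier := {x | IsIntegral ℤ (x ^ 2 / α)}
      zero_mem' := by
        show IsIntegral ℤ ((0 : L) ^ 2 / α)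
        rw [zero_pow two_ne_zero, zero_div]
        exact isIntegral_zero
      add_mem' := by
        intro x y hx hy
        show IsIntegral ℤ ((x + y) ^ 2 / α)
        have h2 : (x + y) ^ 2 / α = x ^ 2 / α + (x * y / α + x * y / α) + y ^ 2 / α := by ring
        rw [h2]
        exact (IsIntegral.add hx ((hprod x hx y hy).add (hprod x hx y hy))).add hy
      smul_mem' := by
        intro c x hx
        show IsIntegral ℤ ((c • x) ^ 2 / α)
        have h2 := hsmul (algebraMap (𝓞 F) (𝓞 L) c) x hx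
        rwa [← IsScalarTower.algebraMap_apply, ← Algebra.smul_def] at h2 }
  have hΛ : ∀ x : L, x ∈ Λ ↔ IsIntegral ℤ (x ^ 2 / α) := fun x => Iff.rfl
  -- good elements
  have hgood : ∀ 𝔓 : HeightOneSpectrum (𝓞 L), ∃ x ∈ Λ, x ≠ 0 ∧
      (Ev 𝔓 α → 𝔓.valuation L (x ^ 2) = 𝔓.valuation L α) ∧
      𝔓.valuation L α * WithZero.exp (-1 : ℤ) ≤ 𝔓.valuation L (x ^ 2) := by
    intro 𝔓
    obtain ⟨x₀, hx0, hx1, hx2, hx3⟩ := ex_x0 𝔓 hα
    have h1 : 𝔓.valuation L (x₀ ^ 2 / α) ≤ 1 := by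
      rw [map_div₀]
      exact div_le_one_of_le₀ hx1 zero_le
    obtain ⟨n, d, hnd⟩ := 𝔓.exists_primeCompl_mul_eq_of_integer (x₀ ^ 2 / α) h1
    have hd : (d : 𝓞 L) ∉ 𝔓.asIdeal := d.2
    have hvd : 𝔓.valuation L (algebraMap (𝓞 L) L (d : 𝓞 L)) = 1 := by
      rcases lt_or_eq_of_le (𝔓.valuation_le_one (K := L) (d : 𝓞 L)) with h | h
      · exact absurd ((𝔓.valuation_lt_one_iff_mem (K := L) _).1 h) hd
      · exact h
    have hd0 : algebraMap (𝓞 L) L (d : 𝓞 L) ≠ 0 := by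
      intro h0
      rw [h0, map_zero] at hvd
      exact zero_ne_one hvd
    have hv : 𝔓.valuation L ((x₀ * algebraMap (𝓞 L) L (d : 𝓞 L)) ^ 2) =
        𝔓.valuation L (x₀ ^ 2) := by
      rw [mul_pow, map_mul, map_pow _ (algebraMap (𝓞 L) L (d : 𝓞 L)), hvd, one_pow, mul_one]
    refine ⟨x₀ * algebraMap (𝓞 L) L d, ?_, mul_ne_zero hx0 hd0, ?_, ?_⟩
    · rw [hΛ]
      have h1 : (x₀ * algebraMap (𝓞 L) L d) ^ 2 / α = algebraMap (𝓞 L) L (d * n) := by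
        rw [map_mul, ← hnd]
        ring
      rw [h1]
      exact (int_iff _).2 ⟨_, rfl⟩
    · intro h
      rw [hv]
      exact hx3 h
    · rw [hv]
      exact hx2
  have h0 : ∃ x₀ ∈ Λ, x₀ ≠ 0 := by
    by_cases hne : Nonempty (HeightOneSpectrum (𝓞 L))
    · obtain ⟨𝔓⟩ := hne
      obtain ⟨x, hx, hx0, -⟩ := hgood 𝔓
      exact ⟨x, hx, hx0⟩
    · obtain ⟨x, hx, hx0, -⟩ : ∃ x ∈ Λ, x ≠ 0 ∧ True := by
        have halg : IsAlgebraic ℤ (1 / α) :=
          (IsFractionRing.isAlgebraic_iff ℤ ℚ L).2 (Algebra.IsAlgebraic.isAlgebraic (1 / α))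
        obtain ⟨b, hb0, hb⟩ := halg.exists_integral_multiple
        refine ⟨(b : L), ?_, by exact_mod_cast hb0, trivial⟩
        rw [hΛ]
        have h2 : (b : L) ^ 2 / α = (b : ℤ) • (b • (1 / α)) := by
          rw [zsmul_eq_mul, zsmul_eq_mul]
          ring
        rw [h2]
        exact hb.smul b
      exact ⟨x, hx, hx0⟩
  obtain ⟨x₀, hx₀, hx₀0⟩ := h0
  refine ⟨Λ, hΛ, ⟨?_, ?_, ?_, ?_, ?_⟩⟩
  · -- finitely generated
    let e : 𝓞 L →ₗ[𝓞 F] L :=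
      (LinearMap.mulLeft (𝓞 F) (α / x₀)).comp (IsScalarTower.toAlgHom (𝓞 F) (𝓞 L) L).toLinearMap
    have hfin : Module.Finite (𝓞 F) (𝓞 L) := inferInstance
    have h1 : (LinearMap.range e).FG := by
      rw [LinearMap.range_eq_map]
      exact Submodule.FG.map e Module.Finite.fg_top
    have h2 : Λ ≤ LinearMap.range e := by
      intro x hx
      obtain ⟨z, hz⟩ := (int_iff _).1 (hprod x hx x₀ hx₀)
      refine ⟨z, ?_⟩
      show (α / x₀) * algebraMap (𝓞 L) L z = x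
      rw [hz]
      field_simp
    haveI : IsNoetherian (𝓞 F) (LinearMap.range e) := isNoetherian_of_fg_of_noetherian _ h1
    have h3 : (Λ.comap (LinearMap.range e).subtype).FG := IsNoetherian.noetherian _
    have h4 : (Λ.comap (LinearMap.range e).subtype).map (LinearMap.range e).subtype = Λ := by
      rw [Submodule.map_comap_subtype]
      exact inf_eq_right.2 h2
    rw [← h4]
    exact Submodule.FG.map _ h3
  · intro x
    have halg : IsAlgebraic ℤ (x / x₀) :=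
      (IsFractionRing.isAlgebraic_iff ℤ ℚ L).2 (Algebra.IsAlgebraic.isAlgebraic (x / x₀))
    obtain ⟨b, hb0, hb⟩ := halg.exists_integral_multiple
    refine ⟨(b : 𝓞 F), by exact_mod_cast hb0, ?_⟩
    rw [hΛ]
    obtain ⟨z, hz⟩ := (int_iff _).1 hb
    have h4 : (b : 𝓞 F) • x = algebraMap (𝓞 L) L z * x₀ := by
      rw [Algebra.smul_def, hz]
      rw [zsmul_eq_mul, map_intCast]
      field_simp
    rw [h4]
    exact hsmul z x₀ hx₀
  · intro x hx
    rw [hΛ] at hx ⊢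
    rw [← ht]
    exact hsmul t x hx
  · intro x hx y hy
    exact top_int hc hint (hprod x hx y hy)
  · intro y hy
    have hy2 : ∀ x ∈ Λ, IsIntegral ℤ (x * y / α) := by
      intro x hx
      apply int_of_top hc hint
      intro m _
      have h5 : x * y / α * θ ^ m = (algebraMap (𝓞 L) L (t ^ m) * x) * y / α := by
        rw [map_pow, ht]
        ring
      rw [h5]
      exact hy _ (hsmul (t ^ m) x hx)
    rw [hΛ]
    have key : ∀ 𝔓 : HeightOneSpectrum (𝓞 L), 𝔓.valuation L (((D₁ : L) * y) ^ 2 / α) ≤ 1 := by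
      intro 𝔓
      obtain ⟨x, hx, hx0, hxe, hxl⟩ := hgood 𝔓
      have hvx : 𝔓.valuation L (x ^ 2) ≠ 0 := (Valuation.ne_zero_iff _).2 (pow_ne_zero 2 hx0)
      have hvα : 𝔓.valuation L α ≠ 0 := (Valuation.ne_zero_iff _).2 hα
      have h1 : 𝔓.valuation L (x * y / α) ≤ 1 := by
        obtain ⟨z, hz⟩ := (int_iff _).1 (hy2 x hx)
        rw [← hz]
        exact 𝔓.valuation_le_one z
      have h2 : ((D₁ : L) * y) ^ 2 / α = (D₁ : L) ^ 2 * (α / x ^ 2) * (x * y / α) ^ 2 := by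
        field_simp
      rw [h2, map_mul, map_mul, map_pow _ (x * y / α), map_pow, map_div₀]
      have h3 : 𝔓.valuation L (x * y / α) ^ 2 ≤ 1 := pow_le_one₀ zero_le h1
      have hDi : (D₁ : L) = algebraMap (𝓞 L) L (D₁ : 𝓞 L) := by rw [map_natCast]
      have h4 : 𝔓.valuation L (D₁ : L) ^ 2 * (𝔓.valuation L α / 𝔓.valuation L (x ^ 2)) ≤ 1 := by
        rcases hev 𝔓 with h | h
        · rw [hxe h, div_self hvα, mul_one]
          refine pow_le_one₀ zero_le ?_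
          rw [hDi]
          exact 𝔓.valuation_le_one _
        · have h5 : 𝔓.valuation L (D₁ : L) ≤ WithZero.exp (-1 : ℤ) := by
            rw [hDi]
            rw [𝔓.valuation_of_algebraMap]
            have h6 := (𝔓.intValuation_le_pow_iff_mem (D₁ : 𝓞 L) 1)
            rw [pow_one] at h6
            exact h6.2 h
          have h7 : 𝔓.valuation L α / 𝔓.valuation L (x ^ 2) ≤ WithZero.exp (1 : ℤ) := by
            rw [div_le_iff₀ (zero_lt_iff.2 hvx)]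
            calc 𝔓.valuation L α = WithZero.exp (1 : ℤ) * (𝔓.valuation L α * WithZero.exp (-1 : ℤ)) := by
                  rw [mul_comm (𝔓.valuation L α), ← mul_assoc, ← WithZero.exp_add, add_neg_cancel,
                    WithZero.exp_zero, one_mul]
              _ ≤ _ := mul_le_mul_right hxl _
          calc 𝔓.valuation L (D₁ : L) ^ 2 * (𝔓.valuation L α / 𝔓.valuation L (x ^ 2))
              ≤ WithZero.exp (-1 : ℤ) ^ 2 * WithZero.exp (1 : ℤ) :=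
                mul_le_mul' (pow_le_pow_left₀ zero_le h5 2) h7
            _ = WithZero.exp (-1 : ℤ) := by
              rw [sq, ← WithZero.exp_add, ← WithZero.exp_add]
              norm_num
            _ ≤ 1 := by
              rw [← WithZero.exp_zero, WithZero.exp_le_exp]
              norm_num
      exact mul_le_one' h4 h3
    obtain ⟨z, hz⟩ := HeightOneSpectrum.mem_integers_of_valuation_le_one L _ key
    exact (int_iff _).2 ⟨z, hz⟩

end Pool.Agent.H68K.PR
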