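import Pool.Agent.N42.PF.CQ

/-!
# Project PR, phase 2 (helper68): isometry of forms over finite fields
-/

set_option autoImplicit false
set_option linter.all false

open Polynomial Matrix Module
open scoped Classical

namespace Pool.Agent.H68K.PR

section nf

variable {F : Type} [Field F]

/-- `a x ^ 2 + b y ^ 2 = 1` is solvable. -/
theorem two_sq [Finite F] (h2 : (2 : F) ≠ 0) {a b : F} (ha : a ≠ 0) (hb : b ≠ 0) :
    ∃ x y : F, a * x ^ 2 + b * y ^ 2 = 1 := by
  haveI := Fintype.ofFinite F
  have hc : ringChar F ≠ 2 := by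
    intro h
    apply h2
    have := ringChar.Nat.cast_ringChar (R := F)
    rw [h] at this
    exact_mod_cast this
  have hodd := FiniteField.odd_card_of_char_ne_two hc
  obtain ⟨x, y, hxy⟩ := FiniteField.exists_root_sum_quadratic (R := F) (f := C a * X ^ 2)
    (g := C b * X ^ 2 - 1) (degree_C_mul_X_pow 2 ha) (by
      rw [degree_sub_eq_left_of_degree_lt]
      · exact degree_C_mul_X_pow 2 hb
      · rw [degree_C_mul_X_pow 2 hb, degree_one]
        norm_num) hodd
  refine ⟨x, y, ?_⟩
  simp only [eval_mul, eval_C, eval_pow, eval_X, eval_sub, eval_one] at hxy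
  linear_combination hxy

theorem nf [Finite F] (h2 : (2 : F) ≠ 0) : ∀ (n : ℕ) (V : Type) [AddCommGroup V] [Module F V]
    [FiniteDimensional F V] (B : LinearMap.BilinForm F V), LinearMap.IsSymm B →
    (∀ x, (∀ y, B x y = 0) → x = 0) → finrank F V = n + 1 →
    ∃ (b : Basis (Fin (n + 1)) F V) (d : F), d ≠ 0 ∧
      ∀ i j, B (b i) (b j) = if i = j then (if i = Fin.last n then d else 1) else 0 := by
  haveI : Invertible (2 : F) := invertibleOfNonzero h2
  intro n
  induction n with
  | zero =>
    intro V _ _ _ B hs hn hd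
    let b : Basis (Fin 1) F V := finBasisOfFinrankEq F V hd
    refine ⟨b, B (b 0) (b 0), ?_, ?_⟩
    · intro h0
      have h1 : b 0 = 0 := by
        apply hn
        intro y
        have h3 : y = b.repr y 0 • b 0 := by
          conv_lhs => rw [← b.sum_repr y]
          simp
        rw [h3, map_smul, h0, smul_zero]
      exact b.ne_zero 0 h1
    · intro i j
      have hi : i = 0 := Fin.ext (by have := i.2; show (i : ℕ) = 0; omega)
      have hj : j = 0 := Fin.ext (by have := j.2; show (j : ℕ) = 0; omega)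
      subst hi hj
      simp
  | succ n ih =>
    intro V _ _ _ B hs hn hd
    -- restriction to an orthogonal complement
    have key : ∀ x : V, B x x ≠ 0 → finrank F ((F ∙ x).orthogonalBilin B) = n + 1 ∧
        ∀ z : (F ∙ x).orthogonalBilin B, (∀ y : (F ∙ x).orthogonalBilin B, B z.1 y.1 = 0) →
          z = 0 := by
      intro x hx
      have hc := LinearMap.BilinForm.isCompl_span_singleton_orthogonal hx
      constructor
      · rw [← Submodule.finrank_add_eq_of_isCompl hc,
          finrank_span_singleton (fun h => hx (by rw [h, map_zero]))] at hd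
        change 1 + finrank F ((F ∙ x).orthogonalBilin B) = n + 1 + 1 at hd
        omega
      · intro z hz
        apply Subtype.ext
        apply hn
        intro w
        obtain ⟨u, hu, v, hv, huv⟩ := Submodule.mem_sup.1 (show w ∈ (F ∙ x) ⊔
          ((F ∙ x).orthogonalBilin B) by
            have := hc.sup_eq_top
            change (F ∙ x) ⊔ ((F ∙ x).orthogonalBilin B) = ⊤ at this
            rw [this]; trivial)
        rw [← huv, map_add, hz ⟨v, hv⟩, add_zero, ← hs.eq]
        exact z.2 u hu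
    have hex : ∃ x : V, B x x = 1 := by
      have hB0 : B ≠ 0 := by
        intro h
        have : Nontrivial V := nontrivial_of_finrank_pos (R := F) (by omega)
        obtain ⟨x, hx⟩ := exists_ne (0 : V)
        exact hx (hn x fun y => by rw [h]; rfl)
      obtain ⟨v₁, hv₁⟩ := LinearMap.BilinForm.exists_bilinForm_self_ne_zero hB0 hs
      obtain ⟨hdim, hnd⟩ := key v₁ hv₁
      let B' := B.domRestrict₁₂ ((F ∙ v₁).orthogonalBilin B) ((F ∙ v₁).orthogonalBilin B)
      have hB'0 : B' ≠ 0 := by
        intro h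
        have : Nontrivial ((F ∙ v₁).orthogonalBilin B) :=
          nontrivial_of_finrank_pos (R := F) (by omega)
        obtain ⟨x, hx⟩ := exists_ne (0 : (F ∙ v₁).orthogonalBilin B)
        exact hx (hnd x fun y => by
          have : B' x y = 0 := by rw [h]; rfl
          exact this)
      obtain ⟨v₂, hv₂⟩ := LinearMap.BilinForm.exists_bilinForm_self_ne_zero hB'0
        (hs.domRestrict _ : LinearMap.IsSymm B')
      have hv₂' : B v₂.1 v₂.1 ≠ 0 := hv₂
      obtain ⟨x, y, hxy⟩ := two_sq h2 hv₁ hv₂'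
      have h12 : B v₁ v₂.1 = 0 := v₂.2 v₁ (Submodule.mem_span_singleton_self _)
      have h21 : B v₂.1 v₁ = 0 := by rw [← hs.eq]; exact h12
      refine ⟨x • v₁ + y • v₂.1, ?_⟩
      simp only [map_add, map_smul, LinearMap.add_apply, LinearMap.smul_apply, smul_eq_mul, h12,
        h21]
      linear_combination hxy
    obtain ⟨x, hx⟩ := hex
    have hx0 : B x x ≠ 0 := by rw [hx]; exact one_ne_zero
    obtain ⟨hdim, hnd⟩ := key x hx0
    let B' := B.domRestrict₁₂ ((F ∙ x).orthogonalBilin B) ((F ∙ x).orthogonalBilin B)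
    obtain ⟨v', d, hd0, hv'⟩ := ih ((F ∙ x).orthogonalBilin B) B' (hs.domRestrict _) hnd hdim
    let b :=
      Basis.mkFinCons x v'
        (by
          rintro c y hy hc
          rw [add_eq_zero_iff_neg_eq] at hc
          rw [← hc, Submodule.neg_mem_iff] at hy
          have := (LinearMap.BilinForm.isCompl_span_singleton_orthogonal hx0).disjoint
          rw [Submodule.disjoint_def] at this
          have := this (c • x) (Submodule.smul_mem _ _ <| Submodule.mem_span_singleton_self _) hy
          exact (smul_eq_zero.1 this).resolve_right fun h => hx0 <| h.symm ▸ map_zero _)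
        (by
          intro y
          refine ⟨-B x y / B x x, fun z hz => ?_⟩
          obtain ⟨c, rfl⟩ := Submodule.mem_span_singleton.1 hz
          rw [map_smul, LinearMap.smul_apply, map_add, map_smul, smul_eq_mul, smul_eq_mul,
            div_mul_cancel₀ _ hx0, add_neg_cancel, mul_zero])
    refine ⟨b, d, hd0, ?_⟩
    have hb0 : b 0 = x := by
      simp only [b, Basis.coe_mkFinCons, Fin.cons_zero]
    have hbs : ∀ i, b (Fin.succ i) = (v' i).1 := by
      intro i
      simp only [b, Basis.coe_mkFinCons, Fin.cons_succ, Function.comp_apply]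
    have hxv : ∀ i, B x (v' i).1 = 0 := fun i =>
      (v' i).2 x (Submodule.mem_span_singleton_self _)
    intro i j
    refine Fin.cases ?_ (fun i => ?_) i <;> refine Fin.cases ?_ (fun j => ?_) j
    · rw [hb0, hx, if_pos rfl, if_neg]
      exact fun h => by
        have := congrArg Fin.val h
        simp at this
    · rw [hb0, hbs, hxv, if_neg]
      exact (Fin.succ_ne_zero j).symm
    · rw [hb0, hbs, ← hs.eq]
      rw [if_neg (Fin.succ_ne_zero i)]
      exact hxv i
    · rw [hbs, hbs]
      have h3 := hv' i j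
      have h4 : B' (v' i) (v' j) = B (v' i).1 (v' j).1 := rfl
      rw [← h4, h3]
      have e1 : (Fin.succ i = Fin.succ j) = (i = j) := by
        rw [eq_iff_iff]; exact Fin.succ_inj
      have e2 : (Fin.succ i = Fin.last (n + 1)) = (i = Fin.last n) := by
        rw [eq_iff_iff, ← Fin.succ_last]; exact Fin.succ_inj
      simp only [e1, e2]

variable {n : ℕ}

/-- the normal form of a matrix -/
theorem nfM [Finite F] (h2 : (2 : F) ≠ 0) {A : Matrix (Fin (n + 1)) (Fin (n + 1)) F}
    (hA : A.IsSymm) (hd : A.det ≠ 0) : ∃ (P : Matrix (Fin (n + 1)) (Fin (n + 1)) F) (d : F),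
    IsUnit P.det ∧ d ≠ 0 ∧ Pᵀ * A * P = Matrix.diagonal fun i => if i = Fin.last n then d else 1 := by
  let B : LinearMap.BilinForm F (Fin (n + 1) → F) := Matrix.toBilin' A
  have hB : ∀ x y, B x y = x ⬝ᵥ (A *ᵥ y) := fun x y => Matrix.toBilin'_apply' A x y
  have hs : ∀ x y, B x y = B y x := by
    intro x y
    rw [hB, hB, Matrix.dotProduct_mulVec, ← Matrix.mulVec_transpose, hA.eq, dotProduct_comm]
  obtain ⟨b, d, hd0, hb⟩ := nf h2 n (Fin (n + 1) → F) B ⟨hs⟩ (by
    intro x hx
    have h1 : A *ᵥ x = 0 := by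
      funext i
      have h3 := hx (Pi.single i 1)
      rw [hs, hB, single_dotProduct, one_mul] at h3
      exact h3
    exact Matrix.eq_zero_of_mulVec_eq_zero hd h1) (by simp)
  let P : Matrix (Fin (n + 1)) (Fin (n + 1)) F := Matrix.of fun i j => b j i
  refine ⟨P, d, ?_, hd0, ?_⟩
  · have h1 : P = (Pi.basisFun F (Fin (n + 1))).toMatrix b := by
      ext i j
      simp [P, Basis.toMatrix_apply]
    rw [h1, ← Matrix.isUnit_iff_isUnit_det]
    haveI := (Pi.basisFun F (Fin (n + 1))).invertibleToMatrix b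
    exact isUnit_of_invertible _
  · ext i j
    rw [Matrix.mul_mul_apply, Matrix.diagonal_apply]
    have h1 : Pᵀ i = b i := rfl
    have h3 : Pᵀ j = b j := rfl
    rw [h1, h3, ← hB, hb]

/-- forms with the same discriminant are isometric -/
theorem isoF [Finite F] (h2 : (2 : F) ≠ 0) {A A' : Matrix (Fin (n + 1)) (Fin (n + 1)) F}
    (hA : A.IsSymm) (hA' : A'.IsSymm) (hd : A.det ≠ 0) (hd' : A'.det ≠ 0) {y : F}
    (hy : A.det = y ^ 2 * A'.det) : ∃ P : Matrix (Fin (n + 1)) (Fin (n + 1)) F,
    IsUnit P.det ∧ Pᵀ * A' * P = A := by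
  obtain ⟨P, d, hP, hd0, hPA⟩ := nfM h2 hA hd
  obtain ⟨P', d', hP', hd0', hPA'⟩ := nfM h2 hA' hd'
  have hdet : ∀ d : F, (Matrix.diagonal fun i : Fin (n + 1) => if i = Fin.last n then d else 1).det =
      d := by
    intro d
    rw [Matrix.det_diagonal, Finset.prod_ite_eq']
    simp
  have e1 : d = P.det ^ 2 * A.det := by
    rw [← hdet d, ← hPA, Matrix.det_mul, Matrix.det_mul, Matrix.det_transpose]
    ring
  have e2 : d' = P'.det ^ 2 * A'.det := by
    rw [← hdet d', ← hPA', Matrix.det_mul, Matrix.det_mul, Matrix.det_transpose]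
    ring
  have hPd := hP.ne_zero
  have hPd' := hP'.ne_zero
  set s : F := P.det * y / P'.det with hs
  have e3 : d = s ^ 2 * d' := by
    rw [e1, e2, hy, hs]
    field_simp
  have hs0 : s ≠ 0 := by
    intro h
    rw [h] at e3
    exact hd0 (by rw [e3]; ring)
  set D : Matrix (Fin (n + 1)) (Fin (n + 1)) F :=
    Matrix.diagonal fun i => if i = Fin.last n then s else 1 with hD
  have hDd : Dᵀ * (Matrix.diagonal fun i : Fin (n + 1) => if i = Fin.last n then d' else 1) * D =
      Matrix.diagonal fun i => if i = Fin.last n then d else 1 := by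
    rw [hD, Matrix.diagonal_transpose, Matrix.diagonal_mul_diagonal, Matrix.diagonal_mul_diagonal]
    congr 1
    funext i
    split_ifs
    · rw [e3]; ring
    · ring
  refine ⟨P' * D * P⁻¹, ?_, ?_⟩
  · rw [Matrix.det_mul, Matrix.det_mul]
    refine (hP'.mul ?_).mul ?_
    · rw [hD, hdet]
      exact isUnit_iff_ne_zero.2 hs0
    · rw [Matrix.det_nonsing_inv]
      exact isUnit_iff_ne_zero.2 (by rw [Ring.inverse_eq_inv']; exact inv_ne_zero hPd)
  · calc (P' * D * P⁻¹)ᵀ * A' * (P' * D * P⁻¹) =
        (P⁻¹)ᵀ * (Dᵀ * (P'ᵀ * A' * P') * D) * P⁻¹ := by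
          rw [Matrix.transpose_mul, Matrix.transpose_mul]
          simp only [Matrix.mul_assoc]
      _ = (P⁻¹)ᵀ * (Pᵀ * A * P) * P⁻¹ := by rw [hPA', hDd, hPA]
      _ = ((P⁻¹)ᵀ * Pᵀ) * A * (P * P⁻¹) := by simp only [Matrix.mul_assoc]
      _ = A := by
        rw [← Matrix.transpose_mul, Matrix.mul_nonsing_inv _ hP, Matrix.transpose_one,
          Matrix.one_mul, Matrix.mul_one]

end nf

section og

open Pool.Agent.N352.PJ (Mt Jm)

variable {F : Type} [Field F] {g : ℕ}

/-- the order of the orthogonal group of a form of the given discriminant -/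
theorem ogA [Finite F] (h2 : (2 : F) ≠ 0) {A : Mt g F} (hA : A.IsSymm) {x : F} (hx : x ≠ 0)
    (hd : A.det = (-1) ^ g * x ^ 2) :
    Nat.card {M : Mt g F // Mᵀ * A * M = A} ≤ 2 * Nat.card F ^ (g * (2 * g + 1)) := by
  have hJ : (Jm g F).det = (-1) ^ g := Pool.Agent.N42.PF.det_Jm F g
  have h1 : ((-1 : F)) ^ g ≠ 0 := pow_ne_zero g (by simp)
  obtain ⟨P, hP, hPA⟩ := isoF (n := 2 * g) h2 (A := A) (A' := Jm g F) hA Pool.Agent.N87.PJ.J_tr
    (by rw [hd]; exact mul_ne_zero h1 (pow_ne_zero 2 hx)) (by rw [hJ]; exact h1) (y := x)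
    (by rw [hd, hJ]; ring)
  refine le_trans ?_ (Pool.Agent.N697.PJ.on g F h2)
  haveI : Finite (Mt g F) := inferInstance
  refine Nat.card_le_card_of_injective (fun M => ⟨P * M.1 * P⁻¹, ?_⟩) ?_
  · calc (P * M.1 * P⁻¹)ᵀ * Jm g F * (P * M.1 * P⁻¹) =
        (P⁻¹)ᵀ * (M.1ᵀ * (Pᵀ * Jm g F * P) * M.1) * P⁻¹ := by
          rw [Matrix.transpose_mul, Matrix.transpose_mul]
          simp only [Matrix.mul_assoc]
      _ = (P⁻¹)ᵀ * (Pᵀ * Jm g F * P) * P⁻¹ := by rw [hPA, M.2]
      _ = ((P⁻¹)ᵀ * Pᵀ) * Jm g F * (P * P⁻¹) := by simp only [Matrix.mul_assoc]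
      _ = Jm g F := by
        rw [← Matrix.transpose_mul, Matrix.mul_nonsing_inv _ hP, Matrix.transpose_one,
          Matrix.one_mul, Matrix.mul_one]
  · intro M M' h
    have h3 : P * M.1 * P⁻¹ = P * M'.1 * P⁻¹ := congrArg Subtype.val h
    have h4 : ∀ M : Mt g F, P⁻¹ * (P * M * P⁻¹) * P = M := by
      intro M
      calc P⁻¹ * (P * M * P⁻¹) * P = (P⁻¹ * P) * M * (P⁻¹ * P) := by
            simp only [Matrix.mul_assoc]
        _ = M := by rw [Matrix.nonsing_inv_mul _ hP, Matrix.one_mul, Matrix.mul_one]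
    exact Subtype.ext (by rw [← h4 M.1, h3, h4])

end og

end Pool.Agent.H68K.PR
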