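import Pool.Agent.H68K.PR.Core
import Pool.Agent.H68K.PR.Big
import Pool.Agent.H68K.PR.StmH
import Pool.Agent.H93PR.CountFin
import Pool.Agent.H93PR.Comb
import Pool.Agent.H10PR.Final
import Pool.Agent.H72P.PR.Sqj
import Pool.Agent.H72P.PR.Odd
import Pool.Agent.H18PR.Real
import Pool.Agent.H18PR.Tws
import Pool.Agent.H18PR.Rnq
import Pool.Agent.H18PR.Cnt
import Pool.Agent.H33PR.UniF
import Pool.Agent.H42PR.Main
import Pool.Agent.H64.PR.Hgt

/-!
# Project PR (helper68): assembly of phase 1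
-/

set_option autoImplicit false

namespace Pool.Agent.H68K.PR

theorem bigT (F : Type) [Field F] [NumberField F] : S_BIG F :=
  big Pool.Agent.H33PR.uni Pool.Agent.H18PR.rnq Pool.Agent.H10PR.twoi Pool.Agent.H18PR.real F

theorem core2T : S_CORE2 :=
  core2 Pool.Agent.N783.PF.exq (Pool.Agent.N426.PF.ns Pool.Agent.N783.PF.int Pool.Agent.N783.PF.exq)
    Pool.Agent.N783.PF.rec Pool.Agent.N783.PF.loc Pool.Agent.H72P.PR.odd Pool.Agent.H72P.PR.sqj
    Pool.Agent.H18PR.tws Pool.Agent.H18PR.cnt (fun F => bigT F) Pool.Agent.H93PR.comb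

theorem finrT : S_FINR :=
  finr Pool.Agent.H42PR.coc Pool.Agent.H64.PR.hgt (Pool.Agent.H93PR.cntb' core2T)

end Pool.Agent.H68K.PR
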