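import Mathlib
import Pool.Agent.H68K.PR.Final

/-!
# Every dimension of the `2`-Selmer group occurs for a positive proportion of the elliptic curves over
# every number field

Let `F` be a number field. The curves `E_{a,b} : y² = x³ + a x + b` with `a, b ∈ 𝓞 F` and
`4 a³ + 27 b² ≠ 0` are ordered by the height `H (a, b) = max_v max (|a|_v³, |b|_v²)` with the normalized
absolute values of the infinite places `v` of `F`. `Sel2 W` is the `2`-Selmer group of the curve `W`, the
set of the classes of the continuous cocycles of the absolute Galois group of `F` with values in `W[2]`,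
modulo the coboundaries of the points of `W[2]`, which are trivial in `H¹(F_v, W)` at all places `v`.

**Theorem.** For every number field `F` and every `d ≥ 0` the pairs `(a, b)` for which the `2`-Selmer
group of `E_{a,b}` over `F` has dimension `d` have positive lower density: there is a `c > 0` such that
for all large `Y` at least `c` times the number of all pairs of height at most `Y` have this property.

Idea of the proof. Fix a large finite set `S` of rational primes `q = 1` modulo `8` and consider the
`f = x³ + a x + b` which are irreducible modulo the primes over `2`, have a prescribed factorization into a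
linear and an irreducible quadratic factor modulo one prime of `F` over each `q ∈ S`, are irreducible
modulo the other primes over `q ∈ S`, and whose discriminant is not divisible by the square of a prime.
For them the Selmer group relaxed at the primes of `S`, with the local conditions of good reduction
elsewhere, is a maximal isotropic subspace `Λ` (by Hilbert reciprocity, a count of units and of the
local indices at the primes over two) of an orthogonal sum of hyperbolic planes over the field with two
elements, one for each `q ∈ S`; the Selmer group of the quadratic twist by `∏_{q ∈ J} q` is the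
intersection of `Λ` with a product of lines which depends on `J ⊆ S`. A counting of pairs of
symmetric matrices over `𝓞 F`, after Bhargava and Gross, with classes of the cubic extension which are
ramified at a small part of `S` and trivial at the rest of `S`, shows that for most `f` the space
`Λ` has no nonzero elements of small support. By linear algebra every dimension `d` then occurs for some
`J`.

Built on project PF of the starting library (helper783 and the seats named there) and on the parts of
project PR by helper10, helper18, helper33, helper42, helper64, helper72, helper93 and helper68.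
-/

set_option autoImplicit false

namespace Pool.Agent.H68K.PR.EveryRank

open NumberField IsDedekindDomain
open Pool.Agent.TH115.GD (Pt act rs IsCoc LocTriv Comp Sep)
open scoped Classical

section selmer

variable {F : Type} [Field F] [NumberField F]

/-- The curve `y² = x³ + a x + b`. -/
def curve (a b : F) : WeierstrassCurve F := ⟨0, 0, 0, a, b⟩

/-- The Selmer cocycles: the continuous cocycles `f` of the absolute Galois group of `F` with values in
the points of order two of `W` over a separable closure, which become coboundaries in the points of `W`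
over a separable closure of `F_v`, for all finite and all real places `v` of `F` (at complex places the
condition is empty). -/
structure IsSelmer (W : WeierstrassCurve F) (f : (Sep F ≃ₐ[F] Sep F) → Pt W (Sep F)) : Prop where
  cocycle : IsCoc W f
  two : ∀ σ, (2 : ℕ) • f σ = 0
  finite : ∀ v : HeightOneSpectrum (𝓞 F), LocTriv W (Comp (𝓞 F) F v) (Sep (Comp (𝓞 F) F v)) f
  real : ∀ ρ : F →+* ℝ, letI := ρ.toAlgebra; LocTriv W ℝ (Sep ℝ) f

/-- The difference of `f'` and `f` is the coboundary of a point of order two of `W`. -/
def Cohomologous (W : WeierstrassCurve F) (f f' : (Sep F ≃ₐ[F] Sep F) → Pt W (Sep F)) : Prop :=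
  ∃ T : Pt W (Sep F), (2 : ℕ) • T = 0 ∧ ∀ σ, f' σ = f σ + (act W (rs F σ) T - T)

/-- The `2`-Selmer group of `W` over `F`, the kernel of `H¹(F, W[2]) → ∏_v H¹(F_v, W)`: the Selmer
cocycles modulo the coboundaries of the points of order two. -/
def Sel2 (W : WeierstrassCurve F) : Type :=
  Quot fun f f' : {f : (Sep F ≃ₐ[F] Sep F) → Pt W (Sep F) // IsSelmer W f} =>
    Cohomologous W f.1 f'.1

/-- The height of a pair: the maximum of `|a|_v³` and `|b|_v²`, for the normalized absolute values
`|x|_v = v x ^ v.mult` of the infinite places `v` of `F`. -/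
noncomputable def height (p : 𝓞 F × 𝓞 F) : ℝ :=
  ⨆ v : InfinitePlace F, max ((v (p.1 : F) ^ v.mult) ^ 3) ((v (p.2 : F) ^ v.mult) ^ 2)

end selmer

/-- The pairs `(a, b)` of elements of `𝓞 F` with `4 a³ + 27 b² ≠ 0` of height at most `Y`. -/
def Pairs (F : Type) [Field F] [NumberField F] (Y : ℝ) : Set (𝓞 F × 𝓞 F) :=
  {p | height p ≤ Y ∧ 4 * p.1 ^ 3 + 27 * p.2 ^ 2 ≠ 0}

theorem height_le {F : Type} [Field F] [NumberField F] (Y : ℝ) (p : 𝓞 F × 𝓞 F) :
    height p ≤ Y ↔ Pool.Agent.H68K.PR.Hle Y p := by
  rw [height, ciSup_le_iff (Set.finite_range _).bddAbove]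
  exact forall_congr' fun v => max_le_iff

theorem sel2_eq {F : Type} [Field F] [NumberField F] (a b : F) :
    Nat.card (Sel2 (curve a b)) =
      Nat.card (Pool.Agent.H68K.PR.Sel2 (Pool.Agent.N874.PP.sW a b)) := by
  have h0 : ∀ f f' : (Sep F ≃ₐ[F] Sep F) → Pt (curve a b) (Sep F),
      (QuotientAddGroup.mk f : _ ⧸ Pool.Agent.H68K.PR.Cob (curve a b)) = QuotientAddGroup.mk f' ↔
        Cohomologous (curve a b) f f' := by
    intro f f'
    rw [QuotientAddGroup.eq]
    constructor
    · rintro ⟨T, hT, h⟩
      refine ⟨T, hT, fun σ => ?_⟩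
      have := h σ
      rw [Pi.add_apply, Pi.neg_apply] at this
      rw [← this]
      abel
    · rintro ⟨T, hT, h⟩
      refine ⟨T, hT, fun σ => ?_⟩
      rw [Pi.add_apply, Pi.neg_apply, h σ]
      abel
  refine Nat.card_congr (Equiv.ofBijective (Quot.lift (fun f => ⟨QuotientAddGroup.mk f.1,
    ⟨f.1, f.2.cocycle, f.2.two, ⟨f.2.finite, f.2.real⟩, rfl⟩⟩) ?_) ⟨?_, ?_⟩)
  · intro f f' h
    exact Subtype.ext ((h0 f.1 f'.1).2 h)
  · intro x y
    induction x using Quot.ind with | _ f => ?_
    induction y using Quot.ind with | _ f' => ?_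
    intro h
    exact Quot.sound ((h0 f.1 f'.1).1 (congrArg Subtype.val h))
  · rintro ⟨x, f, h1, h2, h3, rfl⟩
    exact ⟨Quot.mk _ ⟨f, h1, h2, h3.fin, h3.real⟩, rfl⟩

/-- For every number field `F` and every `d` a positive proportion of the elliptic curves over `F`,
ordered by height, have a `2`-Selmer group of dimension `d`. -/
theorem result (F : Type) [Field F] [NumberField F] (d : ℕ) :
    ∃ c : ℝ, 0 < c ∧ ∃ Y₀ : ℝ, ∀ Y : ℝ, (Pairs F Y).Finite ∧ (Y₀ ≤ Y → 0 < (Pairs F Y).ncard ∧
      c * ((Pairs F Y).ncard : ℝ) ≤
        ({p ∈ Pairs F Y | Nat.card (Sel2 (curve (p.1 : F) (p.2 : F))) = 2 ^ d}.ncard : ℝ)) := by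
  obtain ⟨c, hc, Y₀, h⟩ := Pool.Agent.H68K.PR.finrT F d
  have h1 : ∀ Y, Pairs F Y =
      {p : 𝓞 F × 𝓞 F | Pool.Agent.H68K.PR.Hle Y p ∧ 4 * p.1 ^ 3 + 27 * p.2 ^ 2 ≠ 0} := by
    intro Y
    refine Set.ext fun p => ?_
    rw [Pairs, Set.mem_ofPred_eq, Set.mem_ofPred_eq, height_le]
  have h2 : ∀ Y, {p ∈ Pairs F Y | Nat.card (Sel2 (curve (p.1 : F) (p.2 : F))) = 2 ^ d} =
      {p : 𝓞 F × 𝓞 F | Pool.Agent.H68K.PR.Hle Y p ∧ 4 * p.1 ^ 3 + 27 * p.2 ^ 2 ≠ 0 ∧
          Nat.card (Pool.Agent.H68K.PR.Sel2 (Pool.Agent.N874.PP.sW (p.1 : F) (p.2 : F))) =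
            2 ^ d} := by
    intro Y
    refine Set.ext fun p => ?_
    rw [h1 Y, Set.mem_ofPred_eq, Set.mem_ofPred_eq, Set.mem_ofPred_eq, sel2_eq, and_assoc]
  refine ⟨c, hc, Y₀, fun Y => ⟨?_, fun hY => ?_⟩⟩
  · rw [h1]
    exact (h Y).1.subset fun p hp => hp.1
  · obtain ⟨h3, h4⟩ := (h Y).2 hY
    rw [h2 Y, h1 Y]
    exact ⟨h3, h4⟩

end Pool.Agent.H68K.PR.EveryRank
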