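import Pool.Agent.H68K.PR.StmU

/-!
# Project PR, phase 3 (helper68): total variation, and the congruence family
-/

set_option autoImplicit false
set_option linter.all false

open Polynomial IsDedekindDomain Matrix NumberField WithZero
open scoped Classical

namespace Pool.Agent.H68K.PR

open Pool.Agent.N783.PF

/-- From single values to sets of values. -/
theorem tv (hE : S_EUL) {ε : ℝ} (hε : 0 < ε) : ∃ ε' : ℝ, 0 < ε' ∧ ∀ (α : Type) (G : Set α)
    (f : α → ℕ), G.Finite →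
    (∀ k, |({x | x ∈ G ∧ f x = 2 ^ k}.ncard : ℝ) - pr2 k * G.ncard| ≤ ε' * G.ncard) →
    ∀ K : Set ℕ, |({x | x ∈ G ∧ ∃ k ∈ K, f x = 2 ^ k}.ncard : ℝ) -
      (∑' k : K, pr2 k) * G.ncard| ≤ ε * G.ncard := by
  obtain ⟨hpos, hsum, -⟩ := hE
  -- the tail
  have htail := hsum.tendsto_sum_nat
  obtain ⟨n, hn⟩ := (Metric.tendsto_atTop.1 htail (ε / 2) (by positivity))
  have hn := hn n le_rfl
  rw [Real.dist_eq] at hn
  have hsle : ∑ i ∈ Finset.range n, pr2 i ≤ 1 := by
    rw [← hsum.tsum_eq]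
    exact hsum.summable.sum_le_tsum _ fun i _ => (hpos i).le
  have hn' : 1 - ε / 2 ≤ ∑ i ∈ Finset.range n, pr2 i := by
    have := (abs_lt.1 hn).1
    linarith
  refine ⟨ε / (2 * (n + 1)), by positivity, fun α G f hG h K => ?_⟩
  have hG0 : (0 : ℝ) ≤ G.ncard := Nat.cast_nonneg _
  have hsK : ∀ K : Set ℕ, Summable fun k : K => pr2 k := fun K => hsum.summable.subtype K
  -- a lower bound for every set
  have low : ∀ K : Set ℕ, (∑' k : K, pr2 k) * G.ncard - ε * G.ncard ≤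
      ({x | x ∈ G ∧ ∃ k ∈ K, f x = 2 ^ k}.ncard : ℝ) := by
    intro K
    -- the values in `K` below `n`
    obtain ⟨T, hT⟩ : ∃ T : Finset ℕ, T = (Finset.range n).filter fun k => k ∈ K := ⟨_, rfl⟩
    have h1 : (∑' k : K, pr2 k) ≤ ∑ k ∈ T, pr2 k + ε / 2 := by
      have e1 : (∑' k : K, pr2 k) = ∑' k, K.indicator pr2 k := tsum_subtype K pr2
      have hsi : Summable (K.indicator pr2) := hsum.summable.indicator K
      rw [e1, ← hsi.sum_add_tsum_nat_add n]
      refine add_le_add ?_ ?_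
      · rw [hT, Finset.sum_filter]
        refine Finset.sum_le_sum fun k _ => ?_
        by_cases hk : k ∈ K
        · rw [Set.indicator_of_mem hk, if_pos hk]
        · rw [Set.indicator_of_notMem hk, if_neg hk]
      · have h2 : ∑' k, K.indicator pr2 (k + n) ≤ ∑' k, pr2 (k + n) := by
          refine Summable.tsum_le_tsum (fun k => ?_) ((summable_nat_add_iff n).2 hsi)
            ((summable_nat_add_iff n).2 hsum.summable)
          exact Set.indicator_le_self' (fun _ _ => (hpos _).le) _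
        refine h2.trans ?_
        have h3 := hsum.summable.sum_add_tsum_nat_add n
        rw [hsum.tsum_eq] at h3
        linarith
    have h2 : (∑ k ∈ T, (({x | x ∈ G ∧ f x = 2 ^ k}.ncard : ℕ) : ℝ)) ≤
        ({x | x ∈ G ∧ ∃ k ∈ K, f x = 2 ^ k}.ncard : ℝ) := by
      have h3 : ∑ k ∈ T, {x | x ∈ G ∧ f x = 2 ^ k}.ncard ≤
          {x | x ∈ G ∧ ∃ k ∈ K, f x = 2 ^ k}.ncard := by
        have h4 : ∀ k, {x | x ∈ G ∧ f x = 2 ^ k}.Finite := fun k => hG.subset fun x hx => hx.1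
        have h5 : ∑ k ∈ T, {x | x ∈ G ∧ f x = 2 ^ k}.ncard =
            (T.biUnion fun k => (h4 k).toFinset).card := by
          rw [Finset.card_biUnion]
          · refine Finset.sum_congr rfl fun k _ => ?_
            rw [Set.ncard_eq_toFinset_card _ (h4 k)]
          · intro k _ l _ hkl
            rw [Function.onFun, Finset.disjoint_left]
            intro x hx hx'
            rw [Set.Finite.mem_toFinset] at hx hx'
            exact hkl (Nat.pow_right_injective le_rfl (hx.2.symm.trans hx'.2))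
        rw [h5, ← Set.ncard_coe_finset]
        refine Set.ncard_le_ncard ?_ (hG.subset fun x hx => hx.1)
        intro x hx
        rw [Finset.mem_coe, Finset.mem_biUnion] at hx
        obtain ⟨k, hk, hx⟩ := hx
        rw [Set.Finite.mem_toFinset] at hx
        rw [hT, Finset.mem_filter] at hk
        exact ⟨hx.1, k, hk.2, hx.2⟩
      exact_mod_cast h3
    have h3 : ∑ k ∈ T, (pr2 k * G.ncard - ε / (2 * (n + 1)) * G.ncard) ≤
        ∑ k ∈ T, (({x | x ∈ G ∧ f x = 2 ^ k}.ncard : ℕ) : ℝ) := by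
      refine Finset.sum_le_sum fun k _ => ?_
      have := (abs_le.1 (h k)).1
      linarith
    rw [Finset.sum_sub_distrib, ← Finset.sum_mul, Finset.sum_const, nsmul_eq_mul] at h3
    have hTn : (T.card : ℝ) ≤ n := by
      have : T.card ≤ n := by
        rw [hT]
        exact (Finset.card_filter_le _ _).trans (by rw [Finset.card_range])
      exact_mod_cast this
    have h4 : (T.card : ℝ) * (ε / (2 * (n + 1)) * G.ncard) ≤ ε / 2 * G.ncard := by
      have h5 : (T.card : ℝ) * (ε / (2 * (n + 1))) ≤ ε / 2 := by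
        have h6 : (T.card : ℝ) * (ε / (2 * (n + 1))) ≤ ((n : ℝ) + 1) * (ε / (2 * (n + 1))) := by
          refine mul_le_mul_of_nonneg_right (by linarith) (by positivity)
        refine h6.trans (le_of_eq ?_)
        field_simp
      calc (T.card : ℝ) * (ε / (2 * (n + 1)) * G.ncard) =
          (T.card : ℝ) * (ε / (2 * (n + 1))) * G.ncard := by ring
        _ ≤ _ := mul_le_mul_of_nonneg_right h5 hG0
    have h5 : (∑' k : K, pr2 k) * G.ncard ≤ (∑ k ∈ T, pr2 k + ε / 2) * G.ncard :=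
      mul_le_mul_of_nonneg_right h1 hG0
    nlinarith
  rw [abs_le]
  refine ⟨by linarith [low K], ?_⟩
  have h1 := low Kᶜ
  have h2 : (∑' k : K, pr2 k) + (∑' k : (Kᶜ : Set ℕ), pr2 k) = 1 := by
    rw [← hsum.tsum_eq]
    have h3 := Summable.tsum_add_tsum_compl (f := pr2) (s := K) (hsum.summable.subtype K)
      (hsum.summable.subtype Kᶜ)
    exact h3
  have h3 : ({x | x ∈ G ∧ ∃ k ∈ K, f x = 2 ^ k}.ncard : ℝ) +
      ({x | x ∈ G ∧ ∃ k ∈ Kᶜ, f x = 2 ^ k}.ncard : ℝ) ≤ G.ncard := by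
    have h4 : Disjoint {x | x ∈ G ∧ ∃ k ∈ K, f x = 2 ^ k} {x | x ∈ G ∧ ∃ k ∈ Kᶜ, f x = 2 ^ k} := by
      rw [Set.disjoint_left]
      rintro x ⟨-, k, hk, h5⟩ ⟨-, l, hl, h6⟩
      have := Nat.pow_right_injective le_rfl (h5.symm.trans h6)
      rw [this] at hk
      exact hl hk
    have h5 := Set.ncard_union_eq h4 (hG.subset fun x hx => hx.1) (hG.subset fun x hx => hx.1)
    have h6 : ({x | x ∈ G ∧ ∃ k ∈ K, f x = 2 ^ k} ∪ {x | x ∈ G ∧ ∃ k ∈ Kᶜ, f x = 2 ^ k}).ncard ≤
        G.ncard := Set.ncard_le_ncard (by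
      rintro x (hx | hx)
      · exact hx.1
      · exact hx.1) hG
    rw [h5] at h6
    exact_mod_cast h6
  have h4 : (∑' k : (Kᶜ : Set ℕ), pr2 k) = 1 - ∑' k : K, pr2 k := by linarith
  rw [h4] at h1
  linarith

theorem fin5 (hE : S_EUL) (hF : S_FAM5) (hG : S_CGR) : S_FIN5 := by
  intro F _ _ ε hε
  obtain ⟨ε', hε', htv⟩ := tv hE hε
  obtain ⟨N, a, b, D, hok, hD, c, Y₀, hc, h⟩ := hF F ε' hε'
  obtain ⟨M, R, hM, hR, hFR⟩ := hG F N a b D hok hD
  refine ⟨M, R, hM, hR, ?_⟩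
  rintro G hGd
  rw [← hFR] at hGd
  refine ⟨c, Y₀, hc, fun Y => ⟨(h Y).1, fun hY => ?_⟩⟩
  obtain ⟨h1, h2, h3⟩ := (h Y).2 hY
  rw [hGd]
  refine ⟨h1, h2, fun K => ?_⟩
  have hfin : {p : 𝓞 F × 𝓞 F | Hle Y p ∧ p ∈ Fml N a b D}.Finite := (h Y).1.subset fun p hp => hp.1
  have h4 := htv _ {p : 𝓞 F × 𝓞 F | Hle Y p ∧ p ∈ Fml N a b D} selP hfin (fun k => by
    refine le_trans (le_of_eq ?_) (h3 k)
    congr 4
    ext p
    exact and_assoc) K
  refine le_trans (le_of_eq ?_) h4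
  congr 4
  ext p
  exact and_assoc.symm

end Pool.Agent.H68K.PR
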