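import Pool.Agent.H68K.PR.StmV
import Pool.Agent.H68K.PR.Fin5
import Pool.Agent.H68K.PR.Cgr

/-!
# Project PR, phase 4 (helper68): minimality, and the main theorem of phase 4 from its parts
-/

set_option autoImplicit false
set_option linter.all false

open Polynomial IsDedekindDomain Matrix NumberField WithZero
open scoped Classical

namespace Pool.Agent.H68K.PR

open Pool.Agent.N783.PF

section MINI

variable {F : Type} [Field F] [NumberField F]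

/-- The members of the family are minimal. -/
theorem mini {N : ℕ} {a b : 𝓞 F} {D : Finset ℕ} (hD : ∀ d ∈ D, 0 < d ∧
      ∀ 𝔭 : Ideal (𝓞 F), 𝔭.IsPrime → 𝔭 ≠ ⊥ → (d : 𝓞 F) ∉ 𝔭 ^ 2) {p : 𝓞 F × 𝓞 F}
    (hp : p ∈ Fml N a b D) (𝔭 : Ideal (𝓞 F)) (h𝔭 : 𝔭.IsPrime) (h0 : 𝔭 ≠ ⊥) :
    ¬ (p.1 ∈ 𝔭 ^ 4 ∧ p.2 ∈ 𝔭 ^ 6) := by
  rintro ⟨h1, h2⟩
  obtain ⟨d, hd, q, hq, rfl⟩ := hp
  obtain ⟨hd0, hd1⟩ := hD d hd
  have hdisc : 4 * (tw d q).1 ^ 3 + 27 * (tw d q).2 ^ 2 ∈ 𝔭 ^ 12 := by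
    refine add_mem (Ideal.mul_mem_left _ _ ?_) (Ideal.mul_mem_left _ _ ?_)
    · have := Ideal.pow_mem_pow h1 3
      rwa [← pow_mul] at this
    · have := Ideal.pow_mem_pow h2 2
      rwa [← pow_mul] at this
  rw [cg_tw_disc] at hdisc
  set v : HeightOneSpectrum (𝓞 F) := ⟨𝔭, h𝔭, h0⟩ with hv
  have e1 : v.intValuation ((d : 𝓞 F) ^ 6 * (4 * q.1 ^ 3 + 27 * q.2 ^ 2)) ≤ exp (-((12 : ℕ) : ℤ)) :=
    (v.intValuation_le_pow_iff_mem _ 12).2 hdisc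
  have e2 : ¬ v.intValuation (4 * q.1 ^ 3 + 27 * q.2 ^ 2) ≤ exp (-((2 : ℕ) : ℤ)) := by
    rw [v.intValuation_le_pow_iff_mem]
    exact hq.2.2 𝔭 h𝔭 h0
  have e3 : ¬ v.intValuation (d : 𝓞 F) ≤ exp (-((2 : ℕ) : ℤ)) := by
    rw [v.intValuation_le_pow_iff_mem]
    exact hd1 𝔭 h𝔭 h0
  have hdne : (d : 𝓞 F) ≠ 0 := by exact_mod_cast hd0.ne'
  have hcne : 4 * q.1 ^ 3 + 27 * q.2 ^ 2 ≠ 0 := cg_disc_ne hq
  rw [map_mul, map_pow] at e1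
  obtain ⟨x, hx⟩ : ∃ x : ℤ, v.intValuation (d : 𝓞 F) = exp x :=
    ⟨_, (exp_log (v.intValuation_ne_zero _ hdne)).symm⟩
  obtain ⟨y, hy⟩ : ∃ y : ℤ, v.intValuation (4 * q.1 ^ 3 + 27 * q.2 ^ 2) = exp y :=
    ⟨_, (exp_log (v.intValuation_ne_zero _ hcne)).symm⟩
  rw [hx, exp_le_exp] at e3
  rw [hy, exp_le_exp] at e2
  rw [hx, hy, ← WithZero.exp_nsmul, ← WithZero.exp_add, exp_le_exp] at e1
  simp only [smul_eq_mul, nsmul_eq_mul] at e1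
  push_cast at e1 e2 e3
  omega

end MINI

theorem fin6 (hE : S_EUL) (hF : S_FAM6) (hG : S_CGR) : S_FIN6 := by
  intro F _ _ ε hε
  obtain ⟨ε', hε', htv⟩ := tv hE hε
  obtain ⟨N, a, b, D, hok, hD, c, Y₀, hc, h⟩ := hF F ε' hε'
  obtain ⟨M, R, hM, hR, hFR⟩ := hG F N a b D hok fun d hd => (hD d hd).1
  refine ⟨M, R, hM, hR, ?_⟩
  rintro G hGd
  rw [← hFR] at hGd
  refine ⟨fun p hp => ?_, c, Y₀, hc, fun Y => ⟨(h Y).1, fun hY => ?_⟩⟩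
  · rw [hGd] at hp
    exact mini hD hp
  obtain ⟨h1, h2, h3⟩ := (h Y).2 hY
  rw [hGd]
  refine ⟨h1, h2, fun K => ?_⟩
  have hfin : {p : 𝓞 F × 𝓞 F | Hle Y p ∧ p ∈ Fml N a b D}.Finite := (h Y).1.subset fun p hp => hp.1
  have h4 := htv _ {p : 𝓞 F × 𝓞 F | Hle Y p ∧ p ∈ Fml N a b D} selP hfin (fun k => by
    refine le_trans (le_of_eq ?_) (h3 k)
    congr 4
    ext p
    exact and_assoc) K
  refine le_trans (le_of_eq ?_) h4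
  congr 4
  ext p
  exact and_assoc.symm

end Pool.Agent.H68K.PR
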