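import Pool.Agent.H68K.PR.StmW
import Pool.Agent.H68K.PR.Fam5
import Pool.Agent.H68K.PR.Fin6

/-!
# Project PR, phase 4 (helper68): the main theorem for all heights from its parts
-/

set_option autoImplicit false
set_option linter.all false

open Polynomial IsDedekindDomain Matrix NumberField WithZero
open scoped Classical

namespace Pool.Agent.H68K.PR

open Pool.Agent.N783.PF

/-- `2 ^ k` if `Gd (2 ^ k) P`. -/
noncomputable def gdN {F : Type} [Field F] [NumberField F] (P : 𝓞 F × 𝓞 F) : ℕ :=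
  if h : ∃ k, Gd (2 ^ k) P then 2 ^ h.choose else 0

theorem gdN_iff (hC : S_COC) {F : Type} [Field F] [NumberField F] (P : 𝓞 F × 𝓞 F) (k : ℕ) :
    gdN P = 2 ^ k ↔ Gd (2 ^ k) P := by
  unfold gdN
  constructor
  · intro h
    by_cases h0 : ∃ k, Gd (2 ^ k) P
    · rw [dif_pos h0] at h
      rw [← h]
      exact h0.choose_spec
    · rw [dif_neg h0] at h
      exact absurd h.symm (pow_ne_zero _ two_ne_zero)
  · intro h
    have h0 : ∃ k, Gd (2 ^ k) P := ⟨k, h⟩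
    rw [dif_pos h0]
    exact (selP_of hC h0.choose_spec).symm.trans (selP_of hC h)

theorem fin7 (hC : S_COC) (hE : S_EUL) (hF : S_FAM7) (hG : S_CGR) : S_FIN7 := by
  intro F _ _ α β hαβ ε hε
  obtain ⟨ε', hε', htv⟩ := tv hE hε
  obtain ⟨N, a, b, D, hok, hD, c, L₀, hc, h⟩ := hF F α β hαβ ε' hε'
  obtain ⟨M, R, hM, hR, hFR⟩ := hG F N a b D hok fun d hd => (hD d hd).1
  refine ⟨M, R, hM, hR, ?_⟩
  rintro G hGd
  rw [← hFR] at hGd
  refine ⟨fun p hp => ?_, c, L₀, hc, fun r hr => ⟨(h r hr).1, fun hL => ?_⟩⟩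
  · rw [hGd] at hp
    exact mini hD hp
  obtain ⟨h1, h2, h3⟩ := (h r hr).2 hL
  rw [hGd]
  refine ⟨h1, h2, fun K => ?_⟩
  have hfin : {p : 𝓞 F × 𝓞 F | HW α β r 1 p ∧ p ∈ Fml N a b D}.Finite :=
    (h r hr).1.subset fun p hp => hp.1
  have h4 := htv _ {p : 𝓞 F × 𝓞 F | HW α β r 1 p ∧ p ∈ Fml N a b D} gdN hfin (fun k => by
    refine le_trans (le_of_eq ?_) (h3 k)
    congr 4
    ext p
    simp only [Set.mem_setOf_eq, gdN_iff hC, and_assoc]) K
  refine le_trans (le_of_eq ?_) h4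
  congr 4
  ext p
  simp only [Set.mem_setOf_eq, gdN_iff hC, and_assoc]

end Pool.Agent.H68K.PR
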