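import Pool.Agent.H68K.PR.StmV

/-!
# Project PR, phase 4 (helper68): all heights

As `StmV.lean`, for the regions `v a ≤ α v * r v ^ 4`, `v b ≤ β v * r v ^ 6` with fixed `α`, `β` and all
`r` with a large product. This covers every weighted height.
-/

set_option autoImplicit false
set_option linter.all false

open Polynomial IsDedekindDomain Matrix NumberField WithZero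
open scoped Classical

namespace Pool.Agent.H68K.PR

open Pool.Agent.N874.PP (sW)
open Pool.Agent.N783.PF

/-- `tw d p` is in the region `v a ≤ α v * r v ^ 4`, `v b ≤ β v * r v ^ 6`. -/
def HW {F : Type} [Field F] [NumberField F] (α β r : InfinitePlace F → ℝ) (d : ℝ)
    (p : 𝓞 F × 𝓞 F) : Prop := ∀ v : InfinitePlace F,
  d ^ 2 * v (p.1 : F) ≤ α v * r v ^ 4 ∧ d ^ 3 * v (p.2 : F) ≤ β v * r v ^ 6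

/-- REGW: as `S_REGV`, for the regions `HW α β r 1`, uniformly in `r`. -/
def S_REGW : Prop := S_SHL → ∀ (F : Type) [Field F] [NumberField F] (α β : InfinitePlace F → ℝ),
  (∀ v, 0 < α v ∧ 0 < β v) → ∀ (W : ℕ) (c : ℝ), 0 < W → 0 < c →
  ∀ ε : ℝ, 0 < ε → ∃ δ : ℝ, 0 < δ ∧ ∀ m : ℕ, ∃ η : ℝ, 0 < η ∧
  ∀ (Pn : ℕ) (a b : 𝓞 F) (Pr : 𝓞 F × 𝓞 F → Prop), 0 < Pn → OkN (W * Pn) a b →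
    (∀ (u : (𝓞 F)ˣ) (p : 𝓞 F × 𝓞 F), Pr p → Pr ((u : 𝓞 F) ^ 4 * p.1, (u : 𝓞 F) ^ 6 * p.2)) →
    (∀ u : (𝓞 F)ˣ, ∃ B₀ : ℕ, ∀ B ≥ B₀,
      c * (B : ℝ) ^ (5 * Module.finrank ℚ F) ≤ (Pn : ℝ) ^ (2 * Module.finrank ℚ F) *
        ({p : 𝓞 F × 𝓞 F | Bd (p.1 : F) ((B : ℝ) ^ 2) ∧ Bd (p.2 : F) ((B : ℝ) ^ 3) ∧
          InFam (W * Pn) ((u : 𝓞 F) ^ 4 * a) ((u : 𝓞 F) ^ 6 * b) p}.ncard : ℝ) ∧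
      (Pn : ℝ) ^ (2 * Module.finrank ℚ F) *
        ({p : 𝓞 F × 𝓞 F | Bd (p.1 : F) ((B : ℝ) ^ 2) ∧ Bd (p.2 : F) ((B : ℝ) ^ 3) ∧
          InFam (W * Pn) ((u : 𝓞 F) ^ 4 * a) ((u : 𝓞 F) ^ 6 * b) p ∧ ¬ Pr p}.ncard : ℝ) ≤
        δ * (c * (B : ℝ) ^ (5 * Module.finrank ℚ F))) →
    ∀ Q : ℝ, 0 < Q → ∃ (c' L₀ : ℝ), 0 < c' ∧ ∀ r : InfinitePlace F → ℝ, (∀ v, 0 < r v) →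
    {p : 𝓞 F × 𝓞 F | HW α β r 1 p}.Finite ∧ {p : 𝓞 F × 𝓞 F | HW α β r Q p}.Finite ∧
    (L₀ ≤ ∏ v, r v ^ v.mult →
    0 < {p : 𝓞 F × 𝓞 F | HW α β r 1 p ∧ 4 * p.1 ^ 3 + 27 * p.2 ^ 2 ≠ 0}.ncard ∧
    c' * ({p : 𝓞 F × 𝓞 F | HW α β r 1 p ∧ 4 * p.1 ^ 3 + 27 * p.2 ^ 2 ≠ 0}.ncard : ℝ) ≤
      ({p : 𝓞 F × 𝓞 F | HW α β r Q p ∧ InFam (W * Pn) a b p}.ncard : ℝ) ∧
    ({p : 𝓞 F × 𝓞 F | HW α β r Q p ∧ InFam (W * Pn) a b p ∧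
      ¬ HW α β r ((1 + η) ^ m * Q) p}.ncard : ℝ) ≤
      ε * ({p : 𝓞 F × 𝓞 F | HW α β r Q p ∧ InFam (W * Pn) a b p}.ncard : ℝ) ∧
    ({p : 𝓞 F × 𝓞 F | HW α β r Q p ∧ InFam (W * Pn) a b p ∧ ¬ Pr p}.ncard : ℝ) ≤
      ε * ({p : 𝓞 F × 𝓞 F | HW α β r Q p ∧ InFam (W * Pn) a b p}.ncard : ℝ))

/-- The law up to `ε` in the family, for all heights. `Gd (2 ^ k) p` says that the cubic polynomial is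
irreducible and the Selmer group has dimension `k`. -/
def S_FAM7 : Prop := ∀ (F : Type) [Field F] [NumberField F] (α β : InfinitePlace F → ℝ),
  (∀ v, 0 < α v ∧ 0 < β v) → ∀ ε : ℝ, 0 < ε →
  ∃ (N : ℕ) (a b : 𝓞 F) (D : Finset ℕ), OkN N a b ∧ (∀ d ∈ D, 0 < d ∧
      ∀ 𝔭 : Ideal (𝓞 F), 𝔭.IsPrime → 𝔭 ≠ ⊥ → (d : 𝓞 F) ∉ 𝔭 ^ 2) ∧
    ∃ (c L₀ : ℝ), 0 < c ∧ ∀ r : InfinitePlace F → ℝ, (∀ v, 0 < r v) →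
    {p : 𝓞 F × 𝓞 F | HW α β r 1 p}.Finite ∧ (L₀ ≤ ∏ v, r v ^ v.mult →
    0 < {p : 𝓞 F × 𝓞 F | HW α β r 1 p ∧ 4 * p.1 ^ 3 + 27 * p.2 ^ 2 ≠ 0}.ncard ∧
    c * ({p : 𝓞 F × 𝓞 F | HW α β r 1 p ∧ 4 * p.1 ^ 3 + 27 * p.2 ^ 2 ≠ 0}.ncard : ℝ) ≤
      ({p : 𝓞 F × 𝓞 F | HW α β r 1 p ∧ p ∈ Fml N a b D}.ncard : ℝ) ∧
    ∀ k : ℕ, |({p : 𝓞 F × 𝓞 F | HW α β r 1 p ∧ p ∈ Fml N a b D ∧ Gd (2 ^ k) p}.ncard : ℝ) -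
        pr2 k * ({p : 𝓞 F × 𝓞 F | HW α β r 1 p ∧ p ∈ Fml N a b D}.ncard : ℝ)| ≤
      ε * ({p : 𝓞 F × 𝓞 F | HW α β r 1 p ∧ p ∈ Fml N a b D}.ncard : ℝ))

/-- The main theorem of phase 4, for all heights: all the members are minimal. -/
def S_FIN7 : Prop := ∀ (F : Type) [Field F] [NumberField F] (α β : InfinitePlace F → ℝ),
  (∀ v, 0 < α v ∧ 0 < β v) → ∀ ε : ℝ, 0 < ε →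
  ∃ (M : ℕ) (R : Set (𝓞 F × 𝓞 F)), 0 < M ∧
    (∀ p p' : 𝓞 F × 𝓞 F, p ∈ R → p'.1 - p.1 ∈ sp F M → p'.2 - p.2 ∈ sp F M → p' ∈ R) ∧
    ∀ G : Set (𝓞 F × 𝓞 F), G = {p | p ∈ R ∧ ∀ 𝔭 : Ideal (𝓞 F), 𝔭.IsPrime → (M : 𝓞 F) ∉ 𝔭 →
      4 * p.1 ^ 3 + 27 * p.2 ^ 2 ∉ 𝔭 ^ 2} →
    (∀ p ∈ G, ∀ 𝔭 : Ideal (𝓞 F), 𝔭.IsPrime → 𝔭 ≠ ⊥ → ¬ (p.1 ∈ 𝔭 ^ 4 ∧ p.2 ∈ 𝔭 ^ 6)) ∧
    ∃ (c L₀ : ℝ), 0 < c ∧ ∀ r : InfinitePlace F → ℝ, (∀ v, 0 < r v) →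
    {p : 𝓞 F × 𝓞 F | HW α β r 1 p}.Finite ∧ (L₀ ≤ ∏ v, r v ^ v.mult →
    0 < {p : 𝓞 F × 𝓞 F | HW α β r 1 p ∧ 4 * p.1 ^ 3 + 27 * p.2 ^ 2 ≠ 0}.ncard ∧
    c * ({p : 𝓞 F × 𝓞 F | HW α β r 1 p ∧ 4 * p.1 ^ 3 + 27 * p.2 ^ 2 ≠ 0}.ncard : ℝ) ≤
      ({p : 𝓞 F × 𝓞 F | HW α β r 1 p ∧ p ∈ G}.ncard : ℝ) ∧
    ∀ K : Set ℕ, |({p : 𝓞 F × 𝓞 F | HW α β r 1 p ∧ p ∈ G ∧ ∃ k ∈ K, Gd (2 ^ k) p}.ncard : ℝ) -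
        (∑' k : K, pr2 k) * ({p : 𝓞 F × 𝓞 F | HW α β r 1 p ∧ p ∈ G}.ncard : ℝ)| ≤
      ε * ({p : 𝓞 F × 𝓞 F | HW α β r 1 p ∧ p ∈ G}.ncard : ℝ))

end Pool.Agent.H68K.PR
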