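import Pool.Agent.H68K.PR.FinalU
import Pool.Agent.H68K.PR.Fam7
import Pool.Agent.H68K.PR.Fin7
import Pool.Agent.H93PR.Count6
import Pool.Agent.H71PR.Regw
import Pool.Agent.H18PR.Exv

/-!
# Project PR (helper68): assembly of phase 4
-/

set_option autoImplicit false

namespace Pool.Agent.H68K.PR

open Pool.Agent.N783.PF (bad sqf int)

theorem bal6T : S_BAL6 :=
  Pool.Agent.H93PR.bal6 (law4 mixT Pool.Agent.H42PR.Lin2.lin2) Pool.Agent.H42PR.Lin2.lin2
    Pool.Agent.H42PR.Bin.bin core3T lbtT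
    badtT Pool.Agent.H72P.PR.famu Pool.Agent.H72P.PR.scls bad sqf
    Pool.Agent.N667.PF.irr Pool.Agent.N667.PF.gen Pool.Agent.N490.PF.pts Pool.Agent.N352.PF.dscT

theorem fin7T : S_FIN7 :=
  fin7 Pool.Agent.H42PR.coc Pool.Agent.H10PR.eul
    (fam7 Pool.Agent.H42PR.coc Pool.Agent.H10PR.eul bal6T Pool.Agent.H18PR.shl
      Pool.Agent.H71PR.regw Pool.Agent.H18PR.exv dsj) cgr

end Pool.Agent.H68K.PR
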