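import Pool.Agent.H68K.PR.Fam7x
import Pool.Agent.H68K.PR.Fin7
import Pool.Agent.H68K.PR.FinalV

/-!
# Project PR, phase 5 (helper68): the main theorem with the structure of the members
-/

set_option autoImplicit false
set_option linter.all false

open Polynomial IsDedekindDomain Matrix NumberField WithZero
open scoped Classical

namespace Pool.Agent.H68K.PR

open Pool.Agent.N783.PF

theorem fin7x (hC : S_COC) (hE : S_EUL) (hF : S_FAM7X) (hG : S_CGR) : S_FIN7X := by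
  intro F _ _ α β hαβ ε hε
  obtain ⟨ε', hε', htv⟩ := tv hE hε
  obtain ⟨N, a, b, D, hok, hD, hst, c, L₀, hc, h⟩ := hF F α β hαβ ε' hε'
  obtain ⟨M, R, hM, hR, hFR⟩ := hG F N a b D hok fun d hd => (hD d hd).1
  refine ⟨M, R, hM, hR, ?_⟩
  rintro G hGd
  rw [← hFR] at hGd
  refine ⟨fun p hp => ?_, fun p hp => hst p (by rw [← hGd]; exact hp), c, L₀, hc,
    fun r hr => ⟨(h r hr).1, fun hL => ?_⟩⟩
  · rw [hGd] at hp
    exact mini hD hp
  obtain ⟨h1, h2, h3⟩ := (h r hr).2 hL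
  rw [hGd]
  refine ⟨h1, h2, fun K => ?_⟩
  have hfin : {p : 𝓞 F × 𝓞 F | HW α β r 1 p ∧ p ∈ Fml N a b D}.Finite :=
    (h r hr).1.subset fun p hp => hp.1
  have h4 := htv _ {p : 𝓞 F × 𝓞 F | HW α β r 1 p ∧ p ∈ Fml N a b D} gdN hfin (fun k => by
    refine le_trans (le_of_eq ?_) (h3 k)
    congr 4
    ext p
    simp only [Set.mem_setOf_eq, gdN_iff hC, and_assoc]) K
  refine le_trans (le_of_eq ?_) h4
  congr 4
  ext p
  simp only [Set.mem_setOf_eq, gdN_iff hC, and_assoc]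

theorem bal7T : S_BAL7 :=
  bal7 (law4 mixT Pool.Agent.H42PR.Lin2.lin2) Pool.Agent.H42PR.Lin2.lin2
    Pool.Agent.H42PR.Bin.bin core3T lbtT
    badtT Pool.Agent.H72P.PR.famu Pool.Agent.H72P.PR.scls bad sqf
    Pool.Agent.N667.PF.irr Pool.Agent.N667.PF.gen Pool.Agent.N490.PF.pts Pool.Agent.N352.PF.dscT

theorem fin7xT : S_FIN7X :=
  fin7x Pool.Agent.H42PR.coc Pool.Agent.H10PR.eul
    (fam7x Pool.Agent.N667.PF.irr Pool.Agent.H42PR.coc Pool.Agent.H10PR.eul bal7T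
      Pool.Agent.H18PR.shl Pool.Agent.H71PR.regw Pool.Agent.H18PR.exv dsj) cgr

end Pool.Agent.H68K.PR
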