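import Pool.Agent.H68K.PR.StmQ

/-!
# Project PR, phase 3 (helper68): large families in which the law of Poonen and Rains holds up to `ε`

Idea. `S` consists of primes of nearly equal size `q ∈ [Q, (1 + η) Q]`. Fix `i`. For the members `p` of
the base family (`InFam N a b`) and `J ⊆ S` with `i + 1` elements take the twist `tw (Dp J) p`; for
`J ⊆ S` with `i` elements and `s ∈ R` with `Q ≤ s ^ 2 ≤ (1 + η) Q` take `tw (Dp J * s ^ 2) p`, which is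
isomorphic to the twist by `Dp J`. All the numbers `d = Dp J`, `d = Dp J * s ^ 2` have nearly the same
size `Q ^ (i + 1)`, so that all the heights are multiplied by nearly the same number. The number of
elements of `R` is chosen such that there are equally many `d` of both types. By `LawQ` at the levels
`i` and `i + 1` the union of these families satisfies the law of Poonen and Rains up to `ε`, without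
any condition on the parity: `pr2par (t + i) k + pr2par (t + i + 1) k = 2 * pr2 k`.
-/

set_option autoImplicit false
set_option linter.all false

open Polynomial IsDedekindDomain Matrix NumberField WithZero
open scoped Classical

namespace Pool.Agent.H68K.PR

open Pool.Agent.N874.PP (sW)
open Pool.Agent.N783.PF

section fld

variable {F : Type} [Field F] [NumberField F]

/-- The twist by `d`. -/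
noncomputable def tw (d : ℕ) (p : 𝓞 F × 𝓞 F) : 𝓞 F × 𝓞 F :=
  (p.1 * (d : 𝓞 F) ^ 2, p.2 * (d : 𝓞 F) ^ 3)

/-- The discriminant is prime to `N`. -/
def OkN (N : ℕ) (a b : 𝓞 F) : Prop :=
  0 < N ∧ ∀ 𝔭 : Ideal (𝓞 F), 𝔭.IsPrime → (N : 𝓞 F) ∈ 𝔭 → 4 * a ^ 3 + 27 * b ^ 2 ∉ 𝔭

/-- The height of the twist of `p` by the real number `d` is at most `Y`. -/
def HR (Y d : ℝ) (p : 𝓞 F × 𝓞 F) : Prop := ∀ v : InfinitePlace F,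
  ((d ^ 2 * v (p.1 : F)) ^ v.mult) ^ 3 ≤ Y ∧ ((d ^ 3 * v (p.2 : F)) ^ v.mult) ^ 2 ≤ Y

/-- The family of the twists of the members of the base family by the elements of `D`. -/
def Fml (N : ℕ) (a b : 𝓞 F) (D : Finset ℕ) : Set (𝓞 F × 𝓞 F) :=
  {P | ∃ d ∈ D, ∃ p, InFam N a b p ∧ P = tw d p}

/-- The order of the 2-Selmer group of the curve of the pair. -/
noncomputable def selP (P : 𝓞 F × 𝓞 F) : ℕ := Nat.card (Sel2 (sW (P.1 : F) (P.2 : F)))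

end fld

/-- BAL5: as `S_BAL4`, for all large `S` which are not too sparse, with explicit constants. `W` and `c`
depend only on `F`, and `n₀` on `F`, `ε`, `δ`, `m`. (The proof of `S_BAL4` in `H93PR/Count4.lean` shows
this.) -/
def S_BAL5 : Prop := ∀ (F : Type) [Field F] [NumberField F], ∃ (W : ℕ) (c : ℝ), 0 < W ∧ 0 < c ∧
  ∀ (ε δ : ℝ), 0 < ε → 0 < δ → ∃ m₀ : ℕ, ∀ m ≥ m₀, ∃ n₀ : ℕ,
  ∀ (S : Finset ℕ) (𝔮 : ℕ → Ideal (𝓞 F)) (h P : ℕ → (𝓞 F)[X]), GoodS 1 W S 𝔮 h P →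
    n₀ ≤ S.card → (∀ q ∈ S, q ≤ S.card ^ 3) →
    ∃ a b : 𝓞 F, OkN (W * ∏ q ∈ S, q) a b ∧ ∀ u : (𝓞 F)ˣ, ∃ B₀ : ℕ, ∀ B ≥ B₀,
    c * (B : ℝ) ^ (5 * Module.finrank ℚ F) ≤
      (((∏ q ∈ S, q ^ 2) ^ Module.finrank ℚ F : ℕ) : ℝ) *
      ({p : 𝓞 F × 𝓞 F | Bd (p.1 : F) ((B : ℝ) ^ 2) ∧ Bd (p.2 : F) ((B : ℝ) ^ 3) ∧
        InFam (W * ∏ q ∈ S, q) ((u : 𝓞 F) ^ 4 * a) ((u : 𝓞 F) ^ 6 * b) p}.ncard : ℝ) ∧
    (((∏ q ∈ S, q ^ 2) ^ Module.finrank ℚ F : ℕ) : ℝ) *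
      ({p : 𝓞 F × 𝓞 F | Bd (p.1 : F) ((B : ℝ) ^ 2) ∧ Bd (p.2 : F) ((B : ℝ) ^ 3) ∧
        InFam (W * ∏ q ∈ S, q) ((u : 𝓞 F) ^ 4 * a) ((u : 𝓞 F) ^ 6 * b) p ∧
        ¬ LawQ S m₀ m ε p}.ncard : ℝ) ≤
      δ * (c * (B : ℝ) ^ (5 * Module.finrank ℚ F))

/-- EXW: many primes of nearly equal size, and squares in the same interval. (Pigeonhole: if all the
intervals `[(1 + η) ^ j, (1 + η) ^ (j + 1))` contained few primes `1` modulo `8`, the sum of their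
inverses would converge. See `H93PR/Primes.lean` and `H93PR/Exg.lean`.) -/
def S_EXW : Prop := ∀ (F : Type) [Field F] [NumberField F] (W i m : ℕ) (η : ℝ), 0 < η →
  ∃ (S : Finset ℕ) (𝔮 : ℕ → Ideal (𝓞 F)) (h P : ℕ → (𝓞 F)[X]) (R : Finset ℕ) (Q : ℕ),
    GoodS 1 W S 𝔮 h P ∧ m ≤ S.card ∧ (∀ q ∈ S, q ≤ S.card ^ 3) ∧ 0 < Q ∧
    (∀ q ∈ S, Q ≤ q ∧ (q : ℝ) ≤ (1 + η) * Q) ∧
    (∀ s ∈ R, Q ≤ s ^ 2 ∧ (s : ℝ) ^ 2 ≤ (1 + η) * Q) ∧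
    S.card = i + (i + 1) * R.card

/-- SHL: few points of a residue class in a thin shell. From `S_PTS` (`N490/PF/Pts.lean`) and units of
given size (`H64/PR/Unb.lean`): the shell at `v` is covered by `O(1 / η)` discs of radius `η σ v` (`v`
complex) or two intervals (`v` real), and the differences of the points over such a disc lie in a box
with `v x ≤ 2 η σ v`, which is made balanced by a unit. -/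
def S_SHL : Prop := ∀ (F : Type) [Field F] [NumberField F], ∃ κ : ℝ, 0 < κ ∧
  ∀ (N : ℕ) (η : ℝ), 0 < N → 0 < η → η ≤ 1 → ∃ V₀ : ℝ, ∀ (σ : InfinitePlace F → ℝ),
    (∀ v, 0 < σ v) → V₀ ≤ ∏ v, σ v ^ v.mult → ∀ a : 𝓞 F,
    {x : 𝓞 F | x - a ∈ sp F N ∧ ∀ v : InfinitePlace F, v (x : F) ≤ σ v}.Finite ∧
    ({x : 𝓞 F | x - a ∈ sp F N ∧ ∀ v : InfinitePlace F, v (x : F) ≤ σ v}.ncard : ℝ) ≤
      κ * (∏ v, σ v ^ v.mult) / N ^ Module.finrank ℚ F ∧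
    ({x : 𝓞 F | x - a ∈ sp F N ∧ (∀ v : InfinitePlace F, v (x : F) ≤ σ v) ∧
      ∃ v : InfinitePlace F, (1 - η) * σ v < v (x : F)}.ncard : ℝ) ≤
      κ * η * (∏ v, σ v ^ v.mult) / N ^ Module.finrank ℚ F

/-- REG: the regions of bounded height. (Compare `H68K/PR/Hgt.lean`, `H71PR/Hgt3.lean`: a unit makes the
region balanced. The difference of the regions for `Q` and `(1 + η) ^ m * Q` is a thin shell.) -/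
def S_REG : Prop := ∀ (F : Type) [Field F] [NumberField F], ∃ W : ℕ, ∀ ε : ℝ, 0 < ε →
  ∃ m₀ : ℕ, ∀ m ≥ m₀, ∃ (η : ℝ) (n₀ : ℕ), 0 < η ∧
  ∀ (S : Finset ℕ) (𝔮 : ℕ → Ideal (𝓞 F)) (h P : ℕ → (𝓞 F)[X]), GoodS 1 W S 𝔮 h P →
    n₀ ≤ S.card → (∀ q ∈ S, q ≤ S.card ^ 3) →
    ∃ (N : ℕ) (a b : 𝓞 F), OkN N a b ∧ ∀ Q : ℝ, 0 < Q → ∃ (c Y₀ : ℝ), 0 < c ∧ ∀ Y : ℝ,
    {p : 𝓞 F × 𝓞 F | Hle Y p}.Finite ∧ {p : 𝓞 F × 𝓞 F | HR Y Q p}.Finite ∧ (Y₀ ≤ Y →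
    0 < {p : 𝓞 F × 𝓞 F | Hle Y p ∧ 4 * p.1 ^ 3 + 27 * p.2 ^ 2 ≠ 0}.ncard ∧
    c * ({p : 𝓞 F × 𝓞 F | Hle Y p ∧ 4 * p.1 ^ 3 + 27 * p.2 ^ 2 ≠ 0}.ncard : ℝ) ≤
      ({p : 𝓞 F × 𝓞 F | HR Y Q p ∧ InFam N a b p}.ncard : ℝ) ∧
    ({p : 𝓞 F × 𝓞 F | HR Y Q p ∧ InFam N a b p ∧ ¬ HR Y ((1 + η) ^ m * Q) p}.ncard : ℝ) ≤
      ε * ({p : 𝓞 F × 𝓞 F | HR Y Q p ∧ InFam N a b p}.ncard : ℝ) ∧
    ({p : 𝓞 F × 𝓞 F | HR Y Q p ∧ InFam N a b p ∧ ¬ LawQ S m₀ m ε p}.ncard : ℝ) ≤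
      ε * ({p : 𝓞 F × 𝓞 F | HR Y Q p ∧ InFam N a b p}.ncard : ℝ))

def S_REGA : Prop := S_BAL5 → S_SHL → S_REG

/-- CGR: the family `Fml N a b D` is given by congruences modulo `M` and a condition on the squares of
the primes which do not divide `M`. (`M = N * (∏ d ∈ D, d) ^ 5`.) -/
def S_CGR : Prop := ∀ (F : Type) [Field F] [NumberField F] (N : ℕ) (a b : 𝓞 F) (D : Finset ℕ),
  OkN N a b → (∀ d ∈ D, 0 < d) → ∃ (M : ℕ) (R : Set (𝓞 F × 𝓞 F)), 0 < M ∧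
    (∀ p p' : 𝓞 F × 𝓞 F, p ∈ R → p'.1 - p.1 ∈ sp F M → p'.2 - p.2 ∈ sp F M → p' ∈ R) ∧
    Fml N a b D = {p | p ∈ R ∧ ∀ 𝔭 : Ideal (𝓞 F), 𝔭.IsPrime → (M : 𝓞 F) ∉ 𝔭 →
      4 * p.1 ^ 3 + 27 * p.2 ^ 2 ∉ 𝔭 ^ 2}

/-- DSJ: the twists are different. (Valuations of the discriminant `d ^ 6 * disc p`, where `disc p` is
not divisible by the square of a prime.) -/
def S_DSJ : Prop := ∀ (F : Type) [Field F] [NumberField F] (N : ℕ) (a b : 𝓞 F) (d d' : ℕ)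
  (p p' : 𝓞 F × 𝓞 F), 0 < d → 0 < d' → InFam N a b p → InFam N a b p' → tw d p = tw d' p' →
  d = d' ∧ p = p'

/-- The law of Poonen and Rains up to `ε` in the family, for every set of dimensions. -/
def S_FAM5 : Prop := ∀ (F : Type) [Field F] [NumberField F] (ε : ℝ), 0 < ε →
  ∃ (N : ℕ) (a b : 𝓞 F) (D : Finset ℕ), OkN N a b ∧ (∀ d ∈ D, 0 < d) ∧
    ∃ (c Y₀ : ℝ), 0 < c ∧ ∀ Y : ℝ, {p : 𝓞 F × 𝓞 F | Hle Y p}.Finite ∧ (Y₀ ≤ Y →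
    0 < {p : 𝓞 F × 𝓞 F | Hle Y p ∧ 4 * p.1 ^ 3 + 27 * p.2 ^ 2 ≠ 0}.ncard ∧
    c * ({p : 𝓞 F × 𝓞 F | Hle Y p ∧ 4 * p.1 ^ 3 + 27 * p.2 ^ 2 ≠ 0}.ncard : ℝ) ≤
      ({p : 𝓞 F × 𝓞 F | Hle Y p ∧ p ∈ Fml N a b D}.ncard : ℝ) ∧
    ∀ k : ℕ, |({p : 𝓞 F × 𝓞 F | Hle Y p ∧ p ∈ Fml N a b D ∧ selP p = 2 ^ k}.ncard : ℝ) -
        pr2 k * ({p : 𝓞 F × 𝓞 F | Hle Y p ∧ p ∈ Fml N a b D}.ncard : ℝ)| ≤
      ε * ({p : 𝓞 F × 𝓞 F | Hle Y p ∧ p ∈ Fml N a b D}.ncard : ℝ))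

/-- The main theorem of phase 3. -/
def S_FIN5 : Prop := ∀ (F : Type) [Field F] [NumberField F] (ε : ℝ), 0 < ε →
  ∃ (M : ℕ) (R : Set (𝓞 F × 𝓞 F)), 0 < M ∧
    (∀ p p' : 𝓞 F × 𝓞 F, p ∈ R → p'.1 - p.1 ∈ sp F M → p'.2 - p.2 ∈ sp F M → p' ∈ R) ∧
    ∀ G : Set (𝓞 F × 𝓞 F), G = {p | p ∈ R ∧ ∀ 𝔭 : Ideal (𝓞 F), 𝔭.IsPrime → (M : 𝓞 F) ∉ 𝔭 →
      4 * p.1 ^ 3 + 27 * p.2 ^ 2 ∉ 𝔭 ^ 2} →
    ∃ (c Y₀ : ℝ), 0 < c ∧ ∀ Y : ℝ, {p : 𝓞 F × 𝓞 F | Hle Y p}.Finite ∧ (Y₀ ≤ Y →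
    0 < {p : 𝓞 F × 𝓞 F | Hle Y p ∧ 4 * p.1 ^ 3 + 27 * p.2 ^ 2 ≠ 0}.ncard ∧
    c * ({p : 𝓞 F × 𝓞 F | Hle Y p ∧ 4 * p.1 ^ 3 + 27 * p.2 ^ 2 ≠ 0}.ncard : ℝ) ≤
      ({p : 𝓞 F × 𝓞 F | Hle Y p ∧ p ∈ G}.ncard : ℝ) ∧
    ∀ K : Set ℕ, |({p : 𝓞 F × 𝓞 F | Hle Y p ∧ p ∈ G ∧ ∃ k ∈ K, selP p = 2 ^ k}.ncard : ℝ) -
        (∑' k : K, pr2 k) * ({p : 𝓞 F × 𝓞 F | Hle Y p ∧ p ∈ G}.ncard : ℝ)| ≤
      ε * ({p : 𝓞 F × 𝓞 F | Hle Y p ∧ p ∈ G}.ncard : ℝ))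

end Pool.Agent.H68K.PR
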