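import Pool.Agent.H68K.PR.FinalT
import Pool.Agent.H68K.PR.Fam5
import Pool.Agent.H68K.PR.Fin5
import Pool.Agent.H68K.PR.Cgr
import Pool.Agent.H93PR.Count5
import Pool.Agent.H93PR.Exw
import Pool.Agent.H18PR.Shl
import Pool.Agent.H71PR.Reg

/-!
# Project PR (helper68): assembly of phase 3
-/

set_option autoImplicit false

namespace Pool.Agent.H68K.PR

open Pool.Agent.N783.PF (bad sqf int)

theorem bal5T : S_BAL5 :=
  Pool.Agent.H93PR.bal5 (law4 mixT Pool.Agent.H42PR.Lin2.lin2) Pool.Agent.H42PR.Bin.bin core3T lbtT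
    badtT Pool.Agent.H72P.PR.famu Pool.Agent.H72P.PR.scls bad sqf
    Pool.Agent.N667.PF.irr Pool.Agent.N667.PF.gen Pool.Agent.N490.PF.pts Pool.Agent.N352.PF.dscT

theorem fin5T : S_FIN5 :=
  fin5 Pool.Agent.H10PR.eul (fam5 Pool.Agent.H42PR.coc Pool.Agent.H10PR.eul
    (Pool.Agent.H71PR.rega bal5T Pool.Agent.H18PR.shl) Pool.Agent.H93PR.exw dsj) cgr

end Pool.Agent.H68K.PR
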