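import Pool.Agent.H68K.PR.StmL
import Pool.Agent.N547.PF.Dis
import Pool.Agent.N255.PF.Red
import Pool.Agent.N169.PF.Typ

/-!
# Project PR (helper68): nearly unimodular lattices: discriminant, reduction, type

After the files `N547/PF/Dis.lean` (helper547), `N255/PF/Red.lean` (helper255), `N169/PF/Typ.lean`
(helper169) of project PF: here the lattice contains only `D₁` times its dual.
-/

set_option autoImplicit false
set_option linter.all false

open Polynomial IsDedekindDomain Matrix NumberField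
open scoped Classical

namespace Pool.Agent.H68K.PR

open Pool.Agent.N352.PJ (Mt Typ)
open Pool.Agent.N783.PF
open Pool.Agent.N547.PF (top_eq exists_int exists_basis exists_codiff)
open Pool.Agent.N255.PF (deriv_ne greedy gram norm_sq_sum q_gram sum_real equiv_exists main_det)
open Pool.Agent.N169.PF (det_zero top_last gram_ne exists_conj)
open Pool.Agent.N507.PQ (q cR diag_eq pd_iff det_cR)

/-- `Λ` is a lattice, integral for the form `x y / α` (coefficient of `θ ^ (2 g)`), stable under `θ`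
and contains `D₁` times its dual. -/
structure LatD {F L : Type} [Field F] [NumberField F] [Field L] [NumberField L] [Algebra F L]
    {g : ℕ} {f : (𝓞 F)[X]} {θ : L} (h : IsGen g f θ) (D₁ : ℕ) (α : L)
    (Λ : Submodule (𝓞 F) L) : Prop where
  fg : Λ.FG
  span : ∀ x : L, ∃ m : 𝓞 F, m ≠ 0 ∧ m • x ∈ Λ
  stab : ∀ x ∈ Λ, θ * x ∈ Λ
  int : ∀ x ∈ Λ, ∀ y ∈ Λ, IsIntegral ℤ (h.top (x * y / α))
  dual : ∀ y : L, (∀ x ∈ Λ, IsIntegral ℤ (h.top (x * y / α))) → (D₁ : L) * y ∈ Λ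

/-- The bound for the discriminant. -/
theorem coreD {F L : Type} [Field F] [NumberField F] [Field L] [NumberField L] [Algebra F L]
    {g : ℕ} {f : (𝓞 F)[X]} {θ : L} (D₁ m : ℕ) (hD₁ : D₁ ≠ 0) (hm : m ≠ 0) (hint : ∀ y : F,
      (∀ a : 𝓞 F, ∃ z : ℤ, Algebra.trace ℚ F ((a : F) * y) = z) → IsIntegral ℤ ((m : F) * y))
    (hG : IsGen g f θ) (α : L) (hα : α ≠ 0) (Λ : Submodule (𝓞 F) L) (hL : LatD hG D₁ α Λ) (N : ℕ)
    (hrank : Module.finrank ℚ L = N) (b : Fin N → L) (hb : LinearIndependent ℚ b)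
    (hbΛ : ∀ x : L, x ∈ Λ ↔ ∃ c : Fin N → ℤ, x = ∑ i, (c i : L) * b i) :
    |(Matrix.of fun i j => Algebra.trace ℚ L
      (b i * b j / (α * aeval θ (derivative (fF f))))).det| ≤ ((D₁ * m : ℕ) : ℚ) ^ N := by
  have : FiniteDimensional F L := FiniteDimensional.of_finrank_pos (by rw [hG.rank]; omega)
  have hN0 : 0 < N := by
    rw [← hrank]
    exact Module.finrank_pos
  have : Nonempty (Fin N) := ⟨⟨0, hN0⟩⟩
  let bb : Module.Basis (Fin N) ℚ L :=
    basisOfLinearIndependentOfCardEqFinrank hb (by rw [Fintype.card_fin, hrank])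
  have hbb : ∀ i, bb i = b i := fun i => by
    rw [coe_basisOfLinearIndependentOfCardEqFinrank]
  set D := aeval θ (derivative (fF f)) with hD
  have hD0 : D ≠ 0 := by
    intro h0
    have h1 := top_eq hG (θ ^ (2 * g))
    rw [← hD, h0, div_zero, map_zero] at h1
    have h2 : hG.top (θ ^ (2 * g)) = 1 := by
      have e1 : θ ^ (2 * g) = hG.basis (Fin.last (2 * g)) := by
        rw [hG.basis_apply]
        rfl
      rw [e1]
      unfold IsGen.top
      rw [Module.Basis.coord_apply, Module.Basis.repr_self, Finsupp.single_eq_same]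
    rw [h2] at h1
    exact one_ne_zero h1
  set δ := α * D with hδ
  have hδ0 : δ ≠ 0 := mul_ne_zero hα hD0
  let d := bb.traceDual
  have hdb : ∀ i j, Algebra.trace ℚ L (d i * b j) = if j = i then 1 else 0 := by
    intro i j
    rw [← hbb]
    exact bb.trace_traceDual_mul i j
  have hmem : ∀ i, (D₁ : L) * ((m : L) * (δ * d i)) ∈ Λ := by
    intro i
    refine hL.dual _ fun x hx => ?_
    have h1 : x * ((m : L) * (δ * d i)) / α = (m : F) • (x * (δ * d i) / α) := by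
      rw [Algebra.smul_def, map_natCast]
      ring
    rw [h1, map_smul, smul_eq_mul]
    refine hint _ fun a => ?_
    have h2 : (a : F) * hG.top (x * (δ * d i) / α) = Algebra.trace F L ((a • x) * d i) := by
      rw [top_eq, ← smul_eq_mul, ← map_smul, ← hD]
      congr 1
      rw [Algebra.smul_def, Algebra.smul_def, hδ, IsScalarTower.algebraMap_apply (𝓞 F) F L]
      field_simp
    rw [h2, Algebra.trace_trace]
    obtain ⟨c, hc⟩ := (hbΛ (a • x)).mp (Λ.smul_mem a hx)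
    refine ⟨c i, ?_⟩
    rw [hc, Finset.sum_mul, map_sum]
    have h3 : ∀ j, Algebra.trace ℚ L ((c j : L) * b j * d i) = if j = i then (c j : ℚ) else 0 := by
      intro j
      have h4 : (c j : L) * b j * d i = (c j : ℚ) • (d i * b j) := by
        rw [Algebra.smul_def, map_intCast]
        ring
      rw [h4, map_smul, hdb, smul_eq_mul, mul_ite, mul_one, mul_zero]
    rw [Finset.sum_congr rfl fun j _ => h3 j]
    simp
  choose c hc using fun i => (hbΛ _).mp (hmem i)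
  set G : Matrix (Fin N) (Fin N) ℚ := Matrix.of fun i j => Algebra.trace ℚ L (b i * b j / δ) with hGm
  let Cm : Matrix (Fin N) (Fin N) ℤ := Matrix.of c
  have hmul : Cm.map (Int.cast : ℤ → ℚ) * G =
      ((D₁ * m : ℕ) : ℚ) • (1 : Matrix (Fin N) (Fin N) ℚ) := by
    ext i k
    rw [Matrix.mul_apply, Matrix.smul_apply, Matrix.one_apply, smul_eq_mul]
    have h1 : ∑ j, (Cm.map (Int.cast : ℤ → ℚ)) i j * G j k =
        Algebra.trace ℚ L ((∑ j, (c i j : L) * b j) * b k / δ) := by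
      rw [Finset.sum_mul, Finset.sum_div, map_sum]
      refine Finset.sum_congr rfl fun j _ => ?_
      have h2 : (c i j : L) * b j * b k / δ = (c i j : ℚ) • (b j * b k / δ) := by
        rw [Algebra.smul_def, map_intCast]
        ring
      rw [h2, map_smul, smul_eq_mul]
      rfl
    rw [h1, ← hc i]
    have h3 : (D₁ : L) * ((m : L) * (δ * d i)) * b k / δ = ((D₁ * m : ℕ) : ℚ) • (d i * b k) := by
      rw [Algebra.smul_def, map_natCast]
      push_cast
      field_simp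
    rw [h3, map_smul, hdb, smul_eq_mul]
    congr 1
    by_cases h : i = k
    · rw [if_pos h, if_pos h.symm]
    · rw [if_neg h, if_neg (Ne.symm h)]
  have hdet := congrArg Matrix.det hmul
  rw [Matrix.det_mul, Matrix.det_smul, Matrix.det_one, mul_one, Fintype.card_fin] at hdet
  have h4 : (Cm.map (Int.cast : ℤ → ℚ)).det = ((Cm.det : ℤ) : ℚ) :=
    (RingHom.map_det (Int.castRingHom ℚ) Cm).symm
  rw [h4] at hdet
  have hm' : ((D₁ * m : ℕ) : ℚ) ^ N ≠ 0 := pow_ne_zero _ (by exact_mod_cast Nat.mul_ne_zero hD₁ hm)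
  have h5 : Cm.det ≠ 0 := by
    intro h
    rw [h, Int.cast_zero, zero_mul] at hdet
    exact hm' hdet.symm
  have h6 : (1 : ℚ) ≤ |((Cm.det : ℤ) : ℚ)| := by
    have : (1 : ℤ) ≤ |Cm.det| := Int.one_le_abs h5
    exact_mod_cast this
  have h7 : |((Cm.det : ℤ) : ℚ)| * |G.det| = ((D₁ * m : ℕ) : ℚ) ^ N := by
    rw [← abs_mul, hdet, abs_of_nonneg (by positivity)]
  have h8 : |G.det| ≤ ((D₁ * m : ℕ) : ℚ) ^ N := by
    rw [← h7]
    exact le_mul_of_one_le_left (abs_nonneg _) h6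
  exact h8

/-- A basis over the integers of a lattice and its discriminant. -/
theorem disD (g : ℕ) (F : Type) [Field F] [NumberField F] : ∃ m : ℕ,
  ∀ (L : Type) [Field L] [NumberField L] [Algebra F L] (f : (𝓞 F)[X]) (θ : L) (hG : IsGen g f θ)
  (D₁ : ℕ) (α : L) (Λ : Submodule (𝓞 F) L), D₁ ≠ 0 → α ≠ 0 → LatD hG D₁ α Λ →
  ∃ b : Fin ((2 * g + 1) * Module.finrank ℚ F) → L, LinearIndependent ℚ b ∧
    (∀ x : L, x ∈ Λ ↔ ∃ c : Fin ((2 * g + 1) * Module.finrank ℚ F) → ℤ, x = ∑ i, (c i : L) * b i) ∧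
    |(Matrix.of fun i j => Algebra.trace ℚ L
      (b i * b j / (α * aeval θ (derivative (fF f))))).det| ≤
        ((D₁ * m : ℕ) : ℚ) ^ ((2 * g + 1) * Module.finrank ℚ F) := by
  obtain ⟨m, hm, hint⟩ := exists_codiff F
  refine ⟨m, ?_⟩
  intro L _ _ _ f θ hG D₁ α Λ hD₁ hα hL
  obtain ⟨b, hb, hbΛ⟩ := exists_basis hG Λ hL.fg hL.span
  refine ⟨b, hb, hbΛ, ?_⟩
  have : FiniteDimensional F L := FiniteDimensional.of_finrank_pos (by rw [hG.rank]; omega)
  have hrank : Module.finrank ℚ L = (2 * g + 1) * Module.finrank ℚ F := by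
    rw [← Module.finrank_mul_finrank ℚ F L, hG.rank, mul_comm]
  exact coreD D₁ m hD₁ hm hint hG α hα Λ hL _ hrank b hb hbΛ

/-- Small linearly independent vectors in a lattice. -/
theorem redD (g : ℕ) (F : Type) [Field F] [NumberField F] : ∃ C : ℕ,
  ∀ (L : Type) [Field L] [NumberField L] [Algebra F L] (f : (𝓞 F)[X]) (θ : L) (hG : IsGen g f θ)
  (D₁ : ℕ) (α : L) (Λ : Submodule (𝓞 F) L), D₁ ≠ 0 → α ≠ 0 → LatD hG D₁ α Λ →
  ∃ e : Fin (2 * g + 1) → L, (∀ i, e i ∈ Λ) ∧ LinearIndependent F e ∧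
    Monotone (fun i => HH f θ α (e i)) ∧ ∏ i, HH f θ α (e i) ≤
      (C * D₁ ^ ((2 * g + 1) * Module.finrank ℚ F) : ℕ) := by
  obtain ⟨m, hC₁⟩ := disD g F
  set d := Module.finrank ℚ F with hd
  have hd0 : 0 < d := Module.finrank_pos
  obtain ⟨C₂, hC₂, hHRB⟩ := Pool.Agent.N507.PQ.hrb ((2 * g + 1) * d)
  refine ⟨⌈max 1 (C₂ * (m : ℝ) ^ ((2 * g + 1) * d))⌉₊, ?_⟩
  intro L _ _ _ f θ hG D₁ α Λ hD₁ hα hΛ
  obtain ⟨b, hb, hbΛ, hbd⟩ := hC₁ L f θ hG D₁ α Λ hD₁ hα hΛ
  obtain ⟨C₁, hC₁def⟩ : ∃ C₁ : ℕ, C₁ = (D₁ * m) ^ ((2 * g + 1) * d) := ⟨_, rfl⟩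
  have hbd : |(Matrix.of fun i j => Algebra.trace ℚ L
      (b i * b j / (α * aeval θ (derivative (fF f))))).det| ≤ (C₁ : ℚ) := by
    rw [hC₁def, Nat.cast_pow]
    exact hbd
  set K : ℝ := max 1 (C₂ * C₁) with hK
  set D : L := α * aeval θ (derivative (fF f)) with hD
  have hD0 : D ≠ 0 := mul_ne_zero hα (deriv_ne hG)
  have hfr : Module.finrank ℚ L = (2 * g + 1) * d := by
    rw [← Module.finrank_mul_finrank ℚ F L, hG.rank, mul_comm]
  obtain ⟨hpd, hdet⟩ := main_det hfr D hD0 b hb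
  obtain ⟨U, hU, hmono, hprod⟩ := hHRB (gram D b) hpd
  have hdet1 : (gram D b).det ≤ C₁ := by
    rw [hdet]
    exact_mod_cast hbd
  -- the new basis
  set b' : Fin ((2 * g + 1) * d) → L := fun j => ∑ i, (U i j : L) * b i with hb'
  have hHH : ∀ j, ((U.map (Int.cast : ℤ → ℝ))ᵀ * gram D b * U.map (Int.cast : ℤ → ℝ)) j j =
      HH f θ α (b' j) := by
    intro j
    have h1 := diag_eq (gram D b) U j
    rw [show ((U.map (Int.cast : ℤ → ℝ))ᵀ * gram D b * U.map (Int.cast : ℤ → ℝ)) j j =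
      q (gram D b) (fun i => (U i j : ℝ)) from h1, q_gram]
    unfold HH
    refine Finset.sum_congr rfl fun τ _ => ?_
    rw [← hD]
    congr 2
    rw [hb']
    simp only [map_sum, map_mul, map_intCast, Complex.ofReal_intCast]
  simp only [hHH] at hmono hprod
  have hb'li : LinearIndependent ℚ b' := by
    rw [Fintype.linearIndependent_iff]
    intro c hc
    have h1 : ∑ i, ((U.map (Int.cast : ℤ → ℚ)) *ᵥ c) i • b i = 0 := by
      rw [← hc, hb']
      simp only [Matrix.mulVec, dotProduct, Matrix.map_apply, Finset.sum_smul, Finset.smul_sum]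
      rw [Finset.sum_comm]
      refine Finset.sum_congr rfl fun j _ => ?_
      refine Finset.sum_congr rfl fun i _ => ?_
      rw [Algebra.smul_def, Algebra.smul_def, map_mul]
      simp only [map_intCast]
      ring
    have h2 := Fintype.linearIndependent_iff.1 hb _ h1
    have h3 : (U.map (Int.cast : ℤ → ℚ)).det ≠ 0 := by
      have h4 : (U.map (Int.cast : ℤ → ℚ)).det = ((U.det : ℤ) : ℚ) :=
        ((Int.castRingHom ℚ).map_det U).symm
      rw [h4]
      exact_mod_cast hU.ne_zero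
    have h5 := Matrix.eq_zero_of_mulVec_eq_zero h3 (funext h2)
    intro i
    exact congrFun h5 i
  have hb'Λ : ∀ j, b' j ∈ Λ := fun j => (hbΛ _).2 ⟨fun i => U i j, rfl⟩
  -- the choice
  obtain ⟨j, hj, hjli⟩ := greedy (2 * g + 1) d hd.symm hd0 b' hb'li (2 * g + 1) le_rfl
  have hHH0 : ∀ x : L, 0 ≤ HH f θ α x := fun x =>
    Finset.sum_nonneg fun τ _ => div_nonneg (sq_nonneg _) (norm_nonneg _)
  set v : Fin (2 * g + 1) → ℝ := fun i => HH f θ α (b' (j i)) with hv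
  have hpow : (∏ i, v i) ^ d ≤ C₂ * C₁ := by
    have h1 : (∏ i, v i) ^ d ≤ ∏ k, HH f θ α (b' k) := by
      rw [← Finset.prod_pow, ← Equiv.prod_comp finProdFinEquiv, Fintype.prod_prod_type]
      refine Finset.prod_le_prod (fun i _ => pow_nonneg (hHH0 _) _) fun i _ => ?_
      have h2 : ∀ k : Fin d, v i ≤ HH f θ α (b' (finProdFinEquiv (i, k))) := by
        intro k
        refine hmono ?_
        rw [Fin.le_def, finProdFinEquiv_apply_val]
        have := hj i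
        show (j i : ℕ) ≤ k + d * i
        rw [mul_comm d]
        omega
      calc v i ^ d = ∏ _k : Fin d, v i := by
            rw [Finset.prod_const, Finset.card_univ, Fintype.card_fin]
        _ ≤ _ := Finset.prod_le_prod (fun k _ => hHH0 _) fun k _ => h2 k
    exact h1.trans (hprod.trans (mul_le_mul_of_nonneg_left hdet1 hC₂.le))
  have hKK : K ≤ ((⌈max 1 (C₂ * (m : ℝ) ^ ((2 * g + 1) * d))⌉₊ *
      D₁ ^ ((2 * g + 1) * d) : ℕ) : ℝ) := by
    have hD1 : (1 : ℝ) ≤ (D₁ : ℝ) ^ ((2 * g + 1) * d) := by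
      refine one_le_pow₀ ?_
      exact_mod_cast Nat.one_le_iff_ne_zero.2 hD₁
    have hc := Nat.le_ceil (max 1 (C₂ * (m : ℝ) ^ ((2 * g + 1) * d)))
    obtain ⟨c0, hc0⟩ : ∃ c0 : ℝ, c0 = (⌈max 1 (C₂ * (m : ℝ) ^ ((2 * g + 1) * d))⌉₊ : ℝ) := ⟨_, rfl⟩
    rw [Nat.cast_mul, Nat.cast_pow, ← hc0]
    rw [← hc0] at hc
    have hc1 : 1 ≤ c0 := (le_max_left _ _).trans hc
    have hc2 : C₂ * (m : ℝ) ^ ((2 * g + 1) * d) ≤ c0 := (le_max_right _ _).trans hc
    rw [hK, hC₁def]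
    refine max_le ?_ ?_
    · nlinarith
    · rw [Nat.cast_pow, Nat.cast_mul, mul_pow]
      calc C₂ * ((D₁ : ℝ) ^ ((2 * g + 1) * d) * (m : ℝ) ^ ((2 * g + 1) * d))
          = (C₂ * (m : ℝ) ^ ((2 * g + 1) * d)) * (D₁ : ℝ) ^ ((2 * g + 1) * d) := by ring
        _ ≤ c0 * (D₁ : ℝ) ^ ((2 * g + 1) * d) :=
          mul_le_mul_of_nonneg_right hc2 (by positivity)
  have hfin : ∏ i, v i ≤ ((⌈max 1 (C₂ * (m : ℝ) ^ ((2 * g + 1) * d))⌉₊ *
      D₁ ^ ((2 * g + 1) * d) : ℕ) : ℝ) := by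
    refine le_trans ?_ hKK
    have h0 : 0 ≤ ∏ i, v i := Finset.prod_nonneg fun i _ => hHH0 _
    rcases le_total (∏ i, v i) 1 with h | h
    · exact h.trans (le_max_left _ _)
    · calc ∏ i, v i = (∏ i, v i) ^ 1 := (pow_one _).symm
        _ ≤ (∏ i, v i) ^ d := pow_le_pow_right₀ h hd0
        _ ≤ C₂ * C₁ := hpow
        _ ≤ K := le_max_right _ _
  -- sorting
  set σ := Tuple.sort v with hσ
  refine ⟨fun i => b' (j (σ i)), fun i => hb'Λ _, ?_, ?_, ?_⟩
  · exact hjli.comp σ σ.injective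
  · exact Tuple.monotone_sort v
  · refine le_trans (le_of_eq ?_) hfin
    exact Equiv.prod_comp σ v

/-- **TYP.** -/
theorem typD (h2 : S_MAJ) (g : ℕ) (F : Type) [Field F] [NumberField F] : ∃ C β : ℕ, 1 ≤ g →
  ∀ (B : ℕ) (L : Type) [Field L] [NumberField L] [Algebra F L] (f : (𝓞 F)[X]) (θ : L)
  (hG : IsGen g f θ) (D₁ l : ℕ) (α : L) (Λ : Submodule (𝓞 F) L), D₁ ≠ 0 → D₁ ≤ 2 ^ l →
  Ht g B f → α ≠ 0 → LatD hG D₁ α Λ →
  ∃ (e : Fin (2 * g + 1) → L) (w : Fin (2 * g + 1) → ℤ), (∀ i, e i ∈ Λ) ∧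
    LinearIndependent F e ∧ Typ g w ∧ ∀ i, HH f θ α (e i) ≤ (4 : ℝ) ^ (((C + β * l : ℕ) : ℤ) + w i) := by
  obtain ⟨C₀', hC₀⟩ := redD g F
  obtain ⟨C', hC'⟩ := pow_unbounded_of_one_lt ((max (C₀' : ℝ) 1) ^ 2) (by norm_num : (1 : ℝ) < 4)
  obtain ⟨n, hn⟩ : ∃ n : ℕ, n = (2 * g + 1) * Module.finrank ℚ F := ⟨_, rfl⟩
  refine ⟨C' + 1, n, fun hg B L _ _ _ f θ hG D₁ l α Λ hD₁ hDl hHt hα hLat => ?_⟩
  obtain ⟨e, heΛ, he, hmono, hprod⟩ := hC₀ L f θ hG D₁ α Λ hD₁ hα hLat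
  rw [← hn] at hprod
  obtain ⟨C₀, hC₀d⟩ : ∃ C₀ : ℕ, C₀ = C₀' * D₁ ^ n := ⟨_, rfl⟩
  rw [← hC₀d] at hprod
  obtain ⟨C₁, hC₁⟩ : ∃ C₁ : ℝ, C₁ = max (C₀ : ℝ) 1 := ⟨_, rfl⟩
  have hC1 : 1 ≤ C₁ := by rw [hC₁]; exact le_max_right _ _
  have hC01 : (C₀ : ℝ) ≤ C₁ := by rw [hC₁]; exact le_max_left _ _
  obtain ⟨C, hCdef⟩ : ∃ C : ℕ, C = C' + n * l := ⟨_, rfl⟩
  have hC : C₁ ^ 2 < 4 ^ C := by
    have hD1 : (1 : ℝ) ≤ (D₁ : ℝ) ^ n := by
      refine one_le_pow₀ ?_
      exact_mod_cast Nat.one_le_iff_ne_zero.2 hD₁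
    have hD2 : (D₁ : ℝ) ^ n ≤ 2 ^ (n * l) := by
      rw [mul_comm, pow_mul]
      refine pow_le_pow_left₀ (by positivity) ?_ _
      exact_mod_cast hDl
    have h3 : C₁ ≤ max (C₀' : ℝ) 1 * (D₁ : ℝ) ^ n := by
      rw [hC₁, hC₀d, Nat.cast_mul, Nat.cast_pow]
      refine max_le ?_ ?_
      · exact mul_le_mul_of_nonneg_right (le_max_left _ _) (by positivity)
      · nlinarith [le_max_right (C₀' : ℝ) 1]
    calc C₁ ^ 2 ≤ (max (C₀' : ℝ) 1 * (D₁ : ℝ) ^ n) ^ 2 := pow_le_pow_left₀ (by linarith) h3 2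
      _ = max (C₀' : ℝ) 1 ^ 2 * ((D₁ : ℝ) ^ n) ^ 2 := by ring
      _ ≤ max (C₀' : ℝ) 1 ^ 2 * (2 ^ (n * l)) ^ 2 :=
        mul_le_mul_of_nonneg_left (pow_le_pow_left₀ (by positivity) hD2 2) (by positivity)
      _ < 4 ^ C' * (2 ^ (n * l)) ^ 2 := mul_lt_mul_of_pos_right hC' (by positivity)
      _ = 4 ^ C := by
        rw [hCdef, pow_add, ← pow_mul, mul_comm (n * l) 2, pow_mul 2 2 (n * l)]
        norm_num
  rw [show C' + 1 + n * l = C + 1 by omega]
  obtain ⟨l, hl⟩ : ∃ l : Fin (2 * g + 1) → ℝ, l = fun i => HH f θ α (e i) := ⟨_, rfl⟩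
  have hli : ∀ i, HH f θ α (e i) = l i := by
    intro i
    rw [hl]
  simp only [hli] at hprod hmono
  have hmono' : ∀ i j, i ≤ j → l i ≤ l j := fun i j hij => hmono hij
  have hl0 : ∀ i, 0 ≤ l i := by
    intro i
    rw [← hli, HH]
    positivity
  have hge : ∀ i, 1 ≤ l i * l (Fin.rev i) := by
    intro i
    by_contra hlt
    push Not at hlt
    apply gram_ne hG hα he
    refine det_zero _ i fun a ha b hb => ?_
    show hG.top (e a * e b / α) = 0
    by_contra hne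
    obtain ⟨σ, hσ⟩ := exists_conj hne (hLat.int _ (heΛ a) _ (heΛ b))
    have h3 := (h2 g B F L f θ hg hG hHt).1 α hα σ 0 (e a) (e b)
    rw [pow_zero, one_mul, mul_zero, pow_zero, one_mul, hli, hli] at h3
    have h4 : l a * l b ≤ l i * l (Fin.rev i) :=
      mul_le_mul (hmono' a i ha) (hmono' b _ hb) (hl0 b) (hl0 i)
    have h5 : (1 : ℝ) ≤ ‖σ (hG.top (e a * e b / α))‖ ^ 2 := one_le_pow₀ hσ
    linarith
  have hle : ∀ i, l i * l (Fin.rev i) ≤ C₁ ^ 2 := by
    intro i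
    have h1 : ∏ j, l j * l (Fin.rev j) = (∏ j, l j) ^ 2 := by
      rw [Finset.prod_mul_distrib, sq]
      congr 1
      exact Fintype.prod_equiv Fin.revPerm _ _ fun j => rfl
    have h2 : l i * l (Fin.rev i) ≤ ∏ j, l j * l (Fin.rev j) := by
      rw [← Finset.mul_prod_erase Finset.univ _ (Finset.mem_univ i)]
      have h3 : 1 ≤ ∏ j ∈ Finset.univ.erase i, l j * l (Fin.rev j) := by
        calc (1 : ℝ) = ∏ _j ∈ Finset.univ.erase i, (1 : ℝ) := by simp
          _ ≤ _ := Finset.prod_le_prod (fun _ _ => zero_le_one) fun j _ => hge j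
      nlinarith [hge i]
    rw [h1] at h2
    refine h2.trans ?_
    exact pow_le_pow_left₀ (Finset.prod_nonneg fun j _ => hl0 j) (hprod.trans hC01) 2
  have hpos : ∀ i, 0 < l i := by
    intro i
    rcases (hl0 i).lt_or_eq with h1 | h1
    · exact h1
    · have := hge i
      rw [← h1, zero_mul] at this
      linarith
  -- the type
  obtain ⟨m, hm⟩ : ∃ m : Fin (2 * g + 1) → ℤ, m = fun i => min 0 (Int.log 4 (l i)) := ⟨_, rfl⟩
  have hm0 : ∀ i, m i ≤ 0 := by
    intro i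
    rw [hm]
    exact min_le_left _ _
  have hmm : ∀ i j, i ≤ j → m i ≤ m j := by
    intro i j hij
    rw [hm]
    exact min_le_min le_rfl (Int.log_mono_right (hpos i) (hmono' i j hij))
  obtain ⟨w, hw⟩ : ∃ w : Fin (2 * g + 1) → ℤ, w = fun i : Fin (2 * g + 1) =>
    if (i : ℕ) < g then m i else if (i : ℕ) = g then 0 else - m (Fin.rev i) := ⟨_, rfl⟩
  have hw1 : ∀ i : Fin (2 * g + 1), (i : ℕ) < g → w i = m i := by
    intro i hi
    rw [hw]
    exact if_pos hi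
  have hw2 : ∀ i : Fin (2 * g + 1), (i : ℕ) = g → w i = 0 := by
    intro i hi
    rw [hw]
    show (if (i : ℕ) < g then m i else if (i : ℕ) = g then 0 else - m (Fin.rev i)) = 0
    rw [if_neg (by omega), if_pos hi]
  have hw3 : ∀ i : Fin (2 * g + 1), g < (i : ℕ) → w i = - m (Fin.rev i) := by
    intro i hi
    rw [hw]
    show (if (i : ℕ) < g then m i else if (i : ℕ) = g then 0 else - m (Fin.rev i)) = _
    rw [if_neg (by omega), if_neg (by omega)]
  have hrev : ∀ i : Fin (2 * g + 1), ((Fin.rev i : Fin (2 * g + 1)) : ℕ) = 2 * g - i := by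
    intro i
    rw [Fin.val_rev]
    omega
  have h4 : (1 : ℝ) ≤ 4 := by norm_num
  have h40 : (0 : ℝ) < 4 := by norm_num
  have hlog1 : ∀ i, (4 : ℝ) ^ (Int.log 4 (l i)) ≤ l i := by
    intro i
    have := Int.zpow_log_le_self (b := 4) (by norm_num) (hpos i)
    exact_mod_cast this
  have hlog2 : ∀ i, l i < (4 : ℝ) ^ (Int.log 4 (l i) + 1) := by
    intro i
    have := Int.lt_zpow_succ_log_self (b := 4) (by norm_num) (l i)
    exact_mod_cast this
  refine ⟨e, w, heΛ, he, ⟨?_, ?_⟩, ?_⟩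
  · intro i j hij
    have hij' : (i : ℕ) ≤ j := hij
    rcases lt_trichotomy (i : ℕ) g with hi | hi | hi
    · rw [hw1 i hi]
      rcases lt_trichotomy (j : ℕ) g with hj | hj | hj
      · rw [hw1 j hj]
        exact hmm i j hij
      · rw [hw2 j hj]
        exact hm0 i
      · rw [hw3 j hj]
        have h1 := hm0 i
        have h2 := hm0 (Fin.rev j)
        omega
    · rw [hw2 i hi]
      rcases lt_trichotomy (j : ℕ) g with hj | hj | hj
      · omega
      · rw [hw2 j hj]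
      · rw [hw3 j hj]
        have h2 := hm0 (Fin.rev j)
        omega
    · rw [hw3 i hi, hw3 j (by omega)]
      have := hmm (Fin.rev j) (Fin.rev i) (Fin.rev_le_rev.2 hij)
      omega
  · intro i
    rcases lt_trichotomy (i : ℕ) g with hi | hi | hi
    · rw [hw1 i hi, hw3 (Fin.rev i) (by rw [hrev]; omega), Fin.rev_rev]
    · rw [hw2 i hi, hw2 (Fin.rev i) (by rw [hrev]; omega), neg_zero]
    · rw [hw3 i hi, hw1 (Fin.rev i) (by rw [hrev]; omega), neg_neg]
  · intro i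
    rw [hli]
    have hself : ∀ i : Fin (2 * g + 1), i ≤ Fin.rev i → 1 ≤ l i → l i ≤ (4 : ℝ) ^ C := by
      intro i hi h1
      have h2 := hmono' i _ hi
      have h3 : l i * l i ≤ l i * l (Fin.rev i) := mul_le_mul_of_nonneg_left h2 (hl0 i)
      have h5 := hle i
      nlinarith
    have hCC : (4 : ℝ) ^ C ≤ (4 : ℝ) ^ (((C + 1 : ℕ) : ℤ) + 0) := by
      rw [add_zero, zpow_natCast]
      exact pow_le_pow_right₀ h4 (by omega)
    rcases lt_trichotomy (i : ℕ) g with hi | hi | hi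
    · rw [hw1 i hi]
      have hir : i ≤ Fin.rev i := by
        rw [Fin.le_def, hrev]
        omega
      rcases le_or_gt 0 (Int.log 4 (l i)) with h0 | h0
      · have h1 : m i = 0 := by
          rw [hm]
          exact min_eq_left h0
        rw [h1]
        refine (hself i hir ?_).trans hCC
        have h2 : (4 : ℝ) ^ (0 : ℤ) ≤ (4 : ℝ) ^ (Int.log 4 (l i)) := zpow_le_zpow_right₀ h4 h0
        rw [zpow_zero] at h2
        exact h2.trans (hlog1 i)
      · have h1 : m i = Int.log 4 (l i) := by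
          rw [hm]
          exact min_eq_right h0.le
        rw [h1]
        refine (hlog2 i).le.trans (zpow_le_zpow_right₀ h4 ?_)
        push_cast
        omega
    · rw [hw2 i hi]
      have hir : Fin.rev i = i := by
        rw [Fin.ext_iff, hrev]
        omega
      rcases le_total 1 (l i) with h1 | h1
      · exact (hself i (by rw [hir]) h1).trans hCC
      · refine h1.trans ?_
        rw [add_zero, zpow_natCast]
        exact one_le_pow₀ h4
    · rw [hw3 i hi]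
      obtain ⟨r, hr⟩ : ∃ r, r = Fin.rev i := ⟨_, rfl⟩
      rw [← hr]
      have h1 : (4 : ℝ) ^ (m r) ≤ l r := by
        refine le_trans (zpow_le_zpow_right₀ h4 ?_) (hlog1 r)
        rw [hm]
        exact min_le_right _ _
      have h2 := hle i
      rw [← hr] at h2
      have h3 : 0 < (4 : ℝ) ^ (m r) := zpow_pos h40 _
      have h5 : l i * (4 : ℝ) ^ (m r) ≤ (4 : ℝ) ^ C := by
        have h6 : l i * (4 : ℝ) ^ (m r) ≤ l i * l r := mul_le_mul_of_nonneg_left h1 (hl0 i)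
        linarith
      have h6 : (4 : ℝ) ^ (((C + 1 : ℕ) : ℤ) + - m r) = (4 : ℝ) ^ (C + 1) / (4 : ℝ) ^ (m r) := by
        rw [zpow_add₀ h40.ne', zpow_natCast, _root_.zpow_neg, div_eq_mul_inv]
      rw [h6, le_div_iff₀ h3]
      refine h5.trans ?_
      exact pow_le_pow_right₀ h4 (by omega)

end Pool.Agent.H68K.PR
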