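import Mathlib
import Pool.Agent.H68K.PR.FinalT

/-!
# The law of Poonen and Rains for the `2`-Selmer groups of random quadratic twists, uniformly for almost
all members of a family of positive density, over every number field

Let `F` be a number field. The curves `E_{a,b} : y² = x³ + a x + b` with `a, b ∈ 𝓞 F` and
`4 a³ + 27 b² ≠ 0` are ordered by the height `H (a, b) = max_v max (|a|_v³, |b|_v²)` with the normalized
absolute values of the infinite places `v` of `F`. `Sel2 W` is the `2`-Selmer group of the curve `W`, the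
set of the classes of the continuous cocycles of the absolute Galois group of `F` with values in `W[2]`,
modulo the coboundaries of the points of `W[2]`, which are trivial in `H¹(F_v, W)` at all places `v`.

The constants of Poonen and Rains are
`C_{2,k} = ∏_{j ≥ 0} (1 + 2^{-j})^{-1} ∏_{1 ≤ i ≤ k} 2 / (2^i - 1)`. They are the probabilities that two
random maximal isotropic subspaces of a large hyperbolic quadratic space over the field with two
elements meet in dimension `k`; given the parity of the dimension, the probabilities are `2 C_{2,k}`.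

**Theorem.** Let `F` be a number field and `ε > 0`. There is an `m₀` such that for all `m ≥ m₀` there are
a finite set `S` of at least `m` odd rational primes, unramified in `F`, and a family of curves `E_{a,b}`
of positive density, defined by congruences modulo some `N` and by the condition that `4 a³ + 27 b²` is
not divisible by the square of a prime, with good reduction at the primes over `S`, such that the
following holds for all but a proportion `ε` of the members `E` of the family of height at most `Y`, if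
`Y` is large. Let `t` be the dimension of the `2`-Selmer group of `E`. For `m₀ ≤ i ≤ m` the proportion
of the sets `J` of `i` elements of `S`, for which the `2`-Selmer group of the quadratic twist of `E` by
`∏_{q ∈ J} q` has dimension `k`, differs by at most `ε` from `2 C_{2,k}` for all `k` with the parity of
`t + i` (and from `0` for the other `k`).

So the set of twisting numbers does not depend on the curve, the family is ordered by height, and almost
all of its members have random twists which follow the law.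

Idea of the proof. Fix a large finite set `S` of rational primes `q = 1` modulo `8` and consider the
`f = x³ + a x + b` which are irreducible modulo the primes over `2`, have a prescribed factorization into
a linear and an irreducible quadratic factor modulo one prime of `F` over each `q ∈ S`, are irreducible
modulo the other primes over `q ∈ S`, and whose discriminant is not divisible by the square of a prime.
The Selmer group relaxed at the primes of `S` is a maximal isotropic subspace `Λ` of an orthogonal sum of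
hyperbolic planes over the field with two elements, one for each `q ∈ S`, and the Selmer group of the
twist by `∏_{q ∈ J} q` is the intersection `Λ_J` of `Λ` with a product of lines which depends on `J ⊆ S`.
If `q ∉ J` is added to `J`, the dimension goes down by one if `Λ_J` has an element which is not trivial
at `q`, and goes up by one otherwise. A counting of pairs of symmetric matrices over `𝓞 F`, after
Bhargava and Gross, which are distinguished at some primes of `S` and not distinguished at others, shows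
that for most `f` all the nonzero elements of `Λ_J`, `J` small, are trivial at about half of the primes
of `S`. So the dimensions of the random twists form approximately a Markov chain which goes from `k` to
`k + 1` with probability `2^{-k}` and to `k - 1` with probability `1 - 2^{-k}`. It converges to the law of
Poonen and Rains, given the parity.

Built on project PF of the starting library (helper783 and the seats named there) and on the parts of
project PR by helper10, helper18, helper33, helper42, helper64, helper71, helper72, helper93 and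
helper68.
-/

set_option autoImplicit false

namespace Pool.Agent.H68K.PR.RandomTwistLaw

open NumberField IsDedekindDomain
open Pool.Agent.TH115.GD (Pt act rs IsCoc LocTriv Comp Sep)
open scoped Classical

section selmer

variable {F : Type} [Field F] [NumberField F]

/-- The curve `y² = x³ + a x + b`. -/
def curve (a b : F) : WeierstrassCurve F := ⟨0, 0, 0, a, b⟩

/-- The Selmer cocycles: the continuous cocycles `f` of the absolute Galois group of `F` with values in
the points of order two of `W` over a separable closure, which become coboundaries in the points of `W`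
over a separable closure of `F_v`, for all finite and all real places `v` of `F` (at complex places the
condition is empty). -/
structure IsSelmer (W : WeierstrassCurve F) (f : (Sep F ≃ₐ[F] Sep F) → Pt W (Sep F)) : Prop where
  cocycle : IsCoc W f
  two : ∀ σ, (2 : ℕ) • f σ = 0
  finite : ∀ v : HeightOneSpectrum (𝓞 F), LocTriv W (Comp (𝓞 F) F v) (Sep (Comp (𝓞 F) F v)) f
  real : ∀ ρ : F →+* ℝ, letI := ρ.toAlgebra; LocTriv W ℝ (Sep ℝ) f

/-- The difference of `f'` and `f` is the coboundary of a point of order two of `W`. -/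
def Cohomologous (W : WeierstrassCurve F) (f f' : (Sep F ≃ₐ[F] Sep F) → Pt W (Sep F)) : Prop :=
  ∃ T : Pt W (Sep F), (2 : ℕ) • T = 0 ∧ ∀ σ, f' σ = f σ + (act W (rs F σ) T - T)

/-- The `2`-Selmer group of `W` over `F`, the kernel of `H¹(F, W[2]) → ∏_v H¹(F_v, W)`: the Selmer
cocycles modulo the coboundaries of the points of order two. -/
def Sel2 (W : WeierstrassCurve F) : Type :=
  Quot fun f f' : {f : (Sep F ≃ₐ[F] Sep F) → Pt W (Sep F) // IsSelmer W f} =>
    Cohomologous W f.1 f'.1

/-- The height of a pair: the maximum of `|a|_v³` and `|b|_v²`, for the normalized absolute values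
`|x|_v = v x ^ v.mult` of the infinite places `v` of `F`. -/
noncomputable def height (p : 𝓞 F × 𝓞 F) : ℝ :=
  ⨆ v : InfinitePlace F, max ((v (p.1 : F) ^ v.mult) ^ 3) ((v (p.2 : F) ^ v.mult) ^ 2)

/-- The order of the `2`-Selmer group of the quadratic twist `y² = x³ + D² a x + D³ b` of the curve
`y² = x³ + a x + b` by `D = ∏_{q ∈ J} q`. -/
noncomputable def selmerTwist (J : Finset ℕ) (p : 𝓞 F × 𝓞 F) : ℕ :=
  Nat.card (Sel2 (curve ((p.1 : F) * (∏ q ∈ J, (q : F)) ^ 2) ((p.2 : F) * (∏ q ∈ J, (q : F)) ^ 3)))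

/-- The members of the family: `(a', b') = (a, b)` modulo `N` and `4 a'³ + 27 b'²` is not divisible by
the square of a prime. -/
structure Member (N : ℕ) (a b : 𝓞 F) (p : 𝓞 F × 𝓞 F) : Prop where
  fst : (N : 𝓞 F) ∣ p.1 - a
  snd : (N : 𝓞 F) ∣ p.2 - b
  squarefree : ∀ v : HeightOneSpectrum (𝓞 F), 4 * p.1 ^ 3 + 27 * p.2 ^ 2 ∉ v.asIdeal ^ 2

/-- The numbers in `S` are odd primes which divide `N`, are unramified in `F`, and are prime to
`4 a³ + 27 b²`. -/
def Admissible (S : Finset ℕ) (N : ℕ) (a b : 𝓞 F) : Prop := ∀ q ∈ S, q.Prime ∧ q ≠ 2 ∧ q ∣ N ∧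
  ∀ v : HeightOneSpectrum (𝓞 F), (q : 𝓞 F) ∉ v.asIdeal ^ 2 ∧
    ((q : 𝓞 F) ∈ v.asIdeal → 4 * a ^ 3 + 27 * b ^ 2 ∉ v.asIdeal)

end selmer

/-- The constant `C_{2,k}` of Poonen and Rains. -/
noncomputable def poonenRains (k : ℕ) : ℝ :=
  (∏' j : ℕ, (1 + (2 : ℝ)⁻¹ ^ j)⁻¹) * ∏ i ∈ Finset.range k, (2 / ((2 : ℝ) ^ (i + 1) - 1))

/-- The law of Poonen and Rains given the parity: `2 C_{2,k}` if `k` has the parity of `s`, and `0`
otherwise. -/
noncomputable def parityLaw (s k : ℕ) : ℝ := if Even (s + k) then 2 * poonenRains k else 0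

/-- The dimensions of the `2`-Selmer groups of the twists of the curve by the products of `i` primes
in `S`, `m₀ ≤ i ≤ m`, follow the law up to `ε`. -/
def TwistLaw {F : Type} [Field F] [NumberField F] (S : Finset ℕ) (m₀ m : ℕ) (ε : ℝ)
    (p : 𝓞 F × 𝓞 F) : Prop :=
  ∃ t : ℕ, selmerTwist ∅ p = 2 ^ t ∧ ∀ i, m₀ ≤ i → i ≤ m → ∀ k : ℕ,
    |(((S.powersetCard i).filter fun J => selmerTwist J p = 2 ^ k).card : ℝ) /
      (S.card.choose i : ℝ) - parityLaw (t + i) k| ≤ ε

/-- The pairs `(a, b)` of elements of `𝓞 F` with `4 a³ + 27 b² ≠ 0` of height at most `Y`. -/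
def Pairs (F : Type) [Field F] [NumberField F] (Y : ℝ) : Set (𝓞 F × 𝓞 F) :=
  {p | height p ≤ Y ∧ 4 * p.1 ^ 3 + 27 * p.2 ^ 2 ≠ 0}

theorem height_le {F : Type} [Field F] [NumberField F] (Y : ℝ) (p : 𝓞 F × 𝓞 F) :
    height p ≤ Y ↔ Pool.Agent.H68K.PR.Hle Y p := by
  rw [height, ciSup_le_iff (Set.finite_range _).bddAbove]
  exact forall_congr' fun v => max_le_iff

theorem sel2_eq {F : Type} [Field F] [NumberField F] (a b : F) :
    Nat.card (Sel2 (curve a b)) =
      Nat.card (Pool.Agent.H68K.PR.Sel2 (Pool.Agent.N874.PP.sW a b)) := by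
  have h0 : ∀ f f' : (Sep F ≃ₐ[F] Sep F) → Pt (curve a b) (Sep F),
      (QuotientAddGroup.mk f : _ ⧸ Pool.Agent.H68K.PR.Cob (curve a b)) = QuotientAddGroup.mk f' ↔
        Cohomologous (curve a b) f f' := by
    intro f f'
    rw [QuotientAddGroup.eq]
    constructor
    · rintro ⟨T, hT, h⟩
      refine ⟨T, hT, fun σ => ?_⟩
      have := h σ
      rw [Pi.add_apply, Pi.neg_apply] at this
      rw [← this]
      abel
    · rintro ⟨T, hT, h⟩
      refine ⟨T, hT, fun σ => ?_⟩
      rw [Pi.add_apply, Pi.neg_apply, h σ]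
      abel
  refine Nat.card_congr (Equiv.ofBijective (Quot.lift (fun f => ⟨QuotientAddGroup.mk f.1,
    ⟨f.1, f.2.cocycle, f.2.two, ⟨f.2.finite, f.2.real⟩, rfl⟩⟩) ?_) ⟨?_, ?_⟩)
  · intro f f' h
    exact Subtype.ext ((h0 f.1 f'.1).2 h)
  · intro x y
    induction x using Quot.ind with | _ f => ?_
    induction y using Quot.ind with | _ f' => ?_
    intro h
    exact Quot.sound ((h0 f.1 f'.1).1 (congrArg Subtype.val h))
  · rintro ⟨x, f, h1, h2, h3, rfl⟩
    exact ⟨Quot.mk _ ⟨f, h1, h2, h3.fin, h3.real⟩, rfl⟩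

theorem twist_eq {F : Type} [Field F] [NumberField F] (J : Finset ℕ) (p : 𝓞 F × 𝓞 F) :
    selmerTwist J p = Pool.Agent.H68K.PR.sel J p := by
  rw [selmerTwist, sel2_eq, Pool.Agent.H68K.PR.sel]
  have e1 : (((Pool.Agent.H68K.PR.twp J p).1 : 𝓞 F) : F) = (p.1 : F) * (∏ q ∈ J, (q : F)) ^ 2 := by
    simp only [Pool.Agent.H68K.PR.twp, map_mul, map_pow, Nat.cast_prod, map_prod, map_natCast]
  have e2 : (((Pool.Agent.H68K.PR.twp J p).2 : 𝓞 F) : F) = (p.2 : F) * (∏ q ∈ J, (q : F)) ^ 3 := by
    simp only [Pool.Agent.H68K.PR.twp, map_mul, map_pow, Nat.cast_prod, map_prod, map_natCast]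
  rw [e1, e2]

theorem member_iff {F : Type} [Field F] [NumberField F] (N : ℕ) (a b : 𝓞 F) (p : 𝓞 F × 𝓞 F) :
    Member N a b p ↔ Pool.Agent.H68K.PR.InFam N a b p := by
  constructor
  · rintro ⟨h1, h2, h3⟩
    exact ⟨Ideal.mem_span_singleton.2 h1, Ideal.mem_span_singleton.2 h2,
      fun 𝔭 h𝔭 h0 => h3 ⟨𝔭, h𝔭, h0⟩⟩
  · rintro ⟨h1, h2, h3⟩
    exact ⟨Ideal.mem_span_singleton.1 h1, Ideal.mem_span_singleton.1 h2,
      fun v => h3 v.asIdeal v.isPrime v.ne_bot⟩

/-- The law of Poonen and Rains up to `ε` for the random twists of all but a proportion `ε` of the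
members of a family of positive density, over every number field. -/
theorem result (F : Type) [Field F] [NumberField F] (ε : ℝ) (hε : 0 < ε) :
    ∃ m₀ : ℕ, ∀ m ≥ m₀, ∃ (S : Finset ℕ) (N : ℕ) (a b : 𝓞 F), m ≤ S.card ∧ 0 < N ∧
      Admissible S N a b ∧ ∃ c : ℝ, 0 < c ∧ ∃ Y₀ : ℝ, ∀ Y : ℝ, (Pairs F Y).Finite ∧ (Y₀ ≤ Y →
        0 < (Pairs F Y).ncard ∧
        c * ((Pairs F Y).ncard : ℝ) ≤ ({p ∈ Pairs F Y | Member N a b p}.ncard : ℝ) ∧
        ({p ∈ Pairs F Y | Member N a b p ∧ ¬ TwistLaw S m₀ m ε p}.ncard : ℝ) ≤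
          ε * ({p ∈ Pairs F Y | Member N a b p}.ncard : ℝ)) := by
  obtain ⟨m₀, h⟩ := Pool.Agent.H68K.PR.fin4T F ε hε
  refine ⟨m₀, fun m hm => ?_⟩
  obtain ⟨S, N, a, b, hmS, hN, hok, c, hc, Y₀, h⟩ := h m hm
  refine ⟨S, N, a, b, hmS, hN, ?_, c, hc, Y₀, fun Y => ⟨?_, fun hY => ?_⟩⟩
  · intro q hq
    obtain ⟨h1, h2, h3, h4, h5⟩ := hok q hq
    exact ⟨h1, h2, h3, fun v => ⟨h4 v.asIdeal v.isPrime, h5 v.asIdeal v.isPrime⟩⟩
  · refine (h Y).1.subset fun p hp => ?_
    exact (height_le Y p).1 hp.1
  · obtain ⟨h1, h2, h3⟩ := (h Y).2 hY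
    obtain ⟨v₀⟩ : Nonempty (HeightOneSpectrum (𝓞 F)) := by
      obtain ⟨m, hm⟩ := Ideal.exists_maximal (𝓞 F)
      exact ⟨⟨m, hm.isPrime, Ring.ne_bot_of_isMaximal_of_not_isField hm
        (NumberField.RingOfIntegers.not_isField F)⟩⟩
    have e1 : Pairs F Y =
        {p : 𝓞 F × 𝓞 F | Pool.Agent.H68K.PR.Hle Y p ∧ 4 * p.1 ^ 3 + 27 * p.2 ^ 2 ≠ 0} := by
      refine Set.ext fun p => ?_
      rw [Pairs, Set.mem_ofPred_eq, Set.mem_ofPred_eq, height_le]
    have hne : ∀ p, Member N a b p → 4 * p.1 ^ 3 + 27 * p.2 ^ 2 ≠ 0 := by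
      intro p hp h0
      apply hp.squarefree v₀
      rw [h0]
      exact Ideal.zero_mem _
    have e2 : {p ∈ Pairs F Y | Member N a b p} =
        {p : 𝓞 F × 𝓞 F | Pool.Agent.H68K.PR.Hle Y p ∧ Pool.Agent.H68K.PR.InFam N a b p} := by
      refine Set.ext fun p => ?_
      constructor
      · rintro ⟨⟨a1, -⟩, a2⟩
        exact ⟨(height_le Y p).1 a1, (member_iff N a b p).1 a2⟩
      · rintro ⟨a1, a2⟩
        have a3 := (member_iff N a b p).2 a2
        exact ⟨⟨(height_le Y p).2 a1, hne p a3⟩, a3⟩
    have e3 : {p ∈ Pairs F Y | Member N a b p ∧ ¬ TwistLaw S m₀ m ε p} =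
        {p : 𝓞 F × 𝓞 F | Pool.Agent.H68K.PR.Hle Y p ∧ Pool.Agent.H68K.PR.InFam N a b p ∧
        ¬ ∃ t : ℕ, Pool.Agent.H68K.PR.sel ∅ p = 2 ^ t ∧ ∀ i, m₀ ≤ i → i ≤ m → ∀ k : ℕ,
          |(((S.powersetCard i).filter fun J => Pool.Agent.H68K.PR.sel J p = 2 ^ k).card : ℝ) /
            (S.card.choose i : ℝ) - Pool.Agent.H68K.PR.pr2par (t + i) k| ≤ ε} := by
      have hL : ∀ p : 𝓞 F × 𝓞 F, TwistLaw S m₀ m ε p ↔ ∃ t : ℕ, Pool.Agent.H68K.PR.sel ∅ p = 2 ^ t ∧
          ∀ i, m₀ ≤ i → i ≤ m → ∀ k : ℕ,
          |(((S.powersetCard i).filter fun J => Pool.Agent.H68K.PR.sel J p = 2 ^ k).card : ℝ) /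
            (S.card.choose i : ℝ) - Pool.Agent.H68K.PR.pr2par (t + i) k| ≤ ε := by
        intro p
        rw [TwistLaw]
        simp only [twist_eq]
        rfl
      refine Set.ext fun p => ?_
      constructor
      · rintro ⟨⟨a1, -⟩, a2, a3⟩
        exact ⟨(height_le Y p).1 a1, (member_iff N a b p).1 a2, fun h => a3 ((hL p).2 h)⟩
      · rintro ⟨a1, a2, a3⟩
        have a4 := (member_iff N a b p).2 a2
        exact ⟨⟨(height_le Y p).2 a1, hne p a4⟩, a4, fun h => a3 ((hL p).1 h)⟩
    rw [e3, e2, e1]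
    exact ⟨h1, h2, h3⟩

end Pool.Agent.H68K.PR.RandomTwistLaw
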