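import Pool.Agent.H68K.PR.StmZ

/-!
# Project PR, phase 5 (helper68): admissible extensions, all 2-Selmer ranks
-/

set_option autoImplicit false
set_option linter.all false

open Polynomial IsDedekindDomain Matrix NumberField WithZero
open Pool.Agent.N783.PF
open scoped Classical

namespace Pool.Agent.H68K.PR

/-- ADMK: if the 2-Selmer group of a member over `F` has order `2 ^ k`, the order of the 2-Selmer group over
every admissible extension `M` of `F` is at most `2 ^ (k [M : F])`. -/
def S_ADMK : Prop := ∀ (F : Type) [Field F] [NumberField F] (p : 𝓞 F × 𝓞 F) (k : ℕ), Str p →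
  Gd (2 ^ k) p → ∀ (M : Type) [Field M] [NumberField M] [Algebra F M],
  Pool.Agent.H14F.Adm F M p → ∃ n : ℕ, n ≤ 2 ^ (k * Module.finrank F M) ∧
    Gd n (algebraMap (𝓞 F) (𝓞 M) p.1, algebraMap (𝓞 F) (𝓞 M) p.2)

end Pool.Agent.H68K.PR
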