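import Pool.Agent.H68K.PR.Stm
import Pool.Agent.N874.PP.Gal

/-!
# Project PR (helper68): the 2-Selmer group in terms of cocycles, and its order

`IsCoc`, `LocTriv`, `Pt`, `act`, `rs` are in `TH115/GD/Defs.lean`, `IsLoc` is in `N874/QM/Stm.lean`.
-/

set_option autoImplicit false
set_option linter.all false

open Polynomial IsDedekindDomain NumberField
open Pool.Agent.N874.PP (sW)
open Pool.Agent.N874.QM (IsLoc)
open Pool.Agent.N874.PM (PLoc)
open Pool.Agent.TH115.GD (Pt act rs IsCoc LocTriv Comp Sep)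
open scoped Classical

namespace Pool.Agent.H68K.PR

section sel

variable {M : Type} [Field M] [NumberField M]

/-- The coboundaries of the points of order two, as a subgroup of the group of all maps from the
Galois group to the points. -/
def Cob (W : WeierstrassCurve M) : AddSubgroup ((Sep M ≃ₐ[M] Sep M) → Pt W (Sep M)) where
  carrier := {f | ∃ T : Pt W (Sep M), (2 : ℕ) • T = 0 ∧ ∀ σ, f σ = act W (rs M σ) T - T}
  zero_mem' := ⟨0, by simp, fun σ => by simp⟩
  add_mem' := by
    rintro f f' ⟨T, hT, h⟩ ⟨T', hT', h'⟩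
    refine ⟨T + T', by rw [smul_add, hT, hT', add_zero], fun σ => ?_⟩
    rw [Pi.add_apply, h, h', map_add]
    abel
  neg_mem' := by
    rintro f ⟨T, hT, h⟩
    refine ⟨-T, by rw [smul_neg, hT, neg_zero], fun σ => ?_⟩
    rw [Pi.neg_apply, h, map_neg]
    abel

/-- The 2-Selmer group: the classes of the continuous cocycles with values in the points of order two,
which are trivial in `H ^ 1 (M_v, W)` at all places `v` of `M`, modulo the coboundaries of the points of
order two. -/
def Sel2 (W : WeierstrassCurve M) : Set (((Sep M ≃ₐ[M] Sep M) → Pt W (Sep M)) ⧸ Cob W) :=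
  {x | ∃ f : (Sep M ≃ₐ[M] Sep M) → Pt W (Sep M), IsCoc W f ∧ (∀ σ, (2 : ℕ) • f σ = 0) ∧
    IsLoc W f ∧ x = QuotientAddGroup.mk f}

/-- The explicit description of the elements of the 2-Selmer group of `y ^ 2 = x ^ 3 + A x + B`. -/
structure SelH (A B : M) (h : M[X]) : Prop where
  cop : IsCoprime h (X ^ 3 + C A * X + C B)
  nrm : IsSquare (Algebra.norm M (AdjoinRoot.mk (X ^ 3 + C A * X + C B) h))
  fin : ∀ w : HeightOneSpectrum (𝓞 M), PLoc (w.adicCompletion M) A B h
  real : ∀ ρ : M →+* ℝ, letI := ρ.toAlgebra; PLoc ℝ A B h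

/-- The explicit 2-Selmer group has exactly `n` elements. -/
def SelN (A B : M) (n : ℕ) : Prop := ∃ r : Fin n → M[X], (∀ i, SelH A B (r i)) ∧
  (∀ i j, (∃ s : M[X], X ^ 3 + C A * X + C B ∣ r i * r j - s ^ 2) → i = j) ∧
  ∀ h : M[X], SelH A B h → ∃ (i : Fin n) (s : M[X]), X ^ 3 + C A * X + C B ∣ h * r i - s ^ 2

end sel

/-- COC: the order of the 2-Selmer group. -/
def S_COC : Prop := ∀ (M : Type) [Field M] [NumberField M] (A B : M),
  4 * A ^ 3 + 27 * B ^ 2 ≠ 0 → Irreducible (X ^ 3 + C A * X + C B : M[X]) → ∀ n : ℕ,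
  SelN A B n → Nat.card (Sel2 (sW A B)) = n

end Pool.Agent.H68K.PR
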