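import Pool.Agent.H68K.PR.StmW
import Pool.Agent.H68K.PR.StmC

/-!
# Project PR (helper68): small parts for the applications
-/

set_option autoImplicit false
set_option linter.all false

open Polynomial IsDedekindDomain Matrix NumberField WithZero
open Pool.Agent.TH115.GD (Pt)
open scoped Classical

namespace Pool.Agent.H68K.PR

open Pool.Agent.N874.PP (sW)

/-- CST1: the constant `C_{2,0}` in the form of Bhargava, Kane, Lenstra, Poonen and Rains (Euler:
`∏ (1 + x ^ j) = ∏ (1 - x ^ (2 j - 1))⁻¹`). -/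
def S_CST1 : Prop := pr2 0 = 1 / 2 * ∏' i : ℕ, (1 - (2 : ℝ)⁻¹ ^ (2 * i + 1))

/-- CST2: the tails of the law of Poonen and Rains. -/
def S_CST2 : Prop := ∀ k : ℕ, 1 ≤ k →
  (∑' j : {j : ℕ | k ≤ j}, pr2 j) < (2 : ℝ)⁻¹ ^ (k * (k - 1) / 2)

/-- NT2: no rational point of order two if the cubic polynomial is irreducible. -/
def S_NT2 : Prop := ∀ (M : Type) [Field M] [NumberField M] (A B : M),
  Irreducible (X ^ 3 + C A * X + C B : M[X]) → ∀ P : Pt (sW A B) M, (2 : ℕ) • P = 0 → P = 0

end Pool.Agent.H68K.PR
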