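import Pool.Agent.H68K.PR.StmX
import Pool.Agent.H68K.PR.StmW

/-!
# Project PR, phase 5 (helper68): the Tate-Shafarevich group in the family, and over 2-power extensions
-/

set_option autoImplicit false
set_option linter.all false

open Polynomial IsDedekindDomain Matrix NumberField WithZero
open Pool.Agent.TH115.GD (Pt act rs IsCoc LocTriv Comp Sep)
open Pool.Agent.N874.QM (IsLoc)
open Pool.Agent.N874.PP (sW)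
open Pool.Agent.N783.PF
open scoped Classical

namespace Pool.Agent.H68K.PR

/-! ### The structure of the members -/

/-- `p` is the twist by `Dp J` of the pair of coefficients of a member `f` of the base family. -/
def Str {F : Type} [Field F] [NumberField F] (p : 𝓞 F × 𝓞 F) : Prop :=
  ∃ (W : ℕ) (f f₁ : (𝓞 F)[X]) (S J : Finset ℕ) (𝔮 : ℕ → Ideal (𝓞 F)) (h P : ℕ → (𝓞 F)[X]),
    f.Monic ∧ f.natDegree = 3 ∧ f.coeff 2 = 0 ∧ Irreducible (fF f) ∧ SqF 1 f ∧ GoodF 1 W f₁ ∧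
    GoodS 1 W S 𝔮 h P ∧ Cg (sp F W) f f₁ ∧ (∀ q ∈ S, Cg (sp F q) f (P q)) ∧ J ⊆ S ∧
    p = twp J (f.coeff 1, f.coeff 0)

/-- FIN7X: as `S_FIN7`, with `Str p` for all the members `p`. -/
def S_FIN7X : Prop := ∀ (F : Type) [Field F] [NumberField F] (α β : InfinitePlace F → ℝ),
  (∀ v, 0 < α v ∧ 0 < β v) → ∀ ε : ℝ, 0 < ε →
  ∃ (M : ℕ) (R : Set (𝓞 F × 𝓞 F)), 0 < M ∧
    (∀ p p' : 𝓞 F × 𝓞 F, p ∈ R → p'.1 - p.1 ∈ sp F M → p'.2 - p.2 ∈ sp F M → p' ∈ R) ∧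
    ∀ G : Set (𝓞 F × 𝓞 F), G = {p | p ∈ R ∧ ∀ 𝔭 : Ideal (𝓞 F), 𝔭.IsPrime → (M : 𝓞 F) ∉ 𝔭 →
      4 * p.1 ^ 3 + 27 * p.2 ^ 2 ∉ 𝔭 ^ 2} →
    (∀ p ∈ G, ∀ 𝔭 : Ideal (𝓞 F), 𝔭.IsPrime → 𝔭 ≠ ⊥ → ¬ (p.1 ∈ 𝔭 ^ 4 ∧ p.2 ∈ 𝔭 ^ 6)) ∧
    (∀ p ∈ G, Str p) ∧
    ∃ (c L₀ : ℝ), 0 < c ∧ ∀ r : InfinitePlace F → ℝ, (∀ v, 0 < r v) →
    {p : 𝓞 F × 𝓞 F | HW α β r 1 p}.Finite ∧ (L₀ ≤ ∏ v, r v ^ v.mult →
    0 < {p : 𝓞 F × 𝓞 F | HW α β r 1 p ∧ 4 * p.1 ^ 3 + 27 * p.2 ^ 2 ≠ 0}.ncard ∧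
    c * ({p : 𝓞 F × 𝓞 F | HW α β r 1 p ∧ 4 * p.1 ^ 3 + 27 * p.2 ^ 2 ≠ 0}.ncard : ℝ) ≤
      ({p : 𝓞 F × 𝓞 F | HW α β r 1 p ∧ p ∈ G}.ncard : ℝ) ∧
    ∀ K : Set ℕ, |({p : 𝓞 F × 𝓞 F | HW α β r 1 p ∧ p ∈ G ∧ ∃ k ∈ K, Gd (2 ^ k) p}.ncard : ℝ) -
        (∑' k : K, pr2 k) * ({p : 𝓞 F × 𝓞 F | HW α β r 1 p ∧ p ∈ G}.ncard : ℝ)| ≤
      ε * ({p : 𝓞 F × 𝓞 F | HW α β r 1 p ∧ p ∈ G}.ncard : ℝ))

/-- FAM7X: as `S_FAM7`, with `Str p` for all the members `p`. -/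
def S_FAM7X : Prop := ∀ (F : Type) [Field F] [NumberField F] (α β : InfinitePlace F → ℝ),
  (∀ v, 0 < α v ∧ 0 < β v) → ∀ ε : ℝ, 0 < ε →
  ∃ (N : ℕ) (a b : 𝓞 F) (D : Finset ℕ), OkN N a b ∧ (∀ d ∈ D, 0 < d ∧
      ∀ 𝔭 : Ideal (𝓞 F), 𝔭.IsPrime → 𝔭 ≠ ⊥ → (d : 𝓞 F) ∉ 𝔭 ^ 2) ∧
    (∀ p ∈ Fml N a b D, Str p) ∧
    ∃ (c L₀ : ℝ), 0 < c ∧ ∀ r : InfinitePlace F → ℝ, (∀ v, 0 < r v) →
    {p : 𝓞 F × 𝓞 F | HW α β r 1 p}.Finite ∧ (L₀ ≤ ∏ v, r v ^ v.mult →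
    0 < {p : 𝓞 F × 𝓞 F | HW α β r 1 p ∧ 4 * p.1 ^ 3 + 27 * p.2 ^ 2 ≠ 0}.ncard ∧
    c * ({p : 𝓞 F × 𝓞 F | HW α β r 1 p ∧ 4 * p.1 ^ 3 + 27 * p.2 ^ 2 ≠ 0}.ncard : ℝ) ≤
      ({p : 𝓞 F × 𝓞 F | HW α β r 1 p ∧ p ∈ Fml N a b D}.ncard : ℝ) ∧
    ∀ k : ℕ, |({p : 𝓞 F × 𝓞 F | HW α β r 1 p ∧ p ∈ Fml N a b D ∧ Gd (2 ^ k) p}.ncard : ℝ) -
        pr2 k * ({p : 𝓞 F × 𝓞 F | HW α β r 1 p ∧ p ∈ Fml N a b D}.ncard : ℝ)| ≤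
      ε * ({p : 𝓞 F × 𝓞 F | HW α β r 1 p ∧ p ∈ Fml N a b D}.ncard : ℝ))

/-! ### The Tate-Shafarevich group -/

section sha

variable {M : Type} [Field M] [NumberField M]

/-- The coboundaries of the points. -/
def CobP (W : WeierstrassCurve M) : AddSubgroup ((Sep M ≃ₐ[M] Sep M) → Pt W (Sep M)) where
  carrier := {f | ∃ T : Pt W (Sep M), ∀ σ, f σ = act W (rs M σ) T - T}
  zero_mem' := ⟨0, fun σ => by simp⟩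
  add_mem' := by
    rintro f f' ⟨T, h⟩ ⟨T', h'⟩
    refine ⟨T + T', fun σ => ?_⟩
    rw [Pi.add_apply, h, h', map_add]
    abel
  neg_mem' := by
    rintro f ⟨T, h⟩
    refine ⟨-T, fun σ => ?_⟩
    rw [Pi.neg_apply, h, map_neg]
    abel

/-- The elements of order at most two of the Tate-Shafarevich group: the classes of the continuous
cocycles `f` with values in the points, which are trivial in `H ^ 1 (M_v, W)` at all places `v` of `M` and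
for which `2 f` is the coboundary of a point, modulo the coboundaries of the points. -/
def Sha2 (W : WeierstrassCurve M) : Set (((Sep M ≃ₐ[M] Sep M) → Pt W (Sep M)) ⧸ CobP W) :=
  {x | ∃ f : (Sep M ≃ₐ[M] Sep M) → Pt W (Sep M), IsCoc W f ∧ IsLoc W f ∧
    (∃ T : Pt W (Sep M), ∀ σ, (2 : ℕ) • f σ = act W (rs M σ) T - T) ∧ x = QuotientAddGroup.mk f}

end sha

/-- SHA2: the exact sequence `0 → E(M)/2 → Sel → Sha[2] → 0`, if there is no rational point of order two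
(`S_NT2` in `StmX.lean`). -/
def S_SHA2 : Prop := ∀ (M : Type) [Field M] [NumberField M] (A B : M),
  4 * A ^ 3 + 27 * B ^ 2 ≠ 0 → (∀ P : Pt (sW A B) M, (2 : ℕ) • P = 0 → P = 0) →
  (Sel2 (sW A B)).Finite → (Sha2 (sW A B)).Finite ∧
  Nat.card (Sel2 (sW A B)) =
    2 ^ Module.finrank ℤ (Pt (sW A B) M) * Nat.card (Sha2 (sW A B))

end Pool.Agent.H68K.PR
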