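import Pool.Agent.H68K.PR.StmY
import Pool.Agent.H14F.Adm

/-!
# Project PR, phase 5 (helper68): admissible extensions
-/

set_option autoImplicit false
set_option linter.all false

open Polynomial IsDedekindDomain Matrix NumberField WithZero
open Pool.Agent.N783.PF
open scoped Classical

namespace Pool.Agent.H68K.PR

/-- ADM: if the 2-Selmer group of a member over `F` is zero, the curve has all the good properties over
all admissible extensions. -/
def S_ADM : Prop := ∀ (F : Type) [Field F] [NumberField F] (p : 𝓞 F × 𝓞 F), Str p → Gd 1 p →
  Pool.Agent.H14F.AllGood F p

end Pool.Agent.H68K.PR
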